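import Pool.Agent.Run7.h887.Defs

/-! Calculus of smooth functions on the plane. -/

namespace Run7.h887

open MeasureTheory Filter Topology
open scoped ContDiff

section general

variable {f g : ℝ × ℝ → ℝ}

theorem cd_pd1 {E : Type*} [NormedAddCommGroup E] [NormedSpace ℝ E] {f : ℝ × ℝ → E}
    (hf : ContDiff ℝ ∞ f) : ContDiff ℝ ∞ (pd1 f) := by
  unfold pd1
  exact (hf.fderiv_right (m := ∞) (by simp)).clm_apply contDiff_const

theorem cd_pd2 {E : Type*} [NormedAddCommGroup E] [NormedSpace ℝ E] {f : ℝ × ℝ → E}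
    (hf : ContDiff ℝ ∞ f) : ContDiff ℝ ∞ (pd2 f) := by
  unfold pd2
  exact (hf.fderiv_right (m := ∞) (by simp)).clm_apply contDiff_const

theorem pd_comm (hf : ContDiff ℝ ∞ f) (x : ℝ × ℝ) : pd1 (pd2 f) x = pd2 (pd1 f) x := by
  have hsymm : IsSymmSndFDerivAt ℝ f x :=
    (hf.contDiffAt (x := x)).isSymmSndFDerivAt (by simp; exact ENat.LEInfty.out)
  have hd : DifferentiableAt ℝ (fderiv ℝ f) x :=
    ((hf.fderiv_right (m := ∞) (by simp)).differentiable (by simp)) x
  unfold pd1 pd2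
  have h1 : fderiv ℝ (fun y => fderiv ℝ f y (0, 1)) x (1, 0)
      = fderiv ℝ (fderiv ℝ f) x (1, 0) (0, 1) := by
    rw [fderiv_clm_apply hd (differentiableAt_const _)]
    simp
  have h2 : fderiv ℝ (fun y => fderiv ℝ f y (1, 0)) x (0, 1)
      = fderiv ℝ (fderiv ℝ f) x (0, 1) (1, 0) := by
    rw [fderiv_clm_apply hd (differentiableAt_const _)]
    simp
  rw [h1, h2]
  exact hsymm _ _

theorem pd1_add (hf : Differentiable ℝ f) (hg : Differentiable ℝ g) :
    pd1 (fun x => f x + g x) = fun x => pd1 f x + pd1 g x := by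
  funext x; unfold pd1
  rw [fderiv_fun_add (hf x) (hg x)]; rfl

theorem pd2_add (hf : Differentiable ℝ f) (hg : Differentiable ℝ g) :
    pd2 (fun x => f x + g x) = fun x => pd2 f x + pd2 g x := by
  funext x; unfold pd2
  rw [fderiv_fun_add (hf x) (hg x)]; rfl

theorem pd1_sub (hf : Differentiable ℝ f) (hg : Differentiable ℝ g) :
    pd1 (fun x => f x - g x) = fun x => pd1 f x - pd1 g x := by
  funext x; unfold pd1
  rw [fderiv_fun_sub (hf x) (hg x)]; rfl

theorem pd2_sub (hf : Differentiable ℝ f) (hg : Differentiable ℝ g) :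
    pd2 (fun x => f x - g x) = fun x => pd2 f x - pd2 g x := by
  funext x; unfold pd2
  rw [fderiv_fun_sub (hf x) (hg x)]; rfl

theorem pd1_neg : pd1 (fun x => - f x) = fun x => - pd1 f x := by
  funext x; unfold pd1
  rw [fderiv_fun_neg]; rfl

theorem pd2_neg : pd2 (fun x => - f x) = fun x => - pd2 f x := by
  funext x; unfold pd2
  rw [fderiv_fun_neg]; rfl

theorem pd1_const (k : ℝ) : pd1 (fun _ : ℝ × ℝ => k) = fun _ => 0 := by
  funext x; unfold pd1; simp

theorem pd2_const (k : ℝ) : pd2 (fun _ : ℝ × ℝ => k) = fun _ => 0 := by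
  funext x; unfold pd2; simp

theorem pd1_mul (hf : Differentiable ℝ f) (hg : Differentiable ℝ g) :
    pd1 (fun x => f x * g x) = fun x => pd1 f x * g x + f x * pd1 g x := by
  funext x; unfold pd1
  rw [fderiv_fun_mul (hf x) (hg x)]
  simp; ring

theorem pd2_mul (hf : Differentiable ℝ f) (hg : Differentiable ℝ g) :
    pd2 (fun x => f x * g x) = fun x => pd2 f x * g x + f x * pd2 g x := by
  funext x; unfold pd2
  rw [fderiv_fun_mul (hf x) (hg x)]
  simp; ring

theorem pd1_sq (hf : Differentiable ℝ f) :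
    pd1 (fun x => f x ^ 2) = fun x => 2 * f x * pd1 f x := by
  have : (fun x => f x ^ 2) = fun x => f x * f x := by funext x; ring
  rw [this, pd1_mul hf hf]; funext x; ring

theorem pd2_sq (hf : Differentiable ℝ f) :
    pd2 (fun x => f x ^ 2) = fun x => 2 * f x * pd2 f x := by
  have : (fun x => f x ^ 2) = fun x => f x * f x := by funext x; ring
  rw [this, pd2_mul hf hf]; funext x; ring

/-- Chain rule. -/
theorem pd1_comp {h : ℝ → ℝ} {h' : ℝ} {x : ℝ × ℝ} (hf : DifferentiableAt ℝ f x)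
    (hh : HasDerivAt h h' (f x)) : pd1 (fun x => h (f x)) x = h' * pd1 f x := by
  unfold pd1
  have := hh.hasFDerivAt.comp x hf.hasFDerivAt
  rw [show (fun x => h (f x)) = h ∘ f from rfl, this.fderiv]
  simp [mul_comm]

theorem pd2_comp {h : ℝ → ℝ} {h' : ℝ} {x : ℝ × ℝ} (hf : DifferentiableAt ℝ f x)
    (hh : HasDerivAt h h' (f x)) : pd2 (fun x => h (f x)) x = h' * pd2 f x := by
  unfold pd2
  have := hh.hasFDerivAt.comp x hf.hasFDerivAt
  rw [show (fun x => h (f x)) = h ∘ f from rfl, this.fderiv]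
  simp [mul_comm]

/-- Components of the derivative of a vector-valued map. -/
theorem pd1_apply {n : ℕ} {φ : ℝ × ℝ → Fin n → ℝ} {x : ℝ × ℝ} (h : DifferentiableAt ℝ φ x)
    (i : Fin n) : pd1 φ x i = pd1 (fun y => φ y i) x := by
  unfold pd1
  have := hasFDerivAt_pi'.1 h.hasFDerivAt i
  rw [this.fderiv]; rfl

theorem pd2_apply {n : ℕ} {φ : ℝ × ℝ → Fin n → ℝ} {x : ℝ × ℝ} (h : DifferentiableAt ℝ φ x)
    (i : Fin n) : pd2 φ x i = pd2 (fun y => φ y i) x := by
  unfold pd2
  have := hasFDerivAt_pi'.1 h.hasFDerivAt i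
  rw [this.fderiv]; rfl

/-- Derivatives along coordinate lines. -/
theorem hasDerivAt_line1 (hf : Differentiable ℝ f) (x y : ℝ) :
    HasDerivAt (fun t => f (t, y)) (pd1 f (x, y)) x := by
  have h1 : HasDerivAt (fun t : ℝ => (t, y)) ((1 : ℝ), (0 : ℝ)) x :=
    (hasDerivAt_id x).prodMk (hasDerivAt_const x y)
  exact (hf (x, y)).hasFDerivAt.comp_hasDerivAt x h1

theorem hasDerivAt_line2 (hf : Differentiable ℝ f) (x y : ℝ) :
    HasDerivAt (fun t => f (x, t)) (pd2 f (x, y)) y := by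
  have h1 : HasDerivAt (fun t : ℝ => (x, t)) ((0 : ℝ), (1 : ℝ)) y :=
    (hasDerivAt_const y x).prodMk (hasDerivAt_id y)
  exact (hf (x, y)).hasFDerivAt.comp_hasDerivAt y h1

/-- Derivative of `f` along a curve. -/
theorem hasDerivAt_curve (hf : Differentiable ℝ f) {X Y : ℝ → ℝ} {X' Y' t : ℝ}
    (hX : HasDerivAt X X' t) (hY : HasDerivAt Y Y' t) :
    HasDerivAt (fun t => f (X t, Y t)) (pd1 f (X t, Y t) * X' + pd2 f (X t, Y t) * Y') t := by
  have h := (hf (X t, Y t)).hasFDerivAt.comp_hasDerivAt t (hX.prodMk hY)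
  have e : fderiv ℝ f (X t, Y t) (X', Y') = pd1 f (X t, Y t) * X' + pd2 f (X t, Y t) * Y' := by
    have : ((X', Y') : ℝ × ℝ) = X' • ((1 : ℝ), (0 : ℝ)) + Y' • ((0 : ℝ), (1 : ℝ)) := by
      simp
    rw [this, map_add, map_smul, map_smul]
    unfold pd1 pd2
    simp [mul_comm]
  rw [e] at h
  exact h

/-- Second derivative test in one variable. -/
theorem second_deriv_nonneg {h h' : ℝ → ℝ} {h'' t : ℝ} (hmin : IsLocalMin h t)
    (h1 : ∀ s, HasDerivAt h (h' s) s) (h2 : HasDerivAt h' h'' t) : h' t = 0 ∧ 0 ≤ h'' := by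
  have hz : h' t = 0 := hmin.hasDerivAt_eq_zero (h1 t)
  refine ⟨hz, ?_⟩
  by_contra hneg
  push Not at hneg
  -- h'' < 0 : strict local max of h
  have hd : deriv h = h' := by funext s; exact (h1 s).deriv
  have hlt : deriv (deriv h) t < 0 := by rw [hd, h2.deriv]; exact hneg
  have hmax : IsLocalMax h t := isLocalMax_of_deriv_deriv_neg hlt (by rw [hd]; exact hz)
      (h1 t).continuousAt
  have hc : ∀ᶠ s in 𝓝 t, h s = h t := by
    filter_upwards [hmin, hmax] with s h3 h4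
    exact le_antisymm h4 h3
  have hev : h =ᶠ[𝓝 t] fun _ => h t := hc
  have h3 : deriv h =ᶠ[𝓝 t] deriv (fun _ => h t) := hev.deriv
  have h4 : deriv (deriv h) t = deriv (deriv (fun _ : ℝ => h t)) t := h3.deriv_eq
  rw [h4] at hlt
  simp at hlt

/-- Second derivative test in the plane. -/
theorem local_min_test (hf : ContDiff ℝ ∞ f) {x : ℝ × ℝ} (hmin : IsLocalMin f x) :
    pd1 f x = 0 ∧ pd2 f x = 0 ∧ 0 ≤ pd1 (pd1 f) x ∧ 0 ≤ pd2 (pd2 f) x := by
  have hd : Differentiable ℝ f := hf.differentiable (by simp)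
  have hd1 : Differentiable ℝ (pd1 f) := (cd_pd1 hf).differentiable (by simp)
  have hd2 : Differentiable ℝ (pd2 f) := (cd_pd2 hf).differentiable (by simp)
  obtain ⟨x1, x2⟩ := x
  have m1 : IsLocalMin (fun t => f (t, x2)) x1 := by
    have hc : ContinuousAt (fun t : ℝ => ((t, x2) : ℝ × ℝ)) x1 := by fun_prop
    exact hc.tendsto hmin
  have m2 : IsLocalMin (fun t => f (x1, t)) x2 := by
    have hc : ContinuousAt (fun t : ℝ => ((x1, t) : ℝ × ℝ)) x2 := by fun_prop
    exact hc.tendsto hmin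
  have r1 := second_deriv_nonneg m1 (fun s => hasDerivAt_line1 hd s x2)
    (hasDerivAt_line1 hd1 x1 x2)
  have r2 := second_deriv_nonneg m2 (fun s => hasDerivAt_line2 hd x1 s)
    (hasDerivAt_line2 hd2 x1 x2)
  exact ⟨r1.1, r2.1, r1.2, r2.2⟩

end general

end Run7.h887
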