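import Pool.Agent.Run7.h887.Calc

/-! Circle integrals and polar coordinates. -/

namespace Run7.h887

open MeasureTheory Filter Topology Set
open scoped ContDiff Real

/-- Derivative of a parameter-dependent interval integral with continuous derivative. -/
theorem param_deriv {G G' : ℝ → ℝ → ℝ} (a b : ℝ) (hG : Continuous (Function.uncurry G))
    (hG' : Continuous (Function.uncurry G')) (hd : ∀ r θ, HasDerivAt (fun r => G r θ) (G' r θ) r)
    (r₀ : ℝ) : HasDerivAt (fun r => ∫ θ in a..b, G r θ) (∫ θ in a..b, G' r₀ θ) r₀ := by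
  have hK : IsCompact (Icc (r₀ - 1) (r₀ + 1) ×ˢ uIcc a b) := isCompact_Icc.prod isCompact_uIcc
  obtain ⟨C, hC⟩ := hK.exists_bound_of_continuousOn hG'.continuousOn
  have hs : Icc (r₀ - 1) (r₀ + 1) ∈ 𝓝 r₀ := Icc_mem_nhds (by linarith) (by linarith)
  have h1 : ∀ r, Continuous (G r) := fun r => hG.comp (by fun_prop : Continuous fun θ => (r, θ))
  have h2 : ∀ r, Continuous (G' r) := fun r => hG'.comp (by fun_prop : Continuous fun θ => (r, θ))
  refine (intervalIntegral.hasDerivAt_integral_of_dominated_loc_of_deriv_le (F := G) (F' := G')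
    (bound := fun _ => C) hs ?_ ?_ ?_ ?_ ?_ ?_).2
  · exact Eventually.of_forall fun r => (h1 r).aestronglyMeasurable
  · exact (h1 r₀).intervalIntegrable a b
  · exact (h2 r₀).aestronglyMeasurable
  · refine Eventually.of_forall fun θ hθ r hr => ?_
    exact hC (r, θ) ⟨hr, uIoc_subset_uIcc hθ⟩
  · exact intervalIntegrable_const
  · exact Eventually.of_forall fun θ _ r _ => hd r θ

/-- Integral over the circle of radius `r` in the angle variable. -/
noncomputable def cir (f : ℝ × ℝ → ℝ) (r : ℝ) : ℝ :=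
  ∫ θ in (-π)..π, f (r * Real.cos θ, r * Real.sin θ)

/-- Flux through the circle of radius `r`. -/
noncomputable def flux (Y1 Y2 : ℝ × ℝ → ℝ) (r : ℝ) : ℝ :=
  ∫ θ in (-π)..π, r * (Y1 (r * Real.cos θ, r * Real.sin θ) * Real.cos θ
    + Y2 (r * Real.cos θ, r * Real.sin θ) * Real.sin θ)

theorem dd' {f : ℝ × ℝ → ℝ} (h : ContDiff ℝ ∞ f) : Differentiable ℝ f :=
  h.differentiable (by simp)

theorem polar_r {f : ℝ × ℝ → ℝ} (hf : Differentiable ℝ f) (r θ : ℝ) :
    HasDerivAt (fun r => f (r * Real.cos θ, r * Real.sin θ))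
      (pd1 f (r * Real.cos θ, r * Real.sin θ) * Real.cos θ
        + pd2 f (r * Real.cos θ, r * Real.sin θ) * Real.sin θ) r := by
  have hX : HasDerivAt (fun r : ℝ => r * Real.cos θ) (Real.cos θ) r := by
    simpa using (hasDerivAt_id r).mul_const (Real.cos θ)
  have hY : HasDerivAt (fun r : ℝ => r * Real.sin θ) (Real.sin θ) r := by
    simpa using (hasDerivAt_id r).mul_const (Real.sin θ)
  exact hasDerivAt_curve hf hX hY

theorem polar_t {f : ℝ × ℝ → ℝ} (hf : Differentiable ℝ f) (r θ : ℝ) :
    HasDerivAt (fun θ => f (r * Real.cos θ, r * Real.sin θ))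
      (pd1 f (r * Real.cos θ, r * Real.sin θ) * (r * (-Real.sin θ))
        + pd2 f (r * Real.cos θ, r * Real.sin θ) * (r * Real.cos θ)) θ := by
  have hX : HasDerivAt (fun θ : ℝ => r * Real.cos θ) (r * (-Real.sin θ)) θ :=
    (Real.hasDerivAt_cos θ).const_mul r
  have hY : HasDerivAt (fun θ : ℝ => r * Real.sin θ) (r * Real.cos θ) θ :=
    (Real.hasDerivAt_sin θ).const_mul r
  exact hasDerivAt_curve hf hX hY

theorem cont_polar {f : ℝ × ℝ → ℝ} (hf : Continuous f) :
    Continuous (fun p : ℝ × ℝ => f (p.1 * Real.cos p.2, p.1 * Real.sin p.2)) := by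
  fun_prop

theorem cont_cir_int {f : ℝ × ℝ → ℝ} (hf : Continuous f) (r : ℝ) :
    Continuous (fun θ : ℝ => f (r * Real.cos θ, r * Real.sin θ)) := by
  fun_prop

theorem cir_hasDeriv {f : ℝ × ℝ → ℝ} (hf : ContDiff ℝ ∞ f) (r : ℝ) :
    HasDerivAt (cir f) (∫ θ in (-π)..π, (pd1 f (r * Real.cos θ, r * Real.sin θ) * Real.cos θ
        + pd2 f (r * Real.cos θ, r * Real.sin θ) * Real.sin θ)) r := by
  have c0 := cont_polar hf.continuous
  have c1 := cont_polar (cd_pd1 hf).continuous
  have c2 := cont_polar (cd_pd2 hf).continuous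
  refine param_deriv (G := fun r θ => f (r * Real.cos θ, r * Real.sin θ))
    (G' := fun r θ => pd1 f (r * Real.cos θ, r * Real.sin θ) * Real.cos θ
        + pd2 f (r * Real.cos θ, r * Real.sin θ) * Real.sin θ) (-π) π c0 ?_ ?_ r
  · change Continuous (fun p : ℝ × ℝ => pd1 f (p.1 * Real.cos p.2, p.1 * Real.sin p.2)
      * Real.cos p.2 + pd2 f (p.1 * Real.cos p.2, p.1 * Real.sin p.2) * Real.sin p.2)
    exact (c1.mul (Real.continuous_cos.comp continuous_snd)).add
      (c2.mul (Real.continuous_sin.comp continuous_snd))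
  · intro r θ; exact polar_r (dd' hf) r θ

theorem cir_continuous {f : ℝ × ℝ → ℝ} (hf : Continuous f) : Continuous (cir f) := by
  unfold cir
  exact intervalIntegral.continuous_parametric_intervalIntegral_of_continuous'
    (cont_polar hf) (-π) π

/-- Divergence theorem in differentiated form. -/
theorem flux_hasDeriv {Y1 Y2 : ℝ × ℝ → ℝ} (h1 : ContDiff ℝ ∞ Y1) (h2 : ContDiff ℝ ∞ Y2) (r : ℝ) :
    HasDerivAt (flux Y1 Y2) (r * cir (fun x => pd1 Y1 x + pd2 Y2 x) r) r := by
  have c1 := cont_polar h1.continuous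
  have c2 := cont_polar h2.continuous
  have c11 := cont_polar (cd_pd1 h1).continuous
  have c12 := cont_polar (cd_pd2 h1).continuous
  have c21 := cont_polar (cd_pd1 h2).continuous
  have c22 := cont_polar (cd_pd2 h2).continuous
  have cc : Continuous (fun p : ℝ × ℝ => Real.cos p.2) := Real.continuous_cos.comp continuous_snd
  have cs : Continuous (fun p : ℝ × ℝ => Real.sin p.2) := Real.continuous_sin.comp continuous_snd
  have key := param_deriv
    (G := fun r θ => r * (Y1 (r * Real.cos θ, r * Real.sin θ) * Real.cos θ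
      + Y2 (r * Real.cos θ, r * Real.sin θ) * Real.sin θ))
    (G' := fun r θ => (Y1 (r * Real.cos θ, r * Real.sin θ) * Real.cos θ
      + Y2 (r * Real.cos θ, r * Real.sin θ) * Real.sin θ)
      + r * ((pd1 Y1 (r * Real.cos θ, r * Real.sin θ) * Real.cos θ
        + pd2 Y1 (r * Real.cos θ, r * Real.sin θ) * Real.sin θ) * Real.cos θ
        + (pd1 Y2 (r * Real.cos θ, r * Real.sin θ) * Real.cos θ
        + pd2 Y2 (r * Real.cos θ, r * Real.sin θ) * Real.sin θ) * Real.sin θ)) (-π) π
    (by
      change Continuous (fun p : ℝ × ℝ => p.1 * (Y1 (p.1 * Real.cos p.2, p.1 * Real.sin p.2)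
        * Real.cos p.2 + Y2 (p.1 * Real.cos p.2, p.1 * Real.sin p.2) * Real.sin p.2))
      exact continuous_fst.mul ((c1.mul cc).add (c2.mul cs)))
    (by
      change Continuous (fun p : ℝ × ℝ => (Y1 (p.1 * Real.cos p.2, p.1 * Real.sin p.2)
        * Real.cos p.2 + Y2 (p.1 * Real.cos p.2, p.1 * Real.sin p.2) * Real.sin p.2)
        + p.1 * ((pd1 Y1 (p.1 * Real.cos p.2, p.1 * Real.sin p.2) * Real.cos p.2
        + pd2 Y1 (p.1 * Real.cos p.2, p.1 * Real.sin p.2) * Real.sin p.2) * Real.cos p.2
        + (pd1 Y2 (p.1 * Real.cos p.2, p.1 * Real.sin p.2) * Real.cos p.2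
        + pd2 Y2 (p.1 * Real.cos p.2, p.1 * Real.sin p.2) * Real.sin p.2) * Real.sin p.2))
      exact ((c1.mul cc).add (c2.mul cs)).add (continuous_fst.mul
        (((((c11.mul cc).add (c12.mul cs))).mul cc).add (((c21.mul cc).add (c22.mul cs)).mul cs))))
    (by
      intro r θ
      have a1 := polar_r (dd' h1) r θ
      have a2 := polar_r (dd' h2) r θ
      have := (hasDerivAt_id' r).fun_mul
        ((a1.mul_const (Real.cos θ)).fun_add (a2.mul_const (Real.sin θ)))
      rw [one_mul] at this
      exact this) r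
  -- identify the derivative
  have hθ : ∀ θ, HasDerivAt (fun θ => -(Y1 (r * Real.cos θ, r * Real.sin θ) * Real.sin θ)
      + Y2 (r * Real.cos θ, r * Real.sin θ) * Real.cos θ)
      (-((pd1 Y1 (r * Real.cos θ, r * Real.sin θ) * (r * (-Real.sin θ))
        + pd2 Y1 (r * Real.cos θ, r * Real.sin θ) * (r * Real.cos θ)) * Real.sin θ
        + Y1 (r * Real.cos θ, r * Real.sin θ) * Real.cos θ)
      + ((pd1 Y2 (r * Real.cos θ, r * Real.sin θ) * (r * (-Real.sin θ))
        + pd2 Y2 (r * Real.cos θ, r * Real.sin θ) * (r * Real.cos θ)) * Real.cos θ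
        + Y2 (r * Real.cos θ, r * Real.sin θ) * (-Real.sin θ))) θ := by
    intro θ
    have a1 := polar_t (dd' h1) r θ
    have a2 := polar_t (dd' h2) r θ
    exact ((a1.mul (Real.hasDerivAt_sin θ)).neg).add (a2.mul (Real.hasDerivAt_cos θ))
  have hint : ∫ θ in (-π)..π, (-((pd1 Y1 (r * Real.cos θ, r * Real.sin θ) * (r * (-Real.sin θ))
        + pd2 Y1 (r * Real.cos θ, r * Real.sin θ) * (r * Real.cos θ)) * Real.sin θ
        + Y1 (r * Real.cos θ, r * Real.sin θ) * Real.cos θ)
      + ((pd1 Y2 (r * Real.cos θ, r * Real.sin θ) * (r * (-Real.sin θ))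
        + pd2 Y2 (r * Real.cos θ, r * Real.sin θ) * (r * Real.cos θ)) * Real.cos θ
        + Y2 (r * Real.cos θ, r * Real.sin θ) * (-Real.sin θ))) = 0 := by
    rw [intervalIntegral.integral_eq_sub_of_hasDerivAt (fun θ _ => hθ θ)]
    · simp
    · apply Continuous.intervalIntegrable
      have k1 := cont_cir_int h1.continuous r
      have k2 := cont_cir_int h2.continuous r
      have k11 := cont_cir_int (cd_pd1 h1).continuous r
      have k12 := cont_cir_int (cd_pd2 h1).continuous r
      have k21 := cont_cir_int (cd_pd1 h2).continuous r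
      have k22 := cont_cir_int (cd_pd2 h2).continuous r
      fun_prop
  have hval : r * cir (fun x => pd1 Y1 x + pd2 Y2 x) r
      = ∫ θ in (-π)..π, ((Y1 (r * Real.cos θ, r * Real.sin θ) * Real.cos θ
      + Y2 (r * Real.cos θ, r * Real.sin θ) * Real.sin θ)
      + r * ((pd1 Y1 (r * Real.cos θ, r * Real.sin θ) * Real.cos θ
        + pd2 Y1 (r * Real.cos θ, r * Real.sin θ) * Real.sin θ) * Real.cos θ
        + (pd1 Y2 (r * Real.cos θ, r * Real.sin θ) * Real.cos θ
        + pd2 Y2 (r * Real.cos θ, r * Real.sin θ) * Real.sin θ) * Real.sin θ)) := by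
   rw [← sub_eq_zero]
   unfold cir
   rw [← intervalIntegral.integral_const_mul, ← intervalIntegral.integral_sub, ← hint]
   · congr 1
     funext θ
     have hsc := Real.sin_sq_add_cos_sq θ
     linear_combination (-(r * (pd1 Y1 (r * Real.cos θ, r * Real.sin θ)
       + pd2 Y2 (r * Real.cos θ, r * Real.sin θ)))) * hsc
   · apply Continuous.intervalIntegrable
     have k11 := cont_cir_int (cd_pd1 h1).continuous r
     have k22 := cont_cir_int (cd_pd2 h2).continuous r
     fun_prop
   · apply Continuous.intervalIntegrable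
     have k1 := cont_cir_int h1.continuous r
     have k2 := cont_cir_int h2.continuous r
     have k11 := cont_cir_int (cd_pd1 h1).continuous r
     have k12 := cont_cir_int (cd_pd2 h1).continuous r
     have k21 := cont_cir_int (cd_pd1 h2).continuous r
     have k22 := cont_cir_int (cd_pd2 h2).continuous r
     fun_prop
  rw [hval]
  exact key

theorem cir_hasDeriv' {f : ℝ × ℝ → ℝ} (hf : ContDiff ℝ ∞ f) {r : ℝ} (hr : r ≠ 0) :
    HasDerivAt (cir f) (flux (pd1 f) (pd2 f) r / r) r := by
  have h := cir_hasDeriv hf r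
  have e : flux (pd1 f) (pd2 f) r / r = ∫ θ in (-π)..π,
      (pd1 f (r * Real.cos θ, r * Real.sin θ) * Real.cos θ
        + pd2 f (r * Real.cos θ, r * Real.sin θ) * Real.sin θ) := by
    unfold flux
    rw [intervalIntegral.integral_const_mul]
    field_simp
  rw [e]; exact h

theorem cir_zero (f : ℝ × ℝ → ℝ) : cir f 0 = 2 * π * f (0, 0) := by
  have e : (fun θ : ℝ => f (0 * Real.cos θ, 0 * Real.sin θ)) = fun _ => f (0, 0) := by
    funext θ; simp
  unfold cir
  rw [e, intervalIntegral.integral_const, smul_eq_mul]; ring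

theorem flux_zero (Y1 Y2 : ℝ × ℝ → ℝ) : flux Y1 Y2 0 = 0 := by
  unfold flux
  simp

theorem cir_mono {f g : ℝ × ℝ → ℝ} (hf : Continuous f) (hg : Continuous g) (h : ∀ x, f x ≤ g x)
    (r : ℝ) : cir f r ≤ cir g r := by
  unfold cir
  apply intervalIntegral.integral_mono_on (by linarith [Real.pi_pos])
    ((cont_cir_int hf r).intervalIntegrable _ _) ((cont_cir_int hg r).intervalIntegrable _ _)
  intro θ _
  exact h _

theorem cir_nonneg {f : ℝ × ℝ → ℝ} (h : ∀ x, 0 ≤ f x) (r : ℝ) : 0 ≤ cir f r := by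
  unfold cir
  exact intervalIntegral.integral_nonneg (by linarith [Real.pi_pos]) fun θ _ => h _

theorem cir_add {f g : ℝ × ℝ → ℝ} (hf : Continuous f) (hg : Continuous g) (r : ℝ) :
    cir (fun x => f x + g x) r = cir f r + cir g r := by
  unfold cir
  rw [← intervalIntegral.integral_add ((cont_cir_int hf r).intervalIntegrable _ _)
    ((cont_cir_int hg r).intervalIntegrable _ _)]

theorem cir_sub {f g : ℝ × ℝ → ℝ} (hf : Continuous f) (hg : Continuous g) (r : ℝ) :
    cir (fun x => f x - g x) r = cir f r - cir g r := by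
  unfold cir
  rw [← intervalIntegral.integral_sub ((cont_cir_int hf r).intervalIntegrable _ _)
    ((cont_cir_int hg r).intervalIntegrable _ _)]

theorem cir_cmul (f : ℝ × ℝ → ℝ) (k r : ℝ) : cir (fun x => k * f x) r = k * cir f r := by
  unfold cir
  rw [intervalIntegral.integral_const_mul]

theorem polar_integrable {f : ℝ × ℝ → ℝ} (hi : Integrable f) :
    Integrable (fun p : ℝ × ℝ => p.1 * f (p.1 * Real.cos p.2, p.1 * Real.sin p.2))
      ((volume.restrict (Ioi (0 : ℝ))).prod (volume.restrict (Ioo (-π) π))) := by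
  have hK := integrableOn_image_iff_integrableOn_abs_det_fderiv_smul (volume : Measure (ℝ × ℝ))
    (s := polarCoord.target) polarCoord.open_target.measurableSet
    (fun p _ => (hasFDerivAt_polarCoord_symm p).hasFDerivWithinAt) polarCoord.symm.injOn f
  have h1 : IntegrableOn f (polarCoord.symm '' polarCoord.target) := hi.integrableOn
  have h2 := hK.1 h1
  have h3 : IntegrableOn (fun p : ℝ × ℝ => p.1 * f (p.1 * Real.cos p.2, p.1 * Real.sin p.2))
      polarCoord.target := by
    refine h2.congr_fun ?_ polarCoord.open_target.measurableSet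
    intro p hp
    have hp1 : 0 < p.1 := hp.1
    simp only [det_fderivPolarCoordSymm, abs_of_pos hp1, smul_eq_mul, polarCoord_symm_apply]
  rw [Measure.prod_restrict]
  exact h3

theorem polar_integral {f : ℝ × ℝ → ℝ} (hi : Integrable f) :
    IntegrableOn (fun r => r * cir f r) (Ioi 0) ∧ ∫ r in Ioi (0 : ℝ), r * cir f r = ∫ x, f x := by
  have h := polar_integrable hi
  have e : ∀ r : ℝ, ∫ θ, (r * f (r * Real.cos θ, r * Real.sin θ)) ∂(volume.restrict (Ioo (-π) π))
      = r * cir f r := by
    intro r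
    rw [integral_const_mul]
    unfold cir
    rw [intervalIntegral.integral_of_le (by linarith [Real.pi_pos]), integral_Ioc_eq_integral_Ioo]
  constructor
  · have := h.integral_prod_left
    simp only [e] at this
    exact this
  · have h2 := integral_prod _ h
    simp only [e] at h2
    rw [← h2, ← integral_comp_polarCoord_symm f, Measure.prod_restrict]
    rfl

/-- There are arbitrarily large radii on which the circle integral is small. -/
theorem good_radius {f : ℝ × ℝ → ℝ} (hi : Integrable f) {ε : ℝ} (hε : 0 < ε)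
    (R : ℝ) : ∃ r, R ≤ r ∧ 0 < r ∧ r ^ 2 * cir f r ≤ ε := by
  by_contra hcon
  push Not at hcon
  have hI := (polar_integral hi).1
  set R0 := max R 1 with hR0
  have hR0pos : 0 < R0 := lt_of_lt_of_le one_pos (le_max_right _ _)
  have hsub : IntegrableOn (fun r => r * cir f r) (Ioi R0) :=
    hI.mono_set (Ioi_subset_Ioi hR0pos.le)
  have hinv : IntegrableOn (fun r : ℝ => ε * r⁻¹) (Ioi R0) := by
    refine Integrable.mono' hsub ?_ ?_
    · exact (measurable_inv.const_mul ε).aestronglyMeasurable
    · refine (ae_restrict_iff' measurableSet_Ioi).2 (Eventually.of_forall fun r hr => ?_)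
      have hr0 : 0 < r := lt_trans hR0pos hr
      have h1 := hcon r ((le_max_left _ _).trans (le_of_lt hr)) hr0
      rw [Real.norm_eq_abs, abs_of_nonneg (by positivity)]
      rw [← div_eq_mul_inv, div_le_iff₀ hr0]
      nlinarith
  have : IntegrableOn (fun r : ℝ => r⁻¹) (Ioi R0) := by
    have := hinv.const_mul ε⁻¹
    refine this.congr ?_
    refine Eventually.of_forall fun r => ?_
    field_simp
  exact not_integrableOn_Ioi_inv this

/-- Radial integrals over discs are bounded by the total integral. -/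
theorem disc_le {f : ℝ × ℝ → ℝ} (hf : ∀ x, 0 ≤ f x) (hi : Integrable f)
    {R : ℝ} (hR : 0 ≤ R) : ∫ r in (0 : ℝ)..R, r * cir f r ≤ ∫ x, f x := by
  rw [← (polar_integral hi).2, intervalIntegral.integral_of_le hR]
  apply setIntegral_mono_set (polar_integral hi).1
  · refine (ae_restrict_iff' measurableSet_Ioi).2 (Eventually.of_forall fun r hr => ?_)
    exact mul_nonneg (le_of_lt hr) (cir_nonneg hf r)
  · exact (Ioc_subset_Ioi_self : Ioc 0 R ⊆ Ioi 0).eventuallyLE

end Run7.h887
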