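import Mathlib

/-!
Definitions for the gauged O(3) sigma model on the plane (problem MP_5f0afd_mp).
-/

namespace Run7.h887

open MeasureTheory Filter Topology
open scoped ContDiff

/-- First-coordinate derivative of a map on the plane. -/
noncomputable def pd1 {E : Type*} [NormedAddCommGroup E] [NormedSpace ℝ E]
    (f : ℝ × ℝ → E) (x : ℝ × ℝ) : E := fderiv ℝ f x (1, 0)

/-- Second-coordinate derivative of a map on the plane. -/
noncomputable def pd2 {E : Type*} [NormedAddCommGroup E] [NormedSpace ℝ E]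
    (f : ℝ × ℝ → E) (x : ℝ × ℝ) : E := fderiv ℝ f x (0, 1)

/-- The vector n = (0,0,1). -/
def nv : Fin 3 → ℝ := ![0, 0, 1]

/-- Covariant derivative `D_1 ψ = ∂_1 ψ + A_1 (n × ψ)`. -/
noncomputable def cov1 (A : ℝ × ℝ → ℝ × ℝ) (ψ : ℝ × ℝ → Fin 3 → ℝ) (x : ℝ × ℝ) : Fin 3 → ℝ :=
  pd1 ψ x + (A x).1 • crossProduct nv (ψ x)

/-- Covariant derivative `D_2 ψ = ∂_2 ψ + A_2 (n × ψ)`. -/
noncomputable def cov2 (A : ℝ × ℝ → ℝ × ℝ) (ψ : ℝ × ℝ → Fin 3 → ℝ) (x : ℝ × ℝ) : Fin 3 → ℝ :=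
  pd2 ψ x + (A x).2 • crossProduct nv (ψ x)

/-- The field strength `F_12 = ∂_1 A_2 - ∂_2 A_1`. -/
noncomputable def fld (A : ℝ × ℝ → ℝ × ℝ) (x : ℝ × ℝ) : ℝ :=
  pd1 (fun y => (A y).2) x - pd2 (fun y => (A y).1) x

/-- The integrand `|D_1 φ|² + |D_2 φ|² + (1 - n·φ)² + F_12²` of the energy. -/
noncomputable def dens (φ : ℝ × ℝ → Fin 3 → ℝ) (A : ℝ × ℝ → ℝ × ℝ) (x : ℝ × ℝ) : ℝ :=
  dotProduct (cov1 A φ x) (cov1 A φ x) + dotProduct (cov2 A φ x) (cov2 A φ x)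
    + (1 - dotProduct nv (φ x)) ^ 2 + (fld A x) ^ 2

/-- The energy. -/
noncomputable def energy (φ : ℝ × ℝ → Fin 3 → ℝ) (A : ℝ × ℝ → ℝ × ℝ) : ℝ :=
  (1 / 2) * ∫ x, dens φ A x

/-- Smooth configurations `φ : ℝ² → S²`, `A : ℝ² → ℝ²` of finite energy with `n·φ → 1` at
infinity. -/
structure IsConfig (φ : ℝ × ℝ → Fin 3 → ℝ) (A : ℝ × ℝ → ℝ × ℝ) : Prop where
  smooth_phi : ContDiff ℝ ∞ φ
  smooth_A : ContDiff ℝ ∞ A
  sphere : ∀ x, dotProduct (φ x) (φ x) = 1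
  finite : Integrable (dens φ A)
  bdry : Tendsto (fun x => dotProduct nv (φ x)) (cocompact (ℝ × ℝ)) (𝓝 1)

/-- The Euler-Lagrange equations of the energy:
`φ × (D_1 D_1 φ + D_2 D_2 φ + (1 - n·φ) n) = 0`, `∂_1 F = (n × φ)·D_2 φ`,
`∂_2 F = -(n × φ)·D_1 φ`. -/
structure IsCritical (φ : ℝ × ℝ → Fin 3 → ℝ) (A : ℝ × ℝ → ℝ × ℝ) : Prop where
  sigma : ∀ x, crossProduct (φ x)
    (cov1 A (cov1 A φ) x + cov2 A (cov2 A φ) x + (1 - dotProduct nv (φ x)) • nv) = 0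
  maxwell1 : ∀ x, pd1 (fld A) x = dotProduct (crossProduct nv (φ x)) (cov2 A φ x)
  maxwell2 : ∀ x, pd2 (fld A) x = -dotProduct (crossProduct nv (φ x)) (cov1 A φ x)

/-- The self-dual equations (upper signs). -/
def SelfDual (φ : ℝ × ℝ → Fin 3 → ℝ) (A : ℝ × ℝ → ℝ × ℝ) : Prop :=
  ∀ x, cov1 A φ x = -crossProduct (φ x) (cov2 A φ x) ∧ fld A x = 1 - dotProduct nv (φ x)

/-- The anti-self-dual equations (lower signs). -/
def AntiSelfDual (φ : ℝ × ℝ → Fin 3 → ℝ) (A : ℝ × ℝ → ℝ × ℝ) : Prop :=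
  ∀ x, cov1 A φ x = crossProduct (φ x) (cov2 A φ x) ∧ fld A x = -(1 - dotProduct nv (φ x))

/-- `HasDegree φ d`: the map `φ : ℝ² → S²` with `φ → n` at infinity has Brouwer degree `d`,
i.e. for every continuous `η` vanishing near `0` (and below) the pull-back under `φ` of the
2-form `η(1 - n·y) ω` on the sphere (`ω` the area form) has integral `d` times the integral
`2π ∫_0^2 η` of that form over the sphere. -/
def HasDegree (φ : ℝ × ℝ → Fin 3 → ℝ) (d : ℤ) : Prop :=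
  ∀ η : ℝ → ℝ, Continuous η → (∃ δ : ℝ, 0 < δ ∧ ∀ t ≤ δ, η t = 0) →
    ∫ x, η (1 - dotProduct nv (φ x)) * dotProduct (φ x) (crossProduct (pd1 φ x) (pd2 φ x))
      = 2 * Real.pi * d * ∫ t in (0 : ℝ)..2, η t

/-- The degree integral `(1/4π) ∫ φ·(∂_1 φ × ∂_2 φ)` (it is `0` when the integrand is not
integrable). -/
noncomputable def degInt (φ : ℝ × ℝ → Fin 3 → ℝ) : ℝ :=
  (1 / (4 * Real.pi)) * ∫ x, dotProduct (φ x) (crossProduct (pd1 φ x) (pd2 φ x))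

end Run7.h887
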