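import Pool.Agent.Run7.h887.Defs

/-!
Rotationally equivariant configurations.
-/

namespace Run7.h887

/-- Rotation of the plane by the angle `α`. -/
noncomputable def rot (α : ℝ) (x : ℝ × ℝ) : ℝ × ℝ :=
  (Real.cos α * x.1 - Real.sin α * x.2, Real.sin α * x.1 + Real.cos α * x.2)

/-- Rotation of the target about `n` by the angle `β`. -/
noncomputable def rotn (β : ℝ) (w : Fin 3 → ℝ) : Fin 3 → ℝ :=
  ![Real.cos β * w 0 - Real.sin β * w 1, Real.sin β * w 0 + Real.cos β * w 1, w 2]

/-- Rotational equivariance with winding number `N`: rotating the plane by `α` rotates `φ` about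
`n` by `N α`, and `A` is rotated as a vector field. -/
def Equivariant (N : ℤ) (φ : ℝ × ℝ → Fin 3 → ℝ) (A : ℝ × ℝ → ℝ × ℝ) : Prop :=
  ∀ (α : ℝ) (x : ℝ × ℝ), φ (rot α x) = rotn (N * α) (φ x) ∧ A (rot α x) = rot α (A x)

end Run7.h887
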