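import Pool.Agent.Run7.h887.Excl

/-! Degrees as limits of cut-off integrals; the energy bound and its equality case. -/

namespace Run7.h887

open MeasureTheory Filter Topology Set
open scoped ContDiff Real

variable {φ : ℝ × ℝ → Fin 3 → ℝ} {A : ℝ × ℝ → ℝ × ℝ}

/-- Almost every point with `φ = n` has vanishing degree density. -/
theorem zero_ae (hφ : ContDiff ℝ ∞ φ) (hs : ∀ x, dotProduct (φ x) (φ x) = 1) :
    ∀ᵐ x, uu φ x = 0 → q0 φ x = 0 := by
  set Z : Set (ℝ × ℝ) := {x | uu φ x = 0 ∧ q0 φ x ≠ 0} with hZ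
  have hdisc : IsDiscrete Z := by
    apply IsDiscrete.of_nhdsWithin
    intro x hx
    obtain ⟨hx0, hxq⟩ := hx
    have hd := hφ.differentiable (by simp) x
    have hinj : ∃ C, AntilipschitzWith C (fderiv ℝ φ x) := by
      have hi : Function.Injective (fderiv ℝ φ x) := by
        rw [injective_iff_map_eq_zero]
        intro v hv
        have e1 : fderiv ℝ φ x v = v.1 • pd1 φ x + v.2 • pd2 φ x := by
          have : v = v.1 • ((1 : ℝ), (0 : ℝ)) + v.2 • ((0 : ℝ), (1 : ℝ)) := by
            ext <;> simp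
          conv_lhs => rw [this]
          rw [map_add, map_smul, map_smul]; rfl
        rw [e1] at hv
        have c0 := congrFun hv 0
        have c1 := congrFun hv 1
        have c2 := congrFun hv 2
        simp only [Pi.add_apply, Pi.smul_apply, smul_eq_mul, Pi.zero_apply] at c0 c1 c2
        simp only [q0, dot3, cross_0, cross_1, cross_2] at hxq
        generalize pd1 φ x 0 = p0 at *
        generalize pd1 φ x 1 = p1 at *
        generalize pd1 φ x 2 = p2 at *
        generalize pd2 φ x 0 = q0 at *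
        generalize pd2 φ x 1 = q1 at *
        generalize pd2 φ x 2 = q2 at *
        have h1 : v.1 = 0 := by
          by_contra hne
          apply hxq
          have : v.1 * (φ x 0 * (p1 * q2 - p2 * q1) + φ x 1 * (p2 * q0 - p0 * q2)
            + φ x 2 * (p0 * q1 - p1 * q0)) = 0 := by
            linear_combination φ x 0 * (q2 * c1 - q1 * c2) + φ x 1 * (q0 * c2 - q2 * c0)
              + φ x 2 * (q1 * c0 - q0 * c1)
          exact (mul_eq_zero.1 this).resolve_left hne
        have h2 : v.2 = 0 := by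
          by_contra hne
          apply hxq
          have : v.2 * (φ x 0 * (p1 * q2 - p2 * q1) + φ x 1 * (p2 * q0 - p0 * q2)
            + φ x 2 * (p0 * q1 - p1 * q0)) = 0 := by
            linear_combination φ x 0 * (p1 * c2 - p2 * c1) + φ x 1 * (p2 * c0 - p0 * c2)
              + φ x 2 * (p0 * c1 - p1 * c0)
          exact (mul_eq_zero.1 this).resolve_left hne
        exact Prod.ext h1 h2
      obtain ⟨C, _, hC⟩ := (LinearMap.injective_iff_antilipschitz
        (fderiv ℝ φ x).toLinearMap).1 hi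
      exact ⟨C, hC⟩
    have hev := hd.hasFDerivAt.eventually_ne (c := φ x) hinj
    have hvec : ∀ y, uu φ y = 0 → φ y = φ x := by
      intro y hy
      have h1 := sph3 hs y
      have h2 := sph3 hs x
      unfold uu at hy hx0
      have a1 : φ y 2 = 1 := by linarith
      have a2 : φ x 2 = 1 := by linarith
      rw [a1] at h1
      rw [a2] at h2
      have b0 : φ y 0 = 0 := by nlinarith [sq_nonneg (φ y 0), sq_nonneg (φ y 1)]
      have b1 : φ y 1 = 0 := by nlinarith [sq_nonneg (φ y 0), sq_nonneg (φ y 1)]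
      have b2 : φ x 0 = 0 := by nlinarith [sq_nonneg (φ x 0), sq_nonneg (φ x 1)]
      have b3 : φ x 1 = 0 := by nlinarith [sq_nonneg (φ x 0), sq_nonneg (φ x 1)]
      funext i
      fin_cases i
      · simpa using b0.trans b2.symm
      · simpa using b1.trans b3.symm
      · simpa using a1.trans a2.symm
    intro S hS
    rw [mem_pure] at hS
    rw [mem_nhdsWithin_iff_eventually]
    rw [eventually_nhdsWithin_iff] at hev
    filter_upwards [hev] with y hy hyZ
    by_cases hyx : y = x
    · rw [hyx]; exact hS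
    · exact absurd (hvec y hyZ.1) (hy hyx)
  have hcount : Z.Countable := by
    have hl : IsLindelof Z := by
      apply IsLindelof.of_coe
    exact hl.countable_of_isDiscrete hdisc
  have h0 : volume Z = 0 := hcount.measure_zero volume
  rw [ae_iff]
  refine measure_mono_null ?_ h0
  intro x hx
  exact Classical.not_imp.1 hx

/-- The degree as a limit of cut-off integrals. -/
def IsDegLim (φ : ℝ × ℝ → Fin 3 → ℝ) (δ : ℝ) : Prop :=
  Tendsto (fun k : ℕ => ∫ x, et (k + 1) (uu φ x) * q0 φ x) atTop (𝓝 (4 * π * δ))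

theorem Hk_lim {t : ℝ} (ht : 0 ≤ t) : Tendsto (fun k : ℕ => Hk ((k : ℝ) + 1) t) atTop (𝓝 t) := by
  have h1 : Tendsto (fun k : ℕ => t - 2 / ((k : ℝ) + 1)) atTop (𝓝 t) := by
    have h2 : Tendsto (fun k : ℕ => 2 * (1 / ((k : ℝ) + 1))) atTop (𝓝 (2 * 0)) :=
      tendsto_one_div_add_atTop_nhds_zero_nat.const_mul 2
    have h3 := (tendsto_const_nhds (x := t)).sub h2
    rw [mul_zero, sub_zero] at h3
    refine h3.congr fun k => ?_
    ring
  refine tendsto_of_tendsto_of_tendsto_of_le_of_le h1 tendsto_const_nhds ?_ ?_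
  · intro k; exact Hk_ge (by positivity) ht
  · intro k; exact Hk_le ht

theorem degLim_of_hasDegree {d : ℤ} (hd : HasDegree φ d) : IsDegLim φ d := by
  unfold IsDegLim
  have h1 : (fun k : ℕ => ∫ x, et (k + 1) (uu φ x) * q0 φ x)
      = fun k : ℕ => 2 * π * d * Hk ((k : ℝ) + 1) 2 := by
    funext k
    exact deg_id hd (by positivity)
  rw [h1]
  have := (Hk_lim (t := 2) (by norm_num)).const_mul (2 * π * (d : ℝ))
  convert this using 2
  ring

/-- Pointwise limit of the cut-off. -/
theorem et_lim {t : ℝ} (ht : 0 < t) : ∀ᶠ k : ℕ in atTop, et ((k : ℝ) + 1) t = 1 := by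
  obtain ⟨n, hn⟩ := exists_nat_gt (2 / t)
  filter_upwards [eventually_ge_atTop n] with k hk
  apply et_one (by positivity)
  rw [div_le_iff₀ (by positivity)]
  rw [div_lt_iff₀ ht] at hn
  have : (n : ℝ) ≤ k := by exact_mod_cast hk
  nlinarith

theorem degLim_of_integrable (hφ : ContDiff ℝ ∞ φ) (hs : ∀ x, dotProduct (φ x) (φ x) = 1)
    (hi : Integrable (q0 φ)) : IsDegLim φ (degInt φ) := by
  unfold IsDegLim
  have hpi := Real.pi_pos
  have e : 4 * π * degInt φ = ∫ x, q0 φ x := by
    unfold degInt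
    have : ∫ x, dotProduct (φ x) (crossProduct (pd1 φ x) (pd2 φ x)) = ∫ x, q0 φ x := rfl
    rw [this]; field_simp
  rw [e]
  have hq := (cd_q0 hφ hs).continuous
  have hu := (cd_uu hφ).continuous
  apply tendsto_integral_of_dominated_convergence (fun x => |q0 φ x|)
  · intro k
    exact (((et_cont _).comp hu).mul hq).aestronglyMeasurable
  · exact hi.abs
  · intro k
    refine Eventually.of_forall fun x => ?_
    rw [Real.norm_eq_abs, abs_mul, abs_of_nonneg (et_nonneg _ _)]
    exact mul_le_of_le_one_left (abs_nonneg _) (et_le_one _ _)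
  · filter_upwards [zero_ae hφ hs] with x hx
    rcases (uu_nonneg hs x).eq_or_lt with h0 | h0
    · rw [hx h0.symm]; simp
    · apply tendsto_const_nhds.congr'
      filter_upwards [et_lim h0] with k hk
      rw [hk, one_mul]

theorem degLim_of_degInt (hφ : ContDiff ℝ ∞ φ) (hs : ∀ x, dotProduct (φ x) (φ x) = 1)
    (h0 : degInt φ ≠ 0) : IsDegLim φ (degInt φ) := by
  apply degLim_of_integrable hφ hs
  by_contra hcon
  apply h0
  unfold degInt
  have h1 : ∫ x, dotProduct (φ x) (crossProduct (pd1 φ x) (pd2 φ x)) = 0 := integral_undef hcon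
  rw [h1, mul_zero]

/-- The cut-off integrand is dominated by the energy density. -/
theorem cut_le (hφ : ContDiff ℝ ∞ φ) (hs : ∀ x, dotProduct (φ x) (φ x) = 1) (k : ℝ)
    (x : ℝ × ℝ) :
    |et k (uu φ x) * qq φ A x + Hk k (uu φ x) * fld A x| ≤ 1 / 2 * dens φ A x := by
  have a1 : 2 * |qq φ A x| ≤ ee φ A x := by
    have h1 := Sp_eq (A := A) hφ hs x
    have h2 := Sm_eq (A := A) hφ hs x
    have h3 := Sp_nonneg (φ := φ) (A := A) x
    have h4 := Sm_nonneg (φ := φ) (A := A) x
    rcases abs_cases (qq φ A x) with ⟨h5, _⟩ | ⟨h5, _⟩ <;> rw [h5] <;> linarith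
  have a2 := et_nonneg k (uu φ x)
  have a3 := et_le_one k (uu φ x)
  have a4 := uu_nonneg hs x
  have a5 := Hk_nonneg (k := k) a4
  have a6 := Hk_le (k := k) a4
  rw [dens_eq]
  calc _ ≤ |et k (uu φ x) * qq φ A x| + |Hk k (uu φ x) * fld A x| := abs_add_le _ _
    _ = et k (uu φ x) * |qq φ A x| + Hk k (uu φ x) * |fld A x| := by
        rw [abs_mul, abs_mul, abs_of_nonneg a2, abs_of_nonneg a5]
    _ ≤ 1 * |qq φ A x| + uu φ x * |fld A x| := by gcongr
    _ ≤ _ := by
        nlinarith [sq_nonneg (uu φ x - |fld A x|), sq_abs (fld A x), abs_nonneg (qq φ A x)]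

/-- The energy bound. -/
theorem energy_ge (h : IsConfig φ A) {δ : ℝ} (hd : IsDegLim φ δ) :
    4 * π * |δ| ≤ energy φ A := by
  have hφ := h.smooth_phi
  have hs := h.sphere
  have hpi := Real.pi_pos
  have hlim : Tendsto (fun k : ℕ => |∫ x, et (k + 1) (uu φ x) * q0 φ x|) atTop
      (𝓝 |4 * π * δ|) := hd.abs
  have h2 : |4 * π * δ| = 4 * π * |δ| := by
    rw [abs_mul, abs_of_pos (by positivity : (0 : ℝ) < 4 * π)]
  rw [h2] at hlim
  refine le_of_tendsto' hlim fun k => ?_
  obtain ⟨i0, i1, i2⟩ := cov_id h (k := (k : ℝ) + 1) (by positivity)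
  rw [← i2]
  unfold energy
  rw [← integral_const_mul]
  calc _ ≤ ∫ x, |et ((k : ℝ) + 1) (uu φ x) * qq φ A x + Hk ((k : ℝ) + 1) (uu φ x) * fld A x| :=
        abs_integral_le_integral_abs
    _ ≤ _ := integral_mono i1.abs (h.finite.const_mul _) (cut_le hφ hs _)

/-- The covariant degree density, restricted to `φ ≠ n`. -/
noncomputable def cut (φ : ℝ × ℝ → Fin 3 → ℝ) (A : ℝ × ℝ → ℝ × ℝ) (x : ℝ × ℝ) : ℝ :=
  qq φ A x + uu φ x * fld A x

theorem qq_zero (hφ : ContDiff ℝ ∞ φ) (hs : ∀ x, dotProduct (φ x) (φ x) = 1) :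
    ∀ᵐ x, uu φ x = 0 → qq φ A x = 0 := by
  filter_upwards [zero_ae hφ hs] with x hx h0
  have hmin : IsLocalMin (uu φ) x := by
    filter_upwards with z
    rw [h0]; exact uu_nonneg hs z
  obtain ⟨g1, g2, _, _⟩ := local_min_test (cd_uu hφ) hmin
  have hx' : dotProduct (φ x) (crossProduct (pd1 φ x) (pd2 φ x)) = 0 := hx h0
  rw [qq_eq hφ hs, hx', g1, g2]; ring

/-- The gauge covariant formula for the degree. -/
theorem cut_integral (h : IsConfig φ A) {δ : ℝ} (hd : IsDegLim φ δ) :
    Integrable (cut φ A) ∧ ∫ x, cut φ A x = 4 * π * δ := by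
  have hφ := h.smooth_phi
  have hA := h.smooth_A
  have hs := h.sphere
  have hu := (cd_uu hφ).continuous
  have hq := (cd_qq hφ hA).continuous
  have hF := (cd_fld hA).continuous
  have hb : ∀ x, |cut φ A x| ≤ 1 / 2 * dens φ A x := by
    intro x
    have a1 : 2 * |qq φ A x| ≤ ee φ A x := by
      have h1 := Sp_eq (A := A) hφ hs x
      have h2 := Sm_eq (A := A) hφ hs x
      have h3 := Sp_nonneg (φ := φ) (A := A) x
      have h4 := Sm_nonneg (φ := φ) (A := A) x
      rcases abs_cases (qq φ A x) with ⟨h5, _⟩ | ⟨h5, _⟩ <;> rw [h5] <;> linarith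
    have a4 := uu_nonneg hs x
    rw [dens_eq]
    unfold cut
    calc _ ≤ |qq φ A x| + |uu φ x * fld A x| := abs_add_le _ _
      _ = |qq φ A x| + uu φ x * |fld A x| := by rw [abs_mul, abs_of_nonneg a4]
      _ ≤ _ := by
        nlinarith [sq_nonneg (uu φ x - |fld A x|), sq_abs (fld A x), abs_nonneg (qq φ A x)]
  have hcc : Continuous (cut φ A) := hq.add (hu.mul hF)
  have hi : Integrable (cut φ A) :=
    (h.finite.const_mul (1 / 2)).mono' hcc.aestronglyMeasurable
      (Eventually.of_forall fun x => by rw [Real.norm_eq_abs]; exact hb x)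
  refine ⟨hi, ?_⟩
  have hlim : Tendsto (fun k : ℕ => ∫ x, (et ((k : ℝ) + 1) (uu φ x) * qq φ A x
      + Hk ((k : ℝ) + 1) (uu φ x) * fld A x)) atTop (𝓝 (∫ x, cut φ A x)) := by
    apply tendsto_integral_of_dominated_convergence (fun x => 1 / 2 * dens φ A x)
    · intro k
      exact ((((et_cont _).comp hu).mul hq).add
        (((Hk_cd _).continuous.comp hu).mul hF)).aestronglyMeasurable
    · exact h.finite.const_mul _
    · intro k
      exact Eventually.of_forall fun x => by rw [Real.norm_eq_abs]; exact cut_le hφ hs _ x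
    · filter_upwards [qq_zero (A := A) hφ hs] with x hx
      have hH := (Hk_lim (uu_nonneg hs x)).mul_const (fld A x)
      unfold cut
      refine Tendsto.add ?_ hH
      rcases (uu_nonneg hs x).eq_or_lt with h0 | h0
      · rw [hx h0.symm]; simp
      · apply tendsto_const_nhds.congr'
        filter_upwards [et_lim h0] with k hk
        rw [hk, one_mul]
  have e : (fun k : ℕ => ∫ x, (et ((k : ℝ) + 1) (uu φ x) * qq φ A x
      + Hk ((k : ℝ) + 1) (uu φ x) * fld A x)) = fun k : ℕ => ∫ x, et (k + 1) (uu φ x) * q0 φ x := by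
    funext k
    exact (cov_id h (k := (k : ℝ) + 1) (by positivity)).2.2
  rw [e] at hlim
  exact tendsto_nhds_unique hlim hd

theorem sd_of_zero (hS : ∀ x, Sm φ A x = 0) (hw : ∀ x, wm φ A x = 0) : SelfDual φ A := by
  intro x
  refine ⟨?_, ?_⟩
  · have hd : cov1 A φ x + crossProduct (φ x) (cov2 A φ x) = 0 := by
      have : dotProduct (cov1 A φ x + crossProduct (φ x) (cov2 A φ x))
        (cov1 A φ x + crossProduct (φ x) (cov2 A φ x)) = 0 := hS x
      exact dotProduct_self_eq_zero.1 this
    exact eq_neg_of_add_eq_zero_left hd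
  · have := hw x
    unfold wm uu at this
    rw [nv_dot]; linarith

theorem asd_of_zero (hS : ∀ x, Sp φ A x = 0) (hw : ∀ x, wp φ A x = 0) : AntiSelfDual φ A := by
  intro x
  refine ⟨?_, ?_⟩
  · have hd : cov1 A φ x - crossProduct (φ x) (cov2 A φ x) = 0 := by
      have : dotProduct (cov1 A φ x - crossProduct (φ x) (cov2 A φ x))
        (cov1 A φ x - crossProduct (φ x) (cov2 A φ x)) = 0 := hS x
      exact dotProduct_self_eq_zero.1 this
    exact sub_eq_zero.1 hd
  · have := hw x
    unfold wp uu at this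
    rw [nv_dot]; linarith

theorem dens_split_m (hφ : ContDiff ℝ ∞ φ) (hs : ∀ x, dotProduct (φ x) (φ x) = 1) (x : ℝ × ℝ) :
    1 / 2 * dens φ A x - cut φ A x = 1 / 2 * Sm φ A x + 1 / 2 * wm φ A x ^ 2 := by
  rw [dens_eq, Sm_eq hφ hs]; unfold cut wm; ring

theorem dens_split_p (hφ : ContDiff ℝ ∞ φ) (hs : ∀ x, dotProduct (φ x) (φ x) = 1) (x : ℝ × ℝ) :
    1 / 2 * dens φ A x + cut φ A x = 1 / 2 * Sp φ A x + 1 / 2 * wp φ A x ^ 2 := by
  rw [dens_eq, Sp_eq hφ hs]; unfold cut wp; ring

/-- Equality in the energy bound. -/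
theorem energy_eq_iff (h : IsConfig φ A) {δ : ℝ} (hd : IsDegLim φ δ) :
    energy φ A = 4 * π * |δ| ↔ (SelfDual φ A ∨ AntiSelfDual φ A) := by
  have hφ := h.smooth_phi
  have hA := h.smooth_A
  have hs := h.sphere
  have hpi := Real.pi_pos
  obtain ⟨i1, i2⟩ := cut_integral h hd
  have j := h.finite.const_mul (1 / 2)
  have hP := cd_cov1 hA hφ
  have hQ := cd_cov2 hA hφ
  have em : ∫ x, (1 / 2 * Sm φ A x + 1 / 2 * wm φ A x ^ 2) = energy φ A - 4 * π * δ := by
    rw [← i2]
    unfold energy
    rw [← integral_const_mul, ← integral_sub j i1]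
    congr 1; funext x
    rw [dens_split_m hφ hs]
  have ep : ∫ x, (1 / 2 * Sp φ A x + 1 / 2 * wp φ A x ^ 2) = energy φ A + 4 * π * δ := by
    rw [← i2]
    unfold energy
    rw [← integral_const_mul, ← integral_add j i1]
    congr 1; funext x
    rw [dens_split_p hφ hs]
  have im : Integrable (fun x => 1 / 2 * Sm φ A x + 1 / 2 * wm φ A x ^ 2) := by
    have := j.sub i1
    refine this.congr (Eventually.of_forall fun x => ?_)
    exact dens_split_m hφ hs x
  have ip : Integrable (fun x => 1 / 2 * Sp φ A x + 1 / 2 * wp φ A x ^ 2) := by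
    have := j.add i1
    refine this.congr (Eventually.of_forall fun x => ?_)
    exact dens_split_p hφ hs x
  have hgm : ∀ x, 0 ≤ 1 / 2 * Sm φ A x + 1 / 2 * wm φ A x ^ 2 := fun x => by
    have := Sm_nonneg (φ := φ) (A := A) x
    positivity
  have hgp : ∀ x, 0 ≤ 1 / 2 * Sp φ A x + 1 / 2 * wp φ A x ^ 2 := fun x => by
    have := Sp_nonneg (φ := φ) (A := A) x
    positivity
  have hcm : Continuous (fun x => 1 / 2 * Sm φ A x + 1 / 2 * wm φ A x ^ 2) := by
    have : (fun x => 1 / 2 * Sm φ A x + 1 / 2 * wm φ A x ^ 2)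
        = fun x => 1 / 2 * dens φ A x - cut φ A x := by
      funext x; rw [dens_split_m hφ hs]
    rw [this]
    exact (continuous_const.mul (cd_dens hφ hA).continuous).sub
      ((cd_qq hφ hA).continuous.add ((cd_uu hφ).continuous.mul (cd_fld hA).continuous))
  have hcp : Continuous (fun x => 1 / 2 * Sp φ A x + 1 / 2 * wp φ A x ^ 2) := by
    have : (fun x => 1 / 2 * Sp φ A x + 1 / 2 * wp φ A x ^ 2)
        = fun x => 1 / 2 * dens φ A x + cut φ A x := by
      funext x; rw [dens_split_p hφ hs]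
    rw [this]
    exact (continuous_const.mul (cd_dens hφ hA).continuous).add
      ((cd_qq hφ hA).continuous.add ((cd_uu hφ).continuous.mul (cd_fld hA).continuous))
  constructor
  · intro hE
    rcases le_total 0 δ with h0 | h0
    · left
      rw [abs_of_nonneg h0] at hE
      rw [hE, sub_self] at em
      have hz := (integral_eq_zero_iff_of_nonneg hgm im).1 em
      have hz' := (Continuous.ae_eq_iff_eq volume hcm continuous_zero).1 hz
      have hz'' : ∀ x, 1 / 2 * Sm φ A x + 1 / 2 * wm φ A x ^ 2 = 0 := fun x => congrFun hz' x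
      refine sd_of_zero (fun x => ?_) (fun x => ?_)
      · have := hz'' x
        have := Sm_nonneg (φ := φ) (A := A) x
        nlinarith [sq_nonneg (wm φ A x)]
      · have := hz'' x
        have := Sm_nonneg (φ := φ) (A := A) x
        have h3 : wm φ A x ^ 2 = 0 := by nlinarith [sq_nonneg (wm φ A x)]
        exact pow_eq_zero_iff (two_ne_zero) |>.1 h3
    · right
      rw [abs_of_nonpos h0] at hE
      have hE' : energy φ A + 4 * π * δ = 0 := by linarith
      rw [hE'] at ep
      have hz := (integral_eq_zero_iff_of_nonneg hgp ip).1 ep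
      have hz' := (Continuous.ae_eq_iff_eq volume hcp continuous_zero).1 hz
      have hz'' : ∀ x, 1 / 2 * Sp φ A x + 1 / 2 * wp φ A x ^ 2 = 0 := fun x => congrFun hz' x
      refine asd_of_zero (fun x => ?_) (fun x => ?_)
      · have := hz'' x
        have := Sp_nonneg (φ := φ) (A := A) x
        nlinarith [sq_nonneg (wp φ A x)]
      · have := hz'' x
        have := Sp_nonneg (φ := φ) (A := A) x
        have h3 : wp φ A x ^ 2 = 0 := by nlinarith [sq_nonneg (wp φ A x)]
        exact pow_eq_zero_iff (two_ne_zero) |>.1 h3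
  · have hge := energy_ge h hd
    intro hsd
    rcases hsd with h1 | h1
    · have hz : (fun x => 1 / 2 * Sm φ A x + 1 / 2 * wm φ A x ^ 2) = fun _ => 0 := by
        funext x
        have a : Sm φ A x = 0 := by
          unfold Sm
          rw [(h1 x).1]; simp
        have b : wm φ A x = 0 := by
          unfold wm uu
          rw [(h1 x).2, nv_dot]; ring
        rw [a, b]; ring
      rw [hz, integral_zero] at em
      have := le_abs_self δ
      have h4 : 4 * π * δ ≤ 4 * π * |δ| := mul_le_mul_of_nonneg_left this (by positivity)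
      linarith
    · have hz : (fun x => 1 / 2 * Sp φ A x + 1 / 2 * wp φ A x ^ 2) = fun _ => 0 := by
        funext x
        have a : Sp φ A x = 0 := by
          unfold Sp
          rw [(h1 x).1]; simp
        have b : wp φ A x = 0 := by
          unfold wp uu
          rw [(h1 x).2, nv_dot]; ring
        rw [a, b]; ring
      rw [hz, integral_zero] at ep
      have := neg_abs_le δ
      have h4 : 4 * π * (-|δ|) ≤ 4 * π * δ := mul_le_mul_of_nonneg_left this (by positivity)
      linarith

end Run7.h887
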