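import Pool.Agent.Run7.h887.UC

/-! Cut-offs, the gauge covariant form of the degree, and the energy bound. -/

namespace Run7.h887

open MeasureTheory Filter Topology Set
open scoped ContDiff Real

variable {φ : ℝ × ℝ → Fin 3 → ℝ} {A : ℝ × ℝ → ℝ × ℝ}

/-- Cut-off: `0` for `t ≤ 1/k`, `1` for `t ≥ 2/k`. -/
noncomputable def et (k t : ℝ) : ℝ := Real.smoothTransition (k * t - 1)

/-- Primitive of the cut-off. -/
noncomputable def Hk (k t : ℝ) : ℝ := ∫ s in (0 : ℝ)..t, et k s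

theorem et_cd (k : ℝ) : ContDiff ℝ ∞ (et k) := by
  unfold et
  exact Real.smoothTransition.contDiff.comp ((contDiff_const.mul contDiff_id).sub contDiff_const)

theorem et_cont (k : ℝ) : Continuous (et k) := (et_cd k).continuous

theorem et_nonneg (k t : ℝ) : 0 ≤ et k t := Real.smoothTransition.nonneg _

theorem et_le_one (k t : ℝ) : et k t ≤ 1 := Real.smoothTransition.le_one _

theorem et_zero {k t : ℝ} (hk : 0 < k) (h : t ≤ 1 / k) : et k t = 0 := by
  apply Real.smoothTransition.zero_of_nonpos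
  rw [le_div_iff₀ hk] at h
  linarith

theorem et_one {k t : ℝ} (hk : 0 < k) (h : 2 / k ≤ t) : et k t = 1 := by
  apply Real.smoothTransition.one_of_one_le
  rw [div_le_iff₀ hk] at h
  linarith

theorem Hk_deriv (k t : ℝ) : HasDerivAt (Hk k) (et k t) t :=
  ((et_cont k).integral_hasStrictDerivAt 0 t).hasDerivAt

theorem Hk_cd (k : ℝ) : ContDiff ℝ ∞ (Hk k) := by
  rw [contDiff_infty_iff_deriv]
  refine ⟨fun t => (Hk_deriv k t).differentiableAt, ?_⟩
  have : deriv (Hk k) = et k := funext fun t => (Hk_deriv k t).deriv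
  rw [this]; exact et_cd k

theorem Hk_zero {k t : ℝ} (hk : 0 < k) (h : t ≤ 1 / k) : Hk k t = 0 := by
  unfold Hk
  have : ∀ s ∈ uIcc 0 t, et k s = 0 := by
    intro s hs
    apply et_zero hk
    have h1 : s ≤ max 0 t := hs.2
    have h2 : 0 < 1 / k := by positivity
    exact h1.trans (max_le h2.le h)
  rw [intervalIntegral.integral_congr this]; simp

theorem Hk_nonneg {k t : ℝ} (ht : 0 ≤ t) : 0 ≤ Hk k t :=
  intervalIntegral.integral_nonneg ht fun s _ => et_nonneg k s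

theorem Hk_le {k t : ℝ} (ht : 0 ≤ t) : Hk k t ≤ t := by
  have := intervalIntegral.integral_mono_on ht ((et_cont k).intervalIntegrable (μ := volume) 0 t)
    (continuous_const.intervalIntegrable (μ := volume) 0 t) (g := fun _ => (1 : ℝ))
    (fun s _ => et_le_one k s)
  rw [intervalIntegral.integral_const, smul_eq_mul] at this
  unfold Hk; linarith

theorem Hk_ge {k t : ℝ} (hk : 0 < k) (ht : 0 ≤ t) : t - 2 / k ≤ Hk k t := by
  rcases le_total t (2 / k) with h | h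
  · have := Hk_nonneg (k := k) ht
    linarith
  · have h2 : 0 < 2 / k := by positivity
    have e : Hk k t = Hk k (2 / k) + ∫ s in (2 / k)..t, et k s := by
      unfold Hk
      rw [intervalIntegral.integral_add_adjacent_intervals ((et_cont k).intervalIntegrable _ _)
        ((et_cont k).intervalIntegrable _ _)]
    have e2 : ∫ s in (2 / k)..t, et k s = t - 2 / k := by
      have : ∀ s ∈ uIcc (2 / k) t, et k s = 1 := by
        intro s hs
        rw [uIcc_of_le h] at hs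
        exact et_one hk hs.1
      rw [intervalIntegral.integral_congr this, intervalIntegral.integral_const, smul_eq_mul,
        mul_one]
    have := Hk_nonneg (k := k) h2.le
    rw [e, e2]; linarith

/-- The current-free form of the pulled back area form. -/
theorem qq_eq (hφ : ContDiff ℝ ∞ φ) (hs : ∀ x, dotProduct (φ x) (φ x) = 1) (x : ℝ × ℝ) :
    qq φ A x = dotProduct (φ x) (crossProduct (pd1 φ x) (pd2 φ x))
      + (A x).2 * pd1 (uu φ) x - (A x).1 * pd2 (uu φ) x := by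
  have h0 := sph3 hs x
  have h1 := tang1 (A := A) hφ hs x
  have h2 := tang2 (A := A) hφ hs x
  rw [pd1_uu (A := A) hφ, pd2_uu (A := A) hφ]
  simp only [qq, dot3, cross_0, cross_1, cross_2]
  have hd := hφ.differentiable (by simp) x
  rw [cov1_0 hφ, cov1_1 hφ, cov1_2 hφ] at *
  rw [cov2_0 hφ, cov2_1 hφ, cov2_2 hφ] at *
  rw [pd1_apply hd 0, pd1_apply hd 1, pd1_apply hd 2, pd2_apply hd 0, pd2_apply hd 1,
    pd2_apply hd 2]
  generalize pd1 (fun y => φ y 0) x = p0 at *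
  generalize pd1 (fun y => φ y 1) x = p1 at *
  generalize pd1 (fun y => φ y 2) x = p2 at *
  generalize pd2 (fun y => φ y 0) x = q0 at *
  generalize pd2 (fun y => φ y 1) x = q1 at *
  generalize pd2 (fun y => φ y 2) x = q2 at *
  generalize (A x).1 = a1 at *
  generalize (A x).2 = a2 at *
  generalize φ x 0 = a at *
  generalize φ x 1 = b at *
  generalize φ x 2 = c at *
  linear_combination (a1 * q2 - a2 * p2) * h0 - a1 * c * h2 + a2 * c * h1

/-- Functions vanishing far away. -/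
theorem far_of_tendsto {u : ℝ × ℝ → ℝ} (h : Tendsto u (cocompact (ℝ × ℝ)) (𝓝 0)) {δ : ℝ}
    (hδ : 0 < δ) : ∃ R : ℝ, 0 < R ∧ ∀ x : ℝ × ℝ, R < ‖x‖ → u x < δ := by
  have h1 : ∀ᶠ x in cocompact (ℝ × ℝ), u x < δ := h.eventually (gt_mem_nhds hδ)
  obtain ⟨K, hK, hsub⟩ := mem_cocompact.1 h1
  obtain ⟨R, hR⟩ := hK.isBounded.exists_norm_le
  refine ⟨max R 1, by positivity, fun x hx => ?_⟩
  apply hsub
  intro hxK
  have := hR x hxK
  have h2 := le_max_left R 1
  linarith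

theorem integrable_far {f : ℝ × ℝ → ℝ} (hf : Continuous f) {R : ℝ}
    (h : ∀ x : ℝ × ℝ, R < ‖x‖ → f x = 0) : Integrable f := by
  apply hf.integrable_of_hasCompactSupport
  apply HasCompactSupport.intro (isCompact_closedBall (0 : ℝ × ℝ) R)
  intro x hx
  apply h
  rw [mem_closedBall_zero_iff, not_le] at hx
  exact hx

theorem pd_far {f : ℝ × ℝ → ℝ} {R : ℝ} (h : ∀ x : ℝ × ℝ, R < ‖x‖ → f x = 0) (x : ℝ × ℝ)
    (hx : R < ‖x‖) : pd1 f x = 0 ∧ pd2 f x = 0 := by
  have he : f =ᶠ[𝓝 x] fun _ => 0 := by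
    filter_upwards [(isOpen_lt continuous_const continuous_norm).mem_nhds hx] with y hy
    exact h y hy
  constructor
  · unfold pd1; rw [he.fderiv_eq]; simp
  · unfold pd2; rw [he.fderiv_eq]; simp

theorem norm_polar {r R : ℝ} (hR : 0 < R) (hr : 2 * R < r) (θ : ℝ) :
    R < ‖((r * Real.cos θ, r * Real.sin θ) : ℝ × ℝ)‖ := by
  by_contra hcon
  push Not at hcon
  rw [Prod.norm_def] at hcon
  have h1 : |r * Real.cos θ| ≤ R := (le_max_left _ _).trans hcon
  have h2 : |r * Real.sin θ| ≤ R := (le_max_right _ _).trans hcon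
  have h3 : (r * Real.cos θ) ^ 2 ≤ R ^ 2 := sq_le_sq' (abs_le.1 h1).1 (abs_le.1 h1).2
  have h4 : (r * Real.sin θ) ^ 2 ≤ R ^ 2 := sq_le_sq' (abs_le.1 h2).1 (abs_le.1 h2).2
  have h5 := Real.sin_sq_add_cos_sq θ
  have h6 : r ^ 2 ≤ 2 * R ^ 2 := by nlinarith
  nlinarith

/-- Integral of a divergence with compact support. -/
theorem div_zero' {Y1 Y2 : ℝ × ℝ → ℝ} (h1 : ContDiff ℝ ∞ Y1) (h2 : ContDiff ℝ ∞ Y2) {R : ℝ}
    (hR : 0 < R) (z1 : ∀ x : ℝ × ℝ, R < ‖x‖ → Y1 x = 0) (z2 : ∀ x : ℝ × ℝ, R < ‖x‖ → Y2 x = 0) :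
    Integrable (fun x => pd1 Y1 x + pd2 Y2 x) ∧ ∫ x, (pd1 Y1 x + pd2 Y2 x) = 0 := by
  have hc : Continuous (fun x => pd1 Y1 x + pd2 Y2 x) :=
    (cd_pd1 h1).continuous.add (cd_pd2 h2).continuous
  have hi : Integrable (fun x => pd1 Y1 x + pd2 Y2 x) := by
    apply integrable_far hc (R := R)
    intro x hx
    rw [(pd_far z1 x hx).1, (pd_far z2 x hx).2, add_zero]
  refine ⟨hi, ?_⟩
  obtain ⟨i1, i2⟩ := polar_integral hi
  rw [← i2]
  have ht := intervalIntegral_tendsto_integral_Ioi (0 : ℝ) i1 tendsto_id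
  have hev : (fun r : ℝ => ∫ s in (0 : ℝ)..(id r), s * cir (fun x => pd1 Y1 x + pd2 Y2 x) s)
      =ᶠ[atTop] fun _ => 0 := by
    filter_upwards [eventually_gt_atTop (2 * R)] with r hr
    rw [id, ← flux_eq h1 h2]
    unfold flux
    have : ∀ θ : ℝ, r * (Y1 (r * Real.cos θ, r * Real.sin θ) * Real.cos θ
        + Y2 (r * Real.cos θ, r * Real.sin θ) * Real.sin θ) = 0 := by
      intro θ
      rw [z1 _ (norm_polar hR hr θ), z2 _ (norm_polar hR hr θ)]; ring
    simp [this]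
  exact tendsto_nhds_unique ht (tendsto_const_nhds.congr' hev.symm)

theorem uu_tendsto (h : IsConfig φ A) : Tendsto (uu φ) (cocompact (ℝ × ℝ)) (𝓝 0) := by
  have h1 := h.bdry
  have e : uu φ = fun x => 1 - dotProduct nv (φ x) := by
    funext x; rw [nv_dot]; rfl
  rw [e]
  have := (tendsto_const_nhds (x := (1 : ℝ))).sub h1
  simpa using this

/-- The integrand of the degree. -/
noncomputable def q0 (φ : ℝ × ℝ → Fin 3 → ℝ) (x : ℝ × ℝ) : ℝ :=
  dotProduct (φ x) (crossProduct (pd1 φ x) (pd2 φ x))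

theorem cd_qq (hφ : ContDiff ℝ ∞ φ) (hA : ContDiff ℝ ∞ A) : ContDiff ℝ ∞ (qq φ A) := by
  have hP := cd_cov1 hA hφ
  have hQ := cd_cov2 hA hφ
  have e2 : qq φ A = fun x => φ x 0 * (cov1 A φ x 1 * cov2 A φ x 2 - cov1 A φ x 2 * cov2 A φ x 1)
      + φ x 1 * (cov1 A φ x 2 * cov2 A φ x 0 - cov1 A φ x 0 * cov2 A φ x 2)
      + φ x 2 * (cov1 A φ x 0 * cov2 A φ x 1 - cov1 A φ x 1 * cov2 A φ x 0) := by
    funext x
    simp only [qq, dot3, cross_0, cross_1, cross_2]
  rw [e2]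
  exact (((comp_cd hφ 0).mul (((comp_cd hP 1).mul (comp_cd hQ 2)).sub
    ((comp_cd hP 2).mul (comp_cd hQ 1)))).add ((comp_cd hφ 1).mul
    (((comp_cd hP 2).mul (comp_cd hQ 0)).sub ((comp_cd hP 0).mul (comp_cd hQ 2))))).add
    ((comp_cd hφ 2).mul (((comp_cd hP 0).mul (comp_cd hQ 1)).sub
    ((comp_cd hP 1).mul (comp_cd hQ 0))))

theorem cd_q0 (hφ : ContDiff ℝ ∞ φ) (hs : ∀ x, dotProduct (φ x) (φ x) = 1) :
    ContDiff ℝ ∞ (q0 φ) := by
  have hA : ContDiff ℝ ∞ (fun _ : ℝ × ℝ => ((0 : ℝ), (0 : ℝ))) := contDiff_const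
  have e : q0 φ = qq φ (fun _ => ((0 : ℝ), (0 : ℝ))) := by
    funext x; rw [qq_eq hφ hs]; simp [q0]
  rw [e]
  exact cd_qq hφ hA

/-- Integral of the covariant integrand. -/
theorem cov_id (h : IsConfig φ A) {k : ℝ} (hk : 0 < k) :
    Integrable (fun x => et k (uu φ x) * q0 φ x) ∧
    Integrable (fun x => et k (uu φ x) * qq φ A x + Hk k (uu φ x) * fld A x) ∧
    ∫ x, (et k (uu φ x) * qq φ A x + Hk k (uu φ x) * fld A x)
      = ∫ x, et k (uu φ x) * q0 φ x := by
  have hφ := h.smooth_phi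
  have hA := h.smooth_A
  have hs := h.sphere
  have hu := cd_uu hφ
  have hA1 : ContDiff ℝ ∞ (fun x => (A x).1) := contDiff_fst.comp hA
  have hA2 : ContDiff ℝ ∞ (fun x => (A x).2) := contDiff_snd.comp hA
  have hH : ContDiff ℝ ∞ (fun x => Hk k (uu φ x)) := (Hk_cd k).comp hu
  have hY1 : ContDiff ℝ ∞ (fun x => Hk k (uu φ x) * (A x).2) := hH.mul hA2
  have hY2 : ContDiff ℝ ∞ (fun x => -(Hk k (uu φ x) * (A x).1)) := (hH.mul hA1).neg
  obtain ⟨R, hR, hfar⟩ := far_of_tendsto (uu_tendsto h) (δ := 1 / k) (by positivity)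
  have zH : ∀ x : ℝ × ℝ, R < ‖x‖ → Hk k (uu φ x) = 0 := fun x hx => Hk_zero hk (hfar x hx).le
  have ze : ∀ x : ℝ × ℝ, R < ‖x‖ → et k (uu φ x) = 0 := fun x hx => et_zero hk (hfar x hx).le
  obtain ⟨i1, i2⟩ := div_zero' hY1 hY2 hR (fun x hx => by rw [zH x hx, zero_mul])
    (fun x hx => by rw [zH x hx, zero_mul, neg_zero])
  have hqc := cd_q0 hφ hs
  have hec : ContDiff ℝ ∞ (fun x => et k (uu φ x)) := (et_cd k).comp hu
  have i3 : Integrable (fun x => et k (uu φ x) * q0 φ x) :=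
    integrable_far (hec.mul hqc).continuous (R := R) (fun x hx => by rw [ze x hx, zero_mul])
  have e : (fun x => et k (uu φ x) * qq φ A x + Hk k (uu φ x) * fld A x)
      = fun x => et k (uu φ x) * q0 φ x + (pd1 (fun x => Hk k (uu φ x) * (A x).2) x
        + pd2 (fun x => -(Hk k (uu φ x) * (A x).1)) x) := by
    funext x
    rw [pd1_mul (dd hH) (dd hA2), pd2_neg, pd2_mul (dd hH) (dd hA1)]
    simp only
    rw [pd1_comp (dd hu x) (Hk_deriv k (uu φ x)), pd2_comp (dd hu x) (Hk_deriv k (uu φ x)),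
      qq_eq hφ hs]
    simp only [q0, fld]
    ring
  rw [e]
  refine ⟨i3, i3.add i1, ?_⟩
  rw [integral_add i3 i1, i2, add_zero]

/-- Integral of the covariant integrand in terms of the degree. -/
theorem deg_id {d : ℤ} (hd : HasDegree φ d) {k : ℝ} (hk : 0 < k) :
    ∫ x, et k (uu φ x) * q0 φ x = 2 * π * d * Hk k 2 := by
  have hdeg := hd (et k) (et_cont k) ⟨1 / k, by positivity, fun t ht => et_zero hk ht⟩
  have e3 : (fun x => et k (1 - dotProduct nv (φ x))
      * dotProduct (φ x) (crossProduct (pd1 φ x) (pd2 φ x)))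
      = fun x => et k (uu φ x) * q0 φ x := by
    funext x; rw [nv_dot]; rfl
  rw [e3] at hdeg
  rw [hdeg]; rfl

end Run7.h887
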