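import Pool.Agent.Run7.h887.DefsR
import Pool.Agent.Run7.h887.DegLim

/-! Consequences of rotational equivariance. -/

namespace Run7.h887

open MeasureTheory Filter Topology Set
open scoped ContDiff Real

variable {φ : ℝ × ℝ → Fin 3 → ℝ} {A : ℝ × ℝ → ℝ × ℝ} {N : ℤ}

theorem pdrot {f g : ℝ × ℝ → ℝ} (hf : Differentiable ℝ f) (hg : Differentiable ℝ g) {α : ℝ}
    (h : ∀ x, f (rot α x) = g x) (x : ℝ × ℝ) :
    pd1 f (rot α x) * Real.cos α + pd2 f (rot α x) * Real.sin α = pd1 g x ∧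
    -(pd1 f (rot α x) * Real.sin α) + pd2 f (rot α x) * Real.cos α = pd2 g x := by
  constructor
  · have hX : HasDerivAt (fun t : ℝ => Real.cos α * t - Real.sin α * x.2) (Real.cos α) x.1 := by
      simpa using ((hasDerivAt_id x.1).const_mul (Real.cos α)).sub_const (Real.sin α * x.2)
    have hY : HasDerivAt (fun t : ℝ => Real.sin α * t + Real.cos α * x.2) (Real.sin α) x.1 := by
      simpa using ((hasDerivAt_id x.1).const_mul (Real.sin α)).add_const (Real.cos α * x.2)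
    have h1 := hasDerivAt_curve hf hX hY
    have h2 := hasDerivAt_line1 hg x.1 x.2
    have e : (fun t => f (Real.cos α * t - Real.sin α * x.2, Real.sin α * t + Real.cos α * x.2))
        = fun t => g (t, x.2) := by
      funext t; exact h (t, x.2)
    rw [e] at h1
    exact h1.unique h2
  · have hX : HasDerivAt (fun t : ℝ => Real.cos α * x.1 - Real.sin α * t) (-Real.sin α) x.2 := by
      simpa using ((hasDerivAt_id x.2).const_mul (Real.sin α)).const_sub (Real.cos α * x.1)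
    have hY : HasDerivAt (fun t : ℝ => Real.sin α * x.1 + Real.cos α * t) (Real.cos α) x.2 := by
      simpa using ((hasDerivAt_id x.2).const_mul (Real.cos α)).const_add (Real.sin α * x.1)
    have h1 := hasDerivAt_curve hf hX hY
    have h2 := hasDerivAt_line2 hg x.1 x.2
    have e : (fun t => f (Real.cos α * x.1 - Real.sin α * t, Real.sin α * x.1 + Real.cos α * t))
        = fun t => g (x.1, t) := by
      funext t; exact h (x.1, t)
    rw [e] at h1
    have := h1.unique h2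
    rw [← this]
    change -(pd1 f (rot α x) * Real.sin α) + pd2 f (rot α x) * Real.cos α
      = pd1 f (rot α x) * (-Real.sin α) + pd2 f (rot α x) * Real.cos α
    ring

section comps

variable (he : Equivariant N φ A)

include he

theorem eq0 (α : ℝ) (x : ℝ × ℝ) :
    φ (rot α x) 0 = Real.cos (N * α) * φ x 0 - Real.sin (N * α) * φ x 1 := by
  rw [(he α x).1]; rfl

theorem eq1 (α : ℝ) (x : ℝ × ℝ) :
    φ (rot α x) 1 = Real.sin (N * α) * φ x 0 + Real.cos (N * α) * φ x 1 := by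
  rw [(he α x).1]; rfl

theorem eq2 (α : ℝ) (x : ℝ × ℝ) : φ (rot α x) 2 = φ x 2 := by
  rw [(he α x).1]; rfl

theorem eqA1 (α : ℝ) (x : ℝ × ℝ) :
    (A (rot α x)).1 = Real.cos α * (A x).1 - Real.sin α * (A x).2 := by
  rw [(he α x).2]; rfl

theorem eqA2 (α : ℝ) (x : ℝ × ℝ) :
    (A (rot α x)).2 = Real.sin α * (A x).1 + Real.cos α * (A x).2 := by
  rw [(he α x).2]; rfl

theorem uu_rot (α : ℝ) (x : ℝ × ℝ) : uu φ (rot α x) = uu φ x := by
  unfold uu; rw [eq2 he]

theorem fld_rot (hA : ContDiff ℝ ∞ A) (α : ℝ) (x : ℝ × ℝ) : fld A (rot α x) = fld A x := by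
  have d1 : Differentiable ℝ (fun x => (A x).1) := dd (contDiff_fst.comp hA)
  have d2 : Differentiable ℝ (fun x => (A x).2) := dd (contDiff_snd.comp hA)
  obtain ⟨a1, a2⟩ := pdrot (f := fun x => (A x).1)
    (g := fun x => Real.cos α * (A x).1 - Real.sin α * (A x).2) d1
    ((d1.const_mul _).sub (d2.const_mul _)) (fun x => eqA1 he α x) x
  obtain ⟨a3, a4⟩ := pdrot (f := fun x => (A x).2)
    (g := fun x => Real.sin α * (A x).1 + Real.cos α * (A x).2) d2
    ((d1.const_mul _).add (d2.const_mul _)) (fun x => eqA2 he α x) x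
  rw [pd1_sub (d1.const_mul _) (d2.const_mul _), pd1_cmul d1, pd1_cmul d2] at a1
  rw [pd2_sub (d1.const_mul _) (d2.const_mul _), pd2_cmul d1, pd2_cmul d2] at a2
  rw [pd1_add (d1.const_mul _) (d2.const_mul _), pd1_cmul d1, pd1_cmul d2] at a3
  rw [pd2_add (d1.const_mul _) (d2.const_mul _), pd2_cmul d1, pd2_cmul d2] at a4
  simp only at a1 a2 a3 a4
  have hsc := Real.sin_sq_add_cos_sq α
  unfold fld
  set c := Real.cos α
  set s := Real.sin α
  linear_combination c * a3 - s * a4 - s * a1 - c * a2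
    + (pd1 (fun y => (A y).2) x - pd2 (fun y => (A y).1) x
      - pd1 (fun y => (A y).2) (rot α x) + pd2 (fun y => (A y).1) (rot α x)) * hsc

theorem cov_rot (hφ : ContDiff ℝ ∞ φ) (α : ℝ) (x : ℝ × ℝ) :
    (Real.cos α * cov1 A φ (rot α x) 0 + Real.sin α * cov2 A φ (rot α x) 0
      = Real.cos (N * α) * cov1 A φ x 0 - Real.sin (N * α) * cov1 A φ x 1) ∧
    (Real.cos α * cov1 A φ (rot α x) 1 + Real.sin α * cov2 A φ (rot α x) 1
      = Real.sin (N * α) * cov1 A φ x 0 + Real.cos (N * α) * cov1 A φ x 1) ∧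
    (Real.cos α * cov1 A φ (rot α x) 2 + Real.sin α * cov2 A φ (rot α x) 2 = cov1 A φ x 2) ∧
    (-(Real.sin α * cov1 A φ (rot α x) 0) + Real.cos α * cov2 A φ (rot α x) 0
      = Real.cos (N * α) * cov2 A φ x 0 - Real.sin (N * α) * cov2 A φ x 1) ∧
    (-(Real.sin α * cov1 A φ (rot α x) 1) + Real.cos α * cov2 A φ (rot α x) 1
      = Real.sin (N * α) * cov2 A φ x 0 + Real.cos (N * α) * cov2 A φ x 1) ∧
    (-(Real.sin α * cov1 A φ (rot α x) 2) + Real.cos α * cov2 A φ (rot α x) 2 = cov2 A φ x 2) := by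
  have d0 := dd (comp_cd hφ 0)
  have d1 := dd (comp_cd hφ 1)
  have d2 := dd (comp_cd hφ 2)
  obtain ⟨a1, a2⟩ := pdrot (f := fun x => φ x 0)
    (g := fun x => Real.cos (N * α) * φ x 0 - Real.sin (N * α) * φ x 1) d0
    ((d0.const_mul _).sub (d1.const_mul _)) (fun x => eq0 he α x) x
  obtain ⟨a3, a4⟩ := pdrot (f := fun x => φ x 1)
    (g := fun x => Real.sin (N * α) * φ x 0 + Real.cos (N * α) * φ x 1) d1
    ((d0.const_mul _).add (d1.const_mul _)) (fun x => eq1 he α x) x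
  obtain ⟨a5, a6⟩ := pdrot (f := fun x => φ x 2) (g := fun x => φ x 2) d2 d2
    (fun x => eq2 he α x) x
  rw [pd1_sub (d0.const_mul _) (d1.const_mul _), pd1_cmul d0, pd1_cmul d1] at a1
  rw [pd2_sub (d0.const_mul _) (d1.const_mul _), pd2_cmul d0, pd2_cmul d1] at a2
  rw [pd1_add (d0.const_mul _) (d1.const_mul _), pd1_cmul d0, pd1_cmul d1] at a3
  rw [pd2_add (d0.const_mul _) (d1.const_mul _), pd2_cmul d0, pd2_cmul d1] at a4
  simp only at a1 a2 a3 a4 a5 a6
  have hsc := Real.sin_sq_add_cos_sq α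
  have e0 := eq0 he α x
  have e1 := eq1 he α x
  have eA1 := eqA1 he α x
  have eA2 := eqA2 he α x
  rw [cov1_0 hφ, cov1_1 hφ, cov1_2 hφ, cov2_0 hφ, cov2_1 hφ, cov2_2 hφ, cov1_0 hφ, cov1_1 hφ,
    cov1_2 hφ, cov2_0 hφ, cov2_1 hφ, cov2_2 hφ]
  rw [e0, e1, eA1, eA2]
  set c := Real.cos α
  set s := Real.sin α
  set C := Real.cos (N * α)
  set S := Real.sin (N * α)
  refine ⟨?_, ?_, ?_, ?_, ?_, ?_⟩
  · linear_combination a1 - (A x).1 * (S * φ x 0 + C * φ x 1) * hsc
  · linear_combination a3 + (A x).1 * (C * φ x 0 - S * φ x 1) * hsc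
  · linear_combination a5
  · linear_combination a2 - (A x).2 * (S * φ x 0 + C * φ x 1) * hsc
  · linear_combination a4 + (A x).2 * (C * φ x 0 - S * φ x 1) * hsc
  · linear_combination a6

theorem ee_rot (hφ : ContDiff ℝ ∞ φ) (α : ℝ) (x : ℝ × ℝ) : ee φ A (rot α x) = ee φ A x := by
  obtain ⟨h1, h2, h3, h4, h5, h6⟩ := cov_rot he hφ α x
  have s1 := Real.sin_sq_add_cos_sq α
  have s2 := Real.sin_sq_add_cos_sq (N * α)
  unfold ee
  rw [dot3, dot3, dot3, dot3]
  generalize cov1 A φ (rot α x) 0 = p0 at *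
  generalize cov1 A φ (rot α x) 1 = p1 at *
  generalize cov1 A φ (rot α x) 2 = p2 at *
  generalize cov2 A φ (rot α x) 0 = q0 at *
  generalize cov2 A φ (rot α x) 1 = q1 at *
  generalize cov2 A φ (rot α x) 2 = q2 at *
  generalize cov1 A φ x 0 = u0 at *
  generalize cov1 A φ x 1 = u1 at *
  generalize cov1 A φ x 2 = u2 at *
  generalize cov2 A φ x 0 = w0 at *
  generalize cov2 A φ x 1 = w1 at *
  generalize cov2 A φ x 2 = w2 at *
  set c := Real.cos α
  set s := Real.sin α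
  set C := Real.cos (N * α)
  set S := Real.sin (N * α)
  linear_combination (c * p0 + s * q0 + (C * u0 - S * u1)) * h1
    + (c * p1 + s * q1 + (S * u0 + C * u1)) * h2 + (c * p2 + s * q2 + u2) * h3
    + (-(s * p0) + c * q0 + (C * w0 - S * w1)) * h4
    + (-(s * p1) + c * q1 + (S * w0 + C * w1)) * h5 + (-(s * p2) + c * q2 + w2) * h6
    - (p0 ^ 2 + p1 ^ 2 + p2 ^ 2 + q0 ^ 2 + q1 ^ 2 + q2 ^ 2) * s1
    + (u0 ^ 2 + u1 ^ 2 + w0 ^ 2 + w1 ^ 2) * s2

theorem dens_rot (hφ : ContDiff ℝ ∞ φ) (hA : ContDiff ℝ ∞ A) (α : ℝ) (x : ℝ × ℝ) :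
    dens φ A (rot α x) = dens φ A x := by
  rw [dens_eq, dens_eq, ee_rot he hφ, uu_rot he, fld_rot he hA]

end comps

theorem rot_axis (r θ : ℝ) : rot θ (r, 0) = (r * Real.cos θ, r * Real.sin θ) := by
  unfold rot
  simp only
  ext
  · ring
  · ring

/-- Angular derivatives on circles. -/
theorem ang (he : Equivariant N φ A) (hφ : ContDiff ℝ ∞ φ) (r θ : ℝ) :
    (pd1 (fun x => φ x 0) (r * Real.cos θ, r * Real.sin θ) * (r * (-Real.sin θ))
      + pd2 (fun x => φ x 0) (r * Real.cos θ, r * Real.sin θ) * (r * Real.cos θ)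
      = -(N * φ (r * Real.cos θ, r * Real.sin θ) 1)) ∧
    (pd1 (fun x => φ x 1) (r * Real.cos θ, r * Real.sin θ) * (r * (-Real.sin θ))
      + pd2 (fun x => φ x 1) (r * Real.cos θ, r * Real.sin θ) * (r * Real.cos θ)
      = N * φ (r * Real.cos θ, r * Real.sin θ) 0) ∧
    (pd1 (fun x => φ x 2) (r * Real.cos θ, r * Real.sin θ) * (r * (-Real.sin θ))
      + pd2 (fun x => φ x 2) (r * Real.cos θ, r * Real.sin θ) * (r * Real.cos θ) = 0) := by
  have d0 := dd (comp_cd hφ 0)
  have d1 := dd (comp_cd hφ 1)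
  have d2 := dd (comp_cd hφ 2)
  have g0 := polar_t d0 r θ
  have g1 := polar_t d1 r θ
  have g2 := polar_t d2 r θ
  have hN : HasDerivAt (fun t : ℝ => (N : ℝ) * t) N θ := by
    simpa using (hasDerivAt_id θ).const_mul (N : ℝ)
  have e0 : (fun t => φ (r * Real.cos t, r * Real.sin t) 0)
      = fun t => Real.cos (N * t) * φ (r, 0) 0 - Real.sin (N * t) * φ (r, 0) 1 := by
    funext t; rw [← rot_axis, eq0 he]
  have e1 : (fun t => φ (r * Real.cos t, r * Real.sin t) 1)
      = fun t => Real.sin (N * t) * φ (r, 0) 0 + Real.cos (N * t) * φ (r, 0) 1 := by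
    funext t; rw [← rot_axis, eq1 he]
  have e2 : (fun t => φ (r * Real.cos t, r * Real.sin t) 2) = fun _ => φ (r, 0) 2 := by
    funext t; rw [← rot_axis, eq2 he]
  rw [e0] at g0
  rw [e1] at g1
  rw [e2] at g2
  have k0 := (hN.cos.mul_const (φ (r, 0) 0)).sub (hN.sin.mul_const (φ (r, 0) 1))
  have k1 := (hN.sin.mul_const (φ (r, 0) 0)).add (hN.cos.mul_const (φ (r, 0) 1))
  have f0 := congrFun e0 θ
  have f1 := congrFun e1 θ
  refine ⟨?_, ?_, ?_⟩
  · have := g0.unique k0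
    rw [this, f1]; ring
  · have := g1.unique k1
    rw [this, f0]; ring
  · exact g2.unique (hasDerivAt_const θ _)

/-- The degree density of an equivariant map. -/
theorem q0_polar (he : Equivariant N φ A) (hφ : ContDiff ℝ ∞ φ)
    (hs : ∀ x, dotProduct (φ x) (φ x) = 1) (r θ : ℝ) :
    r * q0 φ (r * Real.cos θ, r * Real.sin θ) = N * pd1 (uu φ) (r, 0) := by
  obtain ⟨a0, a1, a2⟩ := ang he hφ r θ
  have d0 := dd (comp_cd hφ 0)
  have d1 := dd (comp_cd hφ 1)
  have d2 := dd (comp_cd hφ 2)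
  have hsc := Real.sin_sq_add_cos_sq θ
  set x : ℝ × ℝ := (r * Real.cos θ, r * Real.sin θ) with hx
  have hd := hφ.differentiable (by simp) x
  have h0 := sph3 hs x
  -- tangency of the radial derivative
  have t1 := tang1 (A := fun _ => ((0 : ℝ), (0 : ℝ))) hφ hs x
  have t2 := tang2 (A := fun _ => ((0 : ℝ), (0 : ℝ))) hφ hs x
  rw [cov1_0 hφ, cov1_1 hφ, cov1_2 hφ] at t1
  rw [cov2_0 hφ, cov2_1 hφ, cov2_2 hφ] at t2
  -- radial derivative of u
  have hU : pd1 (uu φ) (r, 0) = -(pd1 (fun y => φ y 2) x * Real.cos θ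
      + pd2 (fun y => φ y 2) x * Real.sin θ) := by
    have p1 := hasDerivAt_line1 (dd (cd_uu hφ)) r 0
    have p2 := polar_r d2 r θ
    have e : (fun t => uu φ (t, 0)) = fun t => 1 - φ (t * Real.cos θ, t * Real.sin θ) 2 := by
      funext t
      rw [← rot_axis, eq2 he]; rfl
    rw [e] at p1
    exact p1.unique (p2.const_sub 1)
  rw [hU]
  unfold q0
  rw [dot3, cross_0, cross_1, cross_2, pd1_apply hd 0, pd1_apply hd 1, pd1_apply hd 2,
    pd2_apply hd 0, pd2_apply hd 1, pd2_apply hd 2]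
  generalize pd1 (fun y => φ y 0) x = p0 at *
  generalize pd1 (fun y => φ y 1) x = p1 at *
  generalize pd1 (fun y => φ y 2) x = p2 at *
  generalize pd2 (fun y => φ y 0) x = q0 at *
  generalize pd2 (fun y => φ y 1) x = q1 at *
  generalize pd2 (fun y => φ y 2) x = q2 at *
  generalize φ x 0 = a at *
  generalize φ x 1 = b at *
  generalize φ x 2 = c at *
  set C := Real.cos θ
  set S := Real.sin θ
  simp only [zero_mul, sub_zero, add_zero] at t1 t2
  -- R = C p + S q radial, T = -S p + C q angular/r ; r T = N (-b, a, 0)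
  linear_combination
    (-(a * ((p1 * q2 - p2 * q1)) + b * ((p2 * q0 - p0 * q2)) + c * (p0 * q1 - p1 * q0)) * r) * hsc
    + (a * (-(C * p2 + S * q2)) * 1 + c * (C * p0 + S * q0)) * a1
    + (b * (C * p2 + S * q2) - c * (C * p1 + S * q1)) * a0
    + (a * (C * p1 + S * q1) - b * (C * p0 + S * q0)) * a2
    + (N * (-(C * p2 + S * q2))) * h0 + (N * c * C) * t1 + (N * c * S) * t2

end Run7.h887
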