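import Pool.Agent.Run7.h887.Equi

/-! The degree of a rotationally equivariant configuration. -/

namespace Run7.h887

open MeasureTheory Filter Topology Set
open scoped ContDiff Real

variable {φ : ℝ × ℝ → Fin 3 → ℝ} {A : ℝ × ℝ → ℝ × ℝ} {N : ℤ}

theorem deg_cut (h : IsConfig φ A) (he : Equivariant N φ A) {k : ℝ} (hk : 0 < k) :
    ∫ x, et k (uu φ x) * q0 φ x = -(2 * π * N * Hk k (uu φ (0, 0))) := by
  have hφ := h.smooth_phi
  have hs := h.sphere
  have hu := cd_uu hφ
  obtain ⟨i3, _, _⟩ := cov_id h hk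
  obtain ⟨j1, j2⟩ := polar_integral i3
  rw [← j2]
  have e : ∀ r, r * cir (fun x => et k (uu φ x) * q0 φ x) r
      = 2 * π * N * (et k (uu φ (r, 0)) * pd1 (uu φ) (r, 0)) := by
    intro r
    unfold cir
    rw [← intervalIntegral.integral_const_mul]
    have hpt : ∀ θ : ℝ, r * (et k (uu φ (r * Real.cos θ, r * Real.sin θ))
        * q0 φ (r * Real.cos θ, r * Real.sin θ))
        = N * (et k (uu φ (r, 0)) * pd1 (uu φ) (r, 0)) := by
      intro θ
      have h1 := q0_polar he hφ hs r θ
      have h2 : uu φ (r * Real.cos θ, r * Real.sin θ) = uu φ (r, 0) := by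
        rw [← rot_axis, uu_rot he]
      rw [h2]
      linear_combination et k (uu φ (r, 0)) * h1
    simp only [hpt]
    rw [intervalIntegral.integral_const, smul_eq_mul]; ring
  have ht := intervalIntegral_tendsto_integral_Ioi (0 : ℝ) j1 tendsto_id
  have hd : ∀ r, HasDerivAt (fun r => Hk k (uu φ (r, 0)))
      (et k (uu φ (r, 0)) * pd1 (uu φ) (r, 0)) r := by
    intro r
    exact (Hk_deriv k (uu φ (r, 0))).comp r (hasDerivAt_line1 (dd hu) r 0)
  have hcont : Continuous (fun r : ℝ => et k (uu φ (r, 0)) * pd1 (uu φ) (r, 0)) := by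
    have h1 : Continuous (fun r : ℝ => ((r, 0) : ℝ × ℝ)) := by fun_prop
    exact ((et_cont k).comp (hu.continuous.comp h1)).mul ((cd_pd1 hu).continuous.comp h1)
  obtain ⟨R, hR, hfar⟩ := far_of_tendsto (uu_tendsto h) (δ := 1 / k) (by positivity)
  have hev : (fun r : ℝ => ∫ s in (0 : ℝ)..(id r),
      s * cir (fun x => et k (uu φ x) * q0 φ x) s)
      =ᶠ[atTop] fun _ => -(2 * π * N * Hk k (uu φ (0, 0))) := by
    filter_upwards [eventually_gt_atTop (2 * R)] with r hr
    rw [id]
    simp only [e]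
    rw [intervalIntegral.integral_const_mul,
      intervalIntegral.integral_eq_sub_of_hasDerivAt (fun s _ => hd s)
        (hcont.intervalIntegrable _ _)]
    have hz : Hk k (uu φ (r, 0)) = 0 := by
      apply Hk_zero hk
      have h1 := norm_polar hR hr 0
      rw [Real.cos_zero, Real.sin_zero, mul_one, mul_zero] at h1
      exact (hfar _ h1).le
    rw [hz]; ring
  exact tendsto_nhds_unique ht (tendsto_const_nhds.congr' hev.symm)

/-- The degree in terms of the winding number and the value at the centre. -/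
theorem degLim_equi (h : IsConfig φ A) (he : Equivariant N φ A) {δ : ℝ} (hd : IsDegLim φ δ) :
    2 * δ = -(N * uu φ (0, 0)) := by
  have hpi := Real.pi_pos
  have h1 : Tendsto (fun k : ℕ => -(2 * π * N * Hk ((k : ℝ) + 1) (uu φ (0, 0)))) atTop
      (𝓝 (-(2 * π * N * uu φ (0, 0)))) :=
    ((Hk_lim (uu_nonneg h.sphere (0, 0))).const_mul (2 * π * (N : ℝ))).neg
  have h2 : (fun k : ℕ => ∫ x, et (k + 1) (uu φ x) * q0 φ x)
      = fun k : ℕ => -(2 * π * N * Hk ((k : ℝ) + 1) (uu φ (0, 0))) := by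
    funext k
    exact deg_cut h he (k := (k : ℝ) + 1) (by positivity)
  unfold IsDegLim at hd
  rw [h2] at hd
  have h3 := tendsto_nhds_unique h1 hd
  have h4 : 2 * π * (2 * δ + N * uu φ (0, 0)) = 0 := by linear_combination -h3
  have h5 := (mul_eq_zero.1 h4).resolve_left (by positivity)
  linarith

theorem centre (he : Equivariant N φ A) (hN : N ≠ 0) : φ (0, 0) 0 = 0 ∧ φ (0, 0) 1 = 0 := by
  have hN' : (N : ℝ) ≠ 0 := by exact_mod_cast hN
  have h0 := eq0 he (π / N) (0, 0)
  have h1 := eq1 he (π / N) (0, 0)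
  have e : rot (π / N) (0, 0) = (0, 0) := by
    unfold rot; simp
  rw [e, mul_div_cancel₀ _ hN', Real.cos_pi, Real.sin_pi] at h0 h1
  constructor <;> linarith

/-- A rotationally equivariant configuration of degree `±1` has winding number `±1` and
`φ = -n` at the centre. -/
theorem centre_of_deg (h : IsConfig φ A) (he : Equivariant N φ A) {δ : ℝ} (hd : IsDegLim φ δ)
    (h1 : δ = 1 ∨ δ = -1) :
    φ (0, 0) 0 = 0 ∧ φ (0, 0) 1 = 0 ∧ φ (0, 0) 2 = -1 ∧ (N : ℝ) ^ 2 = 1 := by
  have hf := degLim_equi h he hd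
  have hN : N ≠ 0 := by
    rintro rfl
    rw [Int.cast_zero, zero_mul, neg_zero] at hf
    rcases h1 with h1 | h1 <;> rw [h1] at hf <;> norm_num at hf
  obtain ⟨c0, c1⟩ := centre he hN
  have h3 := sph3 h.sphere (0, 0)
  rw [c0, c1] at h3
  have h4 : (φ (0, 0) 2 - 1) * (φ (0, 0) 2 + 1) = 0 := by linarith
  rcases mul_eq_zero.1 h4 with h5 | h5
  · exfalso
    have h6 : uu φ (0, 0) = 0 := by unfold uu; linarith
    rw [h6, mul_zero, neg_zero] at hf
    rcases h1 with h1 | h1 <;> rw [h1] at hf <;> norm_num at hf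
  · have h6 : uu φ (0, 0) = 2 := by unfold uu; linarith
    refine ⟨c0, c1, by linarith, ?_⟩
    rw [h6] at hf
    have h7 : δ = -(N : ℝ) := by linarith
    rcases h1 with h1 | h1
    · have : (N : ℝ) = -1 := by linarith
      rw [this]; norm_num
    · have : (N : ℝ) = 1 := by linarith
      rw [this]; norm_num

end Run7.h887
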