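import Pool.Agent.Run7.h887.Equi2

/-! The equations on the axis of a rotationally equivariant critical point. -/

namespace Run7.h887

open MeasureTheory Filter Topology Set
open scoped ContDiff Real

variable {φ : ℝ × ℝ → Fin 3 → ℝ} {A : ℝ × ℝ → ℝ × ℝ} {N : ℤ}

theorem ang0 {f : ℝ × ℝ → ℝ} (hf : Differentiable ℝ f) (t : ℝ) :
    HasDerivAt (fun θ => f (t * Real.cos θ, t * Real.sin θ)) (t * pd2 f (t, 0)) 0 := by
  have h := polar_t hf t 0
  refine h.congr_deriv ?_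
  simp only [Real.cos_zero, Real.sin_zero, mul_one, mul_zero, neg_zero]
  ring

theorem cs0 (n a b : ℝ) :
    HasDerivAt (fun θ : ℝ => Real.cos (n * θ) * a - Real.sin (n * θ) * b) (-(n * b)) 0 := by
  have hN : HasDerivAt (fun t : ℝ => n * t) n 0 := by
    simpa using (hasDerivAt_id (0 : ℝ)).const_mul n
  refine ((hN.cos.mul_const a).sub (hN.sin.mul_const b)).congr_deriv ?_
  simp only [mul_zero, Real.cos_zero, Real.sin_zero]
  ring

theorem sn0 (n a b : ℝ) :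
    HasDerivAt (fun θ : ℝ => Real.sin (n * θ) * a + Real.cos (n * θ) * b) (n * a) 0 := by
  have hN : HasDerivAt (fun t : ℝ => n * t) n 0 := by
    simpa using (hasDerivAt_id (0 : ℝ)).const_mul n
  refine ((hN.sin.mul_const a).add (hN.cos.mul_const b)).congr_deriv ?_
  simp only [mul_zero, Real.cos_zero, Real.sin_zero]
  ring

theorem cov2_ang {f g : ℝ × ℝ → ℝ} (hf : Differentiable ℝ f) (hg : Differentiable ℝ g) (t : ℝ)
    {w : ℝ → ℝ} {w' : ℝ} (hw : HasDerivAt w w' 0)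
    (h : ∀ θ : ℝ, -(Real.sin θ * f (t * Real.cos θ, t * Real.sin θ))
      + Real.cos θ * g (t * Real.cos θ, t * Real.sin θ) = w θ) :
    t * pd2 g (t, 0) = f (t, 0) + w' := by
  have h1 := (((Real.hasDerivAt_sin 0).fun_mul (ang0 hf t)).fun_neg).fun_add
    ((Real.hasDerivAt_cos 0).fun_mul (ang0 hg t))
  have e : (fun θ : ℝ => -(Real.sin θ * f (t * Real.cos θ, t * Real.sin θ))
      + Real.cos θ * g (t * Real.cos θ, t * Real.sin θ)) = w := funext h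
  rw [e] at h1
  have h2 := h1.unique hw
  simp only [mul_zero, Real.cos_zero, Real.sin_zero, mul_one, one_mul, zero_mul, neg_zero,
    add_zero, zero_add] at h2
  linarith

/-- The function `v = N + t A_2` on the axis. -/
noncomputable def vv (N : ℤ) (A : ℝ × ℝ → ℝ × ℝ) (t : ℝ) : ℝ := N + t * (A (t, 0)).2

theorem ax_A (he : Equivariant N φ A) (hA : ContDiff ℝ ∞ A) (t : ℝ) :
    t * pd2 (fun x => (A x).1) (t, 0) = -(A (t, 0)).2 := by
  have h1 : Differentiable ℝ (fun x => (A x).1) := dd (contDiff_fst.comp hA)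
  have g := ang0 h1 t
  have e : (fun θ : ℝ => (A (t * Real.cos θ, t * Real.sin θ)).1)
      = fun θ : ℝ => Real.cos (1 * θ) * (A (t, 0)).1 - Real.sin (1 * θ) * (A (t, 0)).2 := by
    funext θ
    rw [← rot_axis, eqA1 he, one_mul]
  rw [e] at g
  have := g.unique (cs0 1 _ _)
  linarith

theorem ax_phi (he : Equivariant N φ A) (hφ : ContDiff ℝ ∞ φ) (t : ℝ) :
    t * pd2 (fun x => φ x 0) (t, 0) = -(N * φ (t, 0) 1) ∧
    t * pd2 (fun x => φ x 1) (t, 0) = N * φ (t, 0) 0 ∧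
    t * pd2 (fun x => φ x 2) (t, 0) = 0 := by
  obtain ⟨a0, a1, a2⟩ := ang he hφ t 0
  simp only [mul_zero, Real.cos_zero, Real.sin_zero, mul_one, neg_zero, zero_add] at a0 a1 a2
  exact ⟨by linarith, by linarith, by linarith⟩

theorem ax_Q (he : Equivariant N φ A) (hφ : ContDiff ℝ ∞ φ) (t : ℝ) :
    t * cov2 A φ (t, 0) 0 = -(vv N A t * φ (t, 0) 1) ∧
    t * cov2 A φ (t, 0) 1 = vv N A t * φ (t, 0) 0 ∧
    t * cov2 A φ (t, 0) 2 = 0 := by
  obtain ⟨a0, a1, a2⟩ := ax_phi he hφ t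
  rw [cov2_0 hφ, cov2_1 hφ, cov2_2 hφ]
  unfold vv
  exact ⟨by linear_combination a0, by linear_combination a1, a2⟩

theorem ax_QQ (he : Equivariant N φ A) (hφ : ContDiff ℝ ∞ φ) (hA : ContDiff ℝ ∞ A) (t : ℝ) :
    t * cov2 A (cov2 A φ) (t, 0) 0
      = cov1 A φ (t, 0) 0 - vv N A t * cov2 A φ (t, 0) 1 ∧
    t * cov2 A (cov2 A φ) (t, 0) 1
      = cov1 A φ (t, 0) 1 + vv N A t * cov2 A φ (t, 0) 0 ∧
    t * cov2 A (cov2 A φ) (t, 0) 2 = cov1 A φ (t, 0) 2 := by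
  have hP := cd_cov1 hA hφ
  have hQ := cd_cov2 hA hφ
  have b0 := cov2_ang (dd (comp_cd hP 0)) (dd (comp_cd hQ 0)) t
    (cs0 N (cov2 A φ (t, 0) 0) (cov2 A φ (t, 0) 1)) (fun θ => by
      rw [← rot_axis]; exact (cov_rot he hφ θ (t, 0)).2.2.2.1)
  have b1 := cov2_ang (dd (comp_cd hP 1)) (dd (comp_cd hQ 1)) t
    (sn0 N (cov2 A φ (t, 0) 0) (cov2 A φ (t, 0) 1)) (fun θ => by
      rw [← rot_axis]; exact (cov_rot he hφ θ (t, 0)).2.2.2.2.1)
  have b2 := cov2_ang (dd (comp_cd hP 2)) (dd (comp_cd hQ 2)) t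
    (hasDerivAt_const (0 : ℝ) (cov2 A φ (t, 0) 2)) (fun θ => by
      rw [← rot_axis]; exact (cov_rot he hφ θ (t, 0)).2.2.2.2.2)
  rw [cov2_0 hQ, cov2_1 hQ, cov2_2 hQ]
  unfold vv
  exact ⟨by linear_combination b0, by linear_combination b1, by linear_combination b2⟩

theorem ax_F (he : Equivariant N φ A) (hA : ContDiff ℝ ∞ A) (hc : IsCritical φ A) {t : ℝ}
    (ht : t ≠ 0) :
    φ (t, 0) 0 * cov1 A φ (t, 0) 1 - φ (t, 0) 1 * cov1 A φ (t, 0) 0 = 0 := by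
  have g := ang0 (dd (cd_fld hA)) t
  have e : (fun θ : ℝ => fld A (t * Real.cos θ, t * Real.sin θ)) = fun _ => fld A (t, 0) := by
    funext θ
    rw [← rot_axis, fld_rot he hA]
  rw [e] at g
  have h1 := g.unique (hasDerivAt_const _ _)
  have h2 := (mul_eq_zero.1 h1).resolve_left ht
  rw [pd2_fld hc] at h2
  linarith

section ode

variable (h : IsConfig φ A) (hc : IsCritical φ A) (he : Equivariant N φ A)

include h in
theorem ax_X (t : ℝ) :
    HasDerivAt (fun t => φ (t, 0) 0) (cov1 A φ (t, 0) 0 + (A (t, 0)).1 * φ (t, 0) 1) t ∧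
    HasDerivAt (fun t => φ (t, 0) 1) (cov1 A φ (t, 0) 1 - (A (t, 0)).1 * φ (t, 0) 0) t ∧
    HasDerivAt (fun t => φ (t, 0) 2) (cov1 A φ (t, 0) 2) t := by
  have hφ := h.smooth_phi
  have g0 := hasDerivAt_line1 (dd (comp_cd hφ 0)) t 0
  have g1 := hasDerivAt_line1 (dd (comp_cd hφ 1)) t 0
  have g2 := hasDerivAt_line1 (dd (comp_cd hφ 2)) t 0
  refine ⟨g0.congr_deriv ?_, g1.congr_deriv ?_, g2.congr_deriv ?_⟩
  · rw [cov1_0 hφ]; ring
  · rw [cov1_1 hφ]; ring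
  · rw [cov1_2 hφ]

/-- The multiplier on the axis. -/
noncomputable def lam (φ : ℝ × ℝ → Fin 3 → ℝ) (A : ℝ × ℝ → ℝ × ℝ) (t : ℝ) : ℝ :=
  -(ee φ A (t, 0)) + (1 - φ (t, 0) 2) * φ (t, 0) 2

include h hc he in
theorem ax_P {t : ℝ} (ht : t ≠ 0) :
    HasDerivAt (fun t => cov1 A φ (t, 0) 0)
      ((lam φ A t + vv N A t ^ 2 / t ^ 2) * φ (t, 0) 0 - cov1 A φ (t, 0) 0 / t
        + (A (t, 0)).1 * cov1 A φ (t, 0) 1) t ∧
    HasDerivAt (fun t => cov1 A φ (t, 0) 1)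
      ((lam φ A t + vv N A t ^ 2 / t ^ 2) * φ (t, 0) 1 - cov1 A φ (t, 0) 1 / t
        - (A (t, 0)).1 * cov1 A φ (t, 0) 0) t ∧
    HasDerivAt (fun t => cov1 A φ (t, 0) 2)
      (lam φ A t * φ (t, 0) 2 - (1 - φ (t, 0) 2) - cov1 A φ (t, 0) 2 / t) t := by
  have hφ := h.smooth_phi
  have hA := h.smooth_A
  have hP := cd_cov1 hA hφ
  have g0 := hasDerivAt_line1 (dd (comp_cd hP 0)) t 0
  have g1 := hasDerivAt_line1 (dd (comp_cd hP 1)) t 0
  have g2 := hasDerivAt_line1 (dd (comp_cd hP 2)) t 0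
  obtain ⟨s0, s1, s2⟩ := sigma_solved hφ hA h.sphere hc (t, 0)
  obtain ⟨q0, q1, q2⟩ := ax_Q he hφ t
  obtain ⟨r0, r1, r2⟩ := ax_QQ he hφ hA t
  rw [cov1_0 hP] at s0
  rw [cov1_1 hP] at s1
  rw [cov1_2 hP] at s2
  have l0 : lam φ A t = -(ee φ A (t, 0)) + (1 - φ (t, 0) 2) * φ (t, 0) 2 := rfl
  rw [← l0] at s0 s1 s2
  generalize lam φ A t = L at *
  generalize cov2 A (cov2 A φ) (t, 0) 0 = R0 at *
  generalize cov2 A (cov2 A φ) (t, 0) 1 = R1 at *
  generalize cov2 A (cov2 A φ) (t, 0) 2 = R2 at *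
  refine ⟨g0.congr_deriv ?_, g1.congr_deriv ?_, g2.congr_deriv ?_⟩
  · have e : t ^ 2 * R0 = t * cov1 A φ (t, 0) 0 - vv N A t ^ 2 * φ (t, 0) 0 := by
      linear_combination t * r0 - vv N A t * q1
    have e' : R0 = cov1 A φ (t, 0) 0 / t - vv N A t ^ 2 / t ^ 2 * φ (t, 0) 0 := by
      field_simp; linarith
    rw [e'] at s0
    linear_combination s0
  · have e : t ^ 2 * R1 = t * cov1 A φ (t, 0) 1 - vv N A t ^ 2 * φ (t, 0) 1 := by
      linear_combination t * r1 + vv N A t * q0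
    have e' : R1 = cov1 A φ (t, 0) 1 / t - vv N A t ^ 2 / t ^ 2 * φ (t, 0) 1 := by
      field_simp; linarith
    rw [e'] at s1
    linear_combination s1
  · have e' : R2 = cov1 A φ (t, 0) 2 / t := by
      field_simp; linarith
    rw [e'] at s2
    linear_combination s2

include h he in
theorem ax_v (t : ℝ) : HasDerivAt (vv N A) (t * fld A (t, 0)) t := by
  have hA := h.smooth_A
  have h2 : Differentiable ℝ (fun x => (A x).2) := dd (contDiff_snd.comp hA)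
  have g := hasDerivAt_line1 h2 t 0
  have g1 := ((hasDerivAt_id' t).fun_mul g).const_add (N : ℝ)
  refine g1.congr_deriv ?_
  have := ax_A he hA t
  unfold fld
  linear_combination this

include h hc he in
theorem ax_b {t : ℝ} (ht : t ≠ 0) : HasDerivAt (fun t => fld A (t, 0))
    (vv N A t * (φ (t, 0) 0 ^ 2 + φ (t, 0) 1 ^ 2) / t) t := by
  have hφ := h.smooth_phi
  have hA := h.smooth_A
  have g := hasDerivAt_line1 (dd (cd_fld hA)) t 0
  refine g.congr_deriv ?_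
  rw [pd1_fld hc, eq_div_iff ht]
  obtain ⟨q0, q1, q2⟩ := ax_Q he hφ t
  linear_combination φ (t, 0) 0 * q1 - φ (t, 0) 1 * q0

include h he in
theorem ax_dens (t : ℝ) : t ^ 2 * dens φ A (t, 0)
    = t ^ 2 * (cov1 A φ (t, 0) 0 ^ 2 + cov1 A φ (t, 0) 1 ^ 2 + cov1 A φ (t, 0) 2 ^ 2)
      + vv N A t ^ 2 * (φ (t, 0) 0 ^ 2 + φ (t, 0) 1 ^ 2)
      + t ^ 2 * (1 - φ (t, 0) 2) ^ 2 + t ^ 2 * fld A (t, 0) ^ 2 := by
  obtain ⟨q0, q1, q2⟩ := ax_Q he h.smooth_phi t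
  have e : uu φ (t, 0) = 1 - φ (t, 0) 2 := rfl
  rw [dens_eq, e]
  unfold ee
  rw [dot3, dot3]
  generalize cov2 A φ (t, 0) 0 = Q0 at *
  generalize cov2 A φ (t, 0) 1 = Q1 at *
  generalize cov2 A φ (t, 0) 2 = Q2 at *
  linear_combination (t * Q0 - vv N A t * φ (t, 0) 1) * q0
    + (t * Q1 + vv N A t * φ (t, 0) 0) * q1 + t * Q2 * q2

include h he in
theorem ax_cir (t : ℝ) : cir (dens φ A) t = 2 * π * dens φ A (t, 0) := by
  unfold cir
  have : ∀ θ : ℝ, dens φ A (t * Real.cos θ, t * Real.sin θ) = dens φ A (t, 0) := by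
    intro θ
    rw [← rot_axis, dens_rot he h.smooth_phi h.smooth_A]
  simp only [this]
  rw [intervalIntegral.integral_const, smul_eq_mul]; ring

end ode

end Run7.h887
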