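import Pool.Agent.Run7.h887.Rad3

/-! The radial system in degree one: the overshooting solutions do not exist. -/

namespace Run7.h887

open Filter Topology Set MeasureTheory
open scoped Real

namespace Shape

variable {y z p v b : ℝ → ℝ} {ρ₁ ρ₂ B ρa ρb : ℝ} (g : Shape y z p v b ρ₁ ρ₂ B)
  (h : RadSol y z p v b)

include g h

theorem S9 (r : ℝ) (hr : 0 ≤ r) : 1 - v r ≤ 2 * ((B + 2) / 4) * r ^ 2 := by
  have hb0' : -(B + 2) ≤ b 0 := by
    have := g.Qge 0 le_rfl g.r1.le
    rw [h.z0] at this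
    linarith
  have h1 := inc (f := fun s => v s + (B + 2) / 2 * s ^ 2)
    (f' := fun s => s * b s + (B + 2) / 2 * (2 * s)) hr
    (by
      have h5 := h.cv.mono (fun s hs => hs.1 : Icc 0 r ⊆ Ici 0)
      fun_prop)
    (fun s hs => (h.hv s hs.1).fun_add ((hsqd s).const_mul _))
    (fun s hs => by
      have hs0 : 0 < s := hs.1
      have h2 := h.b_mono le_rfl hs0.le
      have e : s * b s + (B + 2) / 2 * (2 * s) = s * (b s + (B + 2)) := by ring
      rw [e]
      exact mul_nonneg hs0.le (by linarith))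
  simp only [h.v0] at h1
  linarith

omit g in
theorem wd (s : ℝ) (hs : 0 < s) (hz : 0 < 1 + z s) :
    HasDerivAt (fun s => y s / (1 + z s)) (p s / (s * (1 + z s))) s := by
  have hsp := h.sph s hs.le
  refine ((h.hy s hs).fun_div ((h.hz s hs).const_add 1) hz.ne').congr_deriv ?_
  field_simp
  linear_combination (p s) * hsp

variable (m : Mid y z ρ₁ ρ₂ ρa ρb)

include m

theorem zpos1 (s : ℝ) (h1 : ρa ≤ s) (h2 : s ≤ ρ₁) : 0 ≤ z s := by
  have := g.zmono h ρa s m.a0.le h1 h2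
  rw [m.za] at this; exact this

theorem zpos2 (s : ℝ) (h1 : ρ₁ ≤ s) (h2 : s ≤ ρb) : 0 ≤ z s := by
  have := g.zanti h s ρb h1 h2 m.b2.le
  rw [m.zb] at this; exact this

theorem S10 : -(p ρa + v ρa * y ρa) ≤ B / 2 * ρa ^ 2 := by
  have hB := g.B0
  have h1 := inc (f := fun s => (p s + v s * y s) + B / 2 * s ^ 2)
    (f' := fun s => (v s * z s * (p s + v s * y s) + s ^ 2 * y s * (b s + (1 - z s))) / s
      + B / 2 * (2 * s)) m.a0.le
    (by
      have h5 := h.cP.mono (fun s hs => hs.1 : Icc 0 ρa ⊆ Ici 0)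
      fun_prop)
    (fun s hs => (h.hP s hs.1).fun_add ((hsqd s).const_mul _))
    (fun s hs => by
      have hs0 : 0 < s := hs.1
      have hs1 : s < ρ₁ := hs.2.trans m.a1
      have h2 := g.zmono h s ρa hs0.le hs.2.le m.a1.le
      rw [m.za] at h2
      have h3 := g.Pneg s hs0 hs1
      have h4 := h.vpos s hs0.le
      have h5 := g.Qge s hs0.le hs1.le
      have h6 := g.ypos s hs0 hs1
      have h7 := h.yle s hs0.le
      have e : (v s * z s * (p s + v s * y s) + s ^ 2 * y s * (b s + (1 - z s))) / s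
          + B / 2 * (2 * s)
          = (v s * (z s * (p s + v s * y s)) + s ^ 2 * (y s * (b s + (1 - z s)) + B)) / s := by
        field_simp
        ring
      rw [e]
      apply div_nonneg _ hs0.le
      have h8 : 0 ≤ z s * (p s + v s * y s) := mul_nonneg_of_nonpos_of_nonpos h2 h3.le
      have h9 : 0 ≤ y s * (b s + (1 - z s)) + B := by
        have a1 := mul_le_mul_of_nonneg_left h5 h6.le
        have a2 : y s * B ≤ 1 * B := mul_le_mul_of_nonneg_right h7 hB.le
        linarith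
      positivity)
  simp only [h.p0, h.y0] at h1
  linarith

theorem S11 (r : ℝ) (hr1 : ρa ≤ r) (hr2 : r ≤ ρ₁) :
    r * (y r / (1 + z r)) ≤ ρa * Real.exp ((B + 2) / 4 * ρ₁ ^ 2) := by
  have hB := g.B0
  have ha0 := m.a0
  set κ := (B + 2) / 4 with hκ
  have hκ0 : 0 < κ := by positivity
  have h1 := dec (f := fun s => (s * (y s / (1 + z s))) * Real.exp (-κ * s ^ 2))
    (f' := fun s => (1 * (y s / (1 + z s)) + s * (p s / (s * (1 + z s))))
      * Real.exp (-κ * s ^ 2) + (s * (y s / (1 + z s))) * (2 * (-κ) * s * Real.exp (-κ * s ^ 2)))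
    hr1
    (fun s hs => by
      have hs0 := lt_of_lt_of_le ha0 hs.1
      have hz := g.zpos1 h m s hs.1 (hs.2.trans hr2)
      exact (((hasDerivAt_id s).fun_mul (wd h s hs0 (by linarith))).fun_mul
        (hexpd s (-κ))).continuousAt.continuousWithinAt)
    (fun s hs => by
      have hs0 := ha0.trans hs.1
      have hz := g.zpos1 h m s hs.1.le (hs.2.le.trans hr2)
      exact ((hasDerivAt_id s).fun_mul (wd h s hs0 (by linarith))).fun_mul (hexpd s (-κ)))
    (fun s hs => by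
      have hs0 := ha0.trans hs.1
      have hs1 := lt_of_lt_of_le hs.2 hr2
      have hz := g.zpos1 h m s hs.1.le hs1.le
      have h2 := g.Pneg s hs0 hs1
      have h3 := g.ypos s hs0 hs1
      have h4 := g.S9 h s hs0.le
      rw [← hκ] at h4
      have h5 := Real.exp_pos (-κ * s ^ 2)
      have h6 : 0 < 1 + z s := by linarith
      have e : (1 * (y s / (1 + z s)) + s * (p s / (s * (1 + z s)))) * Real.exp (-κ * s ^ 2)
          + (s * (y s / (1 + z s))) * (2 * (-κ) * s * Real.exp (-κ * s ^ 2))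
          = ((p s + v s * y s) + y s * (1 - v s - 2 * κ * s ^ 2)) / (1 + z s)
            * Real.exp (-κ * s ^ 2) := by
        field_simp
        ring
      rw [e]
      apply mul_nonpos_of_nonpos_of_nonneg _ h5.le
      apply div_nonpos_of_nonpos_of_nonneg _ h6.le
      have h7 : 1 - v s - 2 * κ * s ^ 2 ≤ 0 := by linarith
      have h8 := mul_nonpos_of_nonneg_of_nonpos h3.le h7
      linarith)
  simp only [m.ya, m.za] at h1
  have hr0 := lt_of_lt_of_le ha0 hr1
  have h2 : Real.exp (-κ * ρa ^ 2) ≤ 1 := Real.exp_le_one_iff.2 (by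
    have : 0 ≤ κ * ρa ^ 2 := by positivity
    linarith)
  have h3 : r * (y r / (1 + z r)) * Real.exp (-κ * r ^ 2) ≤ ρa := by
    refine h1.trans ?_
    have : ρa * (1 / (1 + 0)) * Real.exp (-κ * ρa ^ 2) = ρa * Real.exp (-κ * ρa ^ 2) := by ring
    rw [this]
    calc ρa * Real.exp (-κ * ρa ^ 2) ≤ ρa * 1 := mul_le_mul_of_nonneg_left h2 ha0.le
      _ = ρa := mul_one _
  have h4 : r * (y r / (1 + z r))
      = (r * (y r / (1 + z r)) * Real.exp (-κ * r ^ 2)) * Real.exp (κ * r ^ 2) := by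
    rw [mul_assoc, ← Real.exp_add]
    have : -κ * r ^ 2 + κ * r ^ 2 = 0 := by ring
    rw [this, Real.exp_zero, mul_one]
  rw [h4]
  have h5 : Real.exp (κ * r ^ 2) ≤ Real.exp (κ * ρ₁ ^ 2) := Real.exp_le_exp.2
    (mul_le_mul_of_nonneg_left (pow_le_pow_left₀ hr0.le hr2 2) hκ0.le)
  exact mul_le_mul h3 h5 (Real.exp_pos _).le ha0.le

theorem S12 {c1 : ℝ} (hc1 : Real.exp ((B + 2) / 4 * ρ₁ ^ 2) = c1) :
    -p ρ₁ / ρ₁ ≤ B * ρa * (1 / 2 + 2 * c1 * (Real.log ρ₁ - Real.log ρa)) := by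
  have hB := g.B0
  have ha0 := m.a0
  have r1 := g.r1
  have h1 := inc (f := fun s => (p s + v s * y s) / s + (2 * B * c1 * ρa) * Real.log s)
    (f' := fun s => ((v s * z s * (p s + v s * y s) + s ^ 2 * y s * (b s + (1 - z s))) / s * s
      - (p s + v s * y s) * 1) / s ^ 2 + (2 * B * c1 * ρa) * (1 / s)) m.a1.le
    (fun s hs => by
      have hs0 := lt_of_lt_of_le ha0 hs.1
      exact (((h.hP s hs0).fun_div (hasDerivAt_id s) hs0.ne').fun_add
        ((hlogd s hs0).const_mul _)).continuousAt.continuousWithinAt)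
    (fun s hs => by
      have hs0 := ha0.trans hs.1
      exact ((h.hP s hs0).fun_div (hasDerivAt_id s) hs0.ne').fun_add ((hlogd s hs0).const_mul _))
    (fun s hs => by
      have hs0 := ha0.trans hs.1
      have hs1 := hs.2
      have hz := g.zpos1 h m s hs.1.le hs1.le
      have hz1 := h.zle s hs0.le
      have h2 := g.Pneg s hs0 hs1
      have h3 := g.ypos s hs0 hs1
      have h4 := h.vpos s hs0.le
      have h5 := h.vle s hs0.le
      have h6 := g.Qge s hs0.le hs1.le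
      have h7 := g.S11 h m s hs.1.le hs1.le
      rw [hc1] at h7
      have h8 : 0 < 1 + z s := by linarith
      have h9 : s * y s ≤ 2 * (ρa * c1) := by
        have e : s * y s = (s * (y s / (1 + z s))) * (1 + z s) := by field_simp
        rw [e]
        have h10 : 0 ≤ s * (y s / (1 + z s)) := by positivity
        calc (s * (y s / (1 + z s))) * (1 + z s) ≤ (s * (y s / (1 + z s))) * 2 :=
              mul_le_mul_of_nonneg_left (by linarith) h10
          _ ≤ (ρa * c1) * 2 := mul_le_mul_of_nonneg_right h7 (by norm_num)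
          _ = _ := by ring
      have e : ((v s * z s * (p s + v s * y s) + s ^ 2 * y s * (b s + (1 - z s))) / s * s
          - (p s + v s * y s) * 1) / s ^ 2 + (2 * B * c1 * ρa) * (1 / s)
          = ((v s * z s - 1) * (p s + v s * y s)
            + s * (s * y s * (b s + (1 - z s)) + 2 * B * c1 * ρa)) / s ^ 2 := by
        field_simp
        ring
      rw [e]
      apply div_nonneg _ (by positivity)
      have h11 : v s * z s ≤ 1 := by
        calc v s * z s ≤ 1 * 1 := mul_le_mul h5 hz1 hz zero_le_one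
          _ = 1 := one_mul 1
      have h12 : 0 ≤ (v s * z s - 1) * (p s + v s * y s) :=
        mul_nonneg_of_nonpos_of_nonpos (by linarith) h2.le
      have h13 : 0 ≤ s * y s := by positivity
      have h14 : (s * y s) * (-B) ≤ s * y s * (b s + (1 - z s)) :=
        mul_le_mul_of_nonneg_left h6 h13
      have h15 : s * y s * B ≤ 2 * (ρa * c1) * B := mul_le_mul_of_nonneg_right h9 hB.le
      have h16 : 0 ≤ s * y s * (b s + (1 - z s)) + 2 * B * c1 * ρa := by linarith
      have := mul_nonneg hs0.le h16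
      linarith)
  simp only [g.y1] at h1
  have h10 := g.S10 h m
  have h2 : -(B / 2 * ρa) ≤ (p ρa + v ρa * y ρa) / ρa := by
    rw [le_div_iff₀ ha0]
    have : -(B / 2 * ρa) * ρa = -(B / 2 * ρa ^ 2) := by ring
    rw [this]; linarith
  have h3 : (p ρ₁ + v ρ₁ * 0) / ρ₁ = -(-p ρ₁ / ρ₁) := by ring
  rw [h3] at h1
  have e : B * ρa * (1 / 2 + 2 * c1 * (Real.log ρ₁ - Real.log ρa))
      = B / 2 * ρa + (2 * B * c1 * ρa) * Real.log ρ₁ - (2 * B * c1 * ρa) * Real.log ρa := by
    ring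
  rw [e]
  linarith

theorem S13 (r : ℝ) (hr1 : ρ₁ ≤ r) (hr2 : r ≤ ρb) :
    -(y r / (1 + z r)) ≤ r / ρb * Real.exp ((B + 2) / 4 * ρb ^ 2) := by
  have hB := g.B0
  have r1 := g.r1
  have hb0 : 0 < ρb := r1.trans m.b1
  set κ := (B + 2) / 4 with hκ
  have hκ0 : 0 < κ := by positivity
  have hr0 := lt_of_lt_of_le r1 hr1
  have h1 := inc (f := fun s => (-(y s / (1 + z s)) / s) * Real.exp (κ * s ^ 2))
    (f' := fun s => ((-(p s / (s * (1 + z s))) * s - -(y s / (1 + z s)) * 1) / s ^ 2)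
      * Real.exp (κ * s ^ 2) + (-(y s / (1 + z s)) / s) * (2 * κ * s * Real.exp (κ * s ^ 2)))
    hr2
    (fun s hs => by
      have hs0 := lt_of_lt_of_le hr0 hs.1
      have hz := g.zpos2 h m s (hr1.trans hs.1) hs.2
      exact ((((wd h s hs0 (by linarith)).fun_neg).fun_div (hasDerivAt_id s) hs0.ne').fun_mul
        (hexpd s κ)).continuousAt.continuousWithinAt)
    (fun s hs => by
      have hs0 := hr0.trans hs.1
      have hz := g.zpos2 h m s (hr1.trans hs.1.le) hs.2.le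
      exact (((wd h s hs0 (by linarith)).fun_neg).fun_div (hasDerivAt_id s) hs0.ne').fun_mul
        (hexpd s κ))
    (fun s hs => by
      have hs0 := hr0.trans hs.1
      have hs1 := lt_of_le_of_lt hr1 hs.1
      have hs2 := hs.2.trans m.b2
      have hz := g.zpos2 h m s hs1.le hs.2.le
      have h2 := g.Ptneg s hs1.le hs2
      have h3 := g.yneg s hs1 hs2
      have h4 := g.S9 h s hs0.le
      rw [← hκ] at h4
      have h5 := Real.exp_pos (κ * s ^ 2)
      have h6 : 0 < 1 + z s := by linarith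
      have e : ((-(p s / (s * (1 + z s))) * s - -(y s / (1 + z s)) * 1) / s ^ 2)
          * Real.exp (κ * s ^ 2) + (-(y s / (1 + z s)) / s) * (2 * κ * s * Real.exp (κ * s ^ 2))
          = (-(p s - v s * y s) + (-y s) * (v s - 1 + 2 * κ * s ^ 2)) / ((1 + z s) * s ^ 2)
            * Real.exp (κ * s ^ 2) := by
        field_simp
        ring
      rw [e]
      apply mul_nonneg _ h5.le
      apply div_nonneg _ (by positivity)
      have h7 : 0 ≤ v s - 1 + 2 * κ * s ^ 2 := by linarith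
      have h8 := mul_nonneg (by linarith : 0 ≤ -y s) h7
      linarith)
  simp only [m.yb, m.zb] at h1
  have h2 : -(-1 / (1 + (0 : ℝ))) / ρb = 1 / ρb := by norm_num
  rw [h2] at h1
  have hz := g.zpos2 h m r hr1 hr2
  have hyr : y r ≤ 0 := by
    rcases hr1.eq_or_lt with h3 | h3
    · rw [← h3, g.y1]
    · exact (g.yneg r h3 (lt_of_le_of_lt hr2 m.b2)).le
  have h3 : 0 ≤ -(y r / (1 + z r)) / r := by
    have : y r / (1 + z r) ≤ 0 := div_nonpos_of_nonpos_of_nonneg hyr (by linarith)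
    exact div_nonneg (by linarith) hr0.le
  have h4 : 1 ≤ Real.exp (κ * r ^ 2) := Real.one_le_exp (by positivity)
  have h5 : -(y r / (1 + z r)) / r ≤ 1 / ρb * Real.exp (κ * ρb ^ 2) := by
    calc -(y r / (1 + z r)) / r = -(y r / (1 + z r)) / r * 1 := (mul_one _).symm
      _ ≤ -(y r / (1 + z r)) / r * Real.exp (κ * r ^ 2) := mul_le_mul_of_nonneg_left h4 h3
      _ ≤ _ := h1
  rw [div_le_iff₀ hr0] at h5
  calc _ ≤ _ := h5
    _ = _ := by ring

theorem S13' {c2 : ℝ} (hc2 : Real.exp ((B + 2) / 4 * ρb ^ 2) = c2) (r : ℝ) (hr1 : ρ₁ ≤ r)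
    (hr2 : r ≤ ρb) : -y r ≤ 2 * (r / ρb * c2) := by
  have r1 := g.r1
  have hb0 : 0 < ρb := r1.trans m.b1
  have hr0 := lt_of_lt_of_le r1 hr1
  have h1 := g.S13 h m r hr1 hr2
  rw [hc2] at h1
  have hz := g.zpos2 h m r hr1 hr2
  have hz1 := h.zle r hr0.le
  have h2 : 0 < 1 + z r := by linarith
  have e : -y r = -(y r / (1 + z r)) * (1 + z r) := by field_simp
  rw [e]
  have hc2pos : 0 < c2 := by rw [← hc2]; exact Real.exp_pos _
  have h3 : 0 ≤ r / ρb * c2 := by positivity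
  calc -(y r / (1 + z r)) * (1 + z r) ≤ (r / ρb * c2) * (1 + z r) :=
        mul_le_mul_of_nonneg_right h1 h2.le
    _ ≤ (r / ρb * c2) * 2 := mul_le_mul_of_nonneg_left (by linarith) h3
    _ = _ := by ring

theorem S14 {c2 : ℝ} (hc2 : Real.exp ((B + 2) / 4 * ρb ^ 2) = c2) (r : ℝ) (hr1 : ρ₁ ≤ r)
    (hr2 : r ≤ ρb) : -(p r - v r * y r) ≤ -p ρ₁ + 2 / 3 * (B + 1) * c2 / ρb * r ^ 3 := by
  have hB := g.B0
  have r1 := g.r1
  have hb0 : 0 < ρb := r1.trans m.b1
  have hc2pos : 0 < c2 := by rw [← hc2]; exact Real.exp_pos _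
  have h1 := inc (f := fun s => (p s - v s * y s) + (2 / 3 * (B + 1) * c2 / ρb) * s ^ 3)
    (f' := fun s => (-(v s * z s * (p s - v s * y s)) - s ^ 2 * y s * (b s - (1 - z s))) / s
      + (2 / 3 * (B + 1) * c2 / ρb) * (3 * s ^ 2)) hr1
    (fun s hs => by
      have hs0 := lt_of_lt_of_le r1 hs.1
      exact ((h.hPt s hs0).fun_add ((hcubed s).const_mul _)).continuousAt.continuousWithinAt)
    (fun s hs => (h.hPt s (r1.trans hs.1)).fun_add ((hcubed s).const_mul _))
    (fun s hs => by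
      have hs0 := r1.trans hs.1
      have hsb : s ≤ ρb := hs.2.le.trans hr2
      have hz := g.zpos2 h m s hs.1.le hsb
      have h2 := g.Ptneg s hs.1.le (lt_of_le_of_lt hsb m.b2)
      have h3 := g.yneg s hs.1 (lt_of_le_of_lt hsb m.b2)
      have h4 := h.vpos s hs0.le
      have h5 := h.b_mono r1.le hs.1.le
      rw [g.b1] at h5
      have h6 := g.S13' h m hc2 s hs.1.le hsb
      have e : (-(v s * z s * (p s - v s * y s)) - s ^ 2 * y s * (b s - (1 - z s))) / s
          + (2 / 3 * (B + 1) * c2 / ρb) * (3 * s ^ 2)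
          = (v s * z s * (-(p s - v s * y s))
            + s ^ 2 * ((B + 1) * (2 * (s / ρb * c2)) + (-y s) * (b s - (1 - z s)))) / s := by
        field_simp
        ring
      rw [e]
      apply div_nonneg _ hs0.le
      have h7 : 0 ≤ v s * z s * (-(p s - v s * y s)) :=
        mul_nonneg (mul_nonneg h4.le hz) (by linarith)
      have h8 : -(B + 1) ≤ b s - (1 - z s) := by linarith
      have h9 : (-y s) * (-(B + 1)) ≤ (-y s) * (b s - (1 - z s)) :=
        mul_le_mul_of_nonneg_left h8 (by linarith)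
      have h10 : (B + 1) * (-y s) ≤ (B + 1) * (2 * (s / ρb * c2)) :=
        mul_le_mul_of_nonneg_left h6 (by linarith)
      have h11 : 0 ≤ (B + 1) * (2 * (s / ρb * c2)) + (-y s) * (b s - (1 - z s)) := by linarith
      have := mul_nonneg (sq_nonneg s) h11
      linarith)
  simp only [g.y1] at h1
  have h2 : 0 ≤ 2 / 3 * (B + 1) * c2 / ρb * ρ₁ ^ 3 := by positivity
  linarith

theorem S15 {c2 : ℝ} (hc2 : Real.exp ((B + 2) / 4 * ρb ^ 2) = c2) :
    1 / ρb ≤ -p ρ₁ / ρ₁ + 1 / 3 * (B + 1) * c2 * ρb := by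
  have hB := g.B0
  have r1 := g.r1
  have hb0 : 0 < ρb := r1.trans m.b1
  have hc2pos : 0 < c2 := by rw [← hc2]; exact Real.exp_pos _
  have hX1pos : 0 < -p ρ₁ := by have := g.p1; linarith
  have h1 := dec (f := fun s => -(y s / (1 + z s)) / s + (-p ρ₁) / s
      - (1 / 3 * (B + 1) * c2 / ρb) * s ^ 2)
    (f' := fun s => (-(p s / (s * (1 + z s))) * s - -(y s / (1 + z s)) * 1) / s ^ 2
      + (0 * s - (-p ρ₁) * 1) / s ^ 2 - (1 / 3 * (B + 1) * c2 / ρb) * (2 * s)) m.b1.le
    (fun s hs => by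
      have hs0 := lt_of_lt_of_le r1 hs.1
      have hz := g.zpos2 h m s hs.1 hs.2
      exact (((((wd h s hs0 (by linarith)).fun_neg).fun_div (hasDerivAt_id s) hs0.ne').fun_add
        ((hasDerivAt_const s (-p ρ₁)).fun_div (hasDerivAt_id s) hs0.ne')).fun_sub
        ((hsqd s).const_mul (1 / 3 * (B + 1) * c2 / ρb))).continuousAt.continuousWithinAt)
    (fun s hs => by
      have hs0 := r1.trans hs.1
      have hz := g.zpos2 h m s hs.1.le hs.2.le
      exact ((((wd h s hs0 (by linarith)).fun_neg).fun_div (hasDerivAt_id s) hs0.ne').fun_add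
        ((hasDerivAt_const s (-p ρ₁)).fun_div (hasDerivAt_id s) hs0.ne')).fun_sub
        ((hsqd s).const_mul (1 / 3 * (B + 1) * c2 / ρb)))
    (fun s hs => by
      have hs0 := r1.trans hs.1
      have hz := g.zpos2 h m s hs.1.le hs.2.le
      have hs2 := hs.2.trans m.b2
      have h2 := g.Ptneg s hs.1.le hs2
      have h3 := g.yneg s hs.1 hs2
      have h4 := h.vle s hs0.le
      have h5 := g.S14 h m hc2 s hs.1.le hs.2.le
      have h6 : 0 < 1 + z s := by linarith
      have e : (-(p s / (s * (1 + z s))) * s - -(y s / (1 + z s)) * 1) / s ^ 2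
          + (0 * s - (-p ρ₁) * 1) / s ^ 2 - (1 / 3 * (B + 1) * c2 / ρb) * (2 * s)
          = ((-(p s - v s * y s)) / (1 + z s) + (v s - 1) * (-y s / (1 + z s)) - (-p ρ₁)
            - 2 / 3 * (B + 1) * c2 / ρb * s ^ 3) / s ^ 2 := by
        field_simp
        ring
      rw [e]
      apply div_nonpos_of_nonpos_of_nonneg _ (by positivity)
      have h7 : (-(p s - v s * y s)) / (1 + z s) ≤ -(p s - v s * y s) :=
        div_le_self (by linarith) (by linarith)
      have h8 : 0 ≤ -y s / (1 + z s) := div_nonneg (by linarith) h6.le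
      have h9 : (v s - 1) * (-y s / (1 + z s)) ≤ 0 :=
        mul_nonpos_of_nonpos_of_nonneg (by linarith) h8
      linarith)
  simp only [m.yb, m.zb, g.y1] at h1
  have h2 : -(-1 / (1 + (0 : ℝ))) / ρb = 1 / ρb := by norm_num
  have h3 : -(0 / (1 + z ρ₁)) / ρ₁ = 0 := by simp
  rw [h2, h3] at h1
  have h4 : 1 / 3 * (B + 1) * c2 / ρb * ρb ^ 2 = 1 / 3 * (B + 1) * c2 * ρb := by
    field_simp
  rw [h4] at h1
  have h5 : 0 ≤ 1 / 3 * (B + 1) * c2 / ρb * ρ₁ ^ 2 := by positivity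
  have h6 : 0 ≤ -p ρ₁ / ρb := by positivity
  linarith

end Shape

theorem exp_le_inv {x : ℝ} (hx : x < 1) : Real.exp x ≤ 1 / (1 - x) := by
  rw [le_div_iff₀ (by linarith)]
  have h1 := Real.one_sub_le_exp_neg x
  have h2 := Real.exp_pos x
  calc Real.exp x * (1 - x) ≤ Real.exp x * Real.exp (-x) := mul_le_mul_of_nonneg_left h1 h2.le
    _ = 1 := by rw [← Real.exp_add, add_neg_cancel, Real.exp_zero]

/-- The final numerical contradiction. -/
theorem numerics {B ρ₁ ρa ρb X L c1 c2 : ℝ} (hB : 0 < B) (ha : 0 < ρa) (h1 : 0 < ρ₁)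
    (hb : 0 < ρb) (hρb : ρb ^ 2 ≤ 1 / 3) (h71 : 7 / 2 * ρ₁ ≤ ρb) (hBb : B * ρb ^ 2 ≤ 0.792)
    (hL : L = Real.log ρ₁ - Real.log ρa) (hL1 : 1.57 ≤ L)
    (hc1 : Real.exp ((B + 2) / 4 * ρ₁ ^ 2) = c1) (hc2 : Real.exp ((B + 2) / 4 * ρb ^ 2) = c2)
    (hX1 : X ≤ B * ρa * (1 / 2 + 2 * c1 * L))
    (hX2 : 1 / ρb ≤ X + 1 / 3 * (B + 1) * c2 * ρb) : False := by
  have hκb : (B + 2) / 4 * ρb ^ 2 ≤ 0.3648 := by linarith
  have hρ1b : ρ₁ ^ 2 ≤ 4 / 49 * ρb ^ 2 := by
    have := pow_le_pow_left₀ (by positivity) h71 2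
    linarith
  have hBpos : 0 < (B + 2) / 4 := by positivity
  have hκ1 : (B + 2) / 4 * ρ₁ ^ 2 ≤ 0.03 := by
    have := mul_le_mul_of_nonneg_left hρ1b hBpos.le
    linarith
  have hc2pos : 0 < c2 := by rw [← hc2]; exact Real.exp_pos _
  have hc1pos : 0 < c1 := by rw [← hc1]; exact Real.exp_pos _
  have hc2le : c2 ≤ 1.575 := by
    rw [← hc2]
    refine (exp_le_inv (by linarith)).trans ?_
    rw [div_le_iff₀ (by linarith)]
    linarith
  have hc1le : c1 ≤ 1.031 := by
    rw [← hc1]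
    refine (exp_le_inv (by linarith)).trans ?_
    rw [div_le_iff₀ (by linarith)]
    linarith
  have hexpL : Real.exp L = ρ₁ / ρa := by
    rw [hL, Real.exp_sub, Real.exp_log h1, Real.exp_log ha]
  have hLq : 1 / 2 + 2 * c1 * L ≤ ρ₁ / ρa := by
    rw [← hexpL]
    have hL0 : 0 ≤ L := by linarith
    have q1 := Real.quadratic_le_exp_of_nonneg hL0
    have q2 : c1 * L ≤ 1.031 * L := mul_le_mul_of_nonneg_right hc1le hL0
    have q3 : 0 ≤ (L - 1.57) ^ 2 := sq_nonneg _
    nlinarith only [q1, q2, q3, hL1]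
  have hX3 : X ≤ B * ρ₁ := by
    refine hX1.trans ?_
    calc B * ρa * (1 / 2 + 2 * c1 * L) ≤ B * ρa * (ρ₁ / ρa) :=
          mul_le_mul_of_nonneg_left hLq (by positivity)
      _ = B * ρ₁ := by field_simp
  have hfin : 1 / ρb * ρb ≤ (B * ρ₁ + 1 / 3 * (B + 1) * c2 * ρb) * ρb :=
    mul_le_mul_of_nonneg_right (by linarith) hb.le
  have e0 : 1 / ρb * ρb = 1 := by field_simp
  rw [e0] at hfin
  have h2 : B * ρ₁ * ρb ≤ 0.2263 := by
    have h3 : ρ₁ * ρb ≤ 2 / 7 * ρb ^ 2 := by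
      have := mul_le_mul_of_nonneg_right h71 hb.le
      linarith
    have h4 : B * (ρ₁ * ρb) ≤ B * (2 / 7 * ρb ^ 2) := mul_le_mul_of_nonneg_left h3 hB.le
    linarith
  have h5 : (B + 1) * ρb ^ 2 ≤ 1.1254 := by linarith
  have h6 : (B + 1) * ρb ^ 2 * c2 ≤ 1.1254 * 1.575 :=
    mul_le_mul h5 hc2le hc2pos.le (by norm_num)
  have e : (B * ρ₁ + 1 / 3 * (B + 1) * c2 * ρb) * ρb
      = B * ρ₁ * ρb + 1 / 3 * ((B + 1) * ρb ^ 2 * c2) := by ring
  rw [e] at hfin
  linarith

namespace RadSol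

variable {y z p v b : ℝ → ℝ} (h : RadSol y z p v b)

include h

theorem caseC_pos (hC : b 0 + (1 - z 0) < 0) {ρ₀ : ℝ} (hρ₀ : 0 < ρ₀)
    (hy₀ : ∀ r, 0 < r → r ≤ ρ₀ → 0 < y r) : False := by
  obtain ⟨ρ₁, ρ₂, B, g⟩ := h.shape hC hρ₀ hy₀
  obtain ⟨ρa, ρb, m⟩ := g.mids h
  obtain ⟨k1, k2, k3, k4⟩ := g.bounds h m
  have hpi := Real.pi_gt_d2
  exact numerics g.B0 m.a0 g.r1 (g.r1.trans m.b1) k1 k2 k3 rfl (by linarith) rfl rfl
    (g.S12 h m rfl) (g.S15 h m rfl)

/-- The radial system with winding one has no finite energy solution. -/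
theorem absurd_all : False := by
  rcases lt_trichotomy (b 0 + (1 - z 0)) 0 with hQ | hQ | hQ
  · obtain ⟨ρ₀, hρ₀, hyp⟩ := h.small_yp
    have hyne : ∀ r, 0 < r → r ≤ ρ₀ → y r ≠ 0 := by
      intro r h1 h2 h3
      have := hyp r h1 h2
      rw [h3, zero_mul] at this
      exact lt_irrefl _ this
    rcases lt_or_gt_of_ne (hyne ρ₀ hρ₀ le_rfl) with h1 | h1
    · refine h.flip.caseC_pos hQ hρ₀ fun r hr1 hr2 => ?_
      by_contra hcon
      push Not at hcon
      have hpos : 0 < y r := lt_of_le_of_ne (by linarith) (Ne.symm (hyne r hr1 hr2))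
      have := pos_of_ne (f := y) hr2 (h.cy.mono fun s hs => hr1.le.trans hs.1) hpos
        (fun s hs1 hs2 => hyne s (lt_of_lt_of_le hr1 hs1) hs2)
      linarith
    · refine h.caseC_pos hQ hρ₀ fun r hr1 hr2 => ?_
      by_contra hcon
      push Not at hcon
      have hneg : 0 < -y r := by
        have := lt_of_le_of_ne hcon (hyne r hr1 hr2)
        linarith
      have := pos_of_ne (f := fun s => -y s) hr2
        ((h.cy.mono fun s hs => (hr1.le.trans hs.1 : (0 : ℝ) ≤ s)).neg) hneg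
        (fun s hs1 hs2 => neg_ne_zero.2 (hyne s (lt_of_lt_of_le hr1 hs1) hs2))
      linarith
  · exact h.caseB hQ
  · exact h.caseA hQ

end RadSol

end Run7.h887
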