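import Pool.Agent.Run7.h887.Equi3
import Pool.Agent.Run7.h887.Rad4

/-! Reduction of rotationally equivariant critical points to the radial system. -/

namespace Run7.h887

open MeasureTheory Filter Topology Set
open scoped ContDiff Real

variable {φ : ℝ × ℝ → Fin 3 → ℝ} {A : ℝ × ℝ → ℝ × ℝ} {N : ℤ}

theorem ax_tendsto : Tendsto (fun t : ℝ => ((t, 0) : ℝ × ℝ)) atTop (cocompact (ℝ × ℝ)) := by
  rw [← Metric.cobounded_eq_cocompact, ← tendsto_norm_atTop_iff_cobounded]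
  refine tendsto_atTop_mono (fun t => ?_) tendsto_id
  rw [Prod.norm_def]
  exact (le_abs_self t).trans (le_max_left _ _)

theorem ax_lim (h : IsConfig φ A) : Tendsto (fun t : ℝ => φ (t, 0) 2) atTop (𝓝 1) := by
  have h1 := h.bdry.comp ax_tendsto
  refine h1.congr fun t => ?_
  simp [nv_dot]

theorem ax_cont {f : ℝ × ℝ → ℝ} (hf : ContDiff ℝ ∞ f) : Continuous (fun t : ℝ => f (t, 0)) := by
  have h1 : Continuous (fun r : ℝ => ((r, 0) : ℝ × ℝ)) := by fun_prop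
  exact hf.continuous.comp h1

theorem cd_ee (hφ : ContDiff ℝ ∞ φ) (hA : ContDiff ℝ ∞ A) : ContDiff ℝ ∞ (ee φ A) := by
  have hP := cd_cov1 hA hφ
  have hQ := cd_cov2 hA hφ
  exact (cd_dot hP hP).add (cd_dot hQ hQ)

/-- Somewhere on the axis `φ` lies on the equator. -/
theorem ax_equator (h : IsConfig φ A) (c2 : φ (0, 0) 2 = -1) :
    ∃ t, 0 < t ∧ φ (t, 0) 2 = 0 := by
  have hc := ax_cont (comp_cd h.smooth_phi 2)
  obtain ⟨T, hT0, hT⟩ : ∃ T : ℝ, 0 < T ∧ 0 < φ (T, 0) 2 := by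
    have h1 := (ax_lim h).eventually (lt_mem_nhds (zero_lt_one))
    obtain ⟨T, h2, h3⟩ := (h1.and (eventually_gt_atTop 0)).exists
    exact ⟨T, h3, h2⟩
  have h2 := intermediate_value_Icc hT0.le (f := fun t => φ (t, 0) 2) hc.continuousOn
  obtain ⟨t, ht, ht2⟩ := h2 (show (0 : ℝ) ∈ Icc (φ (0, 0) 2) (φ (T, 0) 2) from
    ⟨by rw [c2]; norm_num, hT.le⟩)
  refine ⟨t, lt_of_le_of_ne ht.1 ?_, ht2⟩
  rintro rfl
  simp only at ht2
  rw [c2] at ht2
  norm_num at ht2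

/-- The moving frame. -/
theorem frame (hA : ContDiff ℝ ∞ A) (t₀ x₀ y₀ : ℝ) (h1 : x₀ ^ 2 + y₀ ^ 2 = 1) :
    ∃ C S : ℝ → ℝ, C t₀ = x₀ ∧ S t₀ = y₀ ∧ (∀ t, C t ^ 2 + S t ^ 2 = 1) ∧
      (∀ t, HasDerivAt C ((A (t, 0)).1 * S t) t) ∧
      (∀ t, HasDerivAt S (-((A (t, 0)).1 * C t)) t) := by
  have hc : Continuous (fun t : ℝ => (A (t, 0)).1) := ax_cont (contDiff_fst.comp hA)
  set ps : ℝ → ℝ := fun t => ∫ s in t₀..t, (A (s, 0)).1 with hps
  have hd : ∀ t, HasDerivAt ps (A (t, 0)).1 t := fun t =>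
    intervalIntegral.integral_hasDerivAt_right (hc.intervalIntegrable _ _)
      (hc.stronglyMeasurableAtFilter _ _) hc.continuousAt
  have h0 : ps t₀ = 0 := by simp [hps]
  refine ⟨fun t => x₀ * Real.cos (ps t) + y₀ * Real.sin (ps t),
    fun t => y₀ * Real.cos (ps t) - x₀ * Real.sin (ps t), ?_, ?_, ?_, ?_, ?_⟩
  · simp [h0]
  · simp [h0]
  · intro t
    have := Real.sin_sq_add_cos_sq (ps t)
    linear_combination (x₀ ^ 2 + y₀ ^ 2) * this + h1
  · intro t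
    refine (((hd t).cos.const_mul x₀).fun_add ((hd t).sin.const_mul y₀)).congr_deriv ?_
    ring
  · intro t
    refine (((hd t).cos.const_mul y₀).fun_sub ((hd t).sin.const_mul x₀)).congr_deriv ?_
    ring

section red

variable (h : IsConfig φ A) (hc : IsCritical φ A) (he : Equivariant N φ A)
  {C S : ℝ → ℝ} (hC : ∀ t, HasDerivAt C ((A (t, 0)).1 * S t) t)
  (hS : ∀ t, HasDerivAt S (-((A (t, 0)).1 * C t)) t)

include h hC hS in
theorem red_y (t : ℝ) : HasDerivAt (fun t => C t * φ (t, 0) 0 + S t * φ (t, 0) 1)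
    (C t * cov1 A φ (t, 0) 0 + S t * cov1 A φ (t, 0) 1) t := by
  obtain ⟨x0, x1, x2⟩ := ax_X h t
  refine (((hC t).fun_mul x0).fun_add ((hS t).fun_mul x1)).congr_deriv ?_
  ring

include h hC hS in
theorem red_y2 (t : ℝ) : HasDerivAt (fun t => C t * φ (t, 0) 1 - S t * φ (t, 0) 0)
    (C t * cov1 A φ (t, 0) 1 - S t * cov1 A φ (t, 0) 0) t := by
  obtain ⟨x0, x1, x2⟩ := ax_X h t
  refine (((hC t).fun_mul x1).fun_sub ((hS t).fun_mul x0)).congr_deriv ?_
  ring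

include h hc he hC hS in
theorem red_p {t : ℝ} (ht : t ≠ 0) :
    HasDerivAt (fun t => C t * cov1 A φ (t, 0) 0 + S t * cov1 A φ (t, 0) 1)
    ((lam φ A t + vv N A t ^ 2 / t ^ 2) * (C t * φ (t, 0) 0 + S t * φ (t, 0) 1)
      - (C t * cov1 A φ (t, 0) 0 + S t * cov1 A φ (t, 0) 1) / t) t := by
  obtain ⟨x0, x1, x2⟩ := ax_P h hc he ht
  refine (((hC t).fun_mul x0).fun_add ((hS t).fun_mul x1)).congr_deriv ?_
  ring

include h hc he hC hS in
theorem red_p2 {t : ℝ} (ht : t ≠ 0) :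
    HasDerivAt (fun t => C t * cov1 A φ (t, 0) 1 - S t * cov1 A φ (t, 0) 0)
    ((lam φ A t + vv N A t ^ 2 / t ^ 2) * (C t * φ (t, 0) 1 - S t * φ (t, 0) 0)
      - (C t * cov1 A φ (t, 0) 1 - S t * cov1 A φ (t, 0) 0) / t) t := by
  obtain ⟨x0, x1, x2⟩ := ax_P h hc he ht
  refine (((hC t).fun_mul x1).fun_sub ((hS t).fun_mul x0)).congr_deriv ?_
  ring

include h hc he hC hS in
/-- The section `φ` stays in the plane spanned by the frame and `n`. -/
theorem red_plane {t₀ : ℝ} (ht₀ : 0 < t₀) (e1 : C t₀ = φ (t₀, 0) 0) (e2 : S t₀ = φ (t₀, 0) 1)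
    (t : ℝ) (ht : 0 < t) : C t * φ (t, 0) 1 - S t * φ (t, 0) 0 = 0 ∧
      C t * cov1 A φ (t, 0) 1 - S t * cov1 A φ (t, 0) 0 = 0 := by
  have hφ := h.smooth_phi
  have hA := h.smooth_A
  have hlc : Continuous (lam φ A) := by
    have h1 := ax_cont (cd_ee hφ hA)
    have h2 := ax_cont (comp_cd hφ 2)
    exact h1.neg.add ((continuous_const.sub h2).mul h2)
  have hvc : Continuous (vv N A) := by
    have h1 : Continuous (fun t : ℝ => (A (t, 0)).2) := ax_cont (contDiff_snd.comp hA)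
    exact continuous_const.add (continuous_id.mul h1)
  have key := zero_of_gron
    (E := fun t => (C t * φ (t, 0) 1 - S t * φ (t, 0) 0) ^ 2
      + (C t * cov1 A φ (t, 0) 1 - S t * cov1 A φ (t, 0) 0) ^ 2)
    (E' := fun t => 2 * (C t * φ (t, 0) 1 - S t * φ (t, 0) 0)
        * (C t * cov1 A φ (t, 0) 1 - S t * cov1 A φ (t, 0) 0)
      + 2 * (C t * cov1 A φ (t, 0) 1 - S t * cov1 A φ (t, 0) 0)
        * ((lam φ A t + vv N A t ^ 2 / t ^ 2) * (C t * φ (t, 0) 1 - S t * φ (t, 0) 0)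
      - (C t * cov1 A φ (t, 0) 1 - S t * cov1 A φ (t, 0) 0) / t))
    (k := fun t => 1 + |lam φ A t + vv N A t ^ 2 / t ^ 2| + 2 / t)
    (fun r hr => by
      have a1 := red_y2 h hC hS r
      have a2 := red_p2 h hc he hC hS hr.ne'
      refine ((a1.fun_pow 2).fun_add (a2.fun_pow 2)).congr_deriv ?_
      push_cast
      ring)
    (fun r _ => by positivity)
    (by
      have h1 : ContinuousOn (fun t : ℝ => vv N A t ^ 2 / t ^ 2) (Ioi 0) :=
        (hvc.pow 2).continuousOn.div (continuous_id.pow 2).continuousOn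
          (fun s hs => pow_ne_zero 2 (ne_of_gt hs))
      have h2 : ContinuousOn (fun t : ℝ => 2 / t) (Ioi 0) :=
        continuousOn_const.div continuousOn_id (fun s hs => ne_of_gt hs)
      exact (continuousOn_const.add (hlc.continuousOn.add h1).abs).add h2)
    (fun r hr => by
      generalize C r * φ (r, 0) 1 - S r * φ (r, 0) 0 = a
      generalize C r * cov1 A φ (r, 0) 1 - S r * cov1 A φ (r, 0) 0 = b
      generalize lam φ A r + vv N A r ^ 2 / r ^ 2 = κ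
      have e : 2 * a * b + 2 * b * (κ * a - b / r)
          = 2 * a * b + 2 * κ * (a * b) - 2 * b ^ 2 / r := by ring
      rw [e]
      have hab : 2 * |a * b| ≤ a ^ 2 + b ^ 2 := by
        rw [abs_mul]
        nlinarith [sq_nonneg (|a| - |b|), sq_abs a, sq_abs b]
      have h1 : |2 * a * b + 2 * κ * (a * b) - 2 * b ^ 2 / r|
          ≤ 2 * |a * b| + |κ| * (2 * |a * b|) + 2 / r * b ^ 2 := by
        calc _ ≤ |2 * a * b + 2 * κ * (a * b)| + |2 * b ^ 2 / r| := abs_sub _ _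
          _ ≤ |2 * a * b| + |2 * κ * (a * b)| + |2 * b ^ 2 / r| := by
            gcongr; exact abs_add_le _ _
          _ = _ := by
            rw [abs_of_nonneg (show 0 ≤ 2 * b ^ 2 / r by positivity), mul_assoc, abs_mul 2,
              mul_assoc 2 κ, abs_mul 2, abs_mul κ, abs_two]
            ring
      refine h1.trans ?_
      have hk := abs_nonneg κ
      have h3 : 2 / r * b ^ 2 ≤ 2 / r * (a ^ 2 + b ^ 2) := by
        gcongr; nlinarith [sq_nonneg a]
      have h4 : |κ| * (2 * |a * b|) ≤ |κ| * (a ^ 2 + b ^ 2) := by gcongr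
      nlinarith only [hab, h3, h4])
    ht₀
    (by
      have hF := ax_F he hA hc ht₀.ne'
      rw [e1, e2]
      have a1 : φ (t₀, 0) 0 * φ (t₀, 0) 1 - φ (t₀, 0) 1 * φ (t₀, 0) 0 = 0 := by ring
      rw [a1, hF]; ring)
    t ht
  have k1 := sq_nonneg (C t * φ (t, 0) 1 - S t * φ (t, 0) 0)
  have k2 := sq_nonneg (C t * cov1 A φ (t, 0) 1 - S t * cov1 A φ (t, 0) 0)
  exact ⟨(pow_eq_zero_iff two_ne_zero).1 (by linarith),
    (pow_eq_zero_iff two_ne_zero).1 (by linarith)⟩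

end red

end Run7.h887
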