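import Pool.Agent.Run7.h887.Equi4

/-! No rotationally equivariant critical point of degree `±1`. -/

namespace Run7.h887

open MeasureTheory Filter Topology Set
open scoped ContDiff Real

variable {φ : ℝ × ℝ → Fin 3 → ℝ} {A : ℝ × ℝ → ℝ × ℝ} {N : ℤ}

theorem alg_p {t y z a q l w y' z' : ℝ} (ht : t ≠ 0) (hy' : y' = a) (hz' : z' = q) :
    1 * (z * a - y * q) + t * (z' * a + z * ((l + w ^ 2 / t ^ 2) * y - a / t)
      - (y' * q + y * (l * z - (1 - z) - q / t)))
      = (w ^ 2 * y * z + t ^ 2 * (1 - z) * y) / t := by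
  rw [hy', hz']
  field_simp
  ring

/-- The radial system. -/
theorem radSol_of (h : IsConfig φ A) (hc : IsCritical φ A) (he : Equivariant N φ A)
    (hN : (N : ℝ) ^ 2 = 1) (c0 : φ (0, 0) 0 = 0) (c1 : φ (0, 0) 1 = 0)
    (c2 : φ (0, 0) 2 = -1) : ∃ y z p v b : ℝ → ℝ, RadSol y z p v b := by
  have hφ := h.smooth_phi
  have hA := h.smooth_A
  have hP := cd_cov1 hA hφ
  have hpi := Real.pi_pos
  obtain ⟨t₀, ht₀, hz₀⟩ := ax_equator h c2
  have hs₀ := sph3 h.sphere (t₀, 0)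
  rw [hz₀] at hs₀
  obtain ⟨C, S, e1, e2, hCS, hC, hS⟩ := frame hA t₀ (φ (t₀, 0) 0) (φ (t₀, 0) 1) (by linarith)
  have hplane := red_plane h hc he hC hS ht₀ e1 e2
  -- continuity
  have kC : Continuous C := continuous_iff_continuousAt.2 fun t => (hC t).continuousAt
  have kS : Continuous S := continuous_iff_continuousAt.2 fun t => (hS t).continuousAt
  have k0 := ax_cont (comp_cd hφ 0)
  have k1 := ax_cont (comp_cd hφ 1)
  have k2 := ax_cont (comp_cd hφ 2)
  have p0 := ax_cont (comp_cd hP 0)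
  have p1 := ax_cont (comp_cd hP 1)
  have p2 := ax_cont (comp_cd hP 2)
  have kF := ax_cont (cd_fld hA)
  have kv : Continuous (vv N A) := by
    have h1 : Continuous (fun t : ℝ => (A (t, 0)).2) := ax_cont (contDiff_snd.comp hA)
    exact continuous_const.add (continuous_id.mul h1)
  have ky : Continuous (fun t => C t * φ (t, 0) 0 + S t * φ (t, 0) 1) :=
    (kC.mul k0).add (kS.mul k1)
  have ka : Continuous (fun t => C t * cov1 A φ (t, 0) 0 + S t * cov1 A φ (t, 0) 1) :=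
    (kC.mul p0).add (kS.mul p1)
  -- algebra
  have fy : ∀ t, 0 < t → φ (t, 0) 0 ^ 2 + φ (t, 0) 1 ^ 2
      = (C t * φ (t, 0) 0 + S t * φ (t, 0) 1) ^ 2 := by
    intro t ht
    linear_combination (-(φ (t, 0) 0 ^ 2 + φ (t, 0) 1 ^ 2)) * hCS t
      + (C t * φ (t, 0) 1 - S t * φ (t, 0) 0) * (hplane t ht).1
  have fa : ∀ t, 0 < t → cov1 A φ (t, 0) 0 ^ 2 + cov1 A φ (t, 0) 1 ^ 2
      = (C t * cov1 A φ (t, 0) 0 + S t * cov1 A φ (t, 0) 1) ^ 2 := by
    intro t ht
    linear_combination (-(cov1 A φ (t, 0) 0 ^ 2 + cov1 A φ (t, 0) 1 ^ 2)) * hCS t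
      + (C t * cov1 A φ (t, 0) 1 - S t * cov1 A φ (t, 0) 0) * (hplane t ht).2
  have fs : ∀ t, 0 < t → (C t * φ (t, 0) 0 + S t * φ (t, 0) 1) ^ 2 + φ (t, 0) 2 ^ 2 = 1 := by
    intro t ht
    rw [← fy t ht]; exact sph3 h.sphere (t, 0)
  have ft : ∀ t, 0 < t → (C t * φ (t, 0) 0 + S t * φ (t, 0) 1)
      * (C t * cov1 A φ (t, 0) 0 + S t * cov1 A φ (t, 0) 1)
      + φ (t, 0) 2 * cov1 A φ (t, 0) 2 = 0 := by
    intro t ht
    have h1 := tang1 (A := A) hφ h.sphere (t, 0)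
    linear_combination h1 + (φ (t, 0) 0 * cov1 A φ (t, 0) 0
      + φ (t, 0) 1 * cov1 A φ (t, 0) 1) * hCS t
      - (C t * cov1 A φ (t, 0) 1 - S t * cov1 A φ (t, 0) 0) * (hplane t ht).1
  have y00 : C 0 * φ (0, 0) 0 + S 0 * φ (0, 0) 1 = 0 := by rw [c0, c1]; ring
  refine ⟨fun t => C t * φ (t, 0) 0 + S t * φ (t, 0) 1, fun t => φ (t, 0) 2,
    fun t => t * (φ (t, 0) 2 * (C t * cov1 A φ (t, 0) 0 + S t * cov1 A φ (t, 0) 1)
      - (C t * φ (t, 0) 0 + S t * φ (t, 0) 1) * cov1 A φ (t, 0) 2),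
    fun t => N * vv N A t, fun t => N * fld A (t, 0), ?_⟩
  refine ⟨?_, ?_, ?_, ?_, ?_, ?_, ky.continuousOn, k2.continuousOn, ?_, ?_, ?_, ?_, ?_, ?_, ?_,
    ?_, ax_lim h, ?_⟩
  · -- y'
    intro r hr
    refine (red_y h hC hS r).congr_deriv ?_
    have a1 := fs r hr
    have a2 := ft r hr
    generalize C r * φ (r, 0) 0 + S r * φ (r, 0) 1 = y at *
    generalize C r * cov1 A φ (r, 0) 0 + S r * cov1 A φ (r, 0) 1 = a at *
    generalize φ (r, 0) 2 = z at *
    generalize cov1 A φ (r, 0) 2 = q at *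
    rw [eq_div_iff hr.ne']
    linear_combination (-(a * r)) * a1 + r * y * a2
  · -- z'
    intro r hr
    refine (ax_X h r).2.2.congr_deriv ?_
    have a1 := fs r hr
    have a2 := ft r hr
    generalize C r * φ (r, 0) 0 + S r * φ (r, 0) 1 = y at *
    generalize C r * cov1 A φ (r, 0) 0 + S r * cov1 A φ (r, 0) 1 = a at *
    generalize φ (r, 0) 2 = z at *
    generalize cov1 A φ (r, 0) 2 = q at *
    rw [eq_div_iff hr.ne']
    linear_combination (-(q * r)) * a1 + r * z * a2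
  · -- p'
    intro r hr
    have b1 := red_y h hC hS r
    have b2 := red_p h hc he hC hS hr.ne'
    have b3 := (ax_X h r).2.2
    have b4 := (ax_P h hc he hr.ne').2.2
    have b5 := (hasDerivAt_id' r).fun_mul ((b3.fun_mul b2).fun_sub (b1.fun_mul b4))
    refine b5.congr_deriv ?_
    have hw : ((N : ℝ) * vv N A r) ^ 2 = vv N A r ^ 2 := by rw [mul_pow, hN, one_mul]
    rw [hw]
    exact alg_p hr.ne' rfl rfl
  · -- v'
    intro r hr
    refine ((ax_v h he r).const_mul (N : ℝ)).congr_deriv ?_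
    ring
  · -- b'
    intro r hr
    refine ((ax_b h hc he hr.ne').const_mul (N : ℝ)).congr_deriv ?_
    rw [fy r hr]
    ring
  · -- sphere
    intro r hr
    rcases hr.eq_or_lt with h0 | h0
    · rw [← h0, y00, c2]; norm_num
    · exact fs r h0
  · exact (continuous_id.mul ((k2.mul ka).sub (ky.mul p2))).continuousOn
  · exact (continuous_const.mul kv).continuousOn
  · exact (continuous_const.mul kF).continuousOn
  · exact y00
  · exact c2
  · rw [zero_mul]
  · simp only [vv]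
    rw [zero_mul, add_zero, ← sq]; exact hN
  · -- bound for y
    obtain ⟨s, _, hs⟩ := isCompact_Icc.exists_isMaxOn (nonempty_Icc.2 (zero_le_one (α := ℝ)))
      ka.abs.continuousOn
    refine ⟨|C s * cov1 A φ (s, 0) 0 + S s * cov1 A φ (s, 0) 1|, fun r hr1 hr2 => ?_⟩
    have hb : ∀ t ∈ Icc (0 : ℝ) r, ‖C t * cov1 A φ (t, 0) 0 + S t * cov1 A φ (t, 0) 1‖
        ≤ |C s * cov1 A φ (s, 0) 0 + S s * cov1 A φ (s, 0) 1| := by
      intro t ht
      exact hs ⟨ht.1, ht.2.trans hr2⟩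
    have hm := (convex_Icc (0 : ℝ) r).norm_image_sub_le_of_norm_hasDerivWithin_le
      (fun t _ => (red_y h hC hS t).hasDerivWithinAt) hb (left_mem_Icc.2 hr1.le)
      (right_mem_Icc.2 hr1.le)
    rw [y00, sub_zero, sub_zero, Real.norm_eq_abs, Real.norm_eq_abs, abs_of_pos hr1] at hm
    exact hm
  · -- finite energy
    intro ε hε R
    obtain ⟨r, h1, h2, h3⟩ := good_radius h.finite (ε := 2 * π * ε) (by positivity) R
    refine ⟨r, h1, h2, ?_⟩
    rw [ax_cir h he] at h3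
    have h4 : r ^ 2 * dens φ A (r, 0) ≤ ε := by
      have : 2 * π * (r ^ 2 * dens φ A (r, 0)) ≤ 2 * π * ε := by linarith
      exact le_of_mul_le_mul_left this (by positivity)
    rw [ax_dens h he, fy r h2, fa r h2] at h4
    have a1 := fs r h2
    have a2 := ft r h2
    generalize C r * φ (r, 0) 0 + S r * φ (r, 0) 1 = y at *
    generalize C r * cov1 A φ (r, 0) 0 + S r * cov1 A φ (r, 0) 1 = a at *
    generalize φ (r, 0) 2 = z at *
    generalize cov1 A φ (r, 0) 2 = q at *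
    refine le_of_eq_of_le ?_ h4
    have hw : ((N : ℝ) * vv N A r) ^ 2 = vv N A r ^ 2 := by rw [mul_pow, hN, one_mul]
    have hf : ((N : ℝ) * fld A (r, 0)) ^ 2 = fld A (r, 0) ^ 2 := by rw [mul_pow, hN, one_mul]
    rw [hw, hf]
    linear_combination r ^ 2 * (a ^ 2 + q ^ 2) * a1 - r ^ 2 * (y * a + z * q) * a2

/-- There is no rotationally equivariant finite-energy critical point of degree `±1`. -/
theorem no_equi (h : IsConfig φ A) (hc : IsCritical φ A) (he : Equivariant N φ A) {δ : ℝ}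
    (hd : IsDegLim φ δ) (h1 : δ = 1 ∨ δ = -1) : False := by
  obtain ⟨c0, c1, c2, hN⟩ := centre_of_deg h he hd h1
  obtain ⟨y, z, p, v, b, hr⟩ := radSol_of h hc he hN c0 c1 c2
  exact hr.absurd_all

end Run7.h887
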