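import Pool.Agent.Run7.h887.Degree

/-! Exclusion of total flux `4π` for the self-dual equations. -/

namespace Run7.h887

open MeasureTheory Filter Topology Set
open scoped ContDiff Real

variable {φ : ℝ × ℝ → Fin 3 → ℝ} {A : ℝ × ℝ → ℝ × ℝ}

theorem cir_log_growth {f : ℝ × ℝ → ℝ} (hf : ContDiff ℝ ∞ f) {a c : ℝ} (ha : 0 < a)
    (h : ∀ r, a ≤ r → c ≤ flux (pd1 f) (pd2 f) r) {r : ℝ} (hr : a ≤ r) :
    cir f a + c * (Real.log r - Real.log a) ≤ cir f r := by
  have hder : ∀ s ∈ interior (Ici a), HasDerivAt (fun s => cir f s - c * Real.log s)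
      (flux (pd1 f) (pd2 f) s / s - c * s⁻¹) s := by
    intro s hs
    rw [interior_Ici] at hs
    have hs0 : 0 < s := lt_trans ha hs
    exact (cir_hasDeriv' hf hs0.ne').fun_sub ((Real.hasDerivAt_log hs0.ne').const_mul c)
  have hmono : MonotoneOn (fun s => cir f s - c * Real.log s) (Ici a) := by
    apply monotoneOn_of_deriv_nonneg (convex_Ici a)
    · apply ContinuousOn.sub (cir_continuous hf.continuous).continuousOn
      apply ContinuousOn.mul continuousOn_const
      apply Real.continuousOn_log.mono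
      intro s hs
      have : a ≤ s := hs
      exact (lt_of_lt_of_le ha this).ne'
    · exact fun s hs => (hder s hs).differentiableAt.differentiableWithinAt
    · intro s hs
      rw [(hder s hs).deriv]
      rw [interior_Ici] at hs
      have hs0 : 0 < s := lt_trans ha hs
      have := h s (le_of_lt hs)
      rw [← div_eq_mul_inv, ← sub_div]
      exact div_nonneg (by linarith) hs0.le
  have := hmono (mem_Ici.2 le_rfl) (mem_Ici.2 hr) hr
  simp only at this
  linarith

/-- Jensen's inequality on circles. -/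
theorem jensen_cir {v : ℝ × ℝ → ℝ} (hv : Continuous v) (hp : ∀ x, 0 < v x) (r : ℝ) :
    2 * π * Real.exp (cir (fun x => Real.log (v x)) r / (2 * π)) ≤ cir v r := by
  have hpi := Real.pi_pos
  set m := cir (fun x => Real.log (v x)) r / (2 * π) with hm
  have hl : Continuous (fun x => Real.log (v x)) := hv.log fun x => (hp x).ne'
  have hpt : ∀ x, Real.exp m * (Real.log (v x) + (1 - m)) ≤ v x := by
    intro x
    have h1 := Real.add_one_le_exp (Real.log (v x) - m)
    have h2 : v x = Real.exp m * Real.exp (Real.log (v x) - m) := by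
      rw [← Real.exp_add, add_sub_cancel, Real.exp_log (hp x)]
    conv_rhs => rw [h2]
    apply mul_le_mul_of_nonneg_left _ (Real.exp_pos m).le
    linarith
  have h3 := cir_mono (by fun_prop) hv hpt r
  rw [cir_cmul, cir_add hl continuous_const] at h3
  have h4 : cir (fun _ => 1 - m) r = 2 * π * (1 - m) := by
    unfold cir
    rw [intervalIntegral.integral_const, smul_eq_mul]; ring
  have h5 : cir (fun x => Real.log (v x)) r = 2 * π * m := by rw [hm]; field_simp
  rw [h4, h5] at h3
  calc _ = Real.exp m * (2 * π * m + 2 * π * (1 - m)) := by ring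
    _ ≤ _ := h3

theorem cir_const (k r : ℝ) : cir (fun _ => k) r = 2 * π * k := by
  unfold cir
  rw [intervalIntegral.integral_const, smul_eq_mul]; ring

theorem rad_cont {f : ℝ × ℝ → ℝ} (hf : Continuous f) : Continuous (fun s => s * cir f s) :=
  continuous_id.mul (cir_continuous hf)

/-- Monotonicity of radial integrals. -/
theorem rad_mono {f g : ℝ × ℝ → ℝ} (hf : Continuous f) (hg : Continuous g) (h : ∀ x, f x ≤ g x)
    {r : ℝ} (hr : 0 ≤ r) : ∫ s in (0 : ℝ)..r, s * cir f s ≤ ∫ s in (0 : ℝ)..r, s * cir g s := by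
  apply intervalIntegral.integral_mono_on hr
    ((continuous_id.mul (cir_continuous hf)).intervalIntegrable _ _)
    ((continuous_id.mul (cir_continuous hg)).intervalIntegrable _ _)
  intro s hs
  exact mul_le_mul_of_nonneg_left (cir_mono hf hg h s) hs.1

theorem rad_sub {f g : ℝ × ℝ → ℝ} (hf : Continuous f) (hg : Continuous g) (r : ℝ) :
    ∫ s in (0 : ℝ)..r, s * cir (fun x => f x - g x) s
      = (∫ s in (0 : ℝ)..r, s * cir f s) - ∫ s in (0 : ℝ)..r, s * cir g s := by
  rw [← intervalIntegral.integral_sub ((rad_cont hf).intervalIntegrable _ _)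
    ((rad_cont hg).intervalIntegrable _ _)]
  congr 1
  funext s
  rw [cir_sub hf hg]; ring

theorem rad_const (k r : ℝ) : ∫ s in (0 : ℝ)..r, s * cir (fun _ => k) s = π * k * r ^ 2 := by
  have : (fun s => s * cir (fun _ => k) s) = fun s => s * (2 * π * k) := by
    funext s; rw [cir_const]
  rw [this, intervalIntegral.integral_mul_const, integral_id]; ring

theorem rad_extend {f : ℝ × ℝ → ℝ} (hf : Continuous f) (h0 : ∀ x, 0 ≤ f x) {a r : ℝ}
    (ha : 0 ≤ a) (hr : a ≤ r) :
    ∫ s in (0 : ℝ)..a, s * cir f s ≤ ∫ s in (0 : ℝ)..r, s * cir f s := by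
  have hc := continuous_id.mul (cir_continuous hf)
  have : (∫ s in (0 : ℝ)..r, s * cir f s) = (∫ s in (0 : ℝ)..a, s * cir f s)
      + ∫ s in a..r, s * cir f s :=
    (intervalIntegral.integral_add_adjacent_intervals (hc.intervalIntegrable _ _)
      (hc.intervalIntegrable _ _)).symm
  have h1 : 0 ≤ ∫ s in a..r, s * cir f s := by
    apply intervalIntegral.integral_nonneg hr
    intro s hs
    exact mul_nonneg (ha.trans hs.1) (cir_nonneg h0 s)
  linarith

theorem no_one {u e : ℝ × ℝ → ℝ} (hu : ContDiff ℝ ∞ u) (he : Continuous e)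
    (h0 : ∀ x, 0 ≤ u x) (h2 : ∀ x, u x ≤ 2) (he0 : ∀ x, 0 ≤ e x)
    (hgrad : ∀ x, pd1 u x ^ 2 + pd2 u x ^ 2 = 1 / 2 * (1 - (1 - u x) ^ 2) * e x)
    (hlap : ∀ x, pd1 (pd1 u) x + pd2 (pd2 u) x = (1 - (1 - u x) ^ 2) * u x + (1 - u x) * e x)
    (hint : ∀ k : ℝ, 0 < k →
      Integrable (fun x => 1 / 2 * et k (u x) * e x + Hk k (u x) * u x) ∧
      ∫ x, (1 / 2 * et k (u x) * e x + Hk k (u x) * u x) ≤ 4 * π)
    (hpos : 0 < u 0) : False := by
  have hpi := Real.pi_pos
  have huc := hu.continuous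
  -- the basic flux inequality
  have hflux : ∀ δ : ℝ, 0 < δ → δ ≤ 1 / 2 → ∀ r, 0 ≤ r →
      (∫ s in (0 : ℝ)..r, s * cir (fun x => (1 - (1 - u x) ^ 2) * u x / (u x + δ ^ 2)
        + Hk (2 / δ) (u x) * u x) s) - 4 * π
      ≤ flux (pd1 (fun x => Real.log (u x + δ ^ 2))) (pd2 (fun x => Real.log (u x + δ ^ 2))) r := by
    intro δ hδ hδ2 r hr
    have hε : 0 < δ ^ 2 := by positivity
    have hk : 0 < 2 / δ := by positivity
    have h2k : 2 / (2 / δ) = δ := by field_simp
    have hpp : ∀ x, 0 < u x + δ ^ 2 := fun x => by have := h0 x; linarith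
    have hcd := cd_log hu hpp
    rw [flux_eq (cd_pd1 hcd) (cd_pd2 hcd)]
    have hHc : Continuous (fun x => Hk (2 / δ) (u x)) := (Hk_cd _).continuous.comp huc
    have hec : Continuous (fun x => et (2 / δ) (u x)) := (et_cont _).comp huc
    have hq1 : Continuous (fun x => (1 - (1 - u x) ^ 2) * u x / (u x + δ ^ 2)) :=
      Continuous.div (by fun_prop) (by fun_prop) fun x => (hpp x).ne'
    have hc1 : Continuous (fun x => (1 - (1 - u x) ^ 2) * u x / (u x + δ ^ 2)
        + Hk (2 / δ) (u x) * u x) := hq1.add (hHc.mul huc)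
    have hc2 : Continuous (fun x => 1 / 2 * et (2 / δ) (u x) * e x + Hk (2 / δ) (u x) * u x) :=
      ((continuous_const.mul hec).mul he).add (hHc.mul huc)
    obtain ⟨j1, j2⟩ := hint (2 / δ) hk
    have hd := disc_le (f := fun x => 1 / 2 * et (2 / δ) (u x) * e x + Hk (2 / δ) (u x) * u x)
      (fun x => by
        have a1 := et_nonneg (2 / δ) (u x)
        have a2 := Hk_nonneg (k := 2 / δ) (h0 x)
        have a3 := h0 x
        have a4 := he0 x
        positivity) j1 hr
    have hpt : ∀ x, (1 - (1 - u x) ^ 2) * u x / (u x + δ ^ 2) + Hk (2 / δ) (u x) * u x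
        - (1 / 2 * et (2 / δ) (u x) * e x + Hk (2 / δ) (u x) * u x)
        ≤ pd1 (pd1 (fun x => Real.log (u x + δ ^ 2))) x
          + pd2 (pd2 (fun x => Real.log (u x + δ ^ 2))) x := by
      intro x
      rw [lap_log hu hpp, hgrad, hlap]
      have a3 := h0 x
      have a5 := h2 x
      have a4 := he0 x
      have hx := hpp x
      have a1 := et_nonneg (2 / δ) (u x)
      have key : -(1 / 2 * et (2 / δ) (u x)) * (u x + δ ^ 2) ^ 2
          ≤ (1 - u x) * (u x + δ ^ 2) - 1 / 2 * (1 - (1 - u x) ^ 2) := by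
        rcases le_total (2 / (2 / δ)) (u x) with hb | hb
        · rw [et_one hk hb]
          nlinarith [sq_nonneg (δ ^ 2)]
        · rw [h2k] at hb
          have hb2 : u x ^ 2 ≤ δ ^ 2 := by nlinarith
          have : 0 ≤ (1 - u x) * (u x + δ ^ 2) - 1 / 2 * (1 - (1 - u x) ^ 2) := by
            nlinarith
          have h7 : 0 ≤ 1 / 2 * et (2 / δ) (u x) * (u x + δ ^ 2) ^ 2 := by positivity
          linarith
      have e1 : ((1 - (1 - u x) ^ 2) * u x + (1 - u x) * e x) / (u x + δ ^ 2)
          - 1 / 2 * (1 - (1 - u x) ^ 2) * e x / (u x + δ ^ 2) ^ 2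
          = (1 - (1 - u x) ^ 2) * u x / (u x + δ ^ 2)
            + e x * ((1 - u x) * (u x + δ ^ 2) - 1 / 2 * (1 - (1 - u x) ^ 2))
              / (u x + δ ^ 2) ^ 2 := by
        field_simp
        ring
      rw [e1]
      have h8 : -(1 / 2 * et (2 / δ) (u x) * e x)
          ≤ e x * ((1 - u x) * (u x + δ ^ 2) - 1 / 2 * (1 - (1 - u x) ^ 2))
              / (u x + δ ^ 2) ^ 2 := by
        rw [le_div_iff₀ (by positivity)]
        have := mul_le_mul_of_nonneg_left key a4
        linarith
      linarith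
    have hlc : Continuous (fun x => pd1 (pd1 (fun x => Real.log (u x + δ ^ 2))) x
          + pd2 (pd2 (fun x => Real.log (u x + δ ^ 2))) x) :=
      (cd_pd1 (cd_pd1 hcd)).continuous.add (cd_pd2 (cd_pd2 hcd)).continuous
    have h9 := rad_mono (f := fun x => (1 - (1 - u x) ^ 2) * u x / (u x + δ ^ 2)
        + Hk (2 / δ) (u x) * u x - (1 / 2 * et (2 / δ) (u x) * e x + Hk (2 / δ) (u x) * u x))
        (hc1.sub hc2) hlc hpt hr
    rw [rad_sub hc1 hc2] at h9
    linarith
  -- pointwise lower bound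
  have hlow : ∀ δ : ℝ, 0 < δ → δ ≤ 1 / 2 → ∀ x, 2 * u x - 3 * δ
      ≤ (1 - (1 - u x) ^ 2) * u x / (u x + δ ^ 2) + Hk (2 / δ) (u x) * u x := by
    intro δ hδ hδ2 x
    have hk : 0 < 2 / δ := by positivity
    have h2k : 2 / (2 / δ) = δ := by field_simp
    have a3 := h0 x
    have a5 := h2 x
    have a6 := Hk_ge hk a3
    rw [h2k] at a6
    have hx : 0 < u x + δ ^ 2 := by positivity
    have b1 : u x * (2 - u x) - 2 * δ ^ 2 ≤ (1 - (1 - u x) ^ 2) * u x / (u x + δ ^ 2) := by
      rw [le_div_iff₀ hx]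
      nlinarith [mul_nonneg a3 (sq_nonneg δ), mul_nonneg (mul_nonneg a3 a3) (sq_nonneg δ),
        sq_nonneg (δ ^ 2)]
    have b2 : (u x - δ) * u x ≤ Hk (2 / δ) (u x) * u x := mul_le_mul_of_nonneg_right a6 a3
    nlinarith
  have hnn : ∀ δ : ℝ, 0 < δ → ∀ x,
      0 ≤ (1 - (1 - u x) ^ 2) * u x / (u x + δ ^ 2) + Hk (2 / δ) (u x) * u x := by
    intro δ hδ x
    have a3 := h0 x
    have a5 := h2 x
    have a2 := Hk_nonneg (k := 2 / δ) (h0 x)
    have a7 : 0 ≤ 1 - (1 - u x) ^ 2 := by nlinarith
    positivity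
  have hcont : ∀ δ : ℝ, 0 < δ → Continuous (fun x => (1 - (1 - u x) ^ 2) * u x / (u x + δ ^ 2)
        + Hk (2 / δ) (u x) * u x) := by
    intro δ hδ
    have hpp : ∀ x, 0 < u x + δ ^ 2 := fun x => by have := h0 x; positivity
    have hHc : Continuous (fun x => Hk (2 / δ) (u x)) := (Hk_cd _).continuous.comp huc
    have hq1 : Continuous (fun x => (1 - (1 - u x) ^ 2) * u x / (u x + δ ^ 2)) :=
      Continuous.div (by fun_prop) (by fun_prop) fun x => (hpp x).ne'
    exact hq1.add (hHc.mul huc)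
  -- first pass
  obtain ⟨M, hM⟩ : ∃ M : ℝ, ∀ s ∈ Icc (0 : ℝ) 1, cir (fun x => 1 / 2 * e x) s ≤ M := by
    have hc : Continuous (fun x => 1 / 2 * e x) := by fun_prop
    obtain ⟨s, _, hs⟩ := isCompact_Icc.exists_isMaxOn (nonempty_Icc.2 zero_le_one)
      (cir_continuous hc).continuousOn (s := Icc (0 : ℝ) 1)
    exact ⟨cir (fun x => 1 / 2 * e x) s, fun t ht => hs ht⟩
  set C := 2 * π * Real.log (u 0) - M * 1 ^ 2 / 4 with hC
  have hpass1 : ∀ δ : ℝ, 0 < δ → δ ≤ 1 / 2 → ∀ r, 1 ≤ r →
      C - 4 * π * Real.log r ≤ cir (fun x => Real.log (u x + δ ^ 2)) r := by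
    intro δ hδ hδ2 r hr
    have hpp : ∀ x, 0 < u x + δ ^ 2 := fun x => by have := h0 x; positivity
    have hcd := cd_log hu hpp
    have hc : Continuous (fun x => 1 / 2 * e x) := by fun_prop
    have g1 := cir_growth hcd hc (by
      intro x
      rw [lap_log hu hpp, hgrad, hlap]
      have a3 := h0 x
      have a5 := h2 x
      have a4 := he0 x
      have hx := hpp x
      have e1 : ((1 - (1 - u x) ^ 2) * u x + (1 - u x) * e x) / (u x + δ ^ 2)
          - 1 / 2 * (1 - (1 - u x) ^ 2) * e x / (u x + δ ^ 2) ^ 2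
          = (1 - (1 - u x) ^ 2) * u x / (u x + δ ^ 2)
            + e x * ((1 - u x) * (u x + δ ^ 2) - 1 / 2 * (1 - (1 - u x) ^ 2))
              / (u x + δ ^ 2) ^ 2 := by
        field_simp
        ring
      rw [e1]
      have key : -(1 / 2) * (u x + δ ^ 2) ^ 2
          ≤ (1 - u x) * (u x + δ ^ 2) - 1 / 2 * (1 - (1 - u x) ^ 2) := by
        nlinarith [sq_nonneg (δ ^ 2)]
      have h8 : -(1 / 2 * e x)
          ≤ e x * ((1 - u x) * (u x + δ ^ 2) - 1 / 2 * (1 - (1 - u x) ^ 2))
              / (u x + δ ^ 2) ^ 2 := by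
        rw [le_div_iff₀ (by positivity)]
        have := mul_le_mul_of_nonneg_left key a4
        linarith
      have a7 : 0 ≤ 1 - (1 - u x) ^ 2 := by nlinarith
      have h9 : 0 ≤ (1 - (1 - u x) ^ 2) * u x / (u x + δ ^ 2) := by positivity
      linarith) zero_le_one hM
    rw [cir_zero] at g1
    have g2 : Real.log (u 0) ≤ Real.log (u (0, 0) + δ ^ 2) :=
      Real.log_le_log hpos (by change u (0, 0) ≤ _; linarith [sq_nonneg δ])
    have g3 := cir_log_growth hcd (a := 1) (c := -(4 * π)) one_pos (by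
      intro s hs
      have := hflux δ hδ hδ2 s (by linarith)
      have h5 := rad_extend (hcont δ hδ) (hnn δ hδ) (le_refl (0 : ℝ)) (by linarith : (0 : ℝ) ≤ s)
      rw [intervalIntegral.integral_same] at h5
      linarith) hr
    rw [Real.log_one] at g3
    have : 2 * π * Real.log (u 0) ≤ 2 * π * Real.log (u (0, 0) + δ ^ 2) :=
      mul_le_mul_of_nonneg_left g2 (by positivity)
    linarith
  -- consequence: lower bound for circle means of u
  set c := Real.exp (C / (2 * π)) with hc
  have hc0 : 0 < c := Real.exp_pos _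
  have hmean : ∀ r, 1 ≤ r → 2 * π * c / r ^ 2 ≤ cir u r := by
    intro r hr
    have hr0 : 0 < r := by linarith
    apply le_of_forall_pos_le_add
    intro η hη
    set δ := min (1 / 2) (η / (2 * π)) with hδdef
    have hδ : 0 < δ := by positivity
    have hδ2 : δ ≤ 1 / 2 := min_le_left _ _
    have hδη : δ ≤ η / (2 * π) := min_le_right _ _
    have hpp : ∀ x, 0 < u x + δ ^ 2 := fun x => by have := h0 x; positivity
    have h1 := jensen_cir (v := fun x => u x + δ ^ 2) (by fun_prop) hpp r
    rw [cir_add huc continuous_const, cir_const] at h1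
    have h3 := hpass1 δ hδ hδ2 r hr
    have h4 : C / (2 * π) - 2 * Real.log r
        ≤ cir (fun x => Real.log (u x + δ ^ 2)) r / (2 * π) := by
      rw [le_div_iff₀ (by positivity)]
      have : (C / (2 * π) - 2 * Real.log r) * (2 * π) = C - 4 * π * Real.log r := by
        field_simp; ring
      rw [this]; exact h3
    have h5 : c / r ^ 2 ≤ Real.exp (cir (fun x => Real.log (u x + δ ^ 2)) r / (2 * π)) := by
      refine le_trans (le_of_eq ?_) (Real.exp_le_exp.2 h4)
      rw [Real.exp_sub, hc]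
      congr 1
      rw [two_mul, Real.exp_add, Real.exp_log hr0]; ring
    have h6 : 2 * π * (c / r ^ 2) ≤ cir u r + 2 * π * δ ^ 2 :=
      (mul_le_mul_of_nonneg_left h5 (by positivity)).trans h1
    have h7 : 2 * π * δ ^ 2 ≤ η := by
      have : δ ^ 2 ≤ δ := by nlinarith
      have h8 : 2 * π * δ ≤ η := by
        rw [le_div_iff₀ (by positivity)] at hδη
        linarith
      nlinarith
    rw [mul_div_assoc]
    linarith
  -- total mass of u is large
  set R := Real.exp ((2 * π + 1) / (2 * π * c)) with hR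
  have hR1 : 1 ≤ R := Real.one_le_exp (by positivity)
  have hR0 : 0 < R := Real.exp_pos _
  have hmass : 2 * π + 1 ≤ ∫ s in (0 : ℝ)..R, s * cir u s := by
    have hcc := continuous_id.mul (cir_continuous huc)
    have e1 : (∫ s in (0 : ℝ)..R, s * cir u s) = (∫ s in (0 : ℝ)..1, s * cir u s)
        + ∫ s in (1 : ℝ)..R, s * cir u s :=
      (intervalIntegral.integral_add_adjacent_intervals (hcc.intervalIntegrable _ _)
        (hcc.intervalIntegrable _ _)).symm
    have e2 : 0 ≤ ∫ s in (0 : ℝ)..1, s * cir u s :=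
      intervalIntegral.integral_nonneg zero_le_one fun s hs => mul_nonneg hs.1 (cir_nonneg h0 s)
    have e3 : (∫ s in (1 : ℝ)..R, 2 * π * c * s⁻¹) ≤ ∫ s in (1 : ℝ)..R, s * cir u s := by
      apply intervalIntegral.integral_mono_on hR1
      · apply IntervalIntegrable.const_mul
        apply intervalIntegral.intervalIntegrable_inv
        · intro s hs
          rw [uIcc_of_le hR1] at hs
          have := hs.1
          positivity
        · exact continuousOn_id
      · exact hcc.intervalIntegrable _ _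
      · intro s hs
        have hs0 : 0 < s := by linarith [hs.1]
        have := mul_le_mul_of_nonneg_left (hmean s hs.1) hs0.le
        refine le_trans (le_of_eq ?_) this
        field_simp
    rw [intervalIntegral.integral_const_mul, integral_inv_of_pos one_pos hR0, div_one, hR,
      Real.log_exp] at e3
    have e4 : 2 * π * c * ((2 * π + 1) / (2 * π * c)) = 2 * π + 1 := by field_simp
    rw [e4, ← hR] at e3
    linarith
  -- second pass
  set δ := min (1 / 2) (1 / (3 * π * R ^ 2)) with hδdef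
  have hδ : 0 < δ := by positivity
  have hδ2 : δ ≤ 1 / 2 := min_le_left _ _
  have hδR : 3 * π * δ * R ^ 2 ≤ 1 := by
    have := min_le_right (1 / 2) (1 / (3 * π * R ^ 2))
    rw [← hδdef, le_div_iff₀ (by positivity)] at this
    linarith
  have hpp : ∀ x, 0 < u x + δ ^ 2 := fun x => by have := h0 x; positivity
  have hcd := cd_log hu hpp
  have hfl : ∀ r, R ≤ r → 1 ≤ flux (pd1 (fun x => Real.log (u x + δ ^ 2)))
      (pd2 (fun x => Real.log (u x + δ ^ 2))) r := by
    intro r hr
    have h1 := hflux δ hδ hδ2 r (hR0.le.trans hr)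
    have h3 := rad_extend (hcont δ hδ) (hnn δ hδ) hR0.le hr
    have h4 := rad_mono (f := fun x => 2 * u x - 3 * δ) (by fun_prop) (hcont δ hδ)
      (hlow δ hδ hδ2) hR0.le
    rw [rad_sub (f := fun x => 2 * u x) (by fun_prop) continuous_const, rad_const] at h4
    have h5 : ∫ s in (0 : ℝ)..R, s * cir (fun x => 2 * u x) s
        = 2 * ∫ s in (0 : ℝ)..R, s * cir u s := by
      rw [← intervalIntegral.integral_const_mul]
      congr 1; funext s; rw [cir_cmul]; ring
    rw [h5] at h4
    linarith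
  have hgrow := fun r (hr : R ≤ r) => cir_log_growth hcd hR0 hfl hr
  have hub : ∀ r, cir (fun x => Real.log (u x + δ ^ 2)) r ≤ 2 * π * Real.log 3 := by
    intro r
    rw [← cir_const _ r]
    apply cir_mono hcd.continuous continuous_const
    intro x
    apply Real.log_le_log (hpp x)
    have := h2 x
    nlinarith
  set L := cir (fun x => Real.log (u x + δ ^ 2)) R with hL
  have hx : 0 ≤ 2 * π * Real.log 3 - L + 1 := by
    have := hub R
    linarith
  have hr1 : R ≤ R * Real.exp (2 * π * Real.log 3 - L + 1) := by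
    have := Real.one_le_exp hx
    nlinarith
  have hfin := hgrow _ hr1
  rw [Real.log_mul hR0.ne' (Real.exp_pos _).ne'] at hfin
  simp only [Real.log_exp] at hfin
  have := hub (R * Real.exp (2 * π * Real.log 3 - L + 1))
  linarith

end Run7.h887
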