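import Mathlib

/-! Elementary one-variable lemmas. -/

namespace Run7.h887

open Filter Topology Set
open scoped Real

theorem dec {f f' : ℝ → ℝ} {a b : ℝ} (hab : a ≤ b) (hc : ContinuousOn f (Icc a b))
    (hd : ∀ r ∈ Ioo a b, HasDerivAt f (f' r) r) (hn : ∀ r ∈ Ioo a b, f' r ≤ 0) : f b ≤ f a := by
  have : AntitoneOn f (Icc a b) := by
    apply antitoneOn_of_deriv_nonpos (convex_Icc a b) hc
    · rw [interior_Icc]
      exact fun r hr => (hd r hr).differentiableAt.differentiableWithinAt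
    · rw [interior_Icc]
      intro r hr
      rw [(hd r hr).deriv]; exact hn r hr
  exact this (left_mem_Icc.2 hab) (right_mem_Icc.2 hab) hab

theorem inc {f f' : ℝ → ℝ} {a b : ℝ} (hab : a ≤ b) (hc : ContinuousOn f (Icc a b))
    (hd : ∀ r ∈ Ioo a b, HasDerivAt f (f' r) r) (hn : ∀ r ∈ Ioo a b, 0 ≤ f' r) : f a ≤ f b := by
  have := dec (f := fun r => -f r) (f' := fun r => -f' r) hab hc.neg (fun r hr => (hd r hr).fun_neg)
    (fun r hr => by have := hn r hr; linarith)
  linarith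

theorem sdec {f f' : ℝ → ℝ} {a b : ℝ} (hab : a < b) (hc : ContinuousOn f (Icc a b))
    (hd : ∀ r ∈ Ioo a b, HasDerivAt f (f' r) r) (hn : ∀ r ∈ Ioo a b, f' r < 0) : f b < f a := by
  have : StrictAntiOn f (Icc a b) := by
    apply strictAntiOn_of_deriv_neg (convex_Icc a b) hc
    rw [interior_Icc]
    intro r hr
    rw [(hd r hr).deriv]; exact hn r hr
  exact this (left_mem_Icc.2 hab.le) (right_mem_Icc.2 hab.le) hab

theorem sinc {f f' : ℝ → ℝ} {a b : ℝ} (hab : a < b) (hc : ContinuousOn f (Icc a b))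
    (hd : ∀ r ∈ Ioo a b, HasDerivAt f (f' r) r) (hn : ∀ r ∈ Ioo a b, 0 < f' r) : f a < f b := by
  have := sdec (f := fun r => -f r) (f' := fun r => -f' r) hab hc.neg
    (fun r hr => (hd r hr).fun_neg) (fun r hr => by have := hn r hr; linarith)
  linarith

theorem first_zero {f : ℝ → ℝ} {a b : ℝ} (hab : a ≤ b) (hc : ContinuousOn f (Icc a b))
    (ha : 0 < f a) (hb : f b ≤ 0) :
    ∃ c, a < c ∧ c ≤ b ∧ f c = 0 ∧ ∀ r, a ≤ r → r < c → 0 < f r := by
  have hcl : IsClosed (Icc a b ∩ f ⁻¹' Iic 0) :=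
    hc.preimage_isClosed_of_isClosed isClosed_Icc isClosed_Iic
  have hK : IsCompact (Icc a b ∩ f ⁻¹' Iic 0) :=
    isCompact_Icc.of_isClosed_subset hcl inter_subset_left
  obtain ⟨c, hc1, hc2⟩ := hK.exists_isLeast ⟨b, right_mem_Icc.2 hab, hb⟩
  have hac : a < c := lt_of_le_of_ne hc1.1.1 (by
    rintro rfl
    exact absurd (show f a ≤ 0 from hc1.2) (not_le.2 ha))
  have hpos : ∀ r, a ≤ r → r < c → 0 < f r := by
    intro r h1 h2
    by_contra hcon
    push Not at hcon
    exact absurd (hc2 ⟨⟨h1, h2.le.trans hc1.1.2⟩, hcon⟩) (not_le.2 h2)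
  refine ⟨c, hac, hc1.1.2, le_antisymm hc1.2 ?_, hpos⟩
  have h1 : Tendsto f (𝓝[Ico a c] c) (𝓝 (f c)) :=
    (hc c hc1.1).mono (fun r hr => ⟨hr.1, hr.2.le.trans hc1.1.2⟩)
  rw [nhdsWithin_Ico_eq_nhdsLT hac] at h1
  refine ge_of_tendsto h1 ?_
  filter_upwards [Ico_mem_nhdsLT hac] with r hr
  exact (hpos r hr.1 hr.2).le

theorem left_deriv {f : ℝ → ℝ} {f' a c : ℝ} (hac : a < c) (h : HasDerivAt f f' c)
    (hl : ∀ r, a < r → r < c → f c ≤ f r) : f' ≤ 0 := by
  have h1 : Tendsto (slope f c) (𝓝[<] c) (𝓝 f') :=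
    h.tendsto_slope.mono_left (nhdsWithin_mono _ fun r hr => ne_of_lt hr)
  refine le_of_tendsto h1 ?_
  filter_upwards [Ioo_mem_nhdsLT hac] with r hr
  rw [slope_def_field]
  exact div_nonpos_of_nonneg_of_nonpos (sub_nonneg.2 (hl r hr.1 hr.2)) (sub_nonpos.2 hr.2.le)

theorem left_deriv' {f : ℝ → ℝ} {f' a c : ℝ} (hac : a < c) (h : HasDerivAt f f' c)
    (hl : ∀ r, a < r → r < c → f r ≤ f c) : 0 ≤ f' := by
  have := left_deriv hac h.fun_neg (fun r h1 h2 => by have := hl r h1 h2; linarith)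
  linarith

theorem neg_after {f : ℝ → ℝ} {f' a : ℝ} (h : HasDerivAt f f' a) (h0 : f a = 0) (hn : f' < 0) :
    ∃ c, a < c ∧ ∀ r, a < r → r ≤ c → f r < 0 := by
  have h1 : Tendsto (slope f a) (𝓝[>] a) (𝓝 f') :=
    h.tendsto_slope.mono_left (nhdsWithin_mono _ fun r hr => (ne_of_lt hr).symm)
  have h2 : ∀ᶠ r in 𝓝[>] a, slope f a r < 0 := h1.eventually (gt_mem_nhds hn)
  obtain ⟨c, hc, hsub⟩ := mem_nhdsGT_iff_exists_Ioc_subset.1 h2
  refine ⟨c, hc, fun r hr1 hr2 => ?_⟩
  have h3 : slope f a r < 0 := hsub ⟨hr1, hr2⟩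
  rw [slope_def_field, h0, sub_zero] at h3
  have h4 : 0 < r - a := by linarith
  by_contra hcon
  push Not at hcon
  exact absurd h3 (not_lt.2 (div_nonneg hcon h4.le))

/-- Uniqueness of the zero solution. -/
theorem zero_of_gron {E E' k : ℝ → ℝ} (hd : ∀ r, 0 < r → HasDerivAt E (E' r) r)
    (hE0 : ∀ r, 0 < r → 0 ≤ E r) (hk : ContinuousOn k (Ioi 0))
    (hb : ∀ r, 0 < r → |E' r| ≤ k r * E r) {r₀ : ℝ} (hr₀ : 0 < r₀) (hz : E r₀ = 0) (r : ℝ)
    (hr : 0 < r) : E r = 0 := by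
  have hbd : ∀ a c : ℝ, 0 < a → a ≤ c → ∃ K : ℝ, ∀ s, a ≤ s → s ≤ c → k s ≤ K := by
    intro a c ha hac
    obtain ⟨s, _, hs⟩ := isCompact_Icc.exists_isMaxOn (nonempty_Icc.2 hac)
      (hk.mono fun s hs => lt_of_lt_of_le ha hs.1)
    exact ⟨k s, fun t h1 h2 => hs ⟨h1, h2⟩⟩
  have hexp : ∀ K s : ℝ, HasDerivAt (fun t : ℝ => Real.exp (K * t)) (K * Real.exp (K * s)) s := by
    intro K s
    have h1 : HasDerivAt (fun t : ℝ => K * t) K s := by
      simpa using (hasDerivAt_id s).const_mul K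
    have := h1.exp
    rwa [mul_comm] at this
  apply le_antisymm _ (hE0 r hr)
  rcases le_total r₀ r with h | h
  · obtain ⟨K, hK⟩ := hbd r₀ r hr₀ h
    have h1 := dec (f := fun s => E s * Real.exp (-K * s))
      (f' := fun s => E' s * Real.exp (-K * s) + E s * (-K * Real.exp (-K * s))) h
      (fun s hs => ((hd s (lt_of_lt_of_le hr₀ hs.1)).fun_mul
        (hexp (-K) s)).continuousAt.continuousWithinAt)
      (fun s hs => (hd s (lt_trans hr₀ hs.1)).fun_mul (hexp (-K) s))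
      (fun s hs => by
        have hs0 := lt_trans hr₀ hs.1
        have a1 := (abs_le.1 (hb s hs0)).2
        have a2 := mul_le_mul_of_nonneg_right (hK s hs.1.le hs.2.le) (hE0 s hs0)
        have a3 := Real.exp_pos (-K * s)
        have : E' s * Real.exp (-K * s) + E s * (-K * Real.exp (-K * s))
            = (E' s - K * E s) * Real.exp (-K * s) := by ring
        rw [this]
        exact mul_nonpos_of_nonpos_of_nonneg (by linarith) a3.le)
    simp only [hz, zero_mul] at h1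
    by_contra hcon
    push Not at hcon
    have := mul_pos hcon (Real.exp_pos (-K * r))
    linarith
  · obtain ⟨K, hK⟩ := hbd r r₀ hr h
    have h1 := inc (f := fun s => E s * Real.exp (K * s))
      (f' := fun s => E' s * Real.exp (K * s) + E s * (K * Real.exp (K * s))) h
      (fun s hs => ((hd s (lt_of_lt_of_le hr hs.1)).fun_mul
        (hexp K s)).continuousAt.continuousWithinAt)
      (fun s hs => (hd s (lt_trans hr hs.1)).fun_mul (hexp K s))
      (fun s hs => by
        have hs0 := lt_trans hr hs.1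
        have a1 := (abs_le.1 (hb s hs0)).1
        have a2 := mul_le_mul_of_nonneg_right (hK s hs.1.le hs.2.le) (hE0 s hs0)
        have a3 := Real.exp_pos (K * s)
        have : E' s * Real.exp (K * s) + E s * (K * Real.exp (K * s))
            = (E' s + K * E s) * Real.exp (K * s) := by ring
        rw [this]
        exact mul_nonneg (by linarith) a3.le)
    simp only [hz, zero_mul] at h1
    by_contra hcon
    push Not at hcon
    have := mul_pos hcon (Real.exp_pos (K * r))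
    linarith

/-- A positive continuous function stays positive if it never vanishes. -/
theorem pos_of_ne {f : ℝ → ℝ} {a b : ℝ} (hab : a ≤ b) (hc : ContinuousOn f (Icc a b))
    (ha : 0 < f a) (hne : ∀ r, a ≤ r → r ≤ b → f r ≠ 0) : 0 < f b := by
  by_contra hcon
  push Not at hcon
  obtain ⟨c, h1, h2, h3, _⟩ := first_zero hab hc ha hcon
  exact hne c h1.le h2 h3

end Run7.h887
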