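import Pool.Agent.Run7.h887.Calc

/-! Pointwise identities for critical points. -/

namespace Run7.h887

open MeasureTheory Filter Topology
open scoped ContDiff

variable {φ : ℝ × ℝ → Fin 3 → ℝ} {A : ℝ × ℝ → ℝ × ℝ}

theorem nv_dot (v : Fin 3 → ℝ) : dotProduct nv v = v 2 := by
  simp [nv, dotProduct, Fin.sum_univ_three]

theorem dot3 (v w : Fin 3 → ℝ) : dotProduct v w = v 0 * w 0 + v 1 * w 1 + v 2 * w 2 := by
  simp [dotProduct, Fin.sum_univ_three]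

theorem cross_0 (v w : Fin 3 → ℝ) : crossProduct v w 0 = v 1 * w 2 - v 2 * w 1 := by
  simp [cross_apply]

theorem cross_1 (v w : Fin 3 → ℝ) : crossProduct v w 1 = v 2 * w 0 - v 0 * w 2 := by
  simp [cross_apply]

theorem cross_2 (v w : Fin 3 → ℝ) : crossProduct v w 2 = v 0 * w 1 - v 1 * w 0 := by
  simp [cross_apply]

theorem nv_0 : nv 0 = 0 := rfl
theorem nv_1 : nv 1 = 0 := rfl
theorem nv_2 : nv 2 = 1 := rfl

theorem comp_cd {ψ : ℝ × ℝ → Fin 3 → ℝ} (h : ContDiff ℝ ∞ ψ) (i : Fin 3) :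
    ContDiff ℝ ∞ (fun x => ψ x i) := contDiff_pi.1 h i

theorem cov1_0 {ψ : ℝ × ℝ → Fin 3 → ℝ} (h : ContDiff ℝ ∞ ψ) (x : ℝ × ℝ) :
    cov1 A ψ x 0 = pd1 (fun y => ψ y 0) x - (A x).1 * ψ x 1 := by
  have := pd1_apply (h.differentiable (by simp) x) 0
  simp [cov1, this, cross_0, nv_1, nv_2]; ring

theorem cov1_1 {ψ : ℝ × ℝ → Fin 3 → ℝ} (h : ContDiff ℝ ∞ ψ) (x : ℝ × ℝ) :
    cov1 A ψ x 1 = pd1 (fun y => ψ y 1) x + (A x).1 * ψ x 0 := by
  have := pd1_apply (h.differentiable (by simp) x) 1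
  simp [cov1, this, cross_1, nv_0, nv_2]

theorem cov1_2 {ψ : ℝ × ℝ → Fin 3 → ℝ} (h : ContDiff ℝ ∞ ψ) (x : ℝ × ℝ) :
    cov1 A ψ x 2 = pd1 (fun y => ψ y 2) x := by
  have := pd1_apply (h.differentiable (by simp) x) 2
  simp [cov1, this, cross_2, nv_0, nv_1]

theorem cov2_0 {ψ : ℝ × ℝ → Fin 3 → ℝ} (h : ContDiff ℝ ∞ ψ) (x : ℝ × ℝ) :
    cov2 A ψ x 0 = pd2 (fun y => ψ y 0) x - (A x).2 * ψ x 1 := by
  have := pd2_apply (h.differentiable (by simp) x) 0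
  simp [cov2, this, cross_0, nv_1, nv_2]; ring

theorem cov2_1 {ψ : ℝ × ℝ → Fin 3 → ℝ} (h : ContDiff ℝ ∞ ψ) (x : ℝ × ℝ) :
    cov2 A ψ x 1 = pd2 (fun y => ψ y 1) x + (A x).2 * ψ x 0 := by
  have := pd2_apply (h.differentiable (by simp) x) 1
  simp [cov2, this, cross_1, nv_0, nv_2]

theorem cov2_2 {ψ : ℝ × ℝ → Fin 3 → ℝ} (h : ContDiff ℝ ∞ ψ) (x : ℝ × ℝ) :
    cov2 A ψ x 2 = pd2 (fun y => ψ y 2) x := by
  have := pd2_apply (h.differentiable (by simp) x) 2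
  simp [cov2, this, cross_2, nv_0, nv_1]

theorem cd_cov1 {ψ : ℝ × ℝ → Fin 3 → ℝ} (hA : ContDiff ℝ ∞ A) (h : ContDiff ℝ ∞ ψ) :
    ContDiff ℝ ∞ (cov1 A ψ) := by
  rw [contDiff_pi]
  intro i
  have h1 : ContDiff ℝ ∞ (fun x => (A x).1) := contDiff_fst.comp hA
  have c0 := comp_cd h 0
  have c1 := comp_cd h 1
  have c2 := comp_cd h 2
  fin_cases i
  · simp only [Fin.zero_eta]
    rw [show (fun x => cov1 A ψ x 0) = fun x => pd1 (fun y => ψ y 0) x - (A x).1 * ψ x 1 from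
      funext fun x => cov1_0 h x]
    exact (cd_pd1 c0).sub (h1.mul c1)
  · simp only [Fin.mk_one]
    rw [show (fun x => cov1 A ψ x 1) = fun x => pd1 (fun y => ψ y 1) x + (A x).1 * ψ x 0 from
      funext fun x => cov1_1 h x]
    exact (cd_pd1 c1).add (h1.mul c0)
  · simp only [Fin.reduceFinMk]
    rw [show (fun x => cov1 A ψ x 2) = fun x => pd1 (fun y => ψ y 2) x from
      funext fun x => cov1_2 h x]
    exact (cd_pd1 c2)

theorem cd_cov2 {ψ : ℝ × ℝ → Fin 3 → ℝ} (hA : ContDiff ℝ ∞ A) (h : ContDiff ℝ ∞ ψ) :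
    ContDiff ℝ ∞ (cov2 A ψ) := by
  rw [contDiff_pi]
  intro i
  have h1 : ContDiff ℝ ∞ (fun x => (A x).2) := contDiff_snd.comp hA
  have c0 := comp_cd h 0
  have c1 := comp_cd h 1
  have c2 := comp_cd h 2
  fin_cases i
  · simp only [Fin.zero_eta]
    rw [show (fun x => cov2 A ψ x 0) = fun x => pd2 (fun y => ψ y 0) x - (A x).2 * ψ x 1 from
      funext fun x => cov2_0 h x]
    exact (cd_pd2 c0).sub (h1.mul c1)
  · simp only [Fin.mk_one]
    rw [show (fun x => cov2 A ψ x 1) = fun x => pd2 (fun y => ψ y 1) x + (A x).2 * ψ x 0 from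
      funext fun x => cov2_1 h x]
    exact (cd_pd2 c1).add (h1.mul c0)
  · simp only [Fin.reduceFinMk]
    rw [show (fun x => cov2 A ψ x 2) = fun x => pd2 (fun y => ψ y 2) x from
      funext fun x => cov2_2 h x]
    exact (cd_pd2 c2)

theorem cd_fld (hA : ContDiff ℝ ∞ A) : ContDiff ℝ ∞ (fld A) := by
  have h1 : ContDiff ℝ ∞ (fun x => (A x).1) := contDiff_fst.comp hA
  have h2 : ContDiff ℝ ∞ (fun x => (A x).2) := contDiff_snd.comp hA
  exact (cd_pd1 h2).sub (cd_pd2 h1)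

/-- `u = 1 - φ_3`. -/
noncomputable def uu (φ : ℝ × ℝ → Fin 3 → ℝ) (x : ℝ × ℝ) : ℝ := 1 - φ x 2

/-- `w_+ = u + F`. -/
noncomputable def wp (φ : ℝ × ℝ → Fin 3 → ℝ) (A : ℝ × ℝ → ℝ × ℝ) (x : ℝ × ℝ) : ℝ :=
  uu φ x + fld A x

/-- `w_- = u - F`. -/
noncomputable def wm (φ : ℝ × ℝ → Fin 3 → ℝ) (A : ℝ × ℝ → ℝ × ℝ) (x : ℝ × ℝ) : ℝ :=
  uu φ x - fld A x

/-- `|D_1 φ - φ × D_2 φ|²`. -/
noncomputable def Sp (φ : ℝ × ℝ → Fin 3 → ℝ) (A : ℝ × ℝ → ℝ × ℝ) (x : ℝ × ℝ) : ℝ :=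
  dotProduct (cov1 A φ x - crossProduct (φ x) (cov2 A φ x))
    (cov1 A φ x - crossProduct (φ x) (cov2 A φ x))

/-- `|D_1 φ + φ × D_2 φ|²`. -/
noncomputable def Sm (φ : ℝ × ℝ → Fin 3 → ℝ) (A : ℝ × ℝ → ℝ × ℝ) (x : ℝ × ℝ) : ℝ :=
  dotProduct (cov1 A φ x + crossProduct (φ x) (cov2 A φ x))
    (cov1 A φ x + crossProduct (φ x) (cov2 A φ x))

/-- `|D_1 φ|² + |D_2 φ|²`. -/
noncomputable def ee (φ : ℝ × ℝ → Fin 3 → ℝ) (A : ℝ × ℝ → ℝ × ℝ) (x : ℝ × ℝ) : ℝ :=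
  dotProduct (cov1 A φ x) (cov1 A φ x) + dotProduct (cov2 A φ x) (cov2 A φ x)

/-- `φ · (D_1 φ × D_2 φ)`. -/
noncomputable def qq (φ : ℝ × ℝ → Fin 3 → ℝ) (A : ℝ × ℝ → ℝ × ℝ) (x : ℝ × ℝ) : ℝ :=
  dotProduct (φ x) (crossProduct (cov1 A φ x) (cov2 A φ x))

theorem cd_uu (h : ContDiff ℝ ∞ φ) : ContDiff ℝ ∞ (uu φ) :=
  contDiff_const.sub (comp_cd h 2)

theorem cd_wp (h : ContDiff ℝ ∞ φ) (hA : ContDiff ℝ ∞ A) : ContDiff ℝ ∞ (wp φ A) :=
  (cd_uu h).add (cd_fld hA)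

theorem cd_wm (h : ContDiff ℝ ∞ φ) (hA : ContDiff ℝ ∞ A) : ContDiff ℝ ∞ (wm φ A) :=
  (cd_uu h).sub (cd_fld hA)

section basics

variable (hφ : ContDiff ℝ ∞ φ) (hA : ContDiff ℝ ∞ A) (hs : ∀ x, dotProduct (φ x) (φ x) = 1)

include hφ hs in
theorem tang1 (x : ℝ × ℝ) : φ x 0 * cov1 A φ x 0 + φ x 1 * cov1 A φ x 1 + φ x 2 * cov1 A φ x 2 = 0 := by
  have d0 : Differentiable ℝ (fun y => φ y 0) := (comp_cd hφ 0).differentiable (by simp)
  have d1 : Differentiable ℝ (fun y => φ y 1) := (comp_cd hφ 1).differentiable (by simp)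
  have d2 : Differentiable ℝ (fun y => φ y 2) := (comp_cd hφ 2).differentiable (by simp)
  have e : (fun y => φ y 0 * φ y 0 + φ y 1 * φ y 1 + φ y 2 * φ y 2) = fun _ => (1 : ℝ) := by
    funext y; rw [← dot3]; exact hs y
  have e2 : pd1 (fun y => φ y 0 * φ y 0 + φ y 1 * φ y 1 + φ y 2 * φ y 2) x = 0 := by
    rw [e, pd1_const]
  rw [pd1_add ((d0.fun_mul d0).fun_add (d1.fun_mul d1)) (d2.fun_mul d2), pd1_add (d0.fun_mul d0) (d1.fun_mul d1),
    pd1_mul d0 d0, pd1_mul d1 d1, pd1_mul d2 d2] at e2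
  simp only at e2
  rw [cov1_0 hφ, cov1_1 hφ, cov1_2 hφ]
  linarith

include hφ hs in
theorem tang2 (x : ℝ × ℝ) : φ x 0 * cov2 A φ x 0 + φ x 1 * cov2 A φ x 1 + φ x 2 * cov2 A φ x 2 = 0 := by
  have d0 : Differentiable ℝ (fun y => φ y 0) := (comp_cd hφ 0).differentiable (by simp)
  have d1 : Differentiable ℝ (fun y => φ y 1) := (comp_cd hφ 1).differentiable (by simp)
  have d2 : Differentiable ℝ (fun y => φ y 2) := (comp_cd hφ 2).differentiable (by simp)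
  have e : (fun y => φ y 0 * φ y 0 + φ y 1 * φ y 1 + φ y 2 * φ y 2) = fun _ => (1 : ℝ) := by
    funext y; rw [← dot3]; exact hs y
  have e2 : pd2 (fun y => φ y 0 * φ y 0 + φ y 1 * φ y 1 + φ y 2 * φ y 2) x = 0 := by
    rw [e, pd2_const]
  rw [pd2_add ((d0.fun_mul d0).fun_add (d1.fun_mul d1)) (d2.fun_mul d2), pd2_add (d0.fun_mul d0) (d1.fun_mul d1),
    pd2_mul d0 d0, pd2_mul d1 d1, pd2_mul d2 d2] at e2
  simp only at e2
  rw [cov2_0 hφ, cov2_1 hφ, cov2_2 hφ]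
  linarith

include hs in
theorem sph3 (x : ℝ × ℝ) : φ x 0 ^ 2 + φ x 1 ^ 2 + φ x 2 ^ 2 = 1 := by
  have := hs x; rw [dot3] at this; linarith [this]

include hφ hs in
theorem Sp_eq (x : ℝ × ℝ) : Sp φ A x = ee φ A x + 2 * qq φ A x := by
  have h0 := sph3 hs x
  have h1 := tang1 (A := A) hφ hs x
  have h2 := tang2 (A := A) hφ hs x
  simp only [Sp, ee, qq, dot3, Pi.sub_apply, cross_0, cross_1, cross_2]
  generalize cov1 A φ x 0 = p1 at *
  generalize cov1 A φ x 1 = q1 at *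
  generalize cov1 A φ x 2 = r1 at *
  generalize cov2 A φ x 0 = p2 at *
  generalize cov2 A φ x 1 = q2 at *
  generalize cov2 A φ x 2 = r2 at *
  generalize φ x 0 = a at *
  generalize φ x 1 = b at *
  generalize φ x 2 = c at *
  linear_combination (p2 ^ 2 + q2 ^ 2 + r2 ^ 2) * h0 - (a * p2 + b * q2 + c * r2) * h2

include hφ hs in
theorem Sm_eq (x : ℝ × ℝ) : Sm φ A x = ee φ A x - 2 * qq φ A x := by
  have h0 := sph3 hs x
  have h1 := tang1 (A := A) hφ hs x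
  have h2 := tang2 (A := A) hφ hs x
  simp only [Sm, ee, qq, dot3, Pi.add_apply, cross_0, cross_1, cross_2]
  generalize cov1 A φ x 0 = p1 at *
  generalize cov1 A φ x 1 = q1 at *
  generalize cov1 A φ x 2 = r1 at *
  generalize cov2 A φ x 0 = p2 at *
  generalize cov2 A φ x 1 = q2 at *
  generalize cov2 A φ x 2 = r2 at *
  generalize φ x 0 = a at *
  generalize φ x 1 = b at *
  generalize φ x 2 = c at *
  linear_combination (p2 ^ 2 + q2 ^ 2 + r2 ^ 2) * h0 - (a * p2 + b * q2 + c * r2) * h2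

theorem dot_self_nonneg' (v : Fin 3 → ℝ) : 0 ≤ dotProduct v v := by
  rw [dot3]; nlinarith [sq_nonneg (v 0), sq_nonneg (v 1), sq_nonneg (v 2)]

theorem Sp_nonneg (x : ℝ × ℝ) : 0 ≤ Sp φ A x := dot_self_nonneg' _

theorem Sm_nonneg (x : ℝ × ℝ) : 0 ≤ Sm φ A x := dot_self_nonneg' _

theorem ee_nonneg (x : ℝ × ℝ) : 0 ≤ ee φ A x := add_nonneg (dot_self_nonneg' _) (dot_self_nonneg' _)

theorem dens_eq (x : ℝ × ℝ) : dens φ A x = ee φ A x + uu φ x ^ 2 + fld A x ^ 2 := by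
  simp only [dens, ee, uu, nv_dot]

include hs in
theorem c_le (x : ℝ × ℝ) : φ x 2 ≤ 1 := by
  have := sph3 hs x
  nlinarith [sq_nonneg (φ x 0), sq_nonneg (φ x 1)]

include hs in
theorem c_ge (x : ℝ × ℝ) : -1 ≤ φ x 2 := by
  have := sph3 hs x
  nlinarith [sq_nonneg (φ x 0), sq_nonneg (φ x 1)]

include hs in
theorem uu_nonneg (x : ℝ × ℝ) : 0 ≤ uu φ x := by
  have := c_le hs x; unfold uu; linarith

include hs in
theorem uu_le (x : ℝ × ℝ) : uu φ x ≤ 2 := by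
  have := c_ge hs x; unfold uu; linarith

end basics

section critical

variable (hφ : ContDiff ℝ ∞ φ) (hA : ContDiff ℝ ∞ A) (hs : ∀ x, dotProduct (φ x) (φ x) = 1)
  (hc : IsCritical φ A)

include hφ in
theorem pd1_uu (x : ℝ × ℝ) : pd1 (uu φ) x = - cov1 A φ x 2 := by
  have d2 : Differentiable ℝ (fun y => φ y 2) := (comp_cd hφ 2).differentiable (by simp)
  have : uu φ = fun y => (1 : ℝ) - φ y 2 := rfl
  rw [this, pd1_sub (differentiable_const _) d2, pd1_const, cov1_2 hφ]; ring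

include hφ in
theorem pd2_uu (x : ℝ × ℝ) : pd2 (uu φ) x = - cov2 A φ x 2 := by
  have d2 : Differentiable ℝ (fun y => φ y 2) := (comp_cd hφ 2).differentiable (by simp)
  have : uu φ = fun y => (1 : ℝ) - φ y 2 := rfl
  rw [this, pd2_sub (differentiable_const _) d2, pd2_const, cov2_2 hφ]; ring

include hc in
theorem pd1_fld (x : ℝ × ℝ) : pd1 (fld A) x = φ x 0 * cov2 A φ x 1 - φ x 1 * cov2 A φ x 0 := by
  rw [hc.maxwell1, dot3, cross_0, cross_1, cross_2, nv_0, nv_1, nv_2]; ring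

include hc in
theorem pd2_fld (x : ℝ × ℝ) : pd2 (fld A) x = -(φ x 0 * cov1 A φ x 1 - φ x 1 * cov1 A φ x 0) := by
  rw [hc.maxwell2, dot3, cross_0, cross_1, cross_2, nv_0, nv_1, nv_2]; ring

/-- Derivative of tangency: `φ·D_1 D_1 φ = -|D_1 φ|²` in components. -/
theorem tang11 (hφ : ContDiff ℝ ∞ φ) (hA : ContDiff ℝ ∞ A)
    (hs : ∀ x, dotProduct (φ x) (φ x) = 1) (x : ℝ × ℝ) :
    φ x 0 * cov1 A (cov1 A φ) x 0 + φ x 1 * cov1 A (cov1 A φ) x 1
      + φ x 2 * cov1 A (cov1 A φ) x 2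
      = -(cov1 A φ x 0 ^ 2 + cov1 A φ x 1 ^ 2 + cov1 A φ x 2 ^ 2) := by
  have hP := cd_cov1 hA hφ
  have d0 : Differentiable ℝ (fun y => φ y 0) := (comp_cd hφ 0).differentiable (by simp)
  have d1 : Differentiable ℝ (fun y => φ y 1) := (comp_cd hφ 1).differentiable (by simp)
  have d2 : Differentiable ℝ (fun y => φ y 2) := (comp_cd hφ 2).differentiable (by simp)
  have p0 : Differentiable ℝ (fun y => cov1 A φ y 0) := (comp_cd hP 0).differentiable (by simp)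
  have p1 : Differentiable ℝ (fun y => cov1 A φ y 1) := (comp_cd hP 1).differentiable (by simp)
  have p2 : Differentiable ℝ (fun y => cov1 A φ y 2) := (comp_cd hP 2).differentiable (by simp)
  have e : (fun y => φ y 0 * cov1 A φ y 0 + φ y 1 * cov1 A φ y 1 + φ y 2 * cov1 A φ y 2)
      = fun _ => (0 : ℝ) := by
    funext y; exact tang1 hφ hs y
  have e2 : pd1 (fun y => φ y 0 * cov1 A φ y 0 + φ y 1 * cov1 A φ y 1 + φ y 2 * cov1 A φ y 2) x
      = 0 := by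
    rw [e, pd1_const]
  rw [pd1_add ((d0.fun_mul p0).fun_add (d1.fun_mul p1)) (d2.fun_mul p2), pd1_add (d0.fun_mul p0) (d1.fun_mul p1),
    pd1_mul d0 p0, pd1_mul d1 p1, pd1_mul d2 p2] at e2
  simp only at e2
  have a0 := cov1_0 (A := A) hφ x
  have a1 := cov1_1 (A := A) hφ x
  have a2 := cov1_2 (A := A) hφ x
  rw [cov1_0 hP x, cov1_1 hP x, cov1_2 hP x]
  linear_combination e2 + cov1 A φ x 0 * a0 + cov1 A φ x 1 * a1 + cov1 A φ x 2 * a2

theorem tang22 (hφ : ContDiff ℝ ∞ φ) (hA : ContDiff ℝ ∞ A)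
    (hs : ∀ x, dotProduct (φ x) (φ x) = 1) (x : ℝ × ℝ) :
    φ x 0 * cov2 A (cov2 A φ) x 0 + φ x 1 * cov2 A (cov2 A φ) x 1
      + φ x 2 * cov2 A (cov2 A φ) x 2
      = -(cov2 A φ x 0 ^ 2 + cov2 A φ x 1 ^ 2 + cov2 A φ x 2 ^ 2) := by
  have hP := cd_cov2 hA hφ
  have d0 : Differentiable ℝ (fun y => φ y 0) := (comp_cd hφ 0).differentiable (by simp)
  have d1 : Differentiable ℝ (fun y => φ y 1) := (comp_cd hφ 1).differentiable (by simp)
  have d2 : Differentiable ℝ (fun y => φ y 2) := (comp_cd hφ 2).differentiable (by simp)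
  have p0 : Differentiable ℝ (fun y => cov2 A φ y 0) := (comp_cd hP 0).differentiable (by simp)
  have p1 : Differentiable ℝ (fun y => cov2 A φ y 1) := (comp_cd hP 1).differentiable (by simp)
  have p2 : Differentiable ℝ (fun y => cov2 A φ y 2) := (comp_cd hP 2).differentiable (by simp)
  have e : (fun y => φ y 0 * cov2 A φ y 0 + φ y 1 * cov2 A φ y 1 + φ y 2 * cov2 A φ y 2)
      = fun _ => (0 : ℝ) := by
    funext y; exact tang2 hφ hs y
  have e2 : pd2 (fun y => φ y 0 * cov2 A φ y 0 + φ y 1 * cov2 A φ y 1 + φ y 2 * cov2 A φ y 2) x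
      = 0 := by
    rw [e, pd2_const]
  rw [pd2_add ((d0.fun_mul p0).fun_add (d1.fun_mul p1)) (d2.fun_mul p2), pd2_add (d0.fun_mul p0) (d1.fun_mul p1),
    pd2_mul d0 p0, pd2_mul d1 p1, pd2_mul d2 p2] at e2
  simp only at e2
  have a0 := cov2_0 (A := A) hφ x
  have a1 := cov2_1 (A := A) hφ x
  have a2 := cov2_2 (A := A) hφ x
  rw [cov2_0 hP x, cov2_1 hP x, cov2_2 hP x]
  linear_combination e2 + cov2 A φ x 0 * a0 + cov2 A φ x 1 * a1 + cov2 A φ x 2 * a2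

/-- The commutator `[D_1, D_2] φ = F n × φ`, components. -/
theorem comm0 (hφ : ContDiff ℝ ∞ φ) (hA : ContDiff ℝ ∞ A) (x : ℝ × ℝ) :
    cov1 A (cov2 A φ) x 0 - cov2 A (cov1 A φ) x 0 = - fld A x * φ x 1 := by
  have hP := cd_cov1 hA hφ
  have hQ := cd_cov2 hA hφ
  have h1 : Differentiable ℝ (fun x => (A x).1) :=
    (contDiff_fst.comp hA).differentiable (by simp)
  have h2 : Differentiable ℝ (fun x => (A x).2) :=
    (contDiff_snd.comp hA).differentiable (by simp)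
  have d0 : Differentiable ℝ (fun y => φ y 0) := (comp_cd hφ 0).differentiable (by simp)
  have d1 : Differentiable ℝ (fun y => φ y 1) := (comp_cd hφ 1).differentiable (by simp)
  have e0 : Differentiable ℝ (pd1 (fun y => φ y 0)) :=
    (cd_pd1 (comp_cd hφ 0)).differentiable (by simp)
  have f0 : Differentiable ℝ (pd2 (fun y => φ y 0)) :=
    (cd_pd2 (comp_cd hφ 0)).differentiable (by simp)
  rw [cov1_0 hQ x, cov2_0 hP x]
  rw [show (fun y => cov2 A φ y 0) = fun y => pd2 (fun z => φ z 0) y - (A y).2 * φ y 1 from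
    funext fun y => cov2_0 hφ y]
  rw [show (fun y => cov1 A φ y 0) = fun y => pd1 (fun z => φ z 0) y - (A y).1 * φ y 1 from
    funext fun y => cov1_0 hφ y]
  rw [pd1_sub f0 (h2.fun_mul d1), pd2_sub e0 (h1.fun_mul d1), pd1_mul h2 d1, pd2_mul h1 d1]
  simp only
  rw [cov2_1 hφ, cov1_1 hφ]
  have := pd_comm (comp_cd hφ 0) x
  unfold fld
  linear_combination this

theorem comm1 (hφ : ContDiff ℝ ∞ φ) (hA : ContDiff ℝ ∞ A) (x : ℝ × ℝ) :
    cov1 A (cov2 A φ) x 1 - cov2 A (cov1 A φ) x 1 = fld A x * φ x 0 := by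
  have hP := cd_cov1 hA hφ
  have hQ := cd_cov2 hA hφ
  have h1 : Differentiable ℝ (fun x => (A x).1) :=
    (contDiff_fst.comp hA).differentiable (by simp)
  have h2 : Differentiable ℝ (fun x => (A x).2) :=
    (contDiff_snd.comp hA).differentiable (by simp)
  have d0 : Differentiable ℝ (fun y => φ y 0) := (comp_cd hφ 0).differentiable (by simp)
  have d1 : Differentiable ℝ (fun y => φ y 1) := (comp_cd hφ 1).differentiable (by simp)
  have e0 : Differentiable ℝ (pd1 (fun y => φ y 1)) :=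
    (cd_pd1 (comp_cd hφ 1)).differentiable (by simp)
  have f0 : Differentiable ℝ (pd2 (fun y => φ y 1)) :=
    (cd_pd2 (comp_cd hφ 1)).differentiable (by simp)
  rw [cov1_1 hQ x, cov2_1 hP x]
  rw [show (fun y => cov2 A φ y 1) = fun y => pd2 (fun z => φ z 1) y + (A y).2 * φ y 0 from
    funext fun y => cov2_1 hφ y]
  rw [show (fun y => cov1 A φ y 1) = fun y => pd1 (fun z => φ z 1) y + (A y).1 * φ y 0 from
    funext fun y => cov1_1 hφ y]
  rw [pd1_add f0 (h2.fun_mul d0), pd2_add e0 (h1.fun_mul d0), pd1_mul h2 d0, pd2_mul h1 d0]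
  simp only
  rw [cov2_0 hφ, cov1_0 hφ]
  have := pd_comm (comp_cd hφ 1) x
  unfold fld
  linear_combination this

theorem comm2 (hφ : ContDiff ℝ ∞ φ) (hA : ContDiff ℝ ∞ A) (x : ℝ × ℝ) :
    cov1 A (cov2 A φ) x 2 - cov2 A (cov1 A φ) x 2 = 0 := by
  have hP := cd_cov1 hA hφ
  have hQ := cd_cov2 hA hφ
  rw [cov1_2 hQ x, cov2_2 hP x]
  rw [show (fun y => cov2 A φ y 2) = fun y => pd2 (fun z => φ z 2) y from
    funext fun y => cov2_2 hφ y]
  rw [show (fun y => cov1 A φ y 2) = fun y => pd1 (fun z => φ z 2) y from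
    funext fun y => cov1_2 hφ y]
  have := pd_comm (comp_cd hφ 2) x
  linear_combination this

/-- The sigma-model equation solved for the Laplacian: there is a multiplier. -/
theorem sigma_solved (hφ : ContDiff ℝ ∞ φ) (hA : ContDiff ℝ ∞ A)
    (hs : ∀ x, dotProduct (φ x) (φ x) = 1) (hc : IsCritical φ A) (x : ℝ × ℝ) :
    (cov1 A (cov1 A φ) x 0 + cov2 A (cov2 A φ) x 0
      = (-(ee φ A x) + (1 - φ x 2) * φ x 2) * φ x 0) ∧
    (cov1 A (cov1 A φ) x 1 + cov2 A (cov2 A φ) x 1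
      = (-(ee φ A x) + (1 - φ x 2) * φ x 2) * φ x 1) ∧
    (cov1 A (cov1 A φ) x 2 + cov2 A (cov2 A φ) x 2 + (1 - φ x 2)
      = (-(ee φ A x) + (1 - φ x 2) * φ x 2) * φ x 2) := by
  have h0 := sph3 hs x
  have t1 := tang11 hφ hA hs x
  have t2 := tang22 hφ hA hs x
  have hh := hc.sigma x
  have g0 := congrFun hh 0
  have g1 := congrFun hh 1
  have g2 := congrFun hh 2
  rw [cross_0] at g0
  rw [cross_1] at g1
  rw [cross_2] at g2
  simp only [Pi.add_apply, Pi.smul_apply, nv_0, nv_1, nv_2, nv_dot, smul_eq_mul, mul_zero,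
    add_zero, mul_one, Pi.zero_apply] at g0 g1 g2
  have he : ee φ A x = (cov1 A φ x 0 ^ 2 + cov1 A φ x 1 ^ 2 + cov1 A φ x 2 ^ 2)
      + (cov2 A φ x 0 ^ 2 + cov2 A φ x 1 ^ 2 + cov2 A φ x 2 ^ 2) := by
    simp only [ee, dot3]; ring
  rw [he]
  generalize (cov1 A φ x 0 ^ 2 + cov1 A φ x 1 ^ 2 + cov1 A φ x 2 ^ 2) = E1 at *
  generalize (cov2 A φ x 0 ^ 2 + cov2 A φ x 1 ^ 2 + cov2 A φ x 2 ^ 2) = E2 at *
  generalize cov1 A (cov1 A φ) x 0 = X0 at *
  generalize cov1 A (cov1 A φ) x 1 = X1 at *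
  generalize cov1 A (cov1 A φ) x 2 = X2 at *
  generalize cov2 A (cov2 A φ) x 0 = Y0 at *
  generalize cov2 A (cov2 A φ) x 1 = Y1 at *
  generalize cov2 A (cov2 A φ) x 2 = Y2 at *
  generalize φ x 0 = a at *
  generalize φ x 1 = b at *
  generalize φ x 2 = c at *
  refine ⟨?_, ?_, ?_⟩
  · linear_combination (-(X0 + Y0)) * h0 + a * (t1 + t2) + c * g1 - b * g2
  · linear_combination (-(X1 + Y1)) * h0 + b * (t1 + t2) - c * g0 + a * g2
  · linear_combination (-(X2 + Y2 + (1 - c))) * h0 + c * (t1 + t2) + b * g0 - a * g1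

end critical

end Run7.h887
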