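import Pool.Agent.Run7.h887.Ident

/-! Second order identities and the stress tensor. -/

namespace Run7.h887

open MeasureTheory Filter Topology
open scoped ContDiff

variable {φ : ℝ × ℝ → Fin 3 → ℝ} {A : ℝ × ℝ → ℝ × ℝ}

theorem dd {f : ℝ × ℝ → ℝ} (h : ContDiff ℝ ∞ f) : Differentiable ℝ f := h.differentiable (by simp)

theorem pd1_wp (hφ : ContDiff ℝ ∞ φ) (hA : ContDiff ℝ ∞ A) (hc : IsCritical φ A) (x : ℝ × ℝ) :
    pd1 (wp φ A) x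
      = - cov1 A φ x 2 + (φ x 0 * cov2 A φ x 1 - φ x 1 * cov2 A φ x 0) := by
  have : wp φ A = fun y => uu φ y + fld A y := rfl
  rw [this, pd1_add (dd (cd_uu hφ)) (dd (cd_fld hA))]
  simp only
  rw [pd1_uu hφ, pd1_fld hc]

theorem pd2_wp (hφ : ContDiff ℝ ∞ φ) (hA : ContDiff ℝ ∞ A) (hc : IsCritical φ A) (x : ℝ × ℝ) :
    pd2 (wp φ A) x
      = - cov2 A φ x 2 - (φ x 0 * cov1 A φ x 1 - φ x 1 * cov1 A φ x 0) := by
  have : wp φ A = fun y => uu φ y + fld A y := rfl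
  rw [this, pd2_add (dd (cd_uu hφ)) (dd (cd_fld hA))]
  simp only
  rw [pd2_uu hφ, pd2_fld hc]; ring

theorem pd1_wm (hφ : ContDiff ℝ ∞ φ) (hA : ContDiff ℝ ∞ A) (hc : IsCritical φ A) (x : ℝ × ℝ) :
    pd1 (wm φ A) x
      = - cov1 A φ x 2 - (φ x 0 * cov2 A φ x 1 - φ x 1 * cov2 A φ x 0) := by
  have : wm φ A = fun y => uu φ y - fld A y := rfl
  rw [this, pd1_sub (dd (cd_uu hφ)) (dd (cd_fld hA))]
  simp only
  rw [pd1_uu hφ, pd1_fld hc]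

theorem pd2_wm (hφ : ContDiff ℝ ∞ φ) (hA : ContDiff ℝ ∞ A) (hc : IsCritical φ A) (x : ℝ × ℝ) :
    pd2 (wm φ A) x
      = - cov2 A φ x 2 + (φ x 0 * cov1 A φ x 1 - φ x 1 * cov1 A φ x 0) := by
  have : wm φ A = fun y => uu φ y - fld A y := rfl
  rw [this, pd2_sub (dd (cd_uu hφ)) (dd (cd_fld hA))]
  simp only
  rw [pd2_uu hφ, pd2_fld hc]; ring

theorem alg_grad {a b c x y z : ℝ} (h0 : a ^ 2 + b ^ 2 + c ^ 2 = 1)
    (ht : a * x + b * y + c * z = 0) :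
    z ^ 2 + (a * y - b * x) ^ 2 = (1 - c ^ 2) * (x * x + y * y + z * z) := by
  linear_combination (x ^ 2 + y ^ 2) * h0 + (c * z - a * x - b * y) * ht

theorem grad_wp (hφ : ContDiff ℝ ∞ φ) (hA : ContDiff ℝ ∞ A)
    (hs : ∀ x, dotProduct (φ x) (φ x) = 1) (hc : IsCritical φ A) (x : ℝ × ℝ) :
    pd1 (wp φ A) x ^ 2 + pd2 (wp φ A) x ^ 2 = (1 - φ x 2 ^ 2) * Sp φ A x := by
  rw [pd1_wp hφ hA hc, pd2_wp hφ hA hc]
  have h0 := sph3 hs x
  have h1 := tang1 (A := A) hφ hs x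
  have h2 := tang2 (A := A) hφ hs x
  simp only [Sp, dot3, Pi.sub_apply, cross_0, cross_1, cross_2]
  generalize cov1 A φ x 0 = p1 at *
  generalize cov1 A φ x 1 = q1 at *
  generalize cov1 A φ x 2 = r1 at *
  generalize cov2 A φ x 0 = p2 at *
  generalize cov2 A φ x 1 = q2 at *
  generalize cov2 A φ x 2 = r2 at *
  generalize φ x 0 = a at *
  generalize φ x 1 = b at *
  generalize φ x 2 = c at *
  have ht : a * (p1 - (b * r2 - c * q2)) + b * (q1 - (c * p2 - a * r2))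
      + c * (r1 - (a * q2 - b * p2)) = 0 := by linear_combination h1
  have hg := alg_grad h0 ht
  rw [← hg]
  have h3 : a * (q1 - (c * p2 - a * r2)) - b * (p1 - (b * r2 - c * q2))
      = r2 + (a * q1 - b * p1) := by
    linear_combination r2 * h0 - c * h2
  rw [h3]; ring

theorem grad_wm (hφ : ContDiff ℝ ∞ φ) (hA : ContDiff ℝ ∞ A)
    (hs : ∀ x, dotProduct (φ x) (φ x) = 1) (hc : IsCritical φ A) (x : ℝ × ℝ) :
    pd1 (wm φ A) x ^ 2 + pd2 (wm φ A) x ^ 2 = (1 - φ x 2 ^ 2) * Sm φ A x := by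
  rw [pd1_wm hφ hA hc, pd2_wm hφ hA hc]
  have h0 := sph3 hs x
  have h1 := tang1 (A := A) hφ hs x
  have h2 := tang2 (A := A) hφ hs x
  simp only [Sm, dot3, Pi.add_apply, cross_0, cross_1, cross_2]
  generalize cov1 A φ x 0 = p1 at *
  generalize cov1 A φ x 1 = q1 at *
  generalize cov1 A φ x 2 = r1 at *
  generalize cov2 A φ x 0 = p2 at *
  generalize cov2 A φ x 1 = q2 at *
  generalize cov2 A φ x 2 = r2 at *
  generalize φ x 0 = a at *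
  generalize φ x 1 = b at *
  generalize φ x 2 = c at *
  have ht : a * (p1 + (b * r2 - c * q2)) + b * (q1 + (c * p2 - a * r2))
      + c * (r1 + (a * q2 - b * p2)) = 0 := by linear_combination h1
  have hg := alg_grad h0 ht
  rw [← hg]
  have h3 : a * (q1 + (c * p2 - a * r2)) - b * (p1 + (b * r2 - c * q2))
      = - r2 + (a * q1 - b * p1) := by
    linear_combination (- r2) * h0 + c * h2
  rw [h3]; ring

/-- Metric compatibility. -/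
theorem pd1_dot {ψ χ : ℝ × ℝ → Fin 3 → ℝ} (hψ : ContDiff ℝ ∞ ψ) (hχ : ContDiff ℝ ∞ χ)
    (x : ℝ × ℝ) : pd1 (fun y => dotProduct (ψ y) (χ y)) x
      = dotProduct (cov1 A ψ x) (χ x) + dotProduct (ψ x) (cov1 A χ x) := by
  have e : (fun y => dotProduct (ψ y) (χ y))
      = fun y => ψ y 0 * χ y 0 + ψ y 1 * χ y 1 + ψ y 2 * χ y 2 := by
    funext y; exact dot3 _ _
  have d0 := dd (comp_cd hψ 0)
  have d1 := dd (comp_cd hψ 1)
  have d2 := dd (comp_cd hψ 2)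
  have p0 := dd (comp_cd hχ 0)
  have p1 := dd (comp_cd hχ 1)
  have p2 := dd (comp_cd hχ 2)
  rw [e, pd1_add ((d0.fun_mul p0).fun_add (d1.fun_mul p1)) (d2.fun_mul p2),
    pd1_add (d0.fun_mul p0) (d1.fun_mul p1), pd1_mul d0 p0, pd1_mul d1 p1, pd1_mul d2 p2]
  simp only
  rw [dot3, dot3, cov1_0 hψ, cov1_1 hψ, cov1_2 hψ, cov1_0 hχ, cov1_1 hχ, cov1_2 hχ]
  ring

theorem pd2_dot {ψ χ : ℝ × ℝ → Fin 3 → ℝ} (hψ : ContDiff ℝ ∞ ψ) (hχ : ContDiff ℝ ∞ χ)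
    (x : ℝ × ℝ) : pd2 (fun y => dotProduct (ψ y) (χ y)) x
      = dotProduct (cov2 A ψ x) (χ x) + dotProduct (ψ x) (cov2 A χ x) := by
  have e : (fun y => dotProduct (ψ y) (χ y))
      = fun y => ψ y 0 * χ y 0 + ψ y 1 * χ y 1 + ψ y 2 * χ y 2 := by
    funext y; exact dot3 _ _
  have d0 := dd (comp_cd hψ 0)
  have d1 := dd (comp_cd hψ 1)
  have d2 := dd (comp_cd hψ 2)
  have p0 := dd (comp_cd hχ 0)
  have p1 := dd (comp_cd hχ 1)
  have p2 := dd (comp_cd hχ 2)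
  rw [e, pd2_add ((d0.fun_mul p0).fun_add (d1.fun_mul p1)) (d2.fun_mul p2),
    pd2_add (d0.fun_mul p0) (d1.fun_mul p1), pd2_mul d0 p0, pd2_mul d1 p1, pd2_mul d2 p2]
  simp only
  rw [dot3, dot3, cov2_0 hψ, cov2_1 hψ, cov2_2 hψ, cov2_0 hχ, cov2_1 hχ, cov2_2 hχ]
  ring

/-- Third component of `D_1 φ × D_2 φ`. -/
theorem jac3 (hφ : ContDiff ℝ ∞ φ) (hs : ∀ x, dotProduct (φ x) (φ x) = 1) (x : ℝ × ℝ) :
    cov1 A φ x 0 * cov2 A φ x 1 - cov1 A φ x 1 * cov2 A φ x 0 = φ x 2 * qq φ A x := by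
  have h0 := sph3 hs x
  have h1 := tang1 (A := A) hφ hs x
  have h2 := tang2 (A := A) hφ hs x
  simp only [qq, dot3, cross_0, cross_1, cross_2]
  generalize cov1 A φ x 0 = p1 at *
  generalize cov1 A φ x 1 = q1 at *
  generalize cov1 A φ x 2 = r1 at *
  generalize cov2 A φ x 0 = p2 at *
  generalize cov2 A φ x 1 = q2 at *
  generalize cov2 A φ x 2 = r2 at *
  generalize φ x 0 = a at *
  generalize φ x 1 = b at *
  generalize φ x 2 = c at *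
  linear_combination (-(p1 * q2 - q1 * p2)) * h0 - a * (q1 * h2 - q2 * h1) + b * (p1 * h2 - p2 * h1)

/-- `Δ F = (1 - c²) F + 2 c q`. -/
theorem lap_fld (hφ : ContDiff ℝ ∞ φ) (hA : ContDiff ℝ ∞ A)
    (hs : ∀ x, dotProduct (φ x) (φ x) = 1) (hc : IsCritical φ A) (x : ℝ × ℝ) :
    pd1 (pd1 (fld A)) x + pd2 (pd2 (fld A)) x
      = (1 - φ x 2 ^ 2) * fld A x + 2 * φ x 2 * qq φ A x := by
  have hP := cd_cov1 hA hφ
  have hQ := cd_cov2 hA hφ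
  have e1 : pd1 (fld A) = fun y => φ y 0 * cov2 A φ y 1 - φ y 1 * cov2 A φ y 0 :=
    funext fun y => pd1_fld hc y
  have e2 : pd2 (fld A) = fun y => -(φ y 0 * cov1 A φ y 1 - φ y 1 * cov1 A φ y 0) :=
    funext fun y => pd2_fld hc y
  have d0 := dd (comp_cd hφ 0)
  have d1 := dd (comp_cd hφ 1)
  have p0 := dd (comp_cd hP 0)
  have p1 := dd (comp_cd hP 1)
  have q0 := dd (comp_cd hQ 0)
  have q1 := dd (comp_cd hQ 1)
  rw [e1, e2, pd2_neg, pd1_sub (d0.fun_mul q1) (d1.fun_mul q0),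
    pd2_sub (d0.fun_mul p1) (d1.fun_mul p0), pd1_mul d0 q1, pd1_mul d1 q0, pd2_mul d0 p1,
    pd2_mul d1 p0]
  simp only
  have a0 := cov1_0 (A := A) hφ x
  have a1 := cov1_1 (A := A) hφ x
  have b0 := cov2_0 (A := A) hφ x
  have b1 := cov2_1 (A := A) hφ x
  have c0 := cov1_0 (A := A) hQ x
  have c1 := cov1_1 (A := A) hQ x
  have f0 := cov2_0 (A := A) hP x
  have f1 := cov2_1 (A := A) hP x
  have k0 := comm0 hφ hA x
  have k1 := comm1 hφ hA x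
  have j := jac3 (A := A) hφ hs x
  have h0 := sph3 hs x
  linear_combination (2 : ℝ) * j + (fld A x) * h0 + φ x 0 * k1 - φ x 1 * k0
    - cov2 A φ x 1 * a0 + cov2 A φ x 0 * a1 - φ x 0 * c1 + φ x 1 * c0
    - φ x 1 * f0 + φ x 0 * f1 + cov1 A φ x 1 * b0 - cov1 A φ x 0 * b1

/-- `Δ u = (1 - c²) u + c |Dφ|²`. -/
theorem lap_uu (hφ : ContDiff ℝ ∞ φ) (hA : ContDiff ℝ ∞ A)
    (hs : ∀ x, dotProduct (φ x) (φ x) = 1) (hc : IsCritical φ A) (x : ℝ × ℝ) :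
    pd1 (pd1 (uu φ)) x + pd2 (pd2 (uu φ)) x
      = (1 - φ x 2 ^ 2) * uu φ x + φ x 2 * ee φ A x := by
  have hP := cd_cov1 hA hφ
  have hQ := cd_cov2 hA hφ
  have e1 : pd1 (uu φ) = fun y => - cov1 A φ y 2 := funext fun y => pd1_uu hφ y
  have e2 : pd2 (uu φ) = fun y => - cov2 A φ y 2 := funext fun y => pd2_uu hφ y
  rw [e1, e2, pd1_neg, pd2_neg]
  simp only
  have c1 := cov1_2 (A := A) hP x
  have c2 := cov2_2 (A := A) hQ x
  have s := (sigma_solved hφ hA hs hc x).2.2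
  unfold uu
  linear_combination c1 + c2 - s

theorem lap_wp (hφ : ContDiff ℝ ∞ φ) (hA : ContDiff ℝ ∞ A)
    (hs : ∀ x, dotProduct (φ x) (φ x) = 1) (hc : IsCritical φ A) (x : ℝ × ℝ) :
    pd1 (pd1 (wp φ A)) x + pd2 (pd2 (wp φ A)) x
      = (1 - φ x 2 ^ 2) * wp φ A x + φ x 2 * Sp φ A x := by
  have : wp φ A = fun y => uu φ y + fld A y := rfl
  have a1 := dd (cd_uu hφ)
  have a2 := dd (cd_fld hA)
  have b1 := dd (cd_pd1 (cd_uu hφ))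
  have b2 := dd (cd_pd1 (cd_fld hA))
  have c1 := dd (cd_pd2 (cd_uu hφ))
  have c2 := dd (cd_pd2 (cd_fld hA))
  have e1 : pd1 (wp φ A) = fun y => pd1 (uu φ) y + pd1 (fld A) y := by
    rw [this]; exact pd1_add a1 a2
  have e2 : pd2 (wp φ A) = fun y => pd2 (uu φ) y + pd2 (fld A) y := by
    rw [this]; exact pd2_add a1 a2
  rw [e1, e2, pd1_add b1 b2, pd2_add c1 c2]
  have h1 := lap_uu hφ hA hs hc x
  have h2 := lap_fld hφ hA hs hc x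
  rw [Sp_eq hφ hs]
  unfold wp
  linear_combination h1 + h2

theorem lap_wm (hφ : ContDiff ℝ ∞ φ) (hA : ContDiff ℝ ∞ A)
    (hs : ∀ x, dotProduct (φ x) (φ x) = 1) (hc : IsCritical φ A) (x : ℝ × ℝ) :
    pd1 (pd1 (wm φ A)) x + pd2 (pd2 (wm φ A)) x
      = (1 - φ x 2 ^ 2) * wm φ A x + φ x 2 * Sm φ A x := by
  have : wm φ A = fun y => uu φ y - fld A y := rfl
  have a1 := dd (cd_uu hφ)
  have a2 := dd (cd_fld hA)
  have b1 := dd (cd_pd1 (cd_uu hφ))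
  have b2 := dd (cd_pd1 (cd_fld hA))
  have c1 := dd (cd_pd2 (cd_uu hφ))
  have c2 := dd (cd_pd2 (cd_fld hA))
  have e1 : pd1 (wm φ A) = fun y => pd1 (uu φ) y - pd1 (fld A) y := by
    rw [this]; exact pd1_sub a1 a2
  have e2 : pd2 (wm φ A) = fun y => pd2 (uu φ) y - pd2 (fld A) y := by
    rw [this]; exact pd2_sub a1 a2
  rw [e1, e2, pd1_sub b1 b2, pd2_sub c1 c2]
  have h1 := lap_uu hφ hA hs hc x
  have h2 := lap_fld hφ hA hs hc x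
  rw [Sm_eq hφ hs]
  unfold wm
  linear_combination h1 - h2

/-- Stress tensor. -/
noncomputable def T11 (φ : ℝ × ℝ → Fin 3 → ℝ) (A : ℝ × ℝ → ℝ × ℝ) (x : ℝ × ℝ) : ℝ :=
  (1 / 2) * (dotProduct (cov1 A φ x) (cov1 A φ x) - dotProduct (cov2 A φ x) (cov2 A φ x))
    + (1 / 2) * (fld A x ^ 2 - uu φ x ^ 2)

noncomputable def T12 (φ : ℝ × ℝ → Fin 3 → ℝ) (A : ℝ × ℝ → ℝ × ℝ) (x : ℝ × ℝ) : ℝ :=
  dotProduct (cov1 A φ x) (cov2 A φ x)

noncomputable def T22 (φ : ℝ × ℝ → Fin 3 → ℝ) (A : ℝ × ℝ → ℝ × ℝ) (x : ℝ × ℝ) : ℝ :=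
  -(1 / 2) * (dotProduct (cov1 A φ x) (cov1 A φ x) - dotProduct (cov2 A φ x) (cov2 A φ x))
    + (1 / 2) * (fld A x ^ 2 - uu φ x ^ 2)

theorem cd_dot {ψ χ : ℝ × ℝ → Fin 3 → ℝ} (hψ : ContDiff ℝ ∞ ψ) (hχ : ContDiff ℝ ∞ χ) :
    ContDiff ℝ ∞ (fun y => dotProduct (ψ y) (χ y)) := by
  have e : (fun y => dotProduct (ψ y) (χ y))
      = fun y => ψ y 0 * χ y 0 + ψ y 1 * χ y 1 + ψ y 2 * χ y 2 := by
    funext y; exact dot3 _ _
  rw [e]
  exact (((comp_cd hψ 0).mul (comp_cd hχ 0)).add ((comp_cd hψ 1).mul (comp_cd hχ 1))).add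
    ((comp_cd hψ 2).mul (comp_cd hχ 2))

theorem cd_T11 (hφ : ContDiff ℝ ∞ φ) (hA : ContDiff ℝ ∞ A) : ContDiff ℝ ∞ (T11 φ A) := by
  have hP := cd_cov1 hA hφ
  have hQ := cd_cov2 hA hφ
  exact (contDiff_const.mul ((cd_dot hP hP).sub (cd_dot hQ hQ))).add
    (contDiff_const.mul (((cd_fld hA).pow 2).sub ((cd_uu hφ).pow 2)))

theorem cd_T12 (hφ : ContDiff ℝ ∞ φ) (hA : ContDiff ℝ ∞ A) : ContDiff ℝ ∞ (T12 φ A) :=
  cd_dot (cd_cov1 hA hφ) (cd_cov2 hA hφ)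

theorem cd_T22 (hφ : ContDiff ℝ ∞ φ) (hA : ContDiff ℝ ∞ A) : ContDiff ℝ ∞ (T22 φ A) := by
  have hP := cd_cov1 hA hφ
  have hQ := cd_cov2 hA hφ
  exact (contDiff_const.mul ((cd_dot hP hP).sub (cd_dot hQ hQ))).add
    (contDiff_const.mul (((cd_fld hA).pow 2).sub ((cd_uu hφ).pow 2)))

theorem pd1_cmul {f : ℝ × ℝ → ℝ} (hf : Differentiable ℝ f) (k : ℝ) :
    pd1 (fun x => k * f x) = fun x => k * pd1 f x := by
  rw [pd1_mul (differentiable_const k) hf, pd1_const]; funext x; ring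

theorem pd2_cmul {f : ℝ × ℝ → ℝ} (hf : Differentiable ℝ f) (k : ℝ) :
    pd2 (fun x => k * f x) = fun x => k * pd2 f x := by
  rw [pd2_mul (differentiable_const k) hf, pd2_const]; funext x; ring

theorem stress1 (hφ : ContDiff ℝ ∞ φ) (hA : ContDiff ℝ ∞ A)
    (hs : ∀ x, dotProduct (φ x) (φ x) = 1) (hc : IsCritical φ A) (x : ℝ × ℝ) :
    pd1 (T11 φ A) x + pd2 (T12 φ A) x = 0 := by
  have hP := cd_cov1 hA hφ
  have hQ := cd_cov2 hA hφ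
  have dP := dd (cd_dot hP hP)
  have dQ := dd (cd_dot hQ hQ)
  have dF := dd (cd_fld hA)
  have dU := dd (cd_uu hφ)
  have e : T11 φ A = fun x => (1 / 2) * (dotProduct (cov1 A φ x) (cov1 A φ x)
      - dotProduct (cov2 A φ x) (cov2 A φ x)) + (1 / 2) * (fld A x ^ 2 - uu φ x ^ 2) := rfl
  have e' : T12 φ A = fun x => dotProduct (cov1 A φ x) (cov2 A φ x) := rfl
  rw [e, e', pd1_add ((dP.fun_sub dQ).const_mul (1/2)) (((dF.fun_pow 2).fun_sub (dU.fun_pow 2)).const_mul (1/2)),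
    pd1_cmul (dP.fun_sub dQ), pd1_cmul ((dF.fun_pow 2).fun_sub (dU.fun_pow 2)), pd1_sub dP dQ,
    pd1_sub (dF.fun_pow 2) (dU.fun_pow 2), pd1_sq dF, pd1_sq dU]
  simp only
  rw [pd1_dot (A := A) hP hP, pd1_dot (A := A) hQ hQ, pd2_dot (A := A) hP hQ, pd1_uu hφ,
    pd1_fld hc]
  simp only [dot3]
  have k0 := comm0 hφ hA x
  have k1 := comm1 hφ hA x
  have k2 := comm2 hφ hA x
  have h1 := tang1 (A := A) hφ hs x
  obtain ⟨s0, s1, s2⟩ := sigma_solved hφ hA hs hc x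
  unfold uu
  linear_combination cov1 A φ x 0 * s0 + cov1 A φ x 1 * s1 + cov1 A φ x 2 * s2
    - cov2 A φ x 0 * k0 - cov2 A φ x 1 * k1 - cov2 A φ x 2 * k2
    + (-(ee φ A x) + (1 - φ x 2) * φ x 2) * h1

theorem stress2 (hφ : ContDiff ℝ ∞ φ) (hA : ContDiff ℝ ∞ A)
    (hs : ∀ x, dotProduct (φ x) (φ x) = 1) (hc : IsCritical φ A) (x : ℝ × ℝ) :
    pd1 (T12 φ A) x + pd2 (T22 φ A) x = 0 := by
  have hP := cd_cov1 hA hφ
  have hQ := cd_cov2 hA hφ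
  have dP := dd (cd_dot hP hP)
  have dQ := dd (cd_dot hQ hQ)
  have dF := dd (cd_fld hA)
  have dU := dd (cd_uu hφ)
  have e : T22 φ A = fun x => -(1 / 2) * (dotProduct (cov1 A φ x) (cov1 A φ x)
      - dotProduct (cov2 A φ x) (cov2 A φ x)) + (1 / 2) * (fld A x ^ 2 - uu φ x ^ 2) := rfl
  have e' : T12 φ A = fun x => dotProduct (cov1 A φ x) (cov2 A φ x) := rfl
  rw [e, e', pd2_add ((dP.fun_sub dQ).const_mul (-(1/2))) (((dF.fun_pow 2).fun_sub (dU.fun_pow 2)).const_mul (1/2)),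
    pd2_cmul (dP.fun_sub dQ), pd2_cmul ((dF.fun_pow 2).fun_sub (dU.fun_pow 2)), pd2_sub dP dQ,
    pd2_sub (dF.fun_pow 2) (dU.fun_pow 2), pd2_sq dF, pd2_sq dU]
  simp only
  rw [pd2_dot (A := A) hP hP, pd2_dot (A := A) hQ hQ, pd1_dot (A := A) hP hQ, pd2_uu hφ,
    pd2_fld hc]
  simp only [dot3]
  have k0 := comm0 hφ hA x
  have k1 := comm1 hφ hA x
  have k2 := comm2 hφ hA x
  have h1 := tang2 (A := A) hφ hs x
  obtain ⟨s0, s1, s2⟩ := sigma_solved hφ hA hs hc x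
  unfold uu
  linear_combination cov2 A φ x 0 * s0 + cov2 A φ x 1 * s1 + cov2 A φ x 2 * s2
    + cov1 A φ x 0 * k0 + cov1 A φ x 1 * k1 + cov1 A φ x 2 * k2
    + (-(ee φ A x) + (1 - φ x 2) * φ x 2) * h1

end Run7.h887
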