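import Pool.Agent.Run7.h887.Main1

/-! Rational lumps: degree one configurations with energy `4π + 2π l²`. -/

namespace Run7.h887

open MeasureTheory Filter Topology Set
open scoped ContDiff Real

/-- `|x|² + l²`. -/
noncomputable def Dn (l : ℝ) (x : ℝ × ℝ) : ℝ := x.1 ^ 2 + x.2 ^ 2 + l ^ 2

/-- The lump of size `l`. -/
noncomputable def lump (l : ℝ) (x : ℝ × ℝ) : Fin 3 → ℝ :=
  ![2 * l * x.1 / Dn l x, -(2 * l * x.2) / Dn l x, (x.1 ^ 2 + x.2 ^ 2 - l ^ 2) / Dn l x]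

/-- The zero potential. -/
noncomputable def zA : ℝ × ℝ → ℝ × ℝ := fun _ => ((0 : ℝ), (0 : ℝ))

variable {l : ℝ}

theorem Dn_pos (hl : 0 < l) (x : ℝ × ℝ) : 0 < Dn l x := by
  unfold Dn; positivity

theorem cd_Dn : ContDiff ℝ ∞ (Dn l) := by
  unfold Dn
  exact ((contDiff_fst.pow 2).add (contDiff_snd.pow 2)).add contDiff_const

theorem lump0 (x : ℝ × ℝ) : lump l x 0 = 2 * l * x.1 / Dn l x := rfl
theorem lump1 (x : ℝ × ℝ) : lump l x 1 = -(2 * l * x.2) / Dn l x := rfl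
theorem lump2 (x : ℝ × ℝ) : lump l x 2 = (x.1 ^ 2 + x.2 ^ 2 - l ^ 2) / Dn l x := rfl

theorem cd_lump (hl : 0 < l) : ContDiff ℝ ∞ (lump l) := by
  rw [contDiff_pi]
  intro i
  have hne : ∀ x, Dn l x ≠ 0 := fun x => (Dn_pos hl x).ne'
  fin_cases i
  · exact (contDiff_const.mul contDiff_fst).div cd_Dn hne
  · exact (contDiff_const.mul contDiff_snd).neg.div cd_Dn hne
  · exact (((contDiff_fst.pow 2).add (contDiff_snd.pow 2)).sub contDiff_const).div cd_Dn hne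

theorem cd_zA : ContDiff ℝ ∞ zA := contDiff_const

theorem lump_sphere (hl : 0 < l) (x : ℝ × ℝ) : dotProduct (lump l x) (lump l x) = 1 := by
  rw [dot3, lump0, lump1, lump2]
  have := (Dn_pos hl x).ne'
  field_simp
  unfold Dn
  ring

theorem pd1_of {f : ℝ × ℝ → ℝ} (hf : Differentiable ℝ f) {x y c : ℝ}
    (h : HasDerivAt (fun t => f (t, y)) c x) : pd1 f (x, y) = c :=
  (hasDerivAt_line1 hf x y).unique h

theorem pd2_of {f : ℝ × ℝ → ℝ} (hf : Differentiable ℝ f) {x y c : ℝ}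
    (h : HasDerivAt (fun t => f (x, t)) c y) : pd2 f (x, y) = c :=
  (hasDerivAt_line2 hf x y).unique h

theorem hd_D1 (l x y : ℝ) : HasDerivAt (fun t : ℝ => t ^ 2 + y ^ 2 + l ^ 2) (2 * x) x := by
  have := ((hasDerivAt_pow 2 x).add_const (y ^ 2)).add_const (l ^ 2)
  simpa using this

theorem hd_D2 (l x y : ℝ) : HasDerivAt (fun t : ℝ => x ^ 2 + t ^ 2 + l ^ 2) (2 * y) y := by
  have := ((hasDerivAt_pow 2 y).const_add (x ^ 2)).add_const (l ^ 2)
  simpa using this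

section derivs

variable (hl : 0 < l) (x : ℝ × ℝ)

include hl

theorem pd1_lump0 : pd1 (fun y => lump l y 0) x = 2 * l / Dn l x - 4 * l * x.1 ^ 2 / Dn l x ^ 2 := by
  have hD := Dn_pos hl x
  have hd := dd (comp_cd (cd_lump hl) 0)
  have h1 : HasDerivAt (fun t : ℝ => 2 * l * t) (2 * l) x.1 := by
    simpa using (hasDerivAt_id x.1).const_mul (2 * l)
  have h2 := h1.div (hd_D1 l x.1 x.2) hD.ne'
  have h3 : pd1 (fun y => lump l y 0) x = _ := pd1_of (x := x.1) (y := x.2) hd h2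
  rw [h3]
  have e : x.1 ^ 2 + x.2 ^ 2 + l ^ 2 = Dn l x := rfl
  rw [e]
  field_simp
  ring

theorem pd2_lump0 : pd2 (fun y => lump l y 0) x = -(4 * l * x.1 * x.2) / Dn l x ^ 2 := by
  have hD := Dn_pos hl x
  have hd := dd (comp_cd (cd_lump hl) 0)
  have h1 : HasDerivAt (fun _ : ℝ => 2 * l * x.1) 0 x.2 := hasDerivAt_const _ _
  have h2 := h1.div (hd_D2 l x.1 x.2) hD.ne'
  have h3 : pd2 (fun y => lump l y 0) x = _ := pd2_of (x := x.1) (y := x.2) hd h2
  rw [h3]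
  have e : x.1 ^ 2 + x.2 ^ 2 + l ^ 2 = Dn l x := rfl
  rw [e]
  field_simp
  ring

theorem pd1_lump1 : pd1 (fun y => lump l y 1) x = 4 * l * x.1 * x.2 / Dn l x ^ 2 := by
  have hD := Dn_pos hl x
  have hd := dd (comp_cd (cd_lump hl) 1)
  have h1 : HasDerivAt (fun _ : ℝ => -(2 * l * x.2)) 0 x.1 := hasDerivAt_const _ _
  have h2 := h1.div (hd_D1 l x.1 x.2) hD.ne'
  have h3 : pd1 (fun y => lump l y 1) x = _ := pd1_of (x := x.1) (y := x.2) hd h2
  rw [h3]
  have e : x.1 ^ 2 + x.2 ^ 2 + l ^ 2 = Dn l x := rfl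
  rw [e]
  field_simp
  ring

theorem pd2_lump1 : pd2 (fun y => lump l y 1) x
    = -(2 * l) / Dn l x + 4 * l * x.2 ^ 2 / Dn l x ^ 2 := by
  have hD := Dn_pos hl x
  have hd := dd (comp_cd (cd_lump hl) 1)
  have h1 : HasDerivAt (fun t : ℝ => -(2 * l * t)) (-(2 * l)) x.2 := by
    simpa using ((hasDerivAt_id x.2).const_mul (2 * l)).fun_neg
  have h2 := h1.div (hd_D2 l x.1 x.2) hD.ne'
  have h3 : pd2 (fun y => lump l y 1) x = _ := pd2_of (x := x.1) (y := x.2) hd h2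
  rw [h3]
  have e : x.1 ^ 2 + x.2 ^ 2 + l ^ 2 = Dn l x := rfl
  rw [e]
  field_simp
  ring

theorem pd1_lump2 : pd1 (fun y => lump l y 2) x = 4 * l ^ 2 * x.1 / Dn l x ^ 2 := by
  have hD := Dn_pos hl x
  have hd := dd (comp_cd (cd_lump hl) 2)
  have h1 : HasDerivAt (fun t : ℝ => t ^ 2 + x.2 ^ 2 - l ^ 2) (2 * x.1) x.1 := by
    have := ((hasDerivAt_pow 2 x.1).add_const (x.2 ^ 2)).sub_const (l ^ 2)
    simpa using this
  have h2 := h1.div (hd_D1 l x.1 x.2) hD.ne'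
  have h3 : pd1 (fun y => lump l y 2) x = _ := pd1_of (x := x.1) (y := x.2) hd h2
  rw [h3]
  have e : x.1 ^ 2 + x.2 ^ 2 + l ^ 2 = Dn l x := rfl
  rw [e]
  have e' : x.1 ^ 2 + x.2 ^ 2 = Dn l x - l ^ 2 := by unfold Dn; ring
  rw [e']
  field_simp
  ring

theorem pd2_lump2 : pd2 (fun y => lump l y 2) x = 4 * l ^ 2 * x.2 / Dn l x ^ 2 := by
  have hD := Dn_pos hl x
  have hd := dd (comp_cd (cd_lump hl) 2)
  have h1 : HasDerivAt (fun t : ℝ => x.1 ^ 2 + t ^ 2 - l ^ 2) (2 * x.2) x.2 := by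
    have := ((hasDerivAt_pow 2 x.2).const_add (x.1 ^ 2)).sub_const (l ^ 2)
    simpa using this
  have h2 := h1.div (hd_D2 l x.1 x.2) hD.ne'
  have h3 : pd2 (fun y => lump l y 2) x = _ := pd2_of (x := x.1) (y := x.2) hd h2
  rw [h3]
  have e : x.1 ^ 2 + x.2 ^ 2 + l ^ 2 = Dn l x := rfl
  rw [e]
  have e' : x.1 ^ 2 + x.2 ^ 2 = Dn l x - l ^ 2 := by unfold Dn; ring
  rw [e']
  field_simp
  ring

theorem uu_lump : uu (lump l) x = 2 * l ^ 2 / Dn l x := by
  have hD := Dn_pos hl x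
  unfold uu
  rw [lump2]
  field_simp
  unfold Dn
  ring

theorem q0_lump : q0 (lump l) x = 4 * l ^ 2 / Dn l x ^ 2 := by
  have hD := Dn_pos hl x
  have hd := (cd_lump hl).differentiable (by simp) x
  unfold q0
  rw [dot3, cross_0, cross_1, cross_2, pd1_apply hd 0, pd1_apply hd 1, pd1_apply hd 2,
    pd2_apply hd 0, pd2_apply hd 1, pd2_apply hd 2, pd1_lump0 hl, pd1_lump1 hl, pd1_lump2 hl,
    pd2_lump0 hl, pd2_lump1 hl, pd2_lump2 hl, lump0, lump1, lump2]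
  have e : Dn l x = x.1 ^ 2 + x.2 ^ 2 + l ^ 2 := rfl
  field_simp
  rw [e]
  ring

theorem dens_lump : dens (lump l) zA x = (8 * l ^ 2 + 4 * l ^ 4) * (1 / Dn l x ^ 2) := by
  have hD := Dn_pos hl x
  have hF : fld zA x = 0 := by
    unfold fld zA
    rw [pd1_const, pd2_const]; ring
  rw [dens_eq, hF, uu_lump hl]
  unfold ee
  have z1 : (zA x).1 = 0 := rfl
  have z2 : (zA x).2 = 0 := rfl
  have c := cd_lump hl
  rw [dot3, dot3, cov1_0 c, cov1_1 c, cov1_2 c, cov2_0 c, cov2_1 c, cov2_2 c, z1, z2,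
    pd1_lump0 hl, pd1_lump1 hl, pd1_lump2 hl, pd2_lump0 hl, pd2_lump1 hl, pd2_lump2 hl]
  have e : Dn l x = x.1 ^ 2 + x.2 ^ 2 + l ^ 2 := rfl
  field_simp
  rw [e]
  ring

end derivs

theorem Dn_polar (r θ : ℝ) : Dn l (r * Real.cos θ, r * Real.sin θ) = r ^ 2 + l ^ 2 := by
  unfold Dn
  simp only
  linear_combination r ^ 2 * Real.sin_sq_add_cos_sq θ

theorem int_Dn (hl : 0 < l) : Integrable (fun x : ℝ × ℝ => 1 / Dn l x ^ 2) := by
  have h4 : (Module.finrank ℝ (ℝ × ℝ) : ℝ) < 4 := by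
    rw [Module.finrank_prod, Module.finrank_self]; norm_num
  have hi := integrable_rpow_neg_one_add_norm_sq (E := ℝ × ℝ) (μ := volume) h4
  set c := min 1 (l ^ 2) with hc
  have hc0 : 0 < c := by positivity
  have hcont : Continuous (fun x : ℝ × ℝ => 1 / Dn l x ^ 2) :=
    continuous_const.div (cd_Dn.continuous.pow 2) fun x => (pow_pos (Dn_pos hl x) 2).ne'
  refine (hi.const_mul (1 / c ^ 2)).mono' hcont.aestronglyMeasurable ?_
  refine Eventually.of_forall fun x => ?_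
  have hD := Dn_pos hl x
  rw [Real.norm_eq_abs, abs_of_nonneg (by positivity)]
  have e : (1 + ‖x‖ ^ 2) ^ (-(4 : ℝ) / 2) = 1 / (1 + ‖x‖ ^ 2) ^ 2 := by
    have : (-(4 : ℝ) / 2) = -(2 : ℕ) := by norm_num
    rw [this, Real.rpow_neg (by positivity), Real.rpow_natCast, one_div]
  rw [e, one_div_mul_one_div, ← mul_pow]
  apply one_div_le_one_div_of_le (by positivity)
  apply pow_le_pow_left₀ (by positivity)
  have h1 : ‖x‖ ^ 2 ≤ x.1 ^ 2 + x.2 ^ 2 := by
    rw [Prod.norm_def]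
    rcases max_cases ‖x.1‖ ‖x.2‖ with ⟨h, _⟩ | ⟨h, _⟩ <;> rw [h, Real.norm_eq_abs, sq_abs]
    · nlinarith [sq_nonneg x.2]
    · nlinarith [sq_nonneg x.1]
  have h2 : c ≤ 1 := min_le_left _ _
  have h3 : c ≤ l ^ 2 := min_le_right _ _
  have h5 : c * ‖x‖ ^ 2 ≤ 1 * ‖x‖ ^ 2 := mul_le_mul_of_nonneg_right h2 (by positivity)
  unfold Dn
  nlinarith

theorem integral_Dn (hl : 0 < l) : ∫ x : ℝ × ℝ, 1 / Dn l x ^ 2 = π / l ^ 2 := by
  obtain ⟨i1, i2⟩ := polar_integral (int_Dn hl)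
  rw [← i2]
  have e : (fun r => r * cir (fun x => 1 / Dn l x ^ 2) r)
      = fun r => 2 * π * r / (r ^ 2 + l ^ 2) ^ 2 := by
    funext r
    unfold cir
    have : (fun θ : ℝ => 1 / Dn l (r * Real.cos θ, r * Real.sin θ) ^ 2)
        = fun _ => 1 / (r ^ 2 + l ^ 2) ^ 2 := by
      funext θ; rw [Dn_polar]
    rw [this, intervalIntegral.integral_const, smul_eq_mul]
    ring
  rw [e] at i1 ⊢
  have hd : ∀ r ∈ Ioi (0 : ℝ), HasDerivAt (fun r : ℝ => -π / (r ^ 2 + l ^ 2))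
      (2 * π * r / (r ^ 2 + l ^ 2) ^ 2) r := by
    intro r hr
    have hp : r ^ 2 + l ^ 2 ≠ 0 := by positivity
    have h1 : HasDerivAt (fun r : ℝ => r ^ 2 + l ^ 2) (2 * r) r := by
      simpa using (hasDerivAt_pow 2 r).add_const (l ^ 2)
    have h2 := (hasDerivAt_const r (-π)).div h1 hp
    refine h2.congr_deriv ?_
    ring
  have hlim : Tendsto (fun r : ℝ => -π / (r ^ 2 + l ^ 2)) atTop (𝓝 0) := by
    apply Tendsto.div_atTop tendsto_const_nhds
    exact tendsto_atTop_add_const_right _ _ (tendsto_pow_atTop two_ne_zero)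
  have hcont : ContinuousWithinAt (fun r : ℝ => -π / (r ^ 2 + l ^ 2)) (Ici 0) 0 := by
    apply Continuous.continuousWithinAt
    exact continuous_const.div (by fun_prop) fun r => by positivity
  rw [integral_Ioi_of_hasDerivAt_of_tendsto hcont hd i1 hlim]
  norm_num
  ring

theorem tendsto_Dn : Tendsto (Dn l) (cocompact (ℝ × ℝ)) atTop := by
  have h1 : Tendsto (fun x : ℝ × ℝ => ‖x‖ ^ 2) (cocompact (ℝ × ℝ)) atTop :=
    (tendsto_pow_atTop two_ne_zero).comp tendsto_norm_cocompact_atTop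
  refine tendsto_atTop_mono (fun x => ?_) h1
  rw [Prod.norm_def]
  unfold Dn
  rcases max_cases ‖x.1‖ ‖x.2‖ with ⟨h, _⟩ | ⟨h, _⟩ <;> rw [h, Real.norm_eq_abs, sq_abs]
  · nlinarith [sq_nonneg x.2, sq_nonneg l]
  · nlinarith [sq_nonneg x.1, sq_nonneg l]

theorem lump_config (hl : 0 < l) : IsConfig (lump l) zA := by
  refine ⟨cd_lump hl, cd_zA, lump_sphere hl, ?_, ?_⟩
  · have : dens (lump l) zA = fun x => (8 * l ^ 2 + 4 * l ^ 4) * (1 / Dn l x ^ 2) :=
      funext fun x => dens_lump hl x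
    rw [this]
    exact (int_Dn hl).const_mul _
  · have e : (fun x => dotProduct nv (lump l x)) = fun x => 1 - 2 * l ^ 2 / Dn l x := by
      funext x
      have := uu_lump hl x
      unfold uu at this
      rw [nv_dot]; linarith
    rw [e]
    have h1 : Tendsto (fun x => 2 * l ^ 2 / Dn l x) (cocompact (ℝ × ℝ)) (𝓝 0) :=
      tendsto_const_nhds.div_atTop tendsto_Dn
    have := (tendsto_const_nhds (x := (1 : ℝ))).sub h1
    simpa using this

theorem lump_energy (hl : 0 < l) : energy (lump l) zA = 4 * π + 2 * π * l ^ 2 := by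
  unfold energy
  have : (fun x => dens (lump l) zA x) = fun x => (8 * l ^ 2 + 4 * l ^ 4) * (1 / Dn l x ^ 2) :=
    funext fun x => dens_lump hl x
  rw [this, integral_const_mul, integral_Dn hl]
  field_simp
  ring

theorem lump_degree (hl : 0 < l) : HasDegree (lump l) 1 := by
  intro η hη hη0
  obtain ⟨δ, hδ, hz⟩ := hη0
  have hq : Continuous (q0 (lump l)) := (cd_q0 (cd_lump hl) (lump_sphere hl)).continuous
  have hu : Continuous (uu (lump l)) := (cd_uu (cd_lump hl)).continuous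
  obtain ⟨R, hR, hfar⟩ := far_of_tendsto (uu_tendsto (lump_config hl)) hδ
  have hi : Integrable (fun x => η (uu (lump l) x) * q0 (lump l) x) :=
    integrable_far ((hη.comp hu).mul hq) (R := R) fun x hx => by rw [hz _ (hfar x hx).le, zero_mul]
  have e3 : (fun x => η (1 - dotProduct nv (lump l x))
      * dotProduct (lump l x) (crossProduct (pd1 (lump l) x) (pd2 (lump l) x)))
      = fun x => η (uu (lump l) x) * q0 (lump l) x := by
    funext x; rw [nv_dot]; rfl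
  rw [e3]
  obtain ⟨i1, i2⟩ := polar_integral hi
  rw [← i2]
  have e : (fun r => r * cir (fun x => η (uu (lump l) x) * q0 (lump l) x) r)
      = fun r => -(2 * π) * (η (2 * l ^ 2 / (r ^ 2 + l ^ 2))
        * (-(4 * l ^ 2 * r) / (r ^ 2 + l ^ 2) ^ 2)) := by
    funext r
    unfold cir
    have : (fun θ : ℝ => η (uu (lump l) (r * Real.cos θ, r * Real.sin θ))
        * q0 (lump l) (r * Real.cos θ, r * Real.sin θ))
        = fun _ => η (2 * l ^ 2 / (r ^ 2 + l ^ 2)) * (4 * l ^ 2 / (r ^ 2 + l ^ 2) ^ 2) := by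
      funext θ; rw [uu_lump hl, q0_lump hl, Dn_polar]
    rw [this, intervalIntegral.integral_const, smul_eq_mul]
    ring
  rw [e] at i1 ⊢
  set G : ℝ → ℝ := fun t => ∫ s in (0 : ℝ)..t, η s with hG
  have hGd : ∀ t, HasDerivAt G (η t) t := fun t => (hη.integral_hasStrictDerivAt 0 t).hasDerivAt
  have hGc : Continuous G := continuous_iff_continuousAt.2 fun t => (hGd t).continuousAt
  have hder : ∀ r : ℝ, HasDerivAt (fun r : ℝ => -(2 * π) * G (2 * l ^ 2 / (r ^ 2 + l ^ 2)))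
      (-(2 * π) * (η (2 * l ^ 2 / (r ^ 2 + l ^ 2))
        * (-(4 * l ^ 2 * r) / (r ^ 2 + l ^ 2) ^ 2))) r := by
    intro r
    have hp : r ^ 2 + l ^ 2 ≠ 0 := by positivity
    have h1 : HasDerivAt (fun r : ℝ => r ^ 2 + l ^ 2) (2 * r) r := by
      simpa using (hasDerivAt_pow 2 r).add_const (l ^ 2)
    have h2 : HasDerivAt (fun r : ℝ => 2 * l ^ 2 / (r ^ 2 + l ^ 2))
        (-(4 * l ^ 2 * r) / (r ^ 2 + l ^ 2) ^ 2) r := by
      have h2 := (hasDerivAt_const r (2 * l ^ 2)).div h1 hp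
      refine h2.congr_deriv ?_
      ring
    exact ((hGd _).comp r h2).const_mul _
  have hlim : Tendsto (fun r : ℝ => -(2 * π) * G (2 * l ^ 2 / (r ^ 2 + l ^ 2))) atTop
      (𝓝 (-(2 * π) * G 0)) := by
    apply Tendsto.const_mul
    apply (hGc.tendsto 0).comp
    apply Tendsto.div_atTop tendsto_const_nhds
    exact tendsto_atTop_add_const_right _ _ (tendsto_pow_atTop two_ne_zero)
  rw [integral_Ioi_of_hasDerivAt_of_tendsto (hder 0).continuousAt.continuousWithinAt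
    (fun r _ => hder r) i1 hlim]
  have h0 : 2 * l ^ 2 / ((0 : ℝ) ^ 2 + l ^ 2) = 2 := by
    have : l ^ 2 ≠ 0 := by positivity
    field_simp
    ring
  have hG0 : G 0 = 0 := by rw [hG]; simp
  rw [h0, hG0]
  push_cast
  rw [hG]
  ring

end Run7.h887
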