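import Pool.Agent.Run7.h887.DegLim

/-! The (anti-)self-dual equations imply criticality and exclude degree `±1`. -/

namespace Run7.h887

open MeasureTheory Filter Topology Set
open scoped ContDiff Real

variable {φ : ℝ × ℝ → Fin 3 → ℝ} {A : ℝ × ℝ → ℝ × ℝ}

theorem cd_cross {f g : ℝ × ℝ → Fin 3 → ℝ} (hf : ContDiff ℝ ∞ f) (hg : ContDiff ℝ ∞ g) :
    ContDiff ℝ ∞ (fun y => crossProduct (f y) (g y)) := by
  rw [contDiff_pi]
  intro i
  have f0 := comp_cd hf 0
  have f1 := comp_cd hf 1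
  have f2 := comp_cd hf 2
  have g0 := comp_cd hg 0
  have g1 := comp_cd hg 1
  have g2 := comp_cd hg 2
  fin_cases i
  · have e : (fun y => crossProduct (f y) (g y) 0) = fun y => f y 1 * g y 2 - f y 2 * g y 1 :=
      funext fun y => cross_0 _ _
    simpa [e] using (f1.mul g2).sub (f2.mul g1)
  · have e : (fun y => crossProduct (f y) (g y) 1) = fun y => f y 2 * g y 0 - f y 0 * g y 2 :=
      funext fun y => cross_1 _ _
    simpa [e] using (f2.mul g0).sub (f0.mul g2)
  · have e : (fun y => crossProduct (f y) (g y) 2) = fun y => f y 0 * g y 1 - f y 1 * g y 0 :=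
      funext fun y => cross_2 _ _
    simpa [e] using (f0.mul g1).sub (f1.mul g0)

theorem pd1_minors {a b c d : ℝ × ℝ → ℝ} (ha : Differentiable ℝ a) (hb : Differentiable ℝ b)
    (hc : Differentiable ℝ c) (hd : Differentiable ℝ d) (x : ℝ × ℝ) :
    pd1 (fun y => a y * b y - c y * d y) x
      = pd1 a x * b x + a x * pd1 b x - (pd1 c x * d x + c x * pd1 d x) := by
  rw [pd1_sub (ha.fun_mul hb) (hc.fun_mul hd), pd1_mul ha hb, pd1_mul hc hd]

theorem pd2_minors {a b c d : ℝ × ℝ → ℝ} (ha : Differentiable ℝ a) (hb : Differentiable ℝ b)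
    (hc : Differentiable ℝ c) (hd : Differentiable ℝ d) (x : ℝ × ℝ) :
    pd2 (fun y => a y * b y - c y * d y) x
      = pd2 a x * b x + a x * pd2 b x - (pd2 c x * d x + c x * pd2 d x) := by
  rw [pd2_sub (ha.fun_mul hb) (hc.fun_mul hd), pd2_mul ha hb, pd2_mul hc hd]

theorem cov1_cross {f g : ℝ × ℝ → Fin 3 → ℝ} (hf : ContDiff ℝ ∞ f) (hg : ContDiff ℝ ∞ g)
    (x : ℝ × ℝ) : cov1 A (fun y => crossProduct (f y) (g y)) x
      = crossProduct (cov1 A f x) (g x) + crossProduct (f x) (cov1 A g x) := by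
  have f0 := dd (comp_cd hf 0)
  have f1 := dd (comp_cd hf 1)
  have f2 := dd (comp_cd hf 2)
  have g0 := dd (comp_cd hg 0)
  have g1 := dd (comp_cd hg 1)
  have g2 := dd (comp_cd hg 2)
  have e0 : (fun y => crossProduct (f y) (g y) 0) = fun y => f y 1 * g y 2 - f y 2 * g y 1 :=
    funext fun y => cross_0 _ _
  have e1 : (fun y => crossProduct (f y) (g y) 1) = fun y => f y 2 * g y 0 - f y 0 * g y 2 :=
    funext fun y => cross_1 _ _
  have e2 : (fun y => crossProduct (f y) (g y) 2) = fun y => f y 0 * g y 1 - f y 1 * g y 0 :=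
    funext fun y => cross_2 _ _
  funext i
  fin_cases i
  · change cov1 A (fun y => crossProduct (f y) (g y)) x 0
      = crossProduct (cov1 A f x) (g x) 0 + crossProduct (f x) (cov1 A g x) 0
    rw [cov1_0 (cd_cross hf hg), e0, pd1_minors f1 g2 f2 g1, cross_0, cross_0, cross_1,
      cov1_1 hf, cov1_2 hf, cov1_1 hg, cov1_2 hg]
    ring
  · change cov1 A (fun y => crossProduct (f y) (g y)) x 1
      = crossProduct (cov1 A f x) (g x) 1 + crossProduct (f x) (cov1 A g x) 1
    rw [cov1_1 (cd_cross hf hg), e1, pd1_minors f2 g0 f0 g2, cross_1, cross_1, cross_0,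
      cov1_2 hf, cov1_0 hf, cov1_0 hg, cov1_2 hg]
    ring
  · change cov1 A (fun y => crossProduct (f y) (g y)) x 2
      = crossProduct (cov1 A f x) (g x) 2 + crossProduct (f x) (cov1 A g x) 2
    rw [cov1_2 (cd_cross hf hg), e2, pd1_minors f0 g1 f1 g0, cross_2, cross_2,
      cov1_1 hf, cov1_0 hf, cov1_0 hg, cov1_1 hg]
    ring

theorem cov2_cross {f g : ℝ × ℝ → Fin 3 → ℝ} (hf : ContDiff ℝ ∞ f) (hg : ContDiff ℝ ∞ g)
    (x : ℝ × ℝ) : cov2 A (fun y => crossProduct (f y) (g y)) x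
      = crossProduct (cov2 A f x) (g x) + crossProduct (f x) (cov2 A g x) := by
  have f0 := dd (comp_cd hf 0)
  have f1 := dd (comp_cd hf 1)
  have f2 := dd (comp_cd hf 2)
  have g0 := dd (comp_cd hg 0)
  have g1 := dd (comp_cd hg 1)
  have g2 := dd (comp_cd hg 2)
  have e0 : (fun y => crossProduct (f y) (g y) 0) = fun y => f y 1 * g y 2 - f y 2 * g y 1 :=
    funext fun y => cross_0 _ _
  have e1 : (fun y => crossProduct (f y) (g y) 1) = fun y => f y 2 * g y 0 - f y 0 * g y 2 :=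
    funext fun y => cross_1 _ _
  have e2 : (fun y => crossProduct (f y) (g y) 2) = fun y => f y 0 * g y 1 - f y 1 * g y 0 :=
    funext fun y => cross_2 _ _
  funext i
  fin_cases i
  · change cov2 A (fun y => crossProduct (f y) (g y)) x 0
      = crossProduct (cov2 A f x) (g x) 0 + crossProduct (f x) (cov2 A g x) 0
    rw [cov2_0 (cd_cross hf hg), e0, pd2_minors f1 g2 f2 g1, cross_0, cross_0, cross_1,
      cov2_1 hf, cov2_2 hf, cov2_1 hg, cov2_2 hg]
    ring
  · change cov2 A (fun y => crossProduct (f y) (g y)) x 1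
      = crossProduct (cov2 A f x) (g x) 1 + crossProduct (f x) (cov2 A g x) 1
    rw [cov2_1 (cd_cross hf hg), e1, pd2_minors f2 g0 f0 g2, cross_1, cross_1, cross_0,
      cov2_2 hf, cov2_0 hf, cov2_0 hg, cov2_2 hg]
    ring
  · change cov2 A (fun y => crossProduct (f y) (g y)) x 2
      = crossProduct (cov2 A f x) (g x) 2 + crossProduct (f x) (cov2 A g x) 2
    rw [cov2_2 (cd_cross hf hg), e2, pd2_minors f0 g1 f1 g0, cross_2, cross_2,
      cov2_1 hf, cov2_0 hf, cov2_0 hg, cov2_1 hg]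
    ring

theorem cov1_smul {f : ℝ × ℝ → Fin 3 → ℝ} (hf : ContDiff ℝ ∞ f) (k : ℝ) (x : ℝ × ℝ) :
    cov1 A (fun y => k • f y) x = k • cov1 A f x := by
  unfold cov1
  have h1 : pd1 (fun y => k • f y) x = k • pd1 f x := by
    unfold pd1
    rw [fderiv_fun_const_smul (hf.differentiable (by simp) x)]; rfl
  rw [h1, map_smul, smul_add, smul_comm]

theorem cov2_smul {f : ℝ × ℝ → Fin 3 → ℝ} (hf : ContDiff ℝ ∞ f) (k : ℝ) (x : ℝ × ℝ) :
    cov2 A (fun y => k • f y) x = k • cov2 A f x := by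
  unfold cov2
  have h1 : pd2 (fun y => k • f y) x = k • pd2 f x := by
    unfold pd2
    rw [fderiv_fun_const_smul (hf.differentiable (by simp) x)]; rfl
  rw [h1, map_smul, smul_add, smul_comm]

theorem critical_of (hφ : ContDiff ℝ ∞ φ) (hA : ContDiff ℝ ∞ A)
    (hs : ∀ x, dotProduct (φ x) (φ x) = 1) {s : ℝ} (hs1 : s ^ 2 = 1)
    (hP : ∀ x, cov1 A φ x = (-s) • crossProduct (φ x) (cov2 A φ x))
    (hF : ∀ x, fld A x = s * uu φ x) : IsCritical φ A := by
  have cP := cd_cov1 hA hφ
  have cQ := cd_cov2 hA hφ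
  have hF' : fld A = fun x => s * uu φ x := funext hF
  have p0 : ∀ x, cov1 A φ x 0 = -s * (φ x 1 * cov2 A φ x 2 - φ x 2 * cov2 A φ x 1) := by
    intro x; rw [hP]; simp only [Pi.smul_apply, smul_eq_mul, cross_0]
  have p1 : ∀ x, cov1 A φ x 1 = -s * (φ x 2 * cov2 A φ x 0 - φ x 0 * cov2 A φ x 2) := by
    intro x; rw [hP]; simp only [Pi.smul_apply, smul_eq_mul, cross_1]
  have p2 : ∀ x, cov1 A φ x 2 = -s * (φ x 0 * cov2 A φ x 1 - φ x 1 * cov2 A φ x 0) := by
    intro x; rw [hP]; simp only [Pi.smul_apply, smul_eq_mul, cross_2]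
  have hQ : ∀ x, cov2 A φ x = s • crossProduct (φ x) (cov1 A φ x) := by
    intro x
    have h0 := sph3 hs x
    have t2 := tang2 (A := A) hφ hs x
    funext i
    fin_cases i
    · change cov2 A φ x 0 = s * crossProduct (φ x) (cov1 A φ x) 0
      rw [cross_0, p1, p2]
      linear_combination (-(cov2 A φ x 0)) * h0 + φ x 0 * t2
        + (φ x 1 * (φ x 0 * cov2 A φ x 1 - φ x 1 * cov2 A φ x 0)
          - φ x 2 * (φ x 2 * cov2 A φ x 0 - φ x 0 * cov2 A φ x 2)) * hs1
    · change cov2 A φ x 1 = s * crossProduct (φ x) (cov1 A φ x) 1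
      rw [cross_1, p0, p2]
      linear_combination (-(cov2 A φ x 1)) * h0 + φ x 1 * t2
        + (φ x 2 * (φ x 1 * cov2 A φ x 2 - φ x 2 * cov2 A φ x 1)
          - φ x 0 * (φ x 0 * cov2 A φ x 1 - φ x 1 * cov2 A φ x 0)) * hs1
    · change cov2 A φ x 2 = s * crossProduct (φ x) (cov1 A φ x) 2
      rw [cross_2, p0, p1]
      linear_combination (-(cov2 A φ x 2)) * h0 + φ x 2 * t2
        + (φ x 0 * (φ x 2 * cov2 A φ x 0 - φ x 0 * cov2 A φ x 2)
          - φ x 1 * (φ x 1 * cov2 A φ x 2 - φ x 2 * cov2 A φ x 1)) * hs1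
  have hP' : cov1 A φ = fun x => (-s) • crossProduct (φ x) (cov2 A φ x) := funext hP
  have hQ' : cov2 A φ = fun x => s • crossProduct (φ x) (cov1 A φ x) := funext hQ
  refine ⟨?_, ?_, ?_⟩
  · intro x
    have h0 := sph3 hs x
    have t1 := tang1 (A := A) hφ hs x
    have t2 := tang2 (A := A) hφ hs x
    have D1 : cov1 A (cov1 A φ) x = (-s) • (crossProduct (cov1 A φ x) (cov2 A φ x)
        + crossProduct (φ x) (cov1 A (cov2 A φ) x)) := by
      conv_lhs => rw [hP']
      rw [cov1_smul (cd_cross hφ cQ), cov1_cross hφ cQ]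
    have D2 : cov2 A (cov2 A φ) x = s • (crossProduct (cov2 A φ x) (cov1 A φ x)
        + crossProduct (φ x) (cov2 A (cov1 A φ) x)) := by
      conv_lhs => rw [hQ']
      rw [cov2_smul (cd_cross hφ cP), cov2_cross hφ cP]
    have k0 := comm0 hφ hA x
    have k1 := comm1 hφ hA x
    have k2 := comm2 hφ hA x
    rw [hF] at k0 k1
    rw [D1, D2, nv_dot]
    have eu : uu φ x = 1 - φ x 2 := rfl
    rw [eu] at k0 k1
    clear D1 D2 hP' hQ' hP hQ hF' hF p0 p1 p2 cP cQ eu
    generalize cov1 A (cov2 A φ) x = U at *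
    generalize cov2 A (cov1 A φ) x = V at *
    generalize cov1 A φ x = P at *
    generalize cov2 A φ x = Q at *
    funext i
    fin_cases i
    · change crossProduct (φ x) _ 0 = 0
      rw [cross_0]
      simp only [Pi.add_apply, Pi.smul_apply, smul_eq_mul, cross_1, cross_2, nv_1, nv_2]
      generalize φ x 0 = a at *
      generalize φ x 1 = b at *
      generalize φ x 2 = c at *
      linear_combination (-2 * s * P 0) * t2 + (2 * s * Q 0) * t1 - s * b * a * k1
        + s * (b ^ 2 + c ^ 2) * k0 - s * c * a * k2 - (b * (1 - c)) * hs1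
        - (s ^ 2 * b * (1 - c)) * h0
    · change crossProduct (φ x) _ 1 = 0
      rw [cross_1]
      simp only [Pi.add_apply, Pi.smul_apply, smul_eq_mul, cross_0, cross_2, nv_0, nv_2]
      generalize φ x 0 = a at *
      generalize φ x 1 = b at *
      generalize φ x 2 = c at *
      linear_combination (-2 * s * P 1) * t2 + (2 * s * Q 1) * t1 - s * b * a * k0
        + s * (a ^ 2 + c ^ 2) * k1 - s * c * b * k2 + (a * (1 - c)) * hs1
        + (s ^ 2 * a * (1 - c)) * h0
    · change crossProduct (φ x) _ 2 = 0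
      rw [cross_2]
      simp only [Pi.add_apply, Pi.smul_apply, smul_eq_mul, cross_0, cross_1, nv_0, nv_1]
      generalize φ x 0 = a at *
      generalize φ x 1 = b at *
      generalize φ x 2 = c at *
      linear_combination (-2 * s * P 2) * t2 + (2 * s * Q 2) * t1 - s * c * a * k0
        - s * c * b * k1 + s * (a ^ 2 + b ^ 2) * k2
  · intro x
    rw [hF', pd1_cmul (dd (cd_uu hφ))]
    simp only
    rw [pd1_uu (A := A) hφ, p2, dot3, cross_0, cross_1, cross_2, nv_0, nv_1, nv_2]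
    linear_combination (φ x 0 * cov2 A φ x 1 - φ x 1 * cov2 A φ x 0) * hs1
  · intro x
    have h0 := sph3 hs x
    have t2 := tang2 (A := A) hφ hs x
    rw [hF', pd2_cmul (dd (cd_uu hφ))]
    simp only
    rw [pd2_uu (A := A) hφ, dot3, cross_0, cross_1, cross_2, nv_0, nv_1, nv_2, p0, p1]
    linear_combination (s * cov2 A φ x 2) * h0 - (s * φ x 2) * t2

theorem critical_of_sd (h : IsConfig φ A) (hsd : SelfDual φ A ∨ AntiSelfDual φ A) :
    IsCritical φ A := by
  rcases hsd with h1 | h1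
  · refine critical_of h.smooth_phi h.smooth_A h.sphere (s := 1) (by norm_num) ?_ ?_
    · intro x; rw [(h1 x).1]; simp
    · intro x; rw [(h1 x).2, nv_dot]; unfold uu; ring
  · refine critical_of h.smooth_phi h.smooth_A h.sphere (s := -1) (by norm_num) ?_ ?_
    · intro x; rw [(h1 x).1]; simp
    · intro x; rw [(h1 x).2, nv_dot]; unfold uu; ring

theorem uu_not_zero (h : IsConfig φ A) {δ : ℝ} (hd : IsDegLim φ δ) (hd0 : δ ≠ 0) :
    ∃ x, 0 < uu φ x := by
  have hs := h.sphere
  by_contra hcon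
  push Not at hcon
  have hz : ∀ x, uu φ x = 0 := fun x => le_antisymm (hcon x) (uu_nonneg hs x)
  have hpi := Real.pi_pos
  have e : (fun k : ℕ => ∫ x, et (k + 1) (uu φ x) * q0 φ x) = fun _ => 0 := by
    funext k
    have : (fun x => et ((k : ℝ) + 1) (uu φ x) * q0 φ x) = fun _ => 0 := by
      funext x
      rw [hz x, et_zero (by positivity) (by positivity), zero_mul]
    rw [this, integral_zero]
  unfold IsDegLim at hd
  rw [e] at hd
  have h0 := tendsto_nhds_unique hd tendsto_const_nhds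
  apply hd0
  have h4 : δ * (4 * π) = 0 := by linarith
  exact (mul_eq_zero.1 h4).resolve_right (by positivity)

/-- No degree `±1` in the (anti-)self-dual case. -/
theorem sd_excl (h : IsConfig φ A) (hc : IsCritical φ A) {δ : ℝ} (hd : IsDegLim φ δ) {s : ℝ}
    (hs1 : s ^ 2 = 1) (hF : ∀ x, fld A x = s * uu φ x) (hq : ∀ x, 2 * qq φ A x = s * ee φ A x)
    (hd1 : |δ| = 1) : False := by
  have hφ := h.smooth_phi
  have hA := h.smooth_A
  have hs := h.sphere
  have hu := cd_uu hφ
  have hpi := Real.pi_pos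
  have hd0 : δ ≠ 0 := by
    rintro rfl
    simp at hd1
  obtain ⟨x₁, hx₁⟩ := uu_not_zero h hd hd0
  have hF' : fld A = fun x => s * uu φ x := funext hF
  have hee : ContDiff ℝ ∞ (ee φ A) := by
    have hP := cd_cov1 hA hφ
    have hQ := cd_cov2 hA hφ
    exact (cd_dot hP hP).add (cd_dot hQ hQ)
  have e2 : ∀ x, φ x 2 = 1 - uu φ x := fun x => by unfold uu; ring
  have hgrad : ∀ x, pd1 (uu φ) x ^ 2 + pd2 (uu φ) x ^ 2
      = 1 / 2 * (1 - (1 - uu φ x) ^ 2) * ee φ A x := by
    intro x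
    have g1 := grad_wp hφ hA hs hc x
    have g2 := grad_wm hφ hA hs hc x
    have p1 : pd1 (wp φ A) x = pd1 (uu φ) x + s * pd1 (uu φ) x := by
      have : wp φ A = fun y => uu φ y + s * uu φ y := by
        funext y; unfold wp; rw [hF]
      rw [this, pd1_add (dd hu) ((dd hu).const_mul s), pd1_cmul (dd hu)]
    have p2 : pd2 (wp φ A) x = pd2 (uu φ) x + s * pd2 (uu φ) x := by
      have : wp φ A = fun y => uu φ y + s * uu φ y := by
        funext y; unfold wp; rw [hF]
      rw [this, pd2_add (dd hu) ((dd hu).const_mul s), pd2_cmul (dd hu)]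
    have p3 : pd1 (wm φ A) x = pd1 (uu φ) x - s * pd1 (uu φ) x := by
      have : wm φ A = fun y => uu φ y - s * uu φ y := by
        funext y; unfold wm; rw [hF]
      rw [this, pd1_sub (dd hu) ((dd hu).const_mul s), pd1_cmul (dd hu)]
    have p4 : pd2 (wm φ A) x = pd2 (uu φ) x - s * pd2 (uu φ) x := by
      have : wm φ A = fun y => uu φ y - s * uu φ y := by
        funext y; unfold wm; rw [hF]
      rw [this, pd2_sub (dd hu) ((dd hu).const_mul s), pd2_cmul (dd hu)]
    rw [p1, p2, Sp_eq hφ hs, e2] at g1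
    rw [p3, p4, Sm_eq hφ hs, e2] at g2
    linear_combination g1 / 4 + g2 / 4
      - (pd1 (uu φ) x ^ 2 + pd2 (uu φ) x ^ 2) / 2 * hs1
  have hlap : ∀ x, pd1 (pd1 (uu φ)) x + pd2 (pd2 (uu φ)) x
      = (1 - (1 - uu φ x) ^ 2) * uu φ x + (1 - uu φ x) * ee φ A x := by
    intro x
    rw [lap_uu hφ hA hs hc, e2]
  have hsd : s * δ ≤ 1 := by
    have h1 : |s| = 1 := by
      rw [← sq_abs] at hs1
      have : (|s| - 1) * (|s| + 1) = 0 := by linear_combination hs1
      rcases mul_eq_zero.1 this with h2 | h2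
      · linarith
      · have := abs_nonneg s; linarith
    have h2 : |s * δ| = 1 := by rw [abs_mul, h1, hd1, one_mul]
    have := le_abs_self (s * δ)
    linarith
  obtain ⟨i1, i2⟩ := cut_integral h hd
  have e : (fun x => 1 / 2 * ee φ A x + uu φ x * uu φ x) = fun x => s * cut φ A x := by
    funext x
    unfold cut
    rw [hF x]
    linear_combination -(s / 2) * hq x
      - (1 / 2 * ee φ A x + uu φ x * uu φ x) * hs1
  have j1 : Integrable (fun x => 1 / 2 * ee φ A x + uu φ x * uu φ x) := by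
    rw [e]; exact i1.const_mul s
  have j2 : ∫ x, (1 / 2 * ee φ A x + uu φ x * uu φ x) ≤ 4 * π := by
    rw [e, integral_const_mul, i2]
    calc s * (4 * π * δ) = 4 * π * (s * δ) := by ring
      _ ≤ 4 * π * 1 := by gcongr
      _ = 4 * π := by ring
  have hint : ∀ k : ℝ, 0 < k →
      Integrable (fun x => 1 / 2 * et k (uu φ x) * ee φ A x + Hk k (uu φ x) * uu φ x) ∧
      ∫ x, (1 / 2 * et k (uu φ x) * ee φ A x + Hk k (uu φ x) * uu φ x) ≤ 4 * π := by
    intro k hk
    have hc1 : Continuous (fun x => 1 / 2 * et k (uu φ x) * ee φ A x + Hk k (uu φ x) * uu φ x) :=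
      (((continuous_const.mul ((et_cont k).comp hu.continuous))).mul hee.continuous).add
        (((Hk_cd k).continuous.comp hu.continuous).mul hu.continuous)
    have hle : ∀ x, 1 / 2 * et k (uu φ x) * ee φ A x + Hk k (uu φ x) * uu φ x
        ≤ 1 / 2 * ee φ A x + uu φ x * uu φ x := by
      intro x
      have a1 := et_le_one k (uu φ x)
      have a2 := Hk_le (k := k) (uu_nonneg hs x)
      have a3 := ee_nonneg (φ := φ) (A := A) x
      have a4 := uu_nonneg hs x
      nlinarith [mul_le_mul_of_nonneg_right a1 a3, mul_le_mul_of_nonneg_right a2 a4]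
    have hge : ∀ x, 0 ≤ 1 / 2 * et k (uu φ x) * ee φ A x + Hk k (uu φ x) * uu φ x := by
      intro x
      have a1 := et_nonneg k (uu φ x)
      have a2 := Hk_nonneg (k := k) (uu_nonneg hs x)
      have a3 := ee_nonneg (φ := φ) (A := A) x
      have a4 := uu_nonneg hs x
      positivity
    have hI : Integrable (fun x => 1 / 2 * et k (uu φ x) * ee φ A x + Hk k (uu φ x) * uu φ x) :=
      j1.mono' hc1.aestronglyMeasurable (Eventually.of_forall fun x => by
        rw [Real.norm_eq_abs, abs_of_nonneg (hge x)]; exact hle x)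
    exact ⟨hI, (integral_mono hI j1 hle).trans j2⟩
  -- translate
  have hsh : ContDiff ℝ ∞ (fun x : ℝ × ℝ => x + x₁) := contDiff_id.add contDiff_const
  refine no_one (u := fun x => uu φ (x + x₁)) (e := fun x => ee φ A (x + x₁)) (hu.comp hsh)
    (hee.comp hsh).continuous (fun x => uu_nonneg hs _) (fun x => uu_le hs _)
    (fun x => ee_nonneg _) ?_ ?_ ?_ (by simpa using hx₁)
  · intro x
    rw [pd1_shift, pd2_shift]
    exact hgrad _
  · intro x
    rw [pd1_shift, pd1_shift, pd2_shift, pd2_shift]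
    exact hlap _
  · intro k hk
    obtain ⟨i1, i2⟩ := hint k hk
    refine ⟨i1.comp_add_right x₁, ?_⟩
    rw [integral_add_right_eq_self
      (fun x => 1 / 2 * et k (uu φ x) * ee φ A x + Hk k (uu φ x) * uu φ x) x₁]
    exact i2

theorem sd_facts (h : IsConfig φ A) (hsd : SelfDual φ A) :
    (∀ x, fld A x = 1 * uu φ x) ∧ (∀ x, 2 * qq φ A x = 1 * ee φ A x) := by
  have hφ := h.smooth_phi
  have hs := h.sphere
  refine ⟨fun x => ?_, fun x => ?_⟩
  · rw [(hsd x).2, nv_dot]; unfold uu; ring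
  · have h1 := Sm_eq (A := A) hφ hs x
    have h2 : Sm φ A x = 0 := by
      unfold Sm
      rw [(hsd x).1]; simp
    linarith

theorem asd_facts (h : IsConfig φ A) (hsd : AntiSelfDual φ A) :
    (∀ x, fld A x = (-1) * uu φ x) ∧ (∀ x, 2 * qq φ A x = (-1) * ee φ A x) := by
  have hφ := h.smooth_phi
  have hs := h.sphere
  refine ⟨fun x => ?_, fun x => ?_⟩
  · rw [(hsd x).2, nv_dot]; unfold uu; ring
  · have h1 := Sp_eq (A := A) hφ hs x
    have h2 : Sp φ A x = 0 := by
      unfold Sp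
      rw [(hsd x).1]; simp
    linarith

theorem not_one (h : IsConfig φ A) {δ : ℝ} (hd : IsDegLim φ δ)
    (hsd : SelfDual φ A ∨ AntiSelfDual φ A) : |δ| ≠ 1 := by
  intro hd1
  have hc := critical_of_sd h hsd
  rcases hsd with h1 | h1
  · obtain ⟨a, b⟩ := sd_facts h h1
    exact sd_excl h hc hd (s := 1) (by norm_num) a b hd1
  · obtain ⟨a, b⟩ := asd_facts h h1
    exact sd_excl h hc hd (s := -1) (by norm_num) a b hd1

end Run7.h887
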