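import Pool.Agent.Run7.h887.Circle
import Pool.Agent.Run7.h887.Ident2

/-! Positivity of `u ± F` and the virial argument. -/

namespace Run7.h887

open MeasureTheory Filter Topology Set
open scoped ContDiff Real

theorem int_mono {f g : ℝ → ℝ} (hf : Continuous f) (hg : Continuous g) (h : ∀ x, f x ≤ g x) :
    ∫ t in (-π)..π, f t ≤ ∫ t in (-π)..π, g t :=
  intervalIntegral.integral_mono_on (by linarith [Real.pi_pos]) (hf.intervalIntegrable _ _)
    (hg.intervalIntegrable _ _) fun x _ => h x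

/-- One-dimensional Sobolev type estimate on a circle. -/
theorem sup_le_of_sq {y y' : ℝ → ℝ} (hy : ∀ t, HasDerivAt y (y' t) t) (hc : Continuous y')
    {δ : ℝ} (hδ : 0 < δ) (h0 : ∫ t in (-π)..π, y t ^ 2 ≤ 2 * δ ^ 2)
    (h1 : ∫ t in (-π)..π, y' t ^ 2 ≤ 2 * δ ^ 2) {t : ℝ} (ht : t ∈ Icc (-π) π) :
    y t ≤ 6 * δ := by
  have hpi := Real.pi_pos
  have hpi3 := Real.pi_gt_three
  have hpi4 := Real.pi_lt_four
  have hyc : Continuous y := continuous_iff_continuousAt.2 fun s => (hy s).continuousAt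
  have hV : ∀ g : ℝ → ℝ, Continuous g → ∫ t in (-π)..π, g t ^ 2 ≤ 2 * δ ^ 2 →
      ∫ t in (-π)..π, |g t| ≤ 5 * δ := by
    intro g hg hg2
    have : ∫ t in (-π)..π, |g t| ≤ ∫ t in (-π)..π, ((g t ^ 2) * (1 / (2 * δ)) + δ / 2) := by
      apply int_mono (by fun_prop) (by fun_prop)
      intro s
      have : 0 ≤ (|g s| - δ) ^ 2 := sq_nonneg _
      have h2 : |g s| ^ 2 = g s ^ 2 := sq_abs _
      rw [show g s ^ 2 * (1 / (2 * δ)) + δ / 2 = (g s ^ 2 + δ ^ 2) / (2 * δ) by field_simp]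
      rw [le_div_iff₀ (by positivity)]
      nlinarith
    refine this.trans ?_
    rw [intervalIntegral.integral_add
      ((by fun_prop : Continuous fun t => g t ^ 2 * (1 / (2 * δ))).intervalIntegrable _ _)
      (intervalIntegrable_const), intervalIntegral.integral_mul_const,
      intervalIntegral.integral_const, smul_eq_mul]
    have h3 : (∫ t in (-π)..π, g t ^ 2) * (1 / (2 * δ)) ≤ (2 * δ ^ 2) * (1 / (2 * δ)) :=
      mul_le_mul_of_nonneg_right hg2 (by positivity)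
    have h4 : (2 * δ ^ 2) * (1 / (2 * δ)) = δ := by field_simp
    nlinarith
  have hV1 := hV y' hc h1
  have hV0 := hV y hyc h0
  -- y t ≤ y s + V
  have hdiff : ∀ s ∈ Icc (-π) π, y t ≤ y s + ∫ t in (-π)..π, |y' t| := by
    intro s hs
    have e : y t - y s = ∫ x in s..t, y' x :=
      (intervalIntegral.integral_eq_sub_of_hasDerivAt (fun x _ => hy x)
        (hc.intervalIntegrable _ _)).symm
    have b1 : ∫ x in s..t, y' x ≤ abs (∫ x in s..t, abs (y' x)) := by
      refine (le_abs_self _).trans ?_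
      have := intervalIntegral.norm_integral_le_abs_integral_norm (f := y') (a := s) (b := t)
        (μ := volume)
      simpa [Real.norm_eq_abs] using this
    have b2 : abs (∫ x in s..t, abs (y' x)) ≤ abs (∫ x in (-π)..π, abs (y' x)) := by
      apply intervalIntegral.abs_integral_mono_interval
      · rw [uIoc_of_le (by linarith : -π ≤ π)]
        intro z hz
        rw [mem_uIoc] at hz
        rcases hz with ⟨z1, z2⟩ | ⟨z1, z2⟩
        · exact ⟨lt_of_le_of_lt hs.1 z1, z2.trans ht.2⟩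
        · exact ⟨lt_of_le_of_lt ht.1 z1, z2.trans hs.2⟩
      · exact Eventually.of_forall fun x => abs_nonneg _
      · exact hc.abs.intervalIntegrable _ _
    have b3 : abs (∫ x in (-π)..π, abs (y' x)) = ∫ x in (-π)..π, abs (y' x) :=
      abs_of_nonneg (intervalIntegral.integral_nonneg (by linarith) fun x _ => abs_nonneg _)
    linarith
  have hint : ∫ s in (-π)..π, y t ≤ ∫ s in (-π)..π, (abs (y s) + ∫ t in (-π)..π, abs (y' t)) := by
    apply intervalIntegral.integral_mono_on (by linarith) intervalIntegrable_const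
      ((by fun_prop : Continuous fun s => abs (y s)
        + ∫ t in (-π)..π, abs (y' t)).intervalIntegrable _ _)
    intro s hs
    linarith [hdiff s hs, le_abs_self (y s)]
  rw [intervalIntegral.integral_add (hyc.abs.intervalIntegrable _ _) intervalIntegrable_const,
    intervalIntegral.integral_const, intervalIntegral.integral_const, smul_eq_mul,
    smul_eq_mul] at hint
  have hfin : 2 * π * y t ≤ 5 * δ + 2 * π * (5 * δ) := by
    have : (π - -π) * ∫ t in (-π)..π, |y' t| ≤ (π - -π) * (5 * δ) :=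
      mul_le_mul_of_nonneg_left hV1 (by linarith)
    nlinarith
  nlinarith

/-- On a circle with small energy, `w` is small. -/
theorem circle_sup {w e : ℝ × ℝ → ℝ} (hw : ContDiff ℝ ∞ w) (he : Continuous e)
    (h1 : ∀ x, w x ^ 2 ≤ 2 * e x) (h2 : ∀ x, pd1 w x ^ 2 + pd2 w x ^ 2 ≤ 2 * e x)
    {r δ : ℝ} (hr : 1 ≤ r) (hδ : 0 < δ) (hs : r ^ 2 * cir e r ≤ δ ^ 2) {θ : ℝ}
    (hθ : θ ∈ Icc (-π) π) : |w (r * Real.cos θ, r * Real.sin θ)| ≤ 6 * δ := by
  have hpi := Real.pi_pos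
  have he0 : ∀ x, 0 ≤ e x := fun x => by nlinarith [h1 x, sq_nonneg (w x)]
  have hcir : cir e r ≤ δ ^ 2 := by
    have := cir_nonneg he0 r
    have h3 : 1 ≤ r ^ 2 := by nlinarith
    nlinarith
  set y := fun θ : ℝ => w (r * Real.cos θ, r * Real.sin θ) with hy
  set y' := fun θ : ℝ => pd1 w (r * Real.cos θ, r * Real.sin θ) * (r * (-Real.sin θ))
        + pd2 w (r * Real.cos θ, r * Real.sin θ) * (r * Real.cos θ) with hy'
  have hd : ∀ t, HasDerivAt y (y' t) t := fun t => polar_t (dd' hw) r t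
  have k1 := cont_cir_int (cd_pd1 hw).continuous r
  have k2 := cont_cir_int (cd_pd2 hw).continuous r
  have k0 := cont_cir_int hw.continuous r
  have ke := cont_cir_int he r
  have hc : Continuous y' := by
    rw [hy']; fun_prop
  have e0 : ∫ t in (-π)..π, y t ^ 2 ≤ 2 * δ ^ 2 := by
    have : ∫ t in (-π)..π, y t ^ 2 ≤ ∫ t in (-π)..π, 2 * e (r * Real.cos t, r * Real.sin t) := by
      apply int_mono (by fun_prop) (by fun_prop)
      intro t
      exact h1 _
    rw [intervalIntegral.integral_const_mul] at this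
    change _ ≤ 2 * cir e r at this
    linarith
  have e1 : ∫ t in (-π)..π, y' t ^ 2 ≤ 2 * δ ^ 2 := by
    have : ∫ t in (-π)..π, y' t ^ 2
        ≤ ∫ t in (-π)..π, (2 * r ^ 2) * e (r * Real.cos t, r * Real.sin t) := by
      apply int_mono (by fun_prop) (by fun_prop)
      intro t
      have hsc := Real.sin_sq_add_cos_sq t
      have h3 := h2 (r * Real.cos t, r * Real.sin t)
      simp only [hy']
      set P := pd1 w (r * Real.cos t, r * Real.sin t)
      set Q := pd2 w (r * Real.cos t, r * Real.sin t)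
      have h4 : (P * (r * -Real.sin t) + Q * (r * Real.cos t)) ^ 2
          = r ^ 2 * ((P ^ 2 + Q ^ 2) * (Real.sin t ^ 2 + Real.cos t ^ 2)
            - (P * Real.cos t + Q * Real.sin t) ^ 2) := by ring
      rw [h4, hsc]
      nlinarith [sq_nonneg (P * Real.cos t + Q * Real.sin t), sq_nonneg r,
        mul_nonneg (sq_nonneg r) (sq_nonneg (P * Real.cos t + Q * Real.sin t)),
        mul_le_mul_of_nonneg_left h3 (sq_nonneg r)]
    rw [intervalIntegral.integral_const_mul] at this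
    change _ ≤ (2 * r ^ 2) * cir e r at this
    nlinarith
  rw [abs_le]
  constructor
  · have := sup_le_of_sq (y := fun t => - y t) (y' := fun t => - y' t) (fun t => (hd t).neg)
      hc.neg hδ (by simpa using e0) (by simpa using e1) hθ
    change -(6 * δ) ≤ y θ
    linarith
  · exact sup_le_of_sq hd hc hδ e0 e1 hθ

/-- A point of the plane on a circle in the angle parametrisation. -/
theorem exists_angle {x : ℝ × ℝ} {r : ℝ} (hr : 0 < r) (h : x.1 ^ 2 + x.2 ^ 2 = r ^ 2) :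
    ∃ θ ∈ Ioc (-π) π, x = (r * Real.cos θ, r * Real.sin θ) := by
  set z : ℂ := ⟨x.1, x.2⟩ with hz
  have hn : ‖z‖ = r := by
    rw [Complex.norm_eq_sqrt_sq_add_sq]
    simp only [hz]
    rw [h, Real.sqrt_sq hr.le]
  refine ⟨Complex.arg z, ⟨Complex.neg_pi_lt_arg z, Complex.arg_le_pi z⟩, ?_⟩
  have h1 := Complex.norm_mul_cos_arg z
  have h2 := Complex.norm_mul_sin_arg z
  rw [hn] at h1 h2
  rw [h1, h2]

/-- Minimum argument: positivity of `w`. -/
theorem nonneg_of_test {w u S : ℝ × ℝ → ℝ} (hw : ContDiff ℝ ∞ w) (hu : Continuous u)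
    (hu0 : ∀ x, 0 ≤ u x) (hu2 : ∀ x, u x ≤ 2) (hS : ∀ x, 0 ≤ S x)
    (hgrad : ∀ x, pd1 w x ^ 2 + pd2 w x ^ 2 = (1 - (1 - u x) ^ 2) * S x)
    (hlap : ∀ x, pd1 (pd1 w) x + pd2 (pd2 w) x = (1 - (1 - u x) ^ 2) * w x + (1 - u x) * S x)
    (hvac : ∀ x, u x = 0 → 0 ≤ w x)
    (hcirc : ∀ δ : ℝ, 0 < δ → ∀ R : ℝ, ∃ r, R ≤ r ∧ 0 < r ∧
      ∀ x : ℝ × ℝ, x.1 ^ 2 + x.2 ^ 2 = r ^ 2 → -δ ≤ w x) (x₀ : ℝ × ℝ) : 0 ≤ w x₀ := by
  by_contra hneg
  push Not at hneg
  set m := - w x₀ with hm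
  have hm0 : 0 < m := by linarith
  obtain ⟨r, hrR, hr0, hr⟩ := hcirc (m / 2) (by linarith) (x₀.1 ^ 2 + x₀.2 ^ 2 + 1)
  have hx0r : x₀.1 ^ 2 + x₀.2 ^ 2 < r ^ 2 := by nlinarith [sq_nonneg x₀.1, sq_nonneg x₀.2]
  set K : Set (ℝ × ℝ) := {x | x.1 ^ 2 + x.2 ^ 2 ≤ r ^ 2} with hK
  have hKc : IsCompact K := by
    apply Metric.isCompact_of_isClosed_isBounded
    · exact isClosed_le (by fun_prop) (by fun_prop)
    · refine (Metric.isBounded_closedBall (x := (0 : ℝ × ℝ)) (r := r)).subset ?_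
      intro x hx
      change x.1 ^ 2 + x.2 ^ 2 ≤ r ^ 2 at hx
      rw [mem_closedBall_zero_iff, Prod.norm_def]
      have a1 : |x.1| ≤ r := abs_le_of_sq_le_sq (by nlinarith [sq_nonneg x.2]) hr0.le
      have a2 : |x.2| ≤ r := abs_le_of_sq_le_sq (by nlinarith [sq_nonneg x.1]) hr0.le
      simp only [Real.norm_eq_abs]
      exact max_le a1 a2
  -- lower bound for u on the compact set where w is quite negative
  obtain ⟨δ₀, hδ₀, hδ⟩ : ∃ δ₀ : ℝ, 0 < δ₀ ∧ ∀ x ∈ K, w x ≤ -(m / 2) → δ₀ ≤ u x := by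
    have hK' : IsCompact (K ∩ {x | w x ≤ -(m / 2)}) :=
      hKc.inter_right (isClosed_le hw.continuous continuous_const)
    have hne : (K ∩ {x | w x ≤ -(m / 2)}).Nonempty :=
      ⟨x₀, hx0r.le, by change w x₀ ≤ -(m / 2); linarith⟩
    obtain ⟨z, hz, hzmin⟩ := hK'.exists_isMinOn hne hu.continuousOn
    refine ⟨u z, ?_, ?_⟩
    · rcases (hu0 z).lt_or_eq with h | h
      · exact h
      · exfalso
        have := hvac z h.symm
        have h2 : w z ≤ -(m / 2) := hz.2
        linarith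
    · intro x hx hwx
      exact hzmin ⟨hx, hwx⟩
  -- choose ε
  obtain ⟨ε, hε0, hε1, hε2⟩ : ∃ ε : ℝ, 0 < ε ∧ ε * r ^ 2 < m / 4 ∧
      4 * ε ^ 2 * r ^ 2 < δ₀ ^ 2 * (3 * m / 4) := by
    have hpos : 0 < δ₀ ^ 2 * (3 * m / 4) := by positivity
    set a := m / 4 / (r ^ 2 + 1) with ha
    set b := (δ₀ ^ 2 * (3 * m / 4)) / (4 * (r ^ 2 + 1)) with hb
    have ha0 : 0 < a := by positivity
    have hb0 : 0 < b := by positivity
    refine ⟨min (min a b) 1 / 2, by positivity, ?_, ?_⟩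
    · have h1 : min (min a b) 1 / 2 ≤ a := by
        have : min (min a b) 1 ≤ a := (min_le_left _ _).trans (min_le_left _ _)
        have : 0 < min (min a b) 1 := by positivity
        linarith
      have h2 : a * (r ^ 2 + 1) = m / 4 := by rw [ha]; field_simp
      have : 0 < r ^ 2 := by positivity
      nlinarith
    · set ε' := min (min a b) 1 / 2 with hε'
      have h0 : 0 < ε' := by positivity
      have h1 : ε' ≤ b := by
        have : min (min a b) 1 ≤ b := (min_le_left _ _).trans (min_le_right _ _)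
        have : 0 < min (min a b) 1 := by positivity
        linarith
      have h3 : ε' ≤ 1 := by
        have : min (min a b) 1 ≤ 1 := min_le_right _ _
        linarith
      have h2 : b * (4 * (r ^ 2 + 1)) = δ₀ ^ 2 * (3 * m / 4) := by rw [hb]; field_simp
      have hrr : 0 < r ^ 2 := by positivity
      have h4 : ε' ^ 2 ≤ ε' := by nlinarith
      nlinarith
  set g : ℝ × ℝ → ℝ := fun x => w x - ε * (x.1 ^ 2 + x.2 ^ 2) with hg
  have hgs : ContDiff ℝ ∞ g := by
    rw [hg]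
    exact hw.sub (contDiff_const.mul ((contDiff_fst.pow 2).add (contDiff_snd.pow 2)))
  obtain ⟨z, hzK, hzmin⟩ := hKc.exists_isMinOn ⟨x₀, hx0r.le⟩ hgs.continuous.continuousOn
  have hgz : g z ≤ -m := by
    have h1 : g z ≤ g x₀ := hzmin (show x₀ ∈ K from hx0r.le)
    have h2 : g x₀ ≤ w x₀ := by
      simp only [hg]; nlinarith [sq_nonneg x₀.1, sq_nonneg x₀.2]
    linarith
  have hzK' : z.1 ^ 2 + z.2 ^ 2 ≤ r ^ 2 := hzK
  have hzint : z.1 ^ 2 + z.2 ^ 2 < r ^ 2 := by
    rcases hzK'.lt_or_eq with h | h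
    · exact h
    · exfalso
      have h1 := hr z h
      have h2 : g z = w z - ε * r ^ 2 := by simp only [hg]; rw [h]
      linarith
  have hwz : w z ≤ -(3 * m / 4) := by
    have h2 : g z = w z - ε * (z.1 ^ 2 + z.2 ^ 2) := rfl
    have h3 : ε * (z.1 ^ 2 + z.2 ^ 2) ≤ ε * r ^ 2 := mul_le_mul_of_nonneg_left hzK' hε0.le
    linarith
  have huz : δ₀ ≤ u z := hδ z hzK (by linarith)
  have hloc : IsLocalMin g z := by
    have hnhds : K ∈ 𝓝 z := by
      have : {x : ℝ × ℝ | x.1 ^ 2 + x.2 ^ 2 < r ^ 2} ∈ 𝓝 z :=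
        (isOpen_lt (by fun_prop) (by fun_prop)).mem_nhds hzint
      filter_upwards [this] with x hx
      exact le_of_lt hx
    filter_upwards [hnhds] with x hx
    exact hzmin hx
  obtain ⟨g1, g2, g11, g22⟩ := local_min_test hgs hloc
  have dw := dd' hw
  have dw1 := dd' (cd_pd1 hw)
  have dw2 := dd' (cd_pd2 hw)
  have df : Differentiable ℝ (fun x : ℝ × ℝ => x.1) := differentiable_fst
  have ds : Differentiable ℝ (fun x : ℝ × ℝ => x.2) := differentiable_snd
  have p1f : pd1 (fun x : ℝ × ℝ => x.1) = fun _ => 1 := by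
    funext x; unfold pd1; rw [hasFDerivAt_fst.fderiv]; simp
  have p2f : pd2 (fun x : ℝ × ℝ => x.1) = fun _ => 0 := by
    funext x; unfold pd2; rw [hasFDerivAt_fst.fderiv]; simp
  have p1s : pd1 (fun x : ℝ × ℝ => x.2) = fun _ => 0 := by
    funext x; unfold pd1; rw [hasFDerivAt_snd.fderiv]; simp
  have p2s : pd2 (fun x : ℝ × ℝ => x.2) = fun _ => 1 := by
    funext x; unfold pd2; rw [hasFDerivAt_snd.fderiv]; simp
  have q1 : pd1 (fun x : ℝ × ℝ => x.1 ^ 2 + x.2 ^ 2) = fun x => 2 * x.1 := by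
    rw [pd1_add (df.fun_pow 2) (ds.fun_pow 2), pd1_sq df, pd1_sq ds, p1f, p1s]
    funext x; ring
  have q2 : pd2 (fun x : ℝ × ℝ => x.1 ^ 2 + x.2 ^ 2) = fun x => 2 * x.2 := by
    rw [pd2_add (df.fun_pow 2) (ds.fun_pow 2), pd2_sq df, pd2_sq ds, p2f, p2s]
    funext x; ring
  have dq : Differentiable ℝ (fun x : ℝ × ℝ => x.1 ^ 2 + x.2 ^ 2) :=
    (df.fun_pow 2).fun_add (ds.fun_pow 2)
  have G1 : pd1 g = fun x => pd1 w x - ε * (2 * x.1) := by
    rw [hg, pd1_sub dw (dq.const_mul ε), pd1_cmul dq, q1]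
  have G2 : pd2 g = fun x => pd2 w x - ε * (2 * x.2) := by
    rw [hg, pd2_sub dw (dq.const_mul ε), pd2_cmul dq, q2]
  have G11 : pd1 (pd1 g) = fun x => pd1 (pd1 w) x - ε * 2 := by
    rw [G1, pd1_sub dw1 ((df.const_mul 2).const_mul ε), pd1_cmul (df.const_mul 2), pd1_cmul df,
      p1f]; funext x; ring
  have G22 : pd2 (pd2 g) = fun x => pd2 (pd2 w) x - ε * 2 := by
    rw [G2, pd2_sub dw2 ((ds.const_mul 2).const_mul ε), pd2_cmul (ds.const_mul 2), pd2_cmul ds,
      p2s]; funext x; ring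
  rw [G1] at g1
  rw [G2] at g2
  rw [G11] at g11
  rw [G22] at g22
  have e1 : pd1 w z = 2 * ε * z.1 := by linarith
  have e2 : pd2 w z = 2 * ε * z.2 := by linarith
  have hL := hlap z
  have hG := hgrad z
  rw [e1, e2] at hG
  have hSz := hS z
  set σ := 1 - (1 - u z) ^ 2 with hσ
  have hσu : σ = u z * (2 - u z) := by rw [hσ]; ring
  have hσ0 : 0 ≤ σ := by rw [hσu]; exact mul_nonneg (hu0 z) (by linarith [hu2 z])
  -- (1-u) S ≥ 4ε + σ |w|
  have h5 : 4 * ε + σ * (3 * m / 4) ≤ (1 - u z) * S z := by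
    nlinarith [mul_nonneg hσ0 (by linarith : 0 ≤ -(3 * m / 4) - w z)]
  have hcpos : 0 < 1 - u z := by
    by_contra hcn
    push Not at hcn
    nlinarith [mul_nonneg hσ0 hm0.le, mul_nonneg (by linarith : 0 ≤ -(1 - u z)) hSz]
  have hσδ : δ₀ ≤ σ := by
    rw [hσu]; nlinarith
  have h6 : σ * ((1 - u z) * S z) ≤ 4 * ε ^ 2 * r ^ 2 := by
    have : σ * S z ≤ 4 * ε ^ 2 * r ^ 2 := by
      rw [← hG]; nlinarith [mul_le_mul_of_nonneg_left hzK' (sq_nonneg ε)]
    have h7 : σ * ((1 - u z) * S z) ≤ σ * S z := by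
      have : (1 - u z) * S z ≤ S z := by nlinarith [hu0 z]
      exact mul_le_mul_of_nonneg_left this hσ0
    linarith
  have h8 : σ * (σ * (3 * m / 4)) ≤ σ * ((1 - u z) * S z) :=
    mul_le_mul_of_nonneg_left (by linarith) hσ0
  have h9 : δ₀ ^ 2 * (3 * m / 4) ≤ σ * (σ * (3 * m / 4)) := by
    have : δ₀ ^ 2 ≤ σ ^ 2 := by nlinarith
    nlinarith
  linarith

end Run7.h887
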