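import Pool.Agent.Run7.h887.Gen

/-! The radial system in degree one: first properties and the cases `Q(0) ≥ 0`. -/

namespace Run7.h887

open Filter Topology Set
open scoped Real

/-- Regular solutions on `[0,∞)` of the radial system with winding one, of finite energy. -/
structure RadSol (y z p v b : ℝ → ℝ) : Prop where
  hy : ∀ r, 0 < r → HasDerivAt y (z r * p r / r) r
  hz : ∀ r, 0 < r → HasDerivAt z (-(y r * p r) / r) r
  hp : ∀ r, 0 < r →
    HasDerivAt p ((v r ^ 2 * y r * z r + r ^ 2 * (1 - z r) * y r) / r) r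
  hv : ∀ r, 0 < r → HasDerivAt v (r * b r) r
  hb : ∀ r, 0 < r → HasDerivAt b (v r * y r ^ 2 / r) r
  sph : ∀ r, 0 ≤ r → y r ^ 2 + z r ^ 2 = 1
  cy : ContinuousOn y (Ici 0)
  cz : ContinuousOn z (Ici 0)
  cp : ContinuousOn p (Ici 0)
  cv : ContinuousOn v (Ici 0)
  cb : ContinuousOn b (Ici 0)
  y0 : y 0 = 0
  z0 : z 0 = -1
  p0 : p 0 = 0
  v0 : v 0 = 1
  yb : ∃ C : ℝ, ∀ r, 0 < r → r ≤ 1 → |y r| ≤ C * r
  zlim : Tendsto z atTop (𝓝 1)
  fin : ∀ ε : ℝ, 0 < ε → ∀ R : ℝ, ∃ r, R ≤ r ∧ 0 < r ∧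
    p r ^ 2 + v r ^ 2 * y r ^ 2 + r ^ 2 * (1 - z r) ^ 2 + r ^ 2 * b r ^ 2 ≤ ε

namespace RadSol

variable {y z p v b : ℝ → ℝ} (h : RadSol y z p v b)

include h

theorem flip : RadSol (fun r => -y r) z (fun r => -p r) v b := by
  refine ⟨?_, ?_, ?_, h.hv, ?_, ?_, h.cy.neg, h.cz, h.cp.neg, h.cv, h.cb, ?_, h.z0, ?_, h.v0, ?_,
    h.zlim, ?_⟩
  · intro r hr
    refine ((h.hy r hr).fun_neg).congr_deriv ?_
    ring
  · intro r hr
    refine (h.hz r hr).congr_deriv ?_
    ring
  · intro r hr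
    refine ((h.hp r hr).fun_neg).congr_deriv ?_
    ring
  · intro r hr
    refine (h.hb r hr).congr_deriv ?_
    ring
  · intro r hr
    have := h.sph r hr
    simpa using this
  · simp [h.y0]
  · simp [h.p0]
  · obtain ⟨C, hC⟩ := h.yb
    exact ⟨C, fun r h1 h2 => by rw [abs_neg]; exact hC r h1 h2⟩
  · intro ε hε R
    obtain ⟨r, h1, h2, h3⟩ := h.fin ε hε R
    exact ⟨r, h1, h2, by simpa using h3⟩

theorem zle (r : ℝ) (hr : 0 ≤ r) : z r ≤ 1 := by
  have := h.sph r hr; nlinarith [sq_nonneg (y r)]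

theorem zge (r : ℝ) (hr : 0 ≤ r) : -1 ≤ z r := by
  have := h.sph r hr; nlinarith [sq_nonneg (y r)]

theorem yle (r : ℝ) (hr : 0 ≤ r) : y r ≤ 1 := by
  have := h.sph r hr; nlinarith [sq_nonneg (z r)]

theorem yge (r : ℝ) (hr : 0 ≤ r) : -1 ≤ y r := by
  have := h.sph r hr; nlinarith [sq_nonneg (z r)]

/-- `y` does not vanish identically. -/
theorem y_ne : ∃ r, 0 < r ∧ y r ≠ 0 := by
  -- find a zero of z
  obtain ⟨R, hR0, hR⟩ : ∃ R : ℝ, 0 < R ∧ 0 < z R := by
    have h1 : ∀ᶠ r in atTop, 0 < z r := h.zlim.eventually (lt_mem_nhds one_pos)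
    obtain ⟨R, hR⟩ := (h1.and (eventually_gt_atTop 0)).exists
    exact ⟨R, hR.2, hR.1⟩
  obtain ⟨c, h1, h2, h3, _⟩ := first_zero (f := fun r => -z r) hR0.le
    (h.cz.neg.mono fun r hr => hr.1) (by simp [h.z0]) (by simpa using hR.le)
  refine ⟨c, h1, fun h4 => ?_⟩
  have := h.sph c h1.le
  have h5 : z c = 0 := by simpa using h3
  rw [h4, h5] at this
  norm_num at this

theorem yp_ne (r : ℝ) (hr : 0 < r) : ¬ (y r = 0 ∧ p r = 0) := by
  rintro ⟨h1, h2⟩
  obtain ⟨s, hs, hys⟩ := h.y_ne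
  have hk : ContinuousOn (fun r : ℝ => (1 + v r ^ 2 + 2 * r ^ 2) / r) (Ioi 0) := by
    apply ContinuousOn.div
    · have := h.cv.mono (Ioi_subset_Ici_self (a := (0 : ℝ)))
      fun_prop
    · fun_prop
    · intro r hr; exact ne_of_gt hr
  have := zero_of_gron (E := fun r => y r ^ 2 + p r ^ 2)
    (E' := fun r => 2 * y r * (z r * p r / r)
      + 2 * p r * ((v r ^ 2 * y r * z r + r ^ 2 * (1 - z r) * y r) / r))
    (k := fun r : ℝ => (1 + v r ^ 2 + 2 * r ^ 2) / r)
    (fun r hr => by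
      have a := (h.hy r hr).fun_pow 2
      have b := (h.hp r hr).fun_pow 2
      refine (a.fun_add b).congr_deriv ?_
      push_cast
      ring)
    (fun r hr => by positivity) hk
    (fun r hr => by
      have e : 2 * y r * (z r * p r / r)
          + 2 * p r * ((v r ^ 2 * y r * z r + r ^ 2 * (1 - z r) * y r) / r)
          = (2 * (y r * p r) * (z r + v r ^ 2 * z r + r ^ 2 * (1 - z r))) / r := by
        field_simp
        ring
      rw [e, abs_div, abs_of_pos hr, div_mul_eq_mul_div, div_le_div_iff_of_pos_right hr, abs_mul]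
      have z1 := h.zle r hr.le
      have z2 := h.zge r hr.le
      have b1 : |2 * (y r * p r)| ≤ y r ^ 2 + p r ^ 2 := by
        rw [abs_le]; constructor <;> nlinarith [sq_nonneg (y r + p r), sq_nonneg (y r - p r)]
      have b2 : |z r + v r ^ 2 * z r + r ^ 2 * (1 - z r)| ≤ 1 + v r ^ 2 + 2 * r ^ 2 := by
        rw [abs_le]
        constructor <;> nlinarith [sq_nonneg (v r), sq_nonneg r,
          mul_nonneg (sq_nonneg (v r)) (by linarith : 0 ≤ 1 - z r),
          mul_nonneg (sq_nonneg (v r)) (by linarith : 0 ≤ 1 + z r),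
          mul_nonneg (sq_nonneg r) (by linarith : 0 ≤ 1 - z r),
          mul_nonneg (sq_nonneg r) (by linarith : 0 ≤ 1 + z r)]
      calc |2 * (y r * p r)| * |z r + v r ^ 2 * z r + r ^ 2 * (1 - z r)|
          ≤ (y r ^ 2 + p r ^ 2) * (1 + v r ^ 2 + 2 * r ^ 2) :=
            mul_le_mul b1 b2 (abs_nonneg _) (by positivity)
        _ = _ := by ring)
    hr (by simp [h1, h2]) s hs
  apply hys
  nlinarith [sq_nonneg (y s), sq_nonneg (p s)]

theorem vb_ne (r : ℝ) (hr : 0 < r) : ¬ (v r = 0 ∧ b r = 0) := by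
  rintro ⟨h1, h2⟩
  have hk : ContinuousOn (fun r : ℝ => r + 1 / r) (Ioi 0) := by
    apply ContinuousOn.add (by fun_prop)
    apply ContinuousOn.div (by fun_prop) (by fun_prop)
    intro r hr; exact ne_of_gt hr
  have key := zero_of_gron (E := fun r => v r ^ 2 + b r ^ 2)
    (E' := fun r => 2 * v r * (r * b r) + 2 * b r * (v r * y r ^ 2 / r))
    (k := fun r : ℝ => r + 1 / r)
    (fun r hr => by
      have a := (h.hv r hr).fun_pow 2
      have b := (h.hb r hr).fun_pow 2
      refine (a.fun_add b).congr_deriv ?_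
      push_cast
      ring)
    (fun r hr => by positivity) hk
    (fun r hr => by
      have e : 2 * v r * (r * b r) + 2 * b r * (v r * y r ^ 2 / r)
          = (2 * (v r * b r)) * (r + y r ^ 2 / r) := by
        field_simp
      rw [e, abs_mul]
      have hs := h.sph r hr.le
      have b1 : |2 * (v r * b r)| ≤ v r ^ 2 + b r ^ 2 := by
        rw [abs_le]; constructor <;> nlinarith [sq_nonneg (v r + b r), sq_nonneg (v r - b r)]
      have b2 : |r + y r ^ 2 / r| ≤ r + 1 / r := by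
        rw [abs_of_nonneg (by positivity)]
        gcongr
        nlinarith [sq_nonneg (z r)]
      calc |2 * (v r * b r)| * |r + y r ^ 2 / r|
          ≤ (v r ^ 2 + b r ^ 2) * (r + 1 / r) := mul_le_mul b1 b2 (abs_nonneg _) (by positivity)
        _ = _ := by ring)
    hr (by simp [h1, h2])
  -- v = 0 on (0,∞), contradiction at 0
  have hv0 : ∀ s, 0 < s → v s = 0 := fun s hs => by
    have := key s hs
    nlinarith [sq_nonneg (v s), sq_nonneg (b s)]
  have h3 : Tendsto v (𝓝[>] 0) (𝓝 (v 0)) :=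
    (h.cv 0 (mem_Ici.2 le_rfl)).mono Ioi_subset_Ici_self
  have h4 : Tendsto v (𝓝[>] 0) (𝓝 0) := by
    apply tendsto_const_nhds.congr'
    filter_upwards [self_mem_nhdsWithin] with s hs
    exact (hv0 s hs).symm
  have := tendsto_nhds_unique h3 h4
  rw [h.v0] at this
  norm_num at this

/-- `v b < 0` on `(0,∞)`. -/
theorem vb_neg (r : ℝ) (hr : 0 < r) : v r * b r < 0 := by
  by_contra hcon
  push Not at hcon
  -- m = v b is nonnegative after r
  have hm : ∀ s, r ≤ s → 0 ≤ v s * b s := by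
    intro s hs
    have := inc (f := fun s => v s * b s)
      (f' := fun s => s * b s * b s + v s * (v s * y s ^ 2 / s)) hs
      (fun t ht => ((h.hv t (lt_of_lt_of_le hr ht.1)).fun_mul
        (h.hb t (lt_of_lt_of_le hr ht.1))).continuousAt.continuousWithinAt)
      (fun t ht => (h.hv t (lt_trans hr ht.1)).fun_mul (h.hb t (lt_trans hr ht.1)))
      (fun t ht => by
        have ht0 : 0 < t := lt_trans hr ht.1
        have : t * b t * b t + v t * (v t * y t ^ 2 / t) = t * b t ^ 2 + v t ^ 2 * y t ^ 2 / t := by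
          ring
        rw [this]; positivity)
    linarith
  -- b² nondecreasing after r
  have hbz : ∀ s, r ≤ s → b s = 0 := by
    intro s hs
    have hs0 := lt_of_lt_of_le hr hs
    have hle : ∀ ε : ℝ, 0 < ε → b s ^ 2 ≤ ε := by
      intro ε hε
      obtain ⟨t, h1, h2, h3⟩ := h.fin ε hε (max s 1)
      have hst : s ≤ t := (le_max_left _ _).trans h1
      have h1t : 1 ≤ t := (le_max_right _ _).trans h1
      have h4 := inc (f := fun s => b s ^ 2) (f' := fun s => 2 * b s * (v s * y s ^ 2 / s)) hst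
        (fun t ht => ((h.hb t (lt_of_lt_of_le hs0 ht.1)).fun_pow 2).continuousAt.continuousWithinAt)
        (fun t ht => ((h.hb t (lt_trans hs0 ht.1)).fun_pow 2).congr_deriv (by push_cast; ring))
        (fun t ht => by
          have ht0 : 0 < t := lt_trans hs0 ht.1
          have := hm t (hs.trans ht.1.le)
          have e : 2 * b t * (v t * y t ^ 2 / t) = 2 * (v t * b t) * (y t ^ 2 / t) := by ring
          rw [e]; positivity)
      have h5 : b t ^ 2 ≤ t ^ 2 * b t ^ 2 := by
        have : 1 ≤ t ^ 2 := by nlinarith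
        nlinarith [sq_nonneg (b t)]
      have h6 : 0 ≤ p t ^ 2 + v t ^ 2 * y t ^ 2 + t ^ 2 * (1 - z t) ^ 2 := by positivity
      linarith
    have : b s ^ 2 ≤ 0 := le_of_forall_pos_le_add fun ε hε => by simpa using hle ε hε
    nlinarith [sq_nonneg (b s)]
  -- at r+1
  have hr1 : 0 < r + 1 := by linarith
  have hev : ∀ s, r < s → v s * y s ^ 2 / s = 0 := by
    intro s hs
    have h1 := h.hb s (lt_trans hr hs)
    have h2 : HasDerivAt b 0 s := by
      have : b =ᶠ[𝓝 s] fun _ => 0 := by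
        filter_upwards [Ioi_mem_nhds hs] with t ht
        exact hbz t (le_of_lt ht)
      exact (hasDerivAt_const s (0 : ℝ)).congr_of_eventuallyEq this
    exact h1.unique h2
  have hyz : ∀ s, r < s → y s = 0 := by
    intro s hs
    have hs0 := lt_trans hr hs
    have h1 := hev s hs
    have h2 : v s ≠ 0 := fun hv => h.vb_ne s hs0 ⟨hv, hbz s hs.le⟩
    have h3 : v s * y s ^ 2 = 0 := by
      rcases div_eq_zero_iff.1 h1 with h4 | h4
      · exact h4
      · exact absurd h4 hs0.ne'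
    have h4 := (mul_eq_zero.1 h3).resolve_left h2
    exact pow_eq_zero_iff two_ne_zero |>.1 h4
  have hs1 : r < r + 1 := by linarith
  have h1 := h.hy (r + 1) hr1
  have h2 : HasDerivAt y 0 (r + 1) := by
    have : y =ᶠ[𝓝 (r + 1)] fun _ => 0 := by
      filter_upwards [Ioi_mem_nhds hs1] with t ht
      exact hyz t ht
    exact (hasDerivAt_const (r + 1) (0 : ℝ)).congr_of_eventuallyEq this
  have h3 := h1.unique h2
  have h4 : z (r + 1) ≠ 0 := by
    intro hz
    have := h.sph (r + 1) hr1.le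
    rw [hz, hyz _ hs1] at this
    norm_num at this
  have h5 : p (r + 1) = 0 := by
    rcases div_eq_zero_iff.1 h3 with h6 | h6
    · exact (mul_eq_zero.1 h6).resolve_left h4
    · exact absurd h6 hr1.ne'
  exact h.yp_ne (r + 1) hr1 ⟨hyz _ hs1, h5⟩

theorem vpos (r : ℝ) (hr : 0 ≤ r) : 0 < v r := by
  apply pos_of_ne hr (h.cv.mono fun s hs => hs.1) (by rw [h.v0]; exact one_pos)
  intro s hs1 hs2
  rcases hs1.eq_or_lt with h1 | h1
  · rw [← h1, h.v0]; exact one_ne_zero
  · intro h2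
    have := h.vb_neg s h1
    rw [h2, zero_mul] at this
    exact lt_irrefl _ this

theorem bneg (r : ℝ) (hr : 0 < r) : b r < 0 := by
  have h1 := h.vb_neg r hr
  have h2 := h.vpos r hr.le
  by_contra hcon
  push Not at hcon
  have := mul_nonneg h2.le hcon
  linarith

theorem v_anti {s t : ℝ} (hs : 0 ≤ s) (hst : s ≤ t) : v t ≤ v s := by
  refine dec (f' := fun r => r * b r) hst (h.cv.mono fun r hr => hs.trans hr.1)
    (fun r hr => h.hv r (lt_of_le_of_lt hs hr.1)) fun r hr => ?_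
  have hr0 := lt_of_le_of_lt hs hr.1
  have := h.bneg r hr0
  nlinarith

theorem b_mono {s t : ℝ} (hs : 0 ≤ s) (hst : s ≤ t) : b s ≤ b t := by
  refine inc (f' := fun r => v r * y r ^ 2 / r) hst (h.cb.mono fun r hr => hs.trans hr.1)
    (fun r hr => h.hb r (lt_of_le_of_lt hs hr.1)) fun r hr => ?_
  have hr0 := lt_of_le_of_lt hs hr.1
  have := h.vpos r hr0.le
  positivity

theorem vle (r : ℝ) (hr : 0 ≤ r) : v r ≤ 1 := by
  rw [← h.v0]; exact h.v_anti le_rfl hr

/-- Derivative of `T = p² - v²y² + r²(b² - u²)`. -/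
theorem hT (r : ℝ) (hr : 0 < r) :
    HasDerivAt (fun r => p r ^ 2 - v r ^ 2 * y r ^ 2 + r ^ 2 * (b r ^ 2 - (1 - z r) ^ 2))
      (2 * r * (b r ^ 2 - (1 - z r) ^ 2)) r := by
  have a1 := (h.hp r hr).fun_pow 2
  have a2 := ((h.hv r hr).fun_pow 2).fun_mul ((h.hy r hr).fun_pow 2)
  have a3 := hasDerivAt_pow 2 r
  have a4 := ((h.hb r hr).fun_pow 2).fun_sub (((h.hz r hr).const_sub 1).fun_pow 2)
  refine ((a1.fun_sub a2).fun_add (a3.fun_mul a4)).congr_deriv ?_
  push_cast
  field_simp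
  ring

theorem T0 : p 0 ^ 2 - v 0 ^ 2 * y 0 ^ 2 + (0 : ℝ) ^ 2 * (b 0 ^ 2 - (1 - z 0) ^ 2) = 0 := by
  rw [h.p0, h.y0]; ring

theorem cT : ContinuousOn
    (fun r => p r ^ 2 - v r ^ 2 * y r ^ 2 + r ^ 2 * (b r ^ 2 - (1 - z r) ^ 2)) (Ici 0) := by
  have := h.cp
  have := h.cv
  have := h.cy
  have := h.cb
  have := h.cz
  fun_prop

/-- `T` is small at arbitrarily large radii. -/
theorem Tfin (ε : ℝ) (hε : 0 < ε) (R : ℝ) : ∃ r, R ≤ r ∧ 0 < r ∧
    -ε ≤ p r ^ 2 - v r ^ 2 * y r ^ 2 + r ^ 2 * (b r ^ 2 - (1 - z r) ^ 2) := by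
  obtain ⟨r, h1, h2, h3⟩ := h.fin ε hε R
  refine ⟨r, h1, h2, ?_⟩
  nlinarith [sq_nonneg (p r), mul_nonneg (sq_nonneg (v r)) (sq_nonneg (y r)),
    mul_nonneg (sq_nonneg r) (sq_nonneg (1 - z r)), mul_nonneg (sq_nonneg r) (sq_nonneg (b r))]

/-- Derivative of `Q = b + u`. -/
theorem hQ (r : ℝ) (hr : 0 < r) :
    HasDerivAt (fun r => b r + (1 - z r)) (y r * (p r + v r * y r) / r) r := by
  refine ((h.hb r hr).fun_add ((h.hz r hr).const_sub 1)).congr_deriv ?_
  field_simp
  ring

/-- Derivative of `Q̃ = b - u`. -/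
theorem hQt (r : ℝ) (hr : 0 < r) :
    HasDerivAt (fun r => b r - (1 - z r)) (-(y r * (p r - v r * y r)) / r) r := by
  refine ((h.hb r hr).fun_sub ((h.hz r hr).const_sub 1)).congr_deriv ?_
  field_simp
  ring

/-- Derivative of `P = p + v y`. -/
theorem hP (r : ℝ) (hr : 0 < r) :
    HasDerivAt (fun r => p r + v r * y r)
      ((v r * z r * (p r + v r * y r) + r ^ 2 * y r * (b r + (1 - z r))) / r) r := by
  refine ((h.hp r hr).fun_add ((h.hv r hr).fun_mul (h.hy r hr))).congr_deriv ?_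
  field_simp
  ring

/-- Derivative of `P̃ = p - v y`. -/
theorem hPt (r : ℝ) (hr : 0 < r) :
    HasDerivAt (fun r => p r - v r * y r)
      ((-(v r * z r * (p r - v r * y r)) - r ^ 2 * y r * (b r - (1 - z r))) / r) r := by
  refine ((h.hp r hr).fun_sub ((h.hv r hr).fun_mul (h.hy r hr))).congr_deriv ?_
  field_simp
  ring

theorem cQ : ContinuousOn (fun r => b r + (1 - z r)) (Ici 0) := by
  have := h.cb
  have := h.cz
  fun_prop

/-- Case A. -/
theorem caseA (hA : 0 < b 0 + (1 - z 0)) : False := by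
  have hQpos : ∀ r, 0 ≤ r → 0 < b r + (1 - z r) := by
    intro r hr
    by_contra hcon
    push Not at hcon
    obtain ⟨c, hc0, hc1, hc2, hc3⟩ := first_zero (f := fun r => b r + (1 - z r)) hr
      (h.cQ.mono fun s hs => hs.1) hA hcon
    have hTc := sdec (f := fun r => p r ^ 2 - v r ^ 2 * y r ^ 2
        + r ^ 2 * (b r ^ 2 - (1 - z r) ^ 2)) (f' := fun r => 2 * r * (b r ^ 2 - (1 - z r) ^ 2)) hc0
      (h.cT.mono fun s hs => hs.1) (fun s hs => h.hT s hs.1) (fun s hs => by
        have q1 := hc3 s hs.1.le hs.2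
        have q2 := h.bneg s hs.1
        have q3 := h.zle s hs.1.le
        have e : 2 * s * (b s ^ 2 - (1 - z s) ^ 2)
            = 2 * s * ((b s + (1 - z s)) * (b s - (1 - z s))) := by ring
        rw [e]
        have q4 : b s - (1 - z s) < 0 := by linarith
        have q5 : (b s + (1 - z s)) * (b s - (1 - z s)) < 0 := mul_neg_of_pos_of_neg q1 q4
        have q6 : 0 < 2 * s := by linarith [hs.1]
        exact mul_neg_of_pos_of_neg q6 q5)
    rw [h.T0] at hTc
    have e : b c ^ 2 - (1 - z c) ^ 2 = 0 := by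
      have hc2' : b c + (1 - z c) = 0 := hc2
      linear_combination (b c - (1 - z c)) * hc2'
    rw [e, mul_zero, add_zero] at hTc
    have hd := left_deriv hc0 (h.hQ c hc0) (fun s hs1 hs2 => by
      have := hc3 s hs1.le hs2
      have h5 : b c + (1 - z c) = 0 := hc2
      rw [h5]; exact this.le)
    have hv := h.vpos c hc0.le
    -- y P > 0
    have h1 : p c ^ 2 < (v c * y c) ^ 2 := by nlinarith
    have h2 : |p c| < |v c * y c| := sq_lt_sq.1 h1
    have h3 : 0 < y c * (p c + v c * y c) := by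
      have h4 : |y c * p c| < v c * y c ^ 2 := by
        rw [abs_mul]
        rw [abs_mul, abs_of_pos hv] at h2
        have hy : 0 < |y c| := by
          by_contra hy
          have : |y c| = 0 := le_antisymm (not_lt.1 hy) (abs_nonneg _)
          rw [this, mul_zero] at h2
          exact absurd h2 (not_lt.2 (abs_nonneg _))
        calc |y c| * |p c| < |y c| * (v c * |y c|) := mul_lt_mul_of_pos_left h2 hy
          _ = v c * |y c| ^ 2 := by ring
          _ = v c * y c ^ 2 := by rw [sq_abs]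
      have h5 := (abs_lt.1 h4).1
      linarith
    have h6 : 0 < y c * (p c + v c * y c) / c := div_pos h3 hc0
    linarith
  -- T decreasing
  have hdec : ∀ s t : ℝ, 0 ≤ s → s < t →
      p t ^ 2 - v t ^ 2 * y t ^ 2 + t ^ 2 * (b t ^ 2 - (1 - z t) ^ 2)
      < p s ^ 2 - v s ^ 2 * y s ^ 2 + s ^ 2 * (b s ^ 2 - (1 - z s) ^ 2) := by
    intro s t hs hst
    refine sdec (f := fun r => p r ^ 2 - v r ^ 2 * y r ^ 2
        + r ^ 2 * (b r ^ 2 - (1 - z r) ^ 2)) (f' := fun r => 2 * r * (b r ^ 2 - (1 - z r) ^ 2)) hst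
      (h.cT.mono fun r hr => hs.trans hr.1) (fun r hr => h.hT r (lt_of_le_of_lt hs hr.1)) ?_
    intro r hr
    have hr0 := lt_of_le_of_lt hs hr.1
    have q1 := hQpos r hr0.le
    have q2 := h.bneg r hr0
    have q3 := h.zle r hr0.le
    have e : 2 * r * (b r ^ 2 - (1 - z r) ^ 2)
        = 2 * r * ((b r + (1 - z r)) * (b r - (1 - z r))) := by ring
    rw [e]
    have q4 : b r - (1 - z r) < 0 := by linarith
    have q5 : (b r + (1 - z r)) * (b r - (1 - z r)) < 0 := mul_neg_of_pos_of_neg q1 q4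
    have q6 : 0 < 2 * r := by linarith
    exact mul_neg_of_pos_of_neg q6 q5
  have h1 := hdec 0 1 le_rfl one_pos
  rw [h.T0] at h1
  set T1 := p 1 ^ 2 - v 1 ^ 2 * y 1 ^ 2 + (1 : ℝ) ^ 2 * (b 1 ^ 2 - (1 - z 1) ^ 2) with hT1
  obtain ⟨r, hr1, hr2, hr3⟩ := h.Tfin (-T1 / 2) (by linarith) 2
  have h2 := hdec 1 r zero_le_one (by linarith)
  linarith

/-- Case B. -/
theorem caseB (hB : b 0 + (1 - z 0) = 0) : False := by
  obtain ⟨C, hC⟩ := h.yb
  have hC0 : 0 ≤ C := by
    have := hC 1 one_pos le_rfl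
    have h2 := abs_nonneg (y 1)
    linarith
  -- radius where z ≤ 0
  obtain ⟨r₀, hr₀, hr₀1, hz₀⟩ : ∃ r₀ : ℝ, 0 < r₀ ∧ r₀ ≤ 1 ∧ ∀ r, 0 ≤ r → r ≤ r₀ → z r ≤ 0 := by
    have h1 : ∀ᶠ r in 𝓝[≥] (0 : ℝ), z r < 0 := by
      have := (h.cz 0 (mem_Ici.2 le_rfl))
      rw [ContinuousWithinAt, h.z0] at this
      exact this.eventually (gt_mem_nhds (by norm_num))
    obtain ⟨c, hc, hsub⟩ := mem_nhdsGE_iff_exists_Icc_subset.1 h1
    refine ⟨min c 1, by positivity, min_le_right _ _, fun r h2 h3 => ?_⟩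
    have : z r < 0 := hsub ⟨h2, h3.trans (min_le_left _ _)⟩
    exact this.le
  set E : ℝ → ℝ := fun r => (p r + v r * y r) ^ 2 + (b r + (1 - z r)) ^ 2 with hE
  have hEd : ∀ r, 0 < r → HasDerivAt E
      (2 * (p r + v r * y r) * ((v r * z r * (p r + v r * y r)
        + r ^ 2 * y r * (b r + (1 - z r))) / r)
        + 2 * (b r + (1 - z r)) * (y r * (p r + v r * y r) / r)) r := by
    intro r hr
    refine (((h.hP r hr).fun_pow 2).fun_add ((h.hQ r hr).fun_pow 2)).congr_deriv ?_
    push_cast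
    ring
  have hE0 : ∀ r, 0 ≤ E r := fun r => by simp only [hE]; positivity
  have hEz : E r₀ = 0 := by
    have hexp : ∀ s : ℝ, HasDerivAt (fun t : ℝ => Real.exp (-(2 * C) * t))
        (-(2 * C) * Real.exp (-(2 * C) * s)) s := by
      intro s
      have h1 : HasDerivAt (fun t : ℝ => -(2 * C) * t) (-(2 * C)) s := by
        simpa using (hasDerivAt_id s).const_mul (-(2 * C))
      exact h1.exp.congr_deriv (by ring)
    have hcE : ContinuousOn E (Icc 0 r₀) := by
      have h1 := h.cp.mono (fun s hs => hs.1 : Icc 0 r₀ ⊆ Ici 0)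
      have h2 := h.cv.mono (fun s hs => hs.1 : Icc 0 r₀ ⊆ Ici 0)
      have h3 := h.cy.mono (fun s hs => hs.1 : Icc 0 r₀ ⊆ Ici 0)
      have h4 := h.cb.mono (fun s hs => hs.1 : Icc 0 r₀ ⊆ Ici 0)
      have h5 := h.cz.mono (fun s hs => hs.1 : Icc 0 r₀ ⊆ Ici 0)
      simp only [hE]
      fun_prop
    have h1 := dec (f := fun s => E s * Real.exp (-(2 * C) * s)) hr₀.le
      (hcE.mul (by fun_prop)) (fun s hs => (hEd s hs.1).fun_mul (hexp s)) (fun s hs => by
        have hs0 : 0 < s := hs.1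
        have hs1 : s ≤ 1 := hs.2.le.trans hr₀1
        have hzs := hz₀ s hs0.le hs.2.le
        have hvs := h.vpos s hs0.le
        have hys := hC s hs0 hs1
        set P := p s + v s * y s with hP
        set Q := b s + (1 - z s) with hQ
        have e : 2 * P * ((v s * z s * P + s ^ 2 * y s * Q) / s) + 2 * Q * (y s * P / s)
            = 2 * (v s * z s) * P ^ 2 / s + 2 * (P * Q) * (y s / s) * (s ^ 2 + 1) := by
          field_simp
          ring
        have hES : E s = P ^ 2 + Q ^ 2 := rfl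
        have a1 : 2 * (v s * z s) * P ^ 2 / s ≤ 0 := by
          apply div_nonpos_of_nonpos_of_nonneg _ hs0.le
          have : v s * z s ≤ 0 := mul_nonpos_of_nonneg_of_nonpos hvs.le hzs
          nlinarith [sq_nonneg P]
        have a2 : |y s / s| ≤ C := by
          rw [abs_div, abs_of_pos hs0, div_le_iff₀ hs0]; exact hys
        have a3 : 2 * (P * Q) * (y s / s) ≤ (P ^ 2 + Q ^ 2) * C := by
          have : |2 * (P * Q)| ≤ P ^ 2 + Q ^ 2 := by
            rw [abs_le]; constructor <;> nlinarith [sq_nonneg (P + Q), sq_nonneg (P - Q)]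
          calc 2 * (P * Q) * (y s / s) ≤ |2 * (P * Q) * (y s / s)| := le_abs_self _
            _ = |2 * (P * Q)| * |y s / s| := abs_mul _ _
            _ ≤ (P ^ 2 + Q ^ 2) * C := mul_le_mul this a2 (abs_nonneg _) (by positivity)
        have a4 : 2 * (P * Q) * (y s / s) * (s ^ 2 + 1) ≤ (P ^ 2 + Q ^ 2) * C * 2 := by
          have b1 : 0 ≤ (P ^ 2 + Q ^ 2) * C := by positivity
          have b2 : s ^ 2 + 1 ≤ 2 := by nlinarith
          calc 2 * (P * Q) * (y s / s) * (s ^ 2 + 1) ≤ (P ^ 2 + Q ^ 2) * C * (s ^ 2 + 1) :=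
                mul_le_mul_of_nonneg_right a3 (by positivity)
            _ ≤ _ := mul_le_mul_of_nonneg_left b2 b1
        have a5 := Real.exp_pos (-(2 * C) * s)
        rw [e, hES]
        have : (2 * (v s * z s) * P ^ 2 / s + 2 * (P * Q) * (y s / s) * (s ^ 2 + 1))
            * Real.exp (-(2 * C) * s) + (P ^ 2 + Q ^ 2) * (-(2 * C) * Real.exp (-(2 * C) * s))
            = (2 * (v s * z s) * P ^ 2 / s + 2 * (P * Q) * (y s / s) * (s ^ 2 + 1)
              - 2 * C * (P ^ 2 + Q ^ 2)) * Real.exp (-(2 * C) * s) := by ring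
        rw [this]
        exact mul_nonpos_of_nonpos_of_nonneg (by linarith) a5.le)
    have h2 : E 0 = 0 := by
      simp only [hE]
      rw [hB, h.p0, h.y0]; ring
    simp only [h2, zero_mul] at h1
    apply le_antisymm _ (hE0 r₀)
    by_contra hcon
    push Not at hcon
    have := mul_pos hcon (Real.exp_pos (-(2 * C) * r₀))
    linarith
  have hk : ContinuousOn (fun r : ℝ => (2 * v r) / r + (r + 1 / r)) (Ioi 0) := by
    have h1 := h.cv.mono (Ioi_subset_Ici_self (a := (0 : ℝ)))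
    apply ContinuousOn.add
    · exact ContinuousOn.div (by fun_prop) (by fun_prop) fun r hr => ne_of_gt hr
    · apply ContinuousOn.add (by fun_prop)
      exact ContinuousOn.div (by fun_prop) (by fun_prop) fun r hr => ne_of_gt hr
  have hall := zero_of_gron (k := fun r : ℝ => (2 * v r) / r + (r + 1 / r)) hEd
    (fun r _ => hE0 r) hk (fun s hs0 => by
      have hvs := h.vpos s hs0.le
      have hz1 := h.zle s hs0.le
      have hz2 := h.zge s hs0.le
      have hy1 := h.yle s hs0.le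
      have hy2 := h.yge s hs0.le
      set P := p s + v s * y s with hP
      set Q := b s + (1 - z s) with hQ
      have e : 2 * P * ((v s * z s * P + s ^ 2 * y s * Q) / s) + 2 * Q * (y s * P / s)
          = (2 * v s / s) * (z s * P ^ 2) + (2 * (P * Q)) * (y s * (s + 1 / s)) := by
        field_simp
        ring
      have hES : E s = P ^ 2 + Q ^ 2 := rfl
      rw [e, hES]
      have b0 : |z s * P ^ 2| ≤ P ^ 2 + Q ^ 2 := by
        rw [abs_le]; constructor <;> nlinarith [sq_nonneg P, sq_nonneg Q]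
      have b1 : |2 * (P * Q)| ≤ P ^ 2 + Q ^ 2 := by
        rw [abs_le]; constructor <;> nlinarith [sq_nonneg (P + Q), sq_nonneg (P - Q)]
      have b2 : |y s * (s + 1 / s)| ≤ s + 1 / s := by
        rw [abs_mul, abs_of_pos (by positivity : 0 < s + 1 / s)]
        have : |y s| ≤ 1 := abs_le.2 ⟨hy2, hy1⟩
        have h3 : 0 < s + 1 / s := by positivity
        nlinarith
      calc _ ≤ |2 * v s / s * (z s * P ^ 2)| + |2 * (P * Q) * (y s * (s + 1 / s))| :=
            abs_add_le _ _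
        _ = (2 * v s / s) * |z s * P ^ 2| + |2 * (P * Q)| * |y s * (s + 1 / s)| := by
            rw [abs_mul, abs_mul (2 * (P * Q)), abs_of_nonneg (by positivity : 0 ≤ 2 * v s / s)]
        _ ≤ (2 * v s / s) * (P ^ 2 + Q ^ 2) + (P ^ 2 + Q ^ 2) * (s + 1 / s) := by
            gcongr
        _ = _ := by ring) hr₀ hEz
  have hPz : ∀ r, 0 < r → p r + v r * y r = 0 := by
    intro r hr
    have := hall r hr
    simp only [hE] at this
    nlinarith [sq_nonneg (p r + v r * y r), sq_nonneg (b r + (1 - z r))]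
  have hQz : ∀ r, 0 < r → b r + (1 - z r) = 0 := by
    intro r hr
    have := hall r hr
    simp only [hE] at this
    nlinarith [sq_nonneg (p r + v r * y r), sq_nonneg (b r + (1 - z r))]
  -- r² u is nondecreasing
  have hmono : ∀ t, r₀ ≤ t → r₀ ^ 2 ≤ t ^ 2 * (1 - z t) := by
    intro t ht
    have h1 := inc (f := fun r => r ^ 2 * (1 - z r))
      (f' := fun r => 2 * r * (1 - z r) + r ^ 2 * (-(-(y r * p r) / r))) ht
      (fun s hs => by
        have hs0 := lt_of_lt_of_le hr₀ hs.1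
        exact ((hasDerivAt_pow 2 s).fun_mul
          ((h.hz s hs0).const_sub 1)).continuousAt.continuousWithinAt)
      (fun s hs => by
        have hs0 := lt_trans hr₀ hs.1
        exact ((hasDerivAt_pow 2 s).fun_mul ((h.hz s hs0).const_sub 1)).congr_deriv (by
          push_cast; ring))
      (fun s hs => by
        have hs0 := lt_trans hr₀ hs.1
        have hvs := h.vpos s hs0.le
        have hv1 := h.vle s hs0.le
        have hz1 := h.zle s hs0.le
        have hz2 := h.zge s hs0.le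
        have hsp := h.sph s hs0.le
        have hps : p s = -(v s * y s) := by have := hPz s hs0; linarith
        have e : 2 * s * (1 - z s) + s ^ 2 * (-(-(y s * p s) / s))
            = s * (2 * (1 - z s) - v s * y s ^ 2) := by
          rw [hps]; field_simp; ring
        rw [e]
        apply mul_nonneg hs0.le
        have hy2 : y s ^ 2 = (1 - z s) * (1 + z s) := by linear_combination hsp
        rw [hy2]
        have a1 : 0 ≤ (1 - z s) * (1 + z s) := mul_nonneg (by linarith) (by linarith)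
        nlinarith [mul_le_mul_of_nonneg_right hv1 a1, mul_nonneg (by linarith : 0 ≤ 1 - z s)
          (by linarith : 0 ≤ 1 - z s)])
    have h2 := hz₀ r₀ hr₀.le le_rfl
    have h3 : r₀ ^ 2 ≤ r₀ ^ 2 * (1 - z r₀) := by nlinarith [sq_nonneg r₀]
    exact h3.trans h1
  -- v becomes negative
  set R := r₀ * Real.exp (2 / r₀ ^ 2) with hR
  have hRge : r₀ ≤ R := by
    have : 1 ≤ Real.exp (2 / r₀ ^ 2) := Real.one_le_exp (by positivity)
    nlinarith
  have hfin := dec (f := fun r => v r + r₀ ^ 2 * Real.log r)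
    (f' := fun r => r * b r + r₀ ^ 2 * r⁻¹) hRge
    (fun s hs => by
      have hs0 := lt_of_lt_of_le hr₀ hs.1
      exact ((h.hv s hs0).fun_add
        ((Real.hasDerivAt_log hs0.ne').const_mul _)).continuousAt.continuousWithinAt)
    (fun s hs => by
      have hs0 := lt_trans hr₀ hs.1
      exact (h.hv s hs0).fun_add ((Real.hasDerivAt_log hs0.ne').const_mul _))
    (fun s hs => by
      have hs0 := lt_trans hr₀ hs.1
      have h1 := hmono s hs.1.le
      have h2 := hQz s hs0
      have h3 : b s = -(1 - z s) := by linarith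
      rw [h3]
      have : r₀ ^ 2 * s⁻¹ ≤ s * (1 - z s) := by
        rw [← div_eq_mul_inv, div_le_iff₀ hs0]
        calc r₀ ^ 2 ≤ s ^ 2 * (1 - z s) := h1
          _ = _ := by ring
      linarith)
  rw [hR, Real.log_mul hr₀.ne' (Real.exp_pos _).ne', Real.log_exp] at hfin
  have h1 := h.vle r₀ hr₀.le
  have h2 := h.vpos (r₀ * Real.exp (2 / r₀ ^ 2)) (by positivity)
  have h3 : r₀ ^ 2 * (2 / r₀ ^ 2) = 2 := by field_simp
  nlinarith

end RadSol

end Run7.h887
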