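import Pool.Agent.Run7.h887.Rad1

/-! The radial system in degree one: shape of the solution when `Q(0) < 0`. -/

namespace Run7.h887

open Filter Topology Set
open scoped Real

/-- The data of a solution which overshoots: `y > 0` on `(0,ρ₁)`, `y < 0` on `(ρ₁,ρ₂)`. -/
structure Shape (y z p v b : ℝ → ℝ) (ρ₁ ρ₂ B : ℝ) : Prop where
  r1 : 0 < ρ₁
  r12 : ρ₁ < ρ₂
  B0 : 0 < B
  ypos : ∀ r, 0 < r → r < ρ₁ → 0 < y r
  y1 : y ρ₁ = 0
  z1 : z ρ₁ = 1
  p1 : p ρ₁ < 0
  b1 : b ρ₁ = -B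
  Pneg : ∀ r, 0 < r → r < ρ₁ → p r + v r * y r < 0
  Qge : ∀ r, 0 ≤ r → r ≤ ρ₁ → -B ≤ b r + (1 - z r)
  yneg : ∀ r, ρ₁ < r → r < ρ₂ → y r < 0
  y2 : y ρ₂ = 0
  z2 : z ρ₂ = -1
  Ptneg : ∀ r, ρ₁ ≤ r → r < ρ₂ → p r - v r * y r < 0
  Qtle : ∀ r, ρ₁ ≤ r → r ≤ ρ₂ → b r ≤ (1 - z r) - B

namespace RadSol

variable {y z p v b : ℝ → ℝ} (h : RadSol y z p v b)

include h

theorem small_yp : ∃ ρ₀ : ℝ, 0 < ρ₀ ∧ ∀ r, 0 < r → r ≤ ρ₀ → y r * p r < 0 := by
  have h1 : ∀ᶠ r in 𝓝[≥] (0 : ℝ), z r < 0 := by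
    have := (h.cz 0 (mem_Ici.2 le_rfl))
    rw [ContinuousWithinAt, h.z0] at this
    exact this.eventually (gt_mem_nhds (by norm_num))
  have h2 : ∀ᶠ r in 𝓝[≥] (0 : ℝ), v r ^ 2 * z r + r ^ 2 * (1 - z r) < 0 := by
    have hc : ContinuousOn (fun r => v r ^ 2 * z r + r ^ 2 * (1 - z r)) (Ici 0) := by
      have := h.cv
      have := h.cz
      fun_prop
    have := hc 0 (mem_Ici.2 le_rfl)
    rw [ContinuousWithinAt, h.z0, h.v0] at this
    exact this.eventually (gt_mem_nhds (by norm_num))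
  obtain ⟨c, hc, hsub⟩ := mem_nhdsGE_iff_exists_Icc_subset.1 (h1.and h2)
  refine ⟨c, hc, fun r hr hrc => ?_⟩
  have h3 := sdec (f := fun s => y s * p s)
    (f' := fun s => (z s * p s ^ 2 + (v s ^ 2 * z s + s ^ 2 * (1 - z s)) * y s ^ 2) / s) hr
    ((h.cy.mono fun s hs => hs.1).mul (h.cp.mono fun s hs => hs.1))
    (fun s hs => ((h.hy s hs.1).fun_mul (h.hp s hs.1)).congr_deriv (by ring))
    (fun s hs => by
      have hs0 : 0 < s := hs.1
      obtain ⟨a1, a2⟩ := hsub ⟨hs0.le, hs.2.le.trans hrc⟩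
      have a1' : z s < 0 := a1
      have a2' : v s ^ 2 * z s + s ^ 2 * (1 - z s) < 0 := a2
      apply div_neg_of_neg_of_pos _ hs0
      by_contra hcon
      push Not at hcon
      have b1 : z s * p s ^ 2 ≤ 0 := mul_nonpos_of_nonpos_of_nonneg a1'.le (sq_nonneg _)
      have b2 : (v s ^ 2 * z s + s ^ 2 * (1 - z s)) * y s ^ 2 ≤ 0 :=
        mul_nonpos_of_nonpos_of_nonneg a2'.le (sq_nonneg _)
      have b3 : z s * p s ^ 2 = 0 := by linarith
      have b4 : (v s ^ 2 * z s + s ^ 2 * (1 - z s)) * y s ^ 2 = 0 := by linarith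
      have b5 := (mul_eq_zero.1 b3).resolve_left a1'.ne
      have b6 := (mul_eq_zero.1 b4).resolve_left a2'.ne
      exact h.yp_ne s hs0 ⟨pow_eq_zero_iff two_ne_zero |>.1 b6,
        pow_eq_zero_iff two_ne_zero |>.1 b5⟩)
  simpa [h.y0] using h3

theorem cP : ContinuousOn (fun r => p r + v r * y r) (Ici 0) := by
  have := h.cp
  have := h.cv
  have := h.cy
  fun_prop

theorem cPt : ContinuousOn (fun r => p r - v r * y r) (Ici 0) := by
  have := h.cp
  have := h.cv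
  have := h.cy
  fun_prop

theorem cQt : ContinuousOn (fun r => b r - (1 - z r)) (Ici 0) := by
  have := h.cb
  have := h.cz
  fun_prop

/-- While `y > 0`: `P < 0` and `Q` decreases. -/
theorem PQ (hC : b 0 + (1 - z 0) < 0) {R : ℝ} (hy : ∀ r, 0 < r → r < R → 0 < y r) :
    (∀ r, 0 < r → r < R → p r + v r * y r < 0) ∧
    (∀ r, 0 < r → r < R → b r + (1 - z r) < b 0 + (1 - z 0)) := by
  have hP0 : p 0 + v 0 * y 0 = 0 := by rw [h.p0, h.y0]; ring
  obtain ⟨c, hc, hsub⟩ : ∃ c : ℝ, 0 < c ∧ ∀ r, 0 ≤ r → r ≤ c → z r < 0 ∧ b r + (1 - z r) < 0 := by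
    have h1 : ∀ᶠ r in 𝓝[≥] (0 : ℝ), z r < 0 := by
      have := (h.cz 0 (mem_Ici.2 le_rfl))
      rw [ContinuousWithinAt, h.z0] at this
      exact this.eventually (gt_mem_nhds (by norm_num))
    have h2 : ∀ᶠ r in 𝓝[≥] (0 : ℝ), b r + (1 - z r) < 0 := by
      have := h.cQ 0 (mem_Ici.2 le_rfl)
      exact (this : Tendsto _ _ _).eventually (gt_mem_nhds hC)
    obtain ⟨c, hc, hsub⟩ := mem_nhdsGE_iff_exists_Icc_subset.1 (h1.and h2)
    exact ⟨c, hc, fun r h3 h4 => hsub ⟨h3, h4⟩⟩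
  -- step (i)
  have step1 : ∀ r, 0 < r → r < R → r ≤ c → p r + v r * y r < 0 := by
    intro r hr hrR hrc
    by_contra hcon
    push Not at hcon
    obtain ⟨s, hs, hsmax⟩ := isCompact_Icc.exists_isMaxOn (nonempty_Icc.2 hr.le)
      (h.cP.mono (fun t ht => ht.1 : Icc 0 r ⊆ Ici 0))
    obtain ⟨t, ht0, htr, htP, htmax⟩ : ∃ t, 0 < t ∧ t ≤ r ∧ 0 ≤ p t + v t * y t ∧
        ∀ a, 0 < a → a < t → p a + v a * y a ≤ p t + v t * y t := by
      rcases hs.1.eq_or_lt with h0 | h0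
      · refine ⟨r, hr, le_rfl, hcon, fun a ha har => ?_⟩
        have h1 : p a + v a * y a ≤ p s + v s * y s := hsmax ⟨ha.le, har.le⟩
        rw [← h0, hP0] at h1
        linarith
      · refine ⟨s, h0, hs.2, ?_, fun a ha has => hsmax ⟨ha.le, has.le.trans hs.2⟩⟩
        have h1 : p r + v r * y r ≤ p s + v s * y s := hsmax ⟨hr.le, le_rfl⟩
        linarith
    have h1 := left_deriv' ht0 (h.hP t ht0) htmax
    obtain ⟨a1, a2⟩ := hsub t ht0.le (htr.trans hrc)
    have a3 := hy t ht0 (lt_of_le_of_lt htr hrR)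
    have a4 := h.vpos t ht0.le
    have a5 : v t * z t * (p t + v t * y t) ≤ 0 :=
      mul_nonpos_of_nonpos_of_nonneg (mul_nonpos_of_nonneg_of_nonpos a4.le a1.le) htP
    have a6 : t ^ 2 * y t * (b t + (1 - z t)) < 0 := mul_neg_of_pos_of_neg (by positivity) a2
    have a7 := div_neg_of_neg_of_pos (by linarith : v t * z t * (p t + v t * y t)
      + t ^ 2 * y t * (b t + (1 - z t)) < 0) ht0
    linarith
  have hQdec : ∀ r, 0 < r → r ≤ R → (∀ s, 0 < s → s < r → p s + v s * y s < 0) →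
      b r + (1 - z r) < b 0 + (1 - z 0) := by
    intro r hr hrR hP
    exact sdec (f := fun r => b r + (1 - z r)) (f' := fun r => y r * (p r + v r * y r) / r) hr
      (h.cQ.mono fun t ht => ht.1) (fun t ht => h.hQ t ht.1)
      (fun t ht => div_neg_of_neg_of_pos
        (mul_neg_of_pos_of_neg (hy t ht.1 (lt_of_lt_of_le ht.2 hrR)) (hP t ht.1 ht.2)) ht.1)
  have hPall : ∀ r, 0 < r → r < R → p r + v r * y r < 0 := by
    intro r hr hrR
    by_contra hcon
    push Not at hcon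
    have hs0 : 0 < min c r := lt_min hc hr
    have hsr : min c r ≤ r := min_le_right _ _
    have hsc : min c r ≤ c := min_le_left _ _
    obtain ⟨t, ht1, ht2, ht3, ht4⟩ := first_zero (f := fun r => -(p r + v r * y r)) hsr
      ((h.cP.mono fun t ht => (hs0.le.trans ht.1 : (0 : ℝ) ≤ t)).neg)
      (by have := step1 _ hs0 (lt_of_le_of_lt hsr hrR) hsc; linarith) (by linarith)
    have ht0 := hs0.trans ht1
    have hneg : ∀ a, 0 < a → a < t → p a + v a * y a < 0 := by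
      intro a ha hat
      rcases le_total a (min c r) with h1 | h1
      · exact step1 a ha (lt_of_lt_of_le hat ht2 |>.trans hrR) (h1.trans hsc)
      · have := ht4 a h1 hat; linarith
    have hPt : p t + v t * y t = 0 := by linarith
    have h1 := left_deriv' ht0 (h.hP t ht0) (fun a ha hat => by
      rw [hPt]; exact (hneg a ha hat).le)
    have h2 := hQdec t ht0 (ht2.trans hrR.le) hneg
    have a3 := hy t ht0 (lt_of_le_of_lt ht2 hrR)
    rw [hPt, mul_zero, zero_add] at h1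
    have a6 : t ^ 2 * y t * (b t + (1 - z t)) < 0 :=
      mul_neg_of_pos_of_neg (by positivity) (by linarith)
    have a7 := div_neg_of_neg_of_pos a6 ht0
    linarith
  exact ⟨hPall, fun r hr hrR => hQdec r hr hrR.le fun s hs hsr => hPall s hs (hsr.trans hrR)⟩

theorem shape (hC : b 0 + (1 - z 0) < 0) {ρ₀ : ℝ} (hρ₀ : 0 < ρ₀)
    (hy₀ : ∀ r, 0 < r → r ≤ ρ₀ → 0 < y r) :
    ∃ ρ₁ ρ₂ B : ℝ, Shape y z p v b ρ₁ ρ₂ B := by
  -- y becomes nonpositive
  obtain ⟨R, hR0, hR⟩ : ∃ R, 0 < R ∧ y R ≤ 0 := by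
    by_contra hcon
    push Not at hcon
    set q := b 0 + (1 - z 0) with hq
    have hq2 : 0 < q ^ 2 / 2 := by
      have := mul_pos_of_neg_of_neg hC hC
      nlinarith
    obtain ⟨r, h1, h2, h3⟩ := h.fin (q ^ 2 / 2) hq2 1
    have h4 := (h.PQ hC (R := r + 1) (fun s hs _ => hcon s hs)).2 r h2 (by linarith)
    have h5 := h.zle r h2.le
    have h6 : b r < q := by linarith
    have h7 : q ^ 2 < b r ^ 2 := by nlinarith
    have h8 : b r ^ 2 ≤ r ^ 2 * b r ^ 2 := by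
      have : 1 ≤ r ^ 2 := by nlinarith
      nlinarith [sq_nonneg (b r)]
    have h9 : 0 ≤ p r ^ 2 + v r ^ 2 * y r ^ 2 + r ^ 2 * (1 - z r) ^ 2 := by positivity
    linarith
  have hρR : ρ₀ ≤ R := by
    by_contra hcon
    push Not at hcon
    have := hy₀ R hR0 hcon.le
    linarith
  obtain ⟨ρ₁, h01, _, hy1, hypos'⟩ := first_zero (f := y) hρR
    (h.cy.mono fun t ht => (hρ₀.le.trans ht.1 : (0 : ℝ) ≤ t)) (hy₀ ρ₀ hρ₀ le_rfl) hR
  have hρ₁ : 0 < ρ₁ := hρ₀.trans h01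
  have hypos : ∀ r, 0 < r → r < ρ₁ → 0 < y r := by
    intro r hr hr1
    rcases le_total r ρ₀ with h1 | h1
    · exact hy₀ r hr h1
    · exact hypos' r h1 hr1
  obtain ⟨hP, hQlt⟩ := h.PQ hC hypos
  have hpneg : ∀ r, 0 < r → r < ρ₁ → p r < 0 := by
    intro r hr hr1
    have := hP r hr hr1
    have h2 := mul_pos (h.vpos r hr.le) (hypos r hr hr1)
    linarith
  have hz1' : z 0 < z ρ₁ := sinc (f' := fun r => -(y r * p r) / r) hρ₁
    (h.cz.mono fun t ht => ht.1) (fun t ht => h.hz t ht.1) (fun t ht => by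
      apply div_pos _ ht.1
      have := mul_neg_of_pos_of_neg (hypos t ht.1 ht.2) (hpneg t ht.1 ht.2)
      linarith)
  have hz1 : z ρ₁ = 1 := by
    have h1 := h.sph ρ₁ hρ₁.le
    rw [hy1] at h1
    rw [h.z0] at hz1'
    have h2 : (z ρ₁ - 1) * (z ρ₁ + 1) = 0 := by linear_combination h1
    rcases mul_eq_zero.1 h2 with h3 | h3
    · linarith
    · linarith
  have hp1 : p ρ₁ < 0 := by
    have hne : p ρ₁ ≠ 0 := fun h1 => h.yp_ne ρ₁ hρ₁ ⟨hy1, h1⟩
    by_contra hcon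
    push Not at hcon
    have hpos : 0 < p ρ₁ := lt_of_le_of_ne hcon (Ne.symm hne)
    obtain ⟨t, ht1, ht2, ht3, _⟩ := first_zero (f := fun r => -(p r + v r * y r)) h01.le
      ((h.cP.mono fun t ht => (hρ₀.le.trans ht.1 : (0 : ℝ) ≤ t)).neg)
      (by have := hP ρ₀ hρ₀ h01; linarith) (by rw [hy1]; linarith)
    rcases ht2.eq_or_lt with h1 | h1
    · rw [h1, hy1] at ht3
      linarith
    · have := hP t (hρ₀.trans ht1) h1
      linarith
  have hQ1 : b ρ₁ + (1 - z ρ₁) < b 0 + (1 - z 0) :=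
    sdec (f := fun r => b r + (1 - z r)) (f' := fun r => y r * (p r + v r * y r) / r) hρ₁
      (h.cQ.mono fun t ht => ht.1) (fun t ht => h.hQ t ht.1)
      (fun t ht => div_neg_of_neg_of_pos
        (mul_neg_of_pos_of_neg (hypos t ht.1 ht.2) (hP t ht.1 ht.2)) ht.1)
  have hQge : ∀ r, 0 ≤ r → r ≤ ρ₁ → b ρ₁ + (1 - z ρ₁) ≤ b r + (1 - z r) := by
    intro r hr hr1
    exact dec (f := fun r => b r + (1 - z r)) (f' := fun r => y r * (p r + v r * y r) / r) hr1
      (h.cQ.mono fun t ht => hr.trans ht.1) (fun t ht => h.hQ t (lt_of_le_of_lt hr ht.1))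
      (fun t ht => (div_neg_of_neg_of_pos
        (mul_neg_of_pos_of_neg (hypos t (lt_of_le_of_lt hr ht.1) ht.2)
          (hP t (lt_of_le_of_lt hr ht.1) ht.2)) (lt_of_le_of_lt hr ht.1)).le)
  have hb1 : b ρ₁ < 0 := h.bneg ρ₁ hρ₁
  -- after ρ₁
  have hyd := h.hy ρ₁ hρ₁
  obtain ⟨c, hc1, hc2⟩ := neg_after hyd hy1 (by
    rw [hz1, one_mul]; exact div_neg_of_neg_of_pos hp1 hρ₁)
  have hPt : ∀ R, ρ₁ < R → (∀ r, ρ₁ < r → r < R → y r < 0) →
      ∀ r, ρ₁ ≤ r → r < R → p r - v r * y r < 0 := by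
    intro R hR hyR r hr1 hrR
    by_contra hcon
    push Not at hcon
    obtain ⟨t, ht1, ht2, ht3, ht4⟩ := first_zero (f := fun r => -(p r - v r * y r)) hr1
      ((h.cPt.mono fun t ht => (hρ₁.le.trans ht.1 : (0 : ℝ) ≤ t)).neg)
      (by rw [hy1]; linarith) (by linarith)
    have ht0 := hρ₁.trans ht1
    have hPt0 : p t - v t * y t = 0 := by linarith
    have h1 := left_deriv' ht1 (h.hPt t ht0) (fun a ha hat => by
      have := ht4 a ha.le hat
      rw [hPt0]; linarith)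
    have a1 := hyR t ht1 (lt_of_le_of_lt ht2 hrR)
    have a2 := h.bneg t ht0
    have a3 := h.zle t ht0.le
    rw [hPt0, mul_zero, neg_zero, zero_sub] at h1
    have a4 : 0 < t ^ 2 * y t * (b t - (1 - z t)) := by
      have : t ^ 2 * y t < 0 := mul_neg_of_pos_of_neg (by positivity) a1
      exact mul_pos_of_neg_of_neg this (by linarith)
    have a7 := div_neg_of_neg_of_pos (by linarith : -(t ^ 2 * y t * (b t - (1 - z t))) < 0) ht0
    linarith
  have hzdec : ∀ R, ρ₁ < R → (∀ r, ρ₁ < r → r < R → y r < 0) →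
      ∀ s t, ρ₁ ≤ s → s < t → t ≤ R → z t < z s := by
    intro R hR hyR s t hs hst htR
    exact sdec (f' := fun r => -(y r * p r) / r) hst
      (h.cz.mono fun a ha => (hρ₁.le.trans hs).trans ha.1)
      (fun a ha => h.hz a (lt_of_lt_of_le hρ₁ (hs.trans ha.1.le)))
      (fun a ha => by
        have ha0 : 0 < a := lt_of_lt_of_le hρ₁ (hs.trans ha.1.le)
        have ha1 : ρ₁ < a := lt_of_le_of_lt hs ha.1
        have haR : a < R := lt_of_lt_of_le ha.2 htR
        have b1 := hyR a ha1 haR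
        have b2 := hPt R hR hyR a ha1.le haR
        have b3 := h.vpos a ha0.le
        have b4 : v a * y a < 0 := mul_neg_of_pos_of_neg b3 b1
        have b5 : p a < 0 := by linarith
        have b6 := mul_pos_of_neg_of_neg b1 b5
        exact div_neg_of_neg_of_pos (by linarith) ha0)
  obtain ⟨R₂, hR₂1, hR₂⟩ : ∃ R₂, ρ₁ < R₂ ∧ 0 ≤ y R₂ := by
    by_contra hcon
    push Not at hcon
    have hzc : z c < 1 := by
      have := hzdec (c + 1) (by linarith) (fun r h1 _ => hcon r h1) ρ₁ c le_rfl hc1 (by linarith)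
      rw [hz1] at this; exact this
    have hle : ∀ᶠ r in atTop, z r ≤ z c := by
      filter_upwards [eventually_gt_atTop c] with r hr
      exact (hzdec (r + 1) (by linarith) (fun s h1 _ => hcon s h1) c r hc1.le hr
        (by linarith)).le
    have := le_of_tendsto h.zlim hle
    linarith
  have hcR : c ≤ R₂ := by
    by_contra hcon
    push Not at hcon
    have := hc2 R₂ hR₂1 hcon.le
    linarith
  obtain ⟨ρ₂, h12, _, hy2, hyneg'⟩ := first_zero (f := fun r => -y r) hcR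
    ((h.cy.mono fun t ht => ((hρ₁.le.trans hc1.le).trans ht.1 : (0 : ℝ) ≤ t)).neg)
    (by have := hc2 c hc1 le_rfl; linarith) (by linarith)
  have hρ12 : ρ₁ < ρ₂ := hc1.trans h12
  have hyneg : ∀ r, ρ₁ < r → r < ρ₂ → y r < 0 := by
    intro r hr hr2
    rcases le_total r c with h1 | h1
    · exact hc2 r hr h1
    · have := hyneg' r h1 hr2; linarith
  have hPt' := hPt ρ₂ hρ12 hyneg
  have hy2' : y ρ₂ = 0 := by linarith
  have hz2 : z ρ₂ = -1 := by
    have h1 := h.sph ρ₂ (hρ₁.trans hρ12).le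
    rw [hy2'] at h1
    have h3 := hzdec ρ₂ hρ12 hyneg ρ₁ ρ₂ le_rfl hρ12 le_rfl
    rw [hz1] at h3
    have h2 : (z ρ₂ - 1) * (z ρ₂ + 1) = 0 := by linear_combination h1
    rcases mul_eq_zero.1 h2 with h4 | h4
    · linarith
    · linarith
  refine ⟨ρ₁, ρ₂, -b ρ₁, hρ₁, hρ12, by linarith, hypos, hy1, hz1, hp1, by ring, hP, ?_, hyneg,
    hy2', hz2, hPt', ?_⟩
  · intro r h1 h2
    have := hQge r h1 h2
    rw [hz1] at this
    linarith
  · intro r h1 h2
    have h3 := dec (f := fun r => b r - (1 - z r)) (f' := fun r => -(y r * (p r - v r * y r)) / r)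
      h1 (h.cQt.mono fun a ha => hρ₁.le.trans ha.1)
      (fun a ha => h.hQt a (hρ₁.trans ha.1))
      (fun a ha => by
        have ha0 := hρ₁.trans ha.1
        have b1 := hyneg a ha.1 (lt_of_lt_of_le ha.2 h2)
        have b2 := hPt' a ha.1.le (lt_of_lt_of_le ha.2 h2)
        have b3 := mul_pos_of_neg_of_neg b1 b2
        exact (div_neg_of_neg_of_pos (by linarith) ha0).le)
    simp only [hz1] at h3
    linarith

end RadSol

end Run7.h887
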