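import Pool.Agent.Run7.h887.Rad2

/-! The radial system in degree one: angle function, the function `J` and first estimates. -/

namespace Run7.h887

open Filter Topology Set MeasureTheory
open scoped Real

theorem hlogd (s : ℝ) (hs : 0 < s) : HasDerivAt Real.log (1 / s) s := by
  rw [one_div]; exact Real.hasDerivAt_log hs.ne'

theorem hsqd (s : ℝ) : HasDerivAt (fun r : ℝ => r ^ 2) (2 * s) s := by
  simpa using hasDerivAt_pow 2 s

theorem hcubed (s : ℝ) : HasDerivAt (fun r : ℝ => r ^ 3) (3 * s ^ 2) s := by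
  simpa using hasDerivAt_pow 3 s

theorem hexpd (s k : ℝ) : HasDerivAt (fun r : ℝ => Real.exp (k * r ^ 2))
    (2 * k * s * Real.exp (k * s ^ 2)) s :=
  (((hsqd s).const_mul k).exp).congr_deriv (by ring)

namespace RadSol

variable {y z p v b : ℝ → ℝ} (h : RadSol y z p v b)

include h

/-- Continuity away from the origin. -/
theorem contP : ContinuousOn (fun s => p s / s) (Ioi 0) :=
  (h.cp.mono Ioi_subset_Ici_self).div continuousOn_id fun _ hs => ne_of_gt hs

/-- The angle function. -/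
theorem angle {ρ : ℝ} (hρ : 0 < ρ) (hy : y ρ = 0) (hz : z ρ = 1) :
    ∃ f : ℝ → ℝ, (∀ r, 0 < r → HasDerivAt f (p r / r) r) ∧ f ρ = 0 ∧
      ∀ r, 0 < r → y r = Real.sin (f r) ∧ z r = Real.cos (f r) := by
  set f : ℝ → ℝ := fun r => ∫ s in ρ..r, p s / s with hf
  have hd : ∀ r, 0 < r → HasDerivAt f (p r / r) r := by
    intro r hr
    apply intervalIntegral.integral_hasDerivAt_right
    · apply ContinuousOn.intervalIntegrable
      apply h.contP.mono
      intro s hs
      exact lt_of_lt_of_le (lt_min hρ hr) hs.1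
    · exact h.contP.stronglyMeasurableAtFilter isOpen_Ioi r hr
    · exact (h.contP.continuousAt (Ioi_mem_nhds hr))
  have hf0 : f ρ = 0 := by simp [hf]
  refine ⟨f, hd, hf0, fun r hr => ?_⟩
  have hcd : ∀ s, 0 < s → HasDerivAt (fun s => y s * Real.sin (f s) + z s * Real.cos (f s)) 0 s := by
    intro s hs
    refine (((h.hy s hs).fun_mul (hd s hs).sin).fun_add
      ((h.hz s hs).fun_mul (hd s hs).cos)).congr_deriv ?_
    ring
  have hc1 : y r * Real.sin (f r) + z r * Real.cos (f r) = 1 := by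
    have h0 : y ρ * Real.sin (f ρ) + z ρ * Real.cos (f ρ) = 1 := by
      rw [hy, hz, hf0]; simp
    rcases le_total ρ r with hle | hle
    · have a1 := dec hle (fun s hs => (hcd s (lt_of_lt_of_le hρ hs.1)).continuousAt.continuousWithinAt)
        (fun s hs => hcd s (hρ.trans hs.1)) (fun s hs => le_rfl)
      have a2 := inc hle (fun s hs => (hcd s (lt_of_lt_of_le hρ hs.1)).continuousAt.continuousWithinAt)
        (fun s hs => hcd s (hρ.trans hs.1)) (fun s hs => le_rfl)
      linarith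
    · have a1 := dec hle (fun s hs => (hcd s (lt_of_lt_of_le hr hs.1)).continuousAt.continuousWithinAt)
        (fun s hs => hcd s (hr.trans hs.1)) (fun s hs => le_rfl)
      have a2 := inc hle (fun s hs => (hcd s (lt_of_lt_of_le hr hs.1)).continuousAt.continuousWithinAt)
        (fun s hs => hcd s (hr.trans hs.1)) (fun s hs => le_rfl)
      linarith
  have hs := h.sph r hr.le
  have ht := Real.sin_sq_add_cos_sq (f r)
  have hsq : (y r - Real.sin (f r)) ^ 2 + (z r - Real.cos (f r)) ^ 2 = 0 := by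
    linear_combination hs + ht - 2 * hc1
  have q1 := sq_nonneg (y r - Real.sin (f r))
  have q2 := sq_nonneg (z r - Real.cos (f r))
  constructor
  · have : (y r - Real.sin (f r)) ^ 2 = 0 := by linarith
    have := pow_eq_zero_iff two_ne_zero |>.1 this
    linarith
  · have : (z r - Real.cos (f r)) ^ 2 = 0 := by linarith
    have := pow_eq_zero_iff two_ne_zero |>.1 this
    linarith

/-- The function `J(r) = ∫₀ʳ 2 s u²`. -/
theorem exJ : ∃ J : ℝ → ℝ, Continuous J ∧ J 0 = 0 ∧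
    (∀ r, 0 < r → HasDerivAt J (2 * r * (1 - z r) ^ 2) r) := by
  have hzz : Continuous (fun s : ℝ => z (max s 0)) :=
    h.cz.comp_continuous (by fun_prop) fun s => mem_Ici.2 (le_max_right _ _)
  have hc : Continuous (fun s : ℝ => 2 * s * (1 - z (max s 0)) ^ 2) :=
    (continuous_const.mul continuous_id).mul ((continuous_const.sub hzz).pow 2)
  refine ⟨fun r => ∫ s in (0 : ℝ)..r, 2 * s * (1 - z (max s 0)) ^ 2, ?_, by simp, ?_⟩
  · exact continuous_iff_continuousAt.2 fun r =>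
      (hc.integral_hasStrictDerivAt 0 r).hasDerivAt.continuousAt
  · intro r hr
    have := (hc.integral_hasStrictDerivAt 0 r).hasDerivAt
    rwa [max_eq_left hr.le] at this

section J

variable {J : ℝ → ℝ} (hJc : Continuous J) (hJ0 : J 0 = 0)
  (hJd : ∀ r, 0 < r → HasDerivAt J (2 * r * (1 - z r) ^ 2) r)

include hJc hJd

omit h in
theorem Jmono (s t : ℝ) (hs : 0 ≤ s) (hst : s ≤ t) : J s ≤ J t :=
  inc hst hJc.continuousOn (fun r hr => hJd r (lt_of_le_of_lt hs hr.1)) fun r hr => by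
    have := lt_of_le_of_lt hs hr.1
    positivity

include hJ0

omit h in
theorem Jnn (r : ℝ) (hr : 0 ≤ r) : 0 ≤ J r := by
  rw [← hJ0]; exact Jmono hJc hJd 0 r le_rfl hr

theorem JW (r : ℝ) (hr : 0 ≤ r) :
    p r ^ 2 + v r ^ 2 * z r ^ 2 + J r ≤ 1 + r ^ 2 * (1 - z r) ^ 2 := by
  have h1 := dec (f := fun s => p s ^ 2 - v s ^ 2 * y s ^ 2 - s ^ 2 * (1 - z s) ^ 2
      + v s ^ 2 + J s)
    (f' := fun s => 2 * v s * s * b s * z s ^ 2) hr
    (by
      have h1 := h.cp.mono (fun s hs => hs.1 : Icc 0 r ⊆ Ici 0)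
      have h2 := h.cv.mono (fun s hs => hs.1 : Icc 0 r ⊆ Ici 0)
      have h3 := h.cy.mono (fun s hs => hs.1 : Icc 0 r ⊆ Ici 0)
      have h5 := h.cz.mono (fun s hs => hs.1 : Icc 0 r ⊆ Ici 0)
      have h6 := hJc.continuousOn (s := Icc 0 r)
      fun_prop)
    (fun s hs => by
      have hs0 : 0 < s := hs.1
      have a1 := (h.hp s hs0).fun_pow 2
      have a2 := ((h.hv s hs0).fun_pow 2).fun_mul ((h.hy s hs0).fun_pow 2)
      have a3 := (hasDerivAt_pow 2 s).fun_mul (((h.hz s hs0).const_sub 1).fun_pow 2)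
      have a4 := (h.hv s hs0).fun_pow 2
      have a5 := hJd s hs0
      have hsp := h.sph s hs0.le
      have hz2 : z s ^ 2 = 1 - y s ^ 2 := by linarith
      refine ((((a1.fun_sub a2).fun_sub a3).fun_add a4).fun_add a5).congr_deriv ?_
      rw [hz2]
      push_cast
      field_simp
      ring)
    (fun s hs => by
      have hs0 : 0 < s := hs.1
      have a1 := h.vb_neg s hs0
      have e : 2 * v s * s * b s * z s ^ 2 = 2 * s * z s ^ 2 * (v s * b s) := by ring
      rw [e]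
      exact mul_nonpos_of_nonneg_of_nonpos (by positivity) a1.le)
  simp only [h.p0, h.y0, h.v0, hJ0] at h1
  have hsp := h.sph r hr
  have e : v r ^ 2 * z r ^ 2 = v r ^ 2 - v r ^ 2 * y r ^ 2 := by
    linear_combination v r ^ 2 * hsp
  rw [e]; linarith

theorem Jle (r : ℝ) (hr : 0 ≤ r) : J r ≤ 1 := by
  apply le_of_forall_pos_le_add
  intro ε hε
  obtain ⟨t, ht1, ht2, ht3⟩ := h.fin ε hε r
  have h1 := Jmono hJc hJd r t hr ht1
  have h2 := h.JW hJc hJ0 hJd t ht2.le
  have q1 := sq_nonneg (p t)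
  have q2 := mul_nonneg (sq_nonneg (v t)) (sq_nonneg (z t))
  have q3 := mul_nonneg (sq_nonneg (v t)) (sq_nonneg (y t))
  have q4 := mul_nonneg (sq_nonneg t) (sq_nonneg (b t))
  linarith

/-- `-p ≤ 5/4 + r²`. -/
theorem pS5 (r : ℝ) (hr : 0 ≤ r) : -p r ≤ 5 / 4 + r ^ 2 := by
  have h1 := h.JW hJc hJ0 hJd r hr
  have h2 := Jnn hJc hJ0 hJd r hr
  have h3 := h.zle r hr
  have h4 := h.zge r hr
  have h5 : (1 - z r) ^ 2 ≤ 4 := by nlinarith
  have h7 : r ^ 2 * (1 - z r) ^ 2 ≤ r ^ 2 * 4 := mul_le_mul_of_nonneg_left h5 (sq_nonneg r)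
  have q1 := sq_nonneg (r ^ 2 - 3 / 4)
  have q2 := mul_nonneg (sq_nonneg (v r)) (sq_nonneg (z r))
  have h6 : (-p r) ^ 2 ≤ (5 / 4 + r ^ 2) ^ 2 := by
    have e1 : (-p r) ^ 2 = p r ^ 2 := by ring
    have e2 : (5 / 4 + r ^ 2) ^ 2 = 1 + 4 * r ^ 2 + (r ^ 2 - 3 / 4) ^ 2 := by ring
    rw [e1, e2]; linarith
  exact abs_le_of_sq_le_sq' h6 (by positivity) |>.2

/-- `-p ≤ 7/6` where `u ≤ 1` and `r² ≤ 1/3`. -/
theorem pS7 (r : ℝ) (hr : 0 ≤ r) (hr3 : r ^ 2 ≤ 1 / 3) (hz : 0 ≤ z r) : -p r ≤ 7 / 6 := by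
  have h1 := h.JW hJc hJ0 hJd r hr
  have h2 := Jnn hJc hJ0 hJd r hr
  have h3 := h.zle r hr
  have h5 : (1 - z r) ^ 2 ≤ 1 := by nlinarith
  have h8 : r ^ 2 * (1 - z r) ^ 2 ≤ 1 / 3 * 1 :=
    mul_le_mul hr3 h5 (sq_nonneg _) (by norm_num)
  have q2 := mul_nonneg (sq_nonneg (v r)) (sq_nonneg (z r))
  have h9 : (-p r) ^ 2 ≤ (7 / 6) ^ 2 := by
    have e1 : (-p r) ^ 2 = p r ^ 2 := by ring
    rw [e1]; norm_num; linarith
  exact abs_le_of_sq_le_sq' h9 (by norm_num) |>.2

end J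

end RadSol

/-- Midpoints. -/
structure Mid (y z : ℝ → ℝ) (ρ₁ ρ₂ ρa ρb : ℝ) : Prop where
  a0 : 0 < ρa
  a1 : ρa < ρ₁
  za : z ρa = 0
  ya : y ρa = 1
  b1 : ρ₁ < ρb
  b2 : ρb < ρ₂
  zb : z ρb = 0
  yb : y ρb = -1

namespace Shape

variable {y z p v b : ℝ → ℝ} {ρ₁ ρ₂ B ρa ρb : ℝ} (g : Shape y z p v b ρ₁ ρ₂ B)
  (h : RadSol y z p v b)

include g h

theorem pneg1 (r : ℝ) (h0 : 0 < r) (h1 : r < ρ₁) : p r < 0 := by
  have := g.Pneg r h0 h1
  have h2 := mul_pos (h.vpos r h0.le) (g.ypos r h0 h1)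
  linarith

theorem pneg2 (r : ℝ) (h0 : ρ₁ ≤ r) (h1 : r < ρ₂) : p r < 0 := by
  rcases h0.eq_or_lt with h2 | h2
  · rw [← h2]; exact g.p1
  · have h3 := g.Ptneg r h0 h1
    have h4 := mul_neg_of_pos_of_neg (h.vpos r (g.r1.le.trans h0)) (g.yneg r h2 h1)
    linarith

theorem zmono (s t : ℝ) (hs : 0 ≤ s) (hst : s ≤ t) (ht : t ≤ ρ₁) : z s ≤ z t := by
  refine inc (f' := fun r => -(y r * p r) / r) hst (h.cz.mono fun a ha => hs.trans ha.1)
    (fun a ha => h.hz a (lt_of_le_of_lt hs ha.1)) fun a ha => ?_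
  have ha0 := lt_of_le_of_lt hs ha.1
  have ha1 := lt_of_lt_of_le ha.2 ht
  have := mul_neg_of_pos_of_neg (g.ypos a ha0 ha1) (g.pneg1 h a ha0 ha1)
  exact div_nonneg (by linarith) ha0.le

theorem zanti (s t : ℝ) (hs : ρ₁ ≤ s) (hst : s ≤ t) (ht : t ≤ ρ₂) : z t ≤ z s := by
  refine dec (f' := fun r => -(y r * p r) / r) hst
    (h.cz.mono fun a ha => (g.r1.le.trans hs).trans ha.1)
    (fun a ha => h.hz a (lt_of_lt_of_le g.r1 (hs.trans ha.1.le))) fun a ha => ?_
  have ha0 := lt_of_lt_of_le g.r1 (hs.trans ha.1.le)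
  have ha1 : ρ₁ < a := lt_of_le_of_lt hs ha.1
  have ha2 := lt_of_lt_of_le ha.2 ht
  have := mul_pos_of_neg_of_neg (g.yneg a ha1 ha2) (g.pneg2 h a ha1.le ha2)
  exact div_nonpos_of_nonpos_of_nonneg (by linarith) ha0.le

theorem mids : ∃ ρa ρb : ℝ, Mid y z ρ₁ ρ₂ ρa ρb := by
  have r1 := g.r1
  obtain ⟨ρa, ha0, ha1, hza, _⟩ := first_zero (f := fun r => -z r) r1.le
    ((h.cz.mono fun a ha => ha.1).neg) (by simp [h.z0]) (by rw [g.z1]; norm_num)
  have hza' : z ρa = 0 := by linarith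
  have ha1' : ρa < ρ₁ := lt_of_le_of_ne ha1 (by rintro rfl; rw [g.z1] at hza'; norm_num at hza')
  have hya : y ρa = 1 := by
    have h1 := h.sph ρa ha0.le
    have h2 := g.ypos ρa ha0 ha1'
    rw [hza'] at h1
    nlinarith
  obtain ⟨ρb, hb1, hb2, hzb, _⟩ := first_zero (f := z) g.r12.le
    (h.cz.mono fun a ha => r1.le.trans ha.1) (by rw [g.z1]; norm_num) (by rw [g.z2]; norm_num)
  have hb2' : ρb < ρ₂ := lt_of_le_of_ne hb2 (by rintro rfl; rw [g.z2] at hzb; norm_num at hzb)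
  have hb0 : 0 < ρb := r1.trans hb1
  have hyb : y ρb = -1 := by
    have h1 := h.sph ρb hb0.le
    have h2 := g.yneg ρb hb1 hb2'
    rw [hzb] at h1
    nlinarith
  exact ⟨ρa, ρb, ha0, ha1', hza', hya, hb1, hb2', hzb, hyb⟩

variable (m : Mid y z ρ₁ ρ₂ ρa ρb)

include m

theorem angles : ∃ f : ℝ → ℝ, (∀ r, 0 < r → HasDerivAt f (p r / r) r) ∧ f ρ₁ = 0 ∧
    π / 2 ≤ f ρa ∧ f ρb ≤ -(π / 2) ∧ -(π / 2) ≤ f ρb ∧ f ρ₂ ≤ -π := by
  have hpi' := Real.pi_pos
  have r1 := g.r1
  have r12 := g.r12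
  have r2 : 0 < ρ₂ := r1.trans r12
  have ha0 := m.a0
  have ha1' := m.a1
  have hb1 := m.b1
  have hb2' := m.b2
  have hb0 : 0 < ρb := r1.trans hb1
  obtain ⟨f, hfd, hf0, hfsc⟩ := h.angle r1 g.y1 g.z1
  have hfc : ∀ s t : ℝ, 0 < s → ContinuousOn f (Icc s t) := fun s t hs r hr =>
    (hfd r (lt_of_lt_of_le hs hr.1)).continuousAt.continuousWithinAt
  have hfa : π / 2 ≤ f ρa := by
    have h1 : f ρ₁ < f ρa := sdec ha1' (hfc ρa ρ₁ ha0) (fun r hr => hfd r (ha0.trans hr.1))
      (fun r hr => div_neg_of_neg_of_pos (g.pneg1 h r (ha0.trans hr.1) hr.2) (ha0.trans hr.1))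
    rw [hf0] at h1
    by_contra hcon
    push Not at hcon
    have := Real.cos_pos_of_mem_Ioo (x := f ρa) ⟨by linarith, hcon⟩
    rw [← (hfsc ρa ha0).2, m.za] at this
    exact lt_irrefl _ this
  have hfneg : ∀ r, ρ₁ < r → r ≤ ρ₂ → f r < 0 := by
    intro r hr1 hr2
    have h1 : f r < f ρ₁ := sdec hr1 (hfc ρ₁ r r1) (fun s hs => hfd s (r1.trans hs.1))
      (fun s hs => div_neg_of_neg_of_pos (g.pneg2 h s hs.1.le (lt_of_lt_of_le hs.2 hr2))
        (r1.trans hs.1))
    rw [hf0] at h1; exact h1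
  have hfb : f ρb ≤ -(π / 2) := by
    by_contra hcon
    push Not at hcon
    have := Real.cos_pos_of_mem_Ioo (x := f ρb) ⟨hcon, by
      have := hfneg ρb hb1 hb2'.le; linarith⟩
    rw [← (hfsc ρb hb0).2, m.zb] at this
    exact lt_irrefl _ this
  have hfgt : ∀ r, ρ₁ < r → r < ρ₂ → -π < f r := by
    intro r hr1 hr2
    by_contra hcon
    push Not at hcon
    obtain ⟨c, hc1, hc2, hc3, _⟩ := first_zero (f := fun s => f s + π) hr1.le
      ((hfc ρ₁ r r1).add continuousOn_const) (by rw [hf0]; linarith) (by linarith)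
    have hc3' : f c = -π := by linarith
    have h1 := (hfsc c (r1.trans hc1)).1
    rw [hc3', Real.sin_neg, Real.sin_pi, neg_zero] at h1
    have h2 := g.yneg c hc1 (lt_of_le_of_lt hc2 hr2)
    linarith
  have hfb' : -(π / 2) ≤ f ρb := by
    by_contra hcon
    push Not at hcon
    have h1 := hfgt ρb hb1 hb2'
    have := Real.cos_neg_of_pi_div_two_lt_of_lt (x := -f ρb) (by linarith) (by linarith)
    rw [Real.cos_neg, ← (hfsc ρb hb0).2, m.zb] at this
    exact lt_irrefl _ this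
  have hf2 : f ρ₂ ≤ -π := by
    by_contra hcon
    push Not at hcon
    have := Real.sin_neg_of_neg_of_neg_pi_lt (hfneg ρ₂ r12 le_rfl) hcon
    rw [← (hfsc ρ₂ r2).1, g.y2] at this
    exact lt_irrefl _ this
  exact ⟨f, hfd, hf0, hfa, hfb, hfb', hf2⟩

/-- Bounds for `ρb`, `ρ₁` and `B`. -/
theorem bounds : ρb ^ 2 ≤ 1 / 3 ∧ 7 / 2 * ρ₁ ≤ ρb ∧ B * ρb ^ 2 ≤ 0.792 ∧
    π / 2 ≤ Real.log ρ₁ - Real.log ρa := by
  obtain ⟨f, hfd, hf0, hfa, hfb, hfb', hf2⟩ := g.angles h m
  obtain ⟨J, hJc, hJ0, hJd⟩ := h.exJ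
  have hpi := Real.pi_gt_d2
  have r1 := g.r1
  have r12 := g.r12
  have r2 : 0 < ρ₂ := r1.trans r12
  have ha0 := m.a0
  have ha1 := m.a1
  have hb1 := m.b1
  have hb2 := m.b2
  have hb0 : 0 < ρb := r1.trans hb1
  have hB := g.B0
  have hS4 : ρ₂ ^ 2 - ρb ^ 2 ≤ 1 := by
    have h1 := inc (f := fun s => J s - s ^ 2) (f' := fun s => 2 * s * (1 - z s) ^ 2 - 2 * s)
      hb2.le (hJc.continuousOn.sub (by fun_prop))
      (fun s hs => (hJd s (hb0.trans hs.1)).fun_sub (hsqd s))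
      (fun s hs => by
        have hs0 := hb0.trans hs.1
        have h2 := g.zanti h ρb s hb1.le hs.1.le hs.2.le
        rw [m.zb] at h2
        have h3 : 1 ≤ (1 - z s) ^ 2 := by
          have : 0 ≤ -z s := by linarith
          nlinarith only [this]
        have e : 2 * s * (1 - z s) ^ 2 - 2 * s = 2 * s * ((1 - z s) ^ 2 - 1) := by ring
        rw [e]
        exact mul_nonneg (by linarith) (by linarith))
    have h2 := h.Jle hJc hJ0 hJd ρ₂ r2.le
    have h3 := RadSol.Jnn hJc hJ0 hJd ρb hb0.le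
    linarith
  have hlog2 := Real.log_two_lt_d9
  have hS5' : 2 * ρb ≤ ρ₂ := by
    have h1 := inc (f := fun s => f s + 5 / 4 * Real.log s + 1 / 2 * s ^ 2)
      (f' := fun s => p s / s + 5 / 4 * (1 / s) + 1 / 2 * (2 * s)) hb2.le
      (fun s hs => (((hfd s (lt_of_lt_of_le hb0 hs.1)).fun_add
        ((hlogd s (lt_of_lt_of_le hb0 hs.1)).const_mul _)).fun_add
        ((hsqd s).const_mul _)).continuousAt.continuousWithinAt)
      (fun s hs => ((hfd s (hb0.trans hs.1)).fun_add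
        ((hlogd s (hb0.trans hs.1)).const_mul _)).fun_add ((hsqd s).const_mul _))
      (fun s hs => by
        have hs0 := hb0.trans hs.1
        have h2 := h.pS5 hJc hJ0 hJd s hs0.le
        have e : p s / s + 5 / 4 * (1 / s) + 1 / 2 * (2 * s) = (p s + 5 / 4 + s ^ 2) / s := by
          field_simp
        rw [e]
        exact div_nonneg (by linarith) hs0.le)
    by_contra hcon
    push Not at hcon
    have h2 : Real.log ρ₂ < Real.log (2 * ρb) := Real.log_lt_log r2 hcon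
    rw [Real.log_mul two_ne_zero hb0.ne'] at h2
    linarith
  have hρ24 : 4 * ρb ^ 2 ≤ ρ₂ ^ 2 := by nlinarith only [hS5', hb0]
  have hρb2 : ρb ^ 2 ≤ 1 / 3 := by linarith
  have hS7 : 7 / 2 * ρ₁ ≤ ρb := by
    have h1 := inc (f := fun s => f s + 7 / 6 * Real.log s)
      (f' := fun s => p s / s + 7 / 6 * (1 / s)) hb1.le
      (fun s hs => ((hfd s (lt_of_lt_of_le r1 hs.1)).fun_add
        ((hlogd s (lt_of_lt_of_le r1 hs.1)).const_mul _)).continuousAt.continuousWithinAt)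
      (fun s hs => (hfd s (r1.trans hs.1)).fun_add ((hlogd s (r1.trans hs.1)).const_mul _))
      (fun s hs => by
        have hs0 := r1.trans hs.1
        have h2 := g.zanti h s ρb hs.1.le hs.2.le hb2.le
        rw [m.zb] at h2
        have h6 : s ^ 2 ≤ ρb ^ 2 := by
          have := hs.2.le
          exact pow_le_pow_left₀ hs0.le this 2
        have h10 := h.pS7 hJc hJ0 hJd s hs0.le (h6.trans hρb2) h2
        have e : p s / s + 7 / 6 * (1 / s) = (p s + 7 / 6) / s := by field_simp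
        rw [e]
        exact div_nonneg (by linarith) hs0.le)
    simp only [hf0] at h1
    by_contra hcon
    push Not at hcon
    have h2 : Real.log ρb < Real.log (7 / 2 * ρ₁) := Real.log_lt_log hb0 hcon
    rw [Real.log_mul (by norm_num) r1.ne'] at h2
    have h3 : Real.log (7 / 2) ≤ 1.345 := by
      rw [Real.log_le_iff_le_exp (by norm_num)]
      have e1 : (1.345 : ℝ) = 1 + 0.345 := by norm_num
      rw [e1, Real.exp_add]
      have e2 := Real.exp_one_gt_d9
      have e3 := Real.add_one_le_exp (0.345 : ℝ)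
      nlinarith only [e2, e3]
    linarith
  have hS8 : B * ρ₂ ^ 2 / 2 ≤ 5 / 4 + ρ₂ ^ 2 / 4 := by
    have h1 := dec (f := fun s => v s + B / 2 * s ^ 2 - 1 / 4 * J s - 1 / 4 * s ^ 2)
      (f' := fun s => s * b s + B / 2 * (2 * s) - 1 / 4 * (2 * s * (1 - z s) ^ 2)
        - 1 / 4 * (2 * s)) r2.le
      (by
        have h5 := h.cv.mono (fun s hs => hs.1 : Icc 0 ρ₂ ⊆ Ici 0)
        have h6 := hJc.continuousOn (s := Icc 0 ρ₂)
        fun_prop)
      (fun s hs => (((h.hv s hs.1).fun_add ((hsqd s).const_mul _)).fun_sub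
        ((hJd s hs.1).const_mul _)).fun_sub ((hsqd s).const_mul _))
      (fun s hs => by
        have hs0 : 0 < s := hs.1
        have h2 : b s ≤ (1 - z s) - B := by
          rcases le_total s ρ₁ with h3 | h3
          · have h4 := h.b_mono hs0.le h3
            rw [g.b1] at h4
            have h5 := h.zle s hs0.le
            linarith
          · exact g.Qtle s h3 hs.2.le
        have e : s * b s + B / 2 * (2 * s) - 1 / 4 * (2 * s * (1 - z s) ^ 2) - 1 / 4 * (2 * s)
            = s * (b s + B - 1 / 2 * (1 - z s) ^ 2 - 1 / 2) := by ring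
        rw [e]
        apply mul_nonpos_of_nonneg_of_nonpos hs0.le
        nlinarith only [h2, sq_nonneg (1 - z s - 1)])
    simp only [h.v0, hJ0] at h1
    have h2 := h.vpos ρ₂ r2.le
    have h3 := h.Jle hJc hJ0 hJd ρ₂ r2.le
    linarith
  have hBb : B * ρb ^ 2 ≤ 0.792 := by
    have h0 : 0 < ρb ^ 2 := by positivity
    rcases le_total (1 / 2) B with h1 | h1
    · have h2 : (B - 1 / 2) * (4 * ρb ^ 2) ≤ (B - 1 / 2) * ρ₂ ^ 2 :=
        mul_le_mul_of_nonneg_left hρ24 (by linarith)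
      linarith
    · have h2 : B * ρb ^ 2 ≤ 1 / 2 * ρb ^ 2 := mul_le_mul_of_nonneg_right h1 h0.le
      linarith
  have hL : π / 2 ≤ Real.log ρ₁ - Real.log ρa := by
    have h1 := inc (f := fun s => f s + Real.log s) (f' := fun s => p s / s + 1 / s) ha1.le
      (fun s hs => ((hfd s (lt_of_lt_of_le ha0 hs.1)).fun_add
        (hlogd s (lt_of_lt_of_le ha0 hs.1))).continuousAt.continuousWithinAt)
      (fun s hs => (hfd s (ha0.trans hs.1)).fun_add (hlogd s (ha0.trans hs.1)))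
      (fun s hs => by
        have hs0 := ha0.trans hs.1
        have h2 : -p s ≤ 1 := by
          have h1 := inc (f := fun t => J t - t ^ 2 * (1 - z t) ^ 2)
            (f' := fun s => 2 * s * (1 - z s) ^ 2 - (2 * s * (1 - z s) ^ 2
              + s ^ 2 * (2 * (1 - z s) * (-(-(y s * p s) / s))))) hs0.le
            (by
              have h5 := h.cz.mono (fun t ht => ht.1 : Icc 0 s ⊆ Ici 0)
              have h6 := hJc.continuousOn (s := Icc 0 s)
              fun_prop)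
            (fun t ht => ((hJd t ht.1).fun_sub ((hsqd t).fun_mul
              (((h.hz t ht.1).const_sub 1).fun_pow 2))).congr_deriv (by push_cast; ring))
            (fun t ht => by
              have ht0 : 0 < t := ht.1
              have ht1 : t < ρ₁ := ht.2.trans hs.2
              have e : 2 * t * (1 - z t) ^ 2 - (2 * t * (1 - z t) ^ 2
                  + t ^ 2 * (2 * (1 - z t) * (-(-(y t * p t) / t))))
                  = 2 * t * (1 - z t) * (-(y t * p t)) := by
                field_simp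
                ring
              rw [e]
              have h2 := mul_neg_of_pos_of_neg (g.ypos t ht0 ht1) (g.pneg1 h t ht0 ht1)
              have h3 := h.zle t ht0.le
              exact mul_nonneg (mul_nonneg (by linarith) (by linarith)) (by linarith))
          simp only [hJ0] at h1
          have h2 := h.JW hJc hJ0 hJd s hs0.le
          have h3 : (-p s) ^ 2 ≤ 1 ^ 2 := by
            have e1 : (-p s) ^ 2 = p s ^ 2 := by ring
            have q := mul_nonneg (sq_nonneg (v s)) (sq_nonneg (z s))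
            rw [e1]; linarith
          exact abs_le_of_sq_le_sq' h3 zero_le_one |>.2
        rw [← add_div]
        exact div_nonneg (by linarith) hs0.le)
    simp only [hf0] at h1
    linarith
  exact ⟨hρb2, hS7, hBb, hL⟩

end Shape

end Run7.h887
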