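import Pool.Agent.Run7.h887.Virial

/-! A unique-continuation step by the logarithm of the function. -/

namespace Run7.h887

open MeasureTheory Filter Topology Set
open scoped ContDiff Real

variable {φ : ℝ × ℝ → Fin 3 → ℝ} {A : ℝ × ℝ → ℝ × ℝ}

section logs

variable {w : ℝ × ℝ → ℝ} {ε : ℝ}

theorem cd_log (hw : ContDiff ℝ ∞ w) (h : ∀ x, 0 < w x + ε) :
    ContDiff ℝ ∞ (fun x => Real.log (w x + ε)) :=
  (hw.add contDiff_const).log (fun x => (h x).ne')

theorem hd_log {w₀ : ℝ} (h : 0 < w₀ + ε) :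
    HasDerivAt (fun t : ℝ => Real.log (t + ε)) (1 / (w₀ + ε)) w₀ := by
  have h1 : HasDerivAt (fun t : ℝ => t + ε) 1 w₀ := (hasDerivAt_id w₀).add_const ε
  exact h1.log h.ne'

theorem hd_inv {w₀ : ℝ} (h : 0 < w₀ + ε) :
    HasDerivAt (fun t : ℝ => 1 / (t + ε)) (-1 / (w₀ + ε) ^ 2) w₀ := by
  have h1 : HasDerivAt (fun t : ℝ => t + ε) 1 w₀ := (hasDerivAt_id w₀).add_const ε
  have h2 := h1.fun_inv h.ne'
  simpa [one_div] using h2

theorem pd1_log (hw : ContDiff ℝ ∞ w) (h : ∀ x, 0 < w x + ε) :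
    pd1 (fun x => Real.log (w x + ε)) = fun x => 1 / (w x + ε) * pd1 w x := by
  funext x
  exact pd1_comp (dd hw x) (hd_log (h x))

theorem pd2_log (hw : ContDiff ℝ ∞ w) (h : ∀ x, 0 < w x + ε) :
    pd2 (fun x => Real.log (w x + ε)) = fun x => 1 / (w x + ε) * pd2 w x := by
  funext x
  exact pd2_comp (dd hw x) (hd_log (h x))

theorem lap_log (hw : ContDiff ℝ ∞ w) (h : ∀ x, 0 < w x + ε) (x : ℝ × ℝ) :
    pd1 (pd1 (fun x => Real.log (w x + ε))) x + pd2 (pd2 (fun x => Real.log (w x + ε))) x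
      = (pd1 (pd1 w) x + pd2 (pd2 w) x) / (w x + ε)
        - (pd1 w x ^ 2 + pd2 w x ^ 2) / (w x + ε) ^ 2 := by
  have hi : ContDiff ℝ ∞ (fun x => 1 / (w x + ε)) :=
    contDiff_const.div (hw.add contDiff_const) (fun x => (h x).ne')
  rw [pd1_log hw h, pd2_log hw h, pd1_mul (dd hi) (dd (cd_pd1 hw)),
    pd2_mul (dd hi) (dd (cd_pd2 hw))]
  simp only
  rw [pd1_comp (dd hw x) (hd_inv (h x)), pd2_comp (dd hw x) (hd_inv (h x))]
  have := (h x).ne'
  field_simp
  ring

end logs

theorem flux_eq {Y1 Y2 : ℝ × ℝ → ℝ} (h1 : ContDiff ℝ ∞ Y1) (h2 : ContDiff ℝ ∞ Y2) (r : ℝ) :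
    flux Y1 Y2 r = ∫ s in (0 : ℝ)..r, s * cir (fun x => pd1 Y1 x + pd2 Y2 x) s := by
  have hc : Continuous (fun x => pd1 Y1 x + pd2 Y2 x) :=
    (cd_pd1 h1).continuous.add (cd_pd2 h2).continuous
  have hcc : Continuous (fun s => s * cir (fun x => pd1 Y1 x + pd2 Y2 x) s) :=
    continuous_id.mul (cir_continuous hc)
  have := intervalIntegral.integral_eq_sub_of_hasDerivAt (a := 0) (b := r)
    (fun s _ => flux_hasDeriv h1 h2 s) (hcc.intervalIntegrable _ _)
  rw [this, flux_zero]; ring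

/-- Lower growth bound of circle means. -/
theorem cir_growth {f D : ℝ × ℝ → ℝ} (hf : ContDiff ℝ ∞ f) (hD : Continuous D)
    (h : ∀ x, -D x ≤ pd1 (pd1 f) x + pd2 (pd2 f) x) {ρ M : ℝ} (hρ : 0 ≤ ρ)
    (hM : ∀ s ∈ Icc 0 ρ, cir D s ≤ M) : cir f 0 - M * ρ ^ 2 / 4 ≤ cir f ρ := by
  have hlc : Continuous (fun x => pd1 (pd1 f) x + pd2 (pd2 f) x) :=
    (cd_pd1 (cd_pd1 hf)).continuous.add (cd_pd2 (cd_pd2 hf)).continuous
  have hflux : ∀ r ∈ Icc 0 ρ, -(M * r ^ 2 / 2) ≤ flux (pd1 f) (pd2 f) r := by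
    intro r hr
    rw [flux_eq (cd_pd1 hf) (cd_pd2 hf)]
    have e : -(M * r ^ 2 / 2) = ∫ s in (0 : ℝ)..r, s * (-M) := by
      rw [intervalIntegral.integral_mul_const, integral_id]; ring
    rw [e]
    apply intervalIntegral.integral_mono_on hr.1
    · exact (continuous_id.mul continuous_const).intervalIntegrable _ _
    · exact (continuous_id.mul (cir_continuous hlc)).intervalIntegrable _ _
    · intro s hs
      have h1 : cir (fun x => -D x) s ≤ cir (fun x => pd1 (pd1 f) x + pd2 (pd2 f) x) s :=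
        cir_mono hD.neg hlc h s
      have h2 : cir (fun x => -D x) s = -cir D s := by
        have := cir_cmul D (-1) s
        simpa using this
      have h3 := hM s ⟨hs.1, hs.2.trans hr.2⟩
      exact mul_le_mul_of_nonneg_left (by linarith) hs.1
  have hmono : MonotoneOn (fun r => cir f r + M * r ^ 2 / 4) (Icc 0 ρ) := by
    have hder : ∀ r ∈ interior (Icc (0 : ℝ) ρ),
        HasDerivAt (fun r => cir f r + M * r ^ 2 / 4)
          (flux (pd1 f) (pd2 f) r / r + M * (2 * r) / 4) r := by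
      intro r hr
      rw [interior_Icc] at hr
      have h1 := cir_hasDeriv' hf hr.1.ne'
      have h2 : HasDerivAt (fun r : ℝ => M * r ^ 2 / 4) (M * (2 * r) / 4) r := by
        have := ((hasDerivAt_pow 2 r).const_mul M).div_const 4
        simpa using this
      exact h1.fun_add h2
    apply monotoneOn_of_deriv_nonneg (convex_Icc 0 ρ)
    · exact ((cir_continuous hf.continuous).add (by fun_prop)).continuousOn
    · exact fun r hr => (hder r hr).differentiableAt.differentiableWithinAt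
    · intro r hr
      rw [(hder r hr).deriv]
      rw [interior_Icc] at hr
      have h1 := hflux r ⟨hr.1.le, hr.2.le⟩
      have h2 : -(M * r / 2) ≤ flux (pd1 f) (pd2 f) r / r := by
        rw [le_div_iff₀ hr.1]
        calc -(M * r / 2) * r = -(M * r ^ 2 / 2) := by ring
          _ ≤ _ := h1
      linarith
  have := hmono ⟨le_rfl, hρ⟩ ⟨hρ, le_rfl⟩ hρ
  simp only at this
  linarith

theorem uc {W D : ℝ × ℝ → ℝ} (hW : ContDiff ℝ ∞ W) (hD : Continuous D) (h0 : ∀ x, 0 ≤ W x)
    (h4 : ∀ x, W x ≤ 4)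
    (hineq : ∀ ε : ℝ, 0 < ε → ∀ x, -D x * (W x + ε) ^ 2
      ≤ (pd1 (pd1 W) x + pd2 (pd2 W) x) * (W x + ε) - (pd1 W x ^ 2 + pd2 W x ^ 2))
    (hpos : 0 < W 0) {y : ℝ × ℝ} (hz : ∀ᶠ x in 𝓝 y, W x = 0) : False := by
  have hy : y ≠ 0 := by
    rintro rfl
    exact hpos.ne' hz.self_of_nhds
  have hyp : 0 < y.1 ^ 2 + y.2 ^ 2 := by
    rcases eq_or_ne y.1 0 with h1 | h1
    · have h2 : y.2 ≠ 0 := by
        intro h2; exact hy (Prod.ext h1 h2)
      positivity
    · positivity
  set ρ := Real.sqrt (y.1 ^ 2 + y.2 ^ 2) with hρdef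
  have hρ : 0 < ρ := Real.sqrt_pos.2 hyp
  obtain ⟨θ, hθ, hyθ⟩ := exists_angle hρ (Real.sq_sqrt hyp.le).symm
  -- an arc where W vanishes
  have hcurve : Continuous (fun t : ℝ => ((ρ * Real.cos t, ρ * Real.sin t) : ℝ × ℝ)) := by
    fun_prop
  have hev : ∀ᶠ t in 𝓝 θ, W (ρ * Real.cos t, ρ * Real.sin t) = 0 := by
    have : Tendsto (fun t : ℝ => ((ρ * Real.cos t, ρ * Real.sin t) : ℝ × ℝ)) (𝓝 θ) (𝓝 y) := by
      rw [hyθ]; exact hcurve.tendsto θ
    exact this.eventually hz
  obtain ⟨η, hη, hball⟩ := Metric.eventually_nhds_iff.1 hev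
  set a := max (-π) (θ - η / 2) with ha
  have haθ : a < θ := max_lt hθ.1 (by linarith)
  have hπa : -π ≤ a := le_max_left _ _
  have hθπ : θ ≤ π := hθ.2
  have harc : ∀ t ∈ Icc a θ, W (ρ * Real.cos t, ρ * Real.sin t) = 0 := by
    intro t ht
    apply hball
    have : θ - η / 2 ≤ a := le_max_right _ _
    rw [Real.dist_eq, abs_lt]
    constructor <;> linarith [ht.1, ht.2]
  -- bound of the means of D
  obtain ⟨M, hM⟩ : ∃ M : ℝ, ∀ s ∈ Icc 0 ρ, cir D s ≤ M := by
    have := isCompact_Icc.exists_isMaxOn (nonempty_Icc.2 hρ.le)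
      (cir_continuous hD).continuousOn (s := Icc 0 ρ)
    obtain ⟨s, _, hs⟩ := this
    exact ⟨cir D s, fun t ht => hs ht⟩
  have hkey : ∀ ε : ℝ, 0 < ε → ε ≤ 1 →
      2 * π * Real.log (W 0) - M * ρ ^ 2 / 4
        ≤ (θ - a) * Real.log ε + (2 * π - (θ - a)) * Real.log 5 := by
    intro ε hε hε1
    have hpp : ∀ x, 0 < W x + ε := fun x => by have := h0 x; linarith
    have hcd := cd_log hW hpp
    have hg := cir_growth hcd hD (by
      intro x
      rw [lap_log hW hpp]
      have hx := hpp x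
      rw [div_sub_div _ _ hx.ne' (pow_pos hx 2).ne', le_div_iff₀ (by positivity)]
      have := hineq ε hε x
      nlinarith [mul_le_mul_of_nonneg_left this hx.le]) hρ.le hM
    rw [cir_zero] at hg
    have h5 : Real.log (W 0) ≤ Real.log (W (0, 0) + ε) :=
      Real.log_le_log hpos (by change W (0, 0) ≤ _; linarith)
    have hcont : Continuous (fun t : ℝ => Real.log (W (ρ * Real.cos t, ρ * Real.sin t) + ε)) :=
      cont_cir_int hcd.continuous ρ
    have hub : ∀ t : ℝ, Real.log (W (ρ * Real.cos t, ρ * Real.sin t) + ε) ≤ Real.log 5 :=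
      fun t => Real.log_le_log (hpp _) (by linarith [h4 (ρ * Real.cos t, ρ * Real.sin t)])
    have hsplit : cir (fun x => Real.log (W x + ε)) ρ
        = (∫ t in (-π)..a, Real.log (W (ρ * Real.cos t, ρ * Real.sin t) + ε))
          + (∫ t in a..θ, Real.log (W (ρ * Real.cos t, ρ * Real.sin t) + ε))
          + ∫ t in θ..π, Real.log (W (ρ * Real.cos t, ρ * Real.sin t) + ε) := by
      unfold cir
      rw [intervalIntegral.integral_add_adjacent_intervals (hcont.intervalIntegrable _ _)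
        (hcont.intervalIntegrable _ _),
        intervalIntegral.integral_add_adjacent_intervals (hcont.intervalIntegrable _ _)
        (hcont.intervalIntegrable _ _)]
    have i1 : ∫ t in (-π)..a, Real.log (W (ρ * Real.cos t, ρ * Real.sin t) + ε)
        ≤ (a + π) * Real.log 5 := by
      have := intervalIntegral.integral_mono_on hπa (hcont.intervalIntegrable _ _)
        (continuous_const.intervalIntegrable (μ := volume) (-π) a) (fun t _ => hub t)
      rw [intervalIntegral.integral_const, smul_eq_mul] at this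
      linarith
    have i3 : ∫ t in θ..π, Real.log (W (ρ * Real.cos t, ρ * Real.sin t) + ε)
        ≤ (π - θ) * Real.log 5 := by
      have := intervalIntegral.integral_mono_on hθπ (hcont.intervalIntegrable _ _)
        (continuous_const.intervalIntegrable (μ := volume) θ π) (fun t _ => hub t)
      rw [intervalIntegral.integral_const, smul_eq_mul] at this
      linarith
    have i2 : ∫ t in a..θ, Real.log (W (ρ * Real.cos t, ρ * Real.sin t) + ε)
        ≤ (θ - a) * Real.log ε := by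
      have := intervalIntegral.integral_mono_on haθ.le (hcont.intervalIntegrable _ _)
        (continuous_const.intervalIntegrable (μ := volume) a θ)
        (g := fun _ => Real.log ε) (fun t ht => by
          rw [harc t ht, zero_add])
      rw [intervalIntegral.integral_const, smul_eq_mul] at this
      linarith
    rw [hsplit] at hg
    have : 2 * π * Real.log (W 0) ≤ 2 * π * Real.log (W (0, 0) + ε) :=
      mul_le_mul_of_nonneg_left h5 (by positivity)
    linarith
  -- choose ε very small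
  set B := 2 * π * Real.log (W 0) - M * ρ ^ 2 / 4 - (2 * π - (θ - a)) * Real.log 5 with hB
  have hd : 0 < θ - a := by linarith
  set K := (|B| + 1) / (θ - a) with hK
  have hK0 : 0 < K := by positivity
  have := hkey (Real.exp (-K)) (Real.exp_pos _) (Real.exp_le_one_iff.2 (by linarith))
  rw [Real.log_exp] at this
  have h6 : (θ - a) * (-K) = -(|B| + 1) := by rw [hK]; field_simp
  have h7 := neg_abs_le B
  linarith

theorem pd1_shift {f : ℝ × ℝ → ℝ} (a : ℝ × ℝ) :
    pd1 (fun x => f (x + a)) = fun x => pd1 f (x + a) := by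
  funext x; unfold pd1; rw [fderiv_comp_add_right]

theorem pd2_shift {f : ℝ × ℝ → ℝ} (a : ℝ × ℝ) :
    pd2 (fun x => f (x + a)) = fun x => pd2 f (x + a) := by
  funext x; unfold pd2; rw [fderiv_comp_add_right]

theorem uc' {W D : ℝ × ℝ → ℝ} (hW : ContDiff ℝ ∞ W) (hD : Continuous D) (h0 : ∀ x, 0 ≤ W x)
    (h4 : ∀ x, W x ≤ 4)
    (hineq : ∀ ε : ℝ, 0 < ε → ∀ x, -D x * (W x + ε) ^ 2
      ≤ (pd1 (pd1 W) x + pd2 (pd2 W) x) * (W x + ε) - (pd1 W x ^ 2 + pd2 W x ^ 2))
    {x₁ : ℝ × ℝ} (hpos : 0 < W x₁) {y : ℝ × ℝ} (hz : ∀ᶠ x in 𝓝 y, W x = 0) : False := by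
  have hsh : ContDiff ℝ ∞ (fun x : ℝ × ℝ => x + x₁) := contDiff_id.add contDiff_const
  refine uc (W := fun x => W (x + x₁)) (D := fun x => D (x + x₁)) (hW.comp hsh)
    (hD.comp hsh.continuous) (fun x => h0 _) (fun x => h4 _) ?_ (by simpa using hpos)
    (y := y - x₁) ?_
  · intro ε hε x
    rw [pd1_shift, pd1_shift, pd2_shift, pd2_shift]
    exact hineq ε hε (x + x₁)
  · have : Tendsto (fun x : ℝ × ℝ => x + x₁) (𝓝 (y - x₁)) (𝓝 y) := by
      have := hsh.continuous.tendsto (y - x₁)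
      simpa using this
    exact this.eventually hz

/-- The differential inequality for `w_+` where `w_+ w_- = 0`. -/
theorem ineq_of {W S D u : ℝ × ℝ → ℝ} (hW : ContDiff ℝ ∞ W) (h0 : ∀ x, 0 ≤ W x)
    (hu0 : ∀ x, 0 ≤ u x) (hu2 : ∀ x, u x ≤ 2) (hS : ∀ x, 0 ≤ S x) (hSD : ∀ x, S x ≤ 2 * D x)
    (halt : ∀ x, W x = 0 ∨ W x = 2 * u x)
    (hgrad : ∀ x, pd1 W x ^ 2 + pd2 W x ^ 2 = (1 - (1 - u x) ^ 2) * S x)
    (hlap : ∀ x, pd1 (pd1 W) x + pd2 (pd2 W) x = (1 - (1 - u x) ^ 2) * W x + (1 - u x) * S x)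
    (ε : ℝ) (hε : 0 < ε) (x : ℝ × ℝ) :
    -D x * (W x + ε) ^ 2
      ≤ (pd1 (pd1 W) x + pd2 (pd2 W) x) * (W x + ε) - (pd1 W x ^ 2 + pd2 W x ^ 2) := by
  have hDx : 0 ≤ D x := by have := hS x; have := hSD x; linarith
  rcases halt x with hx | hx
  · have hmin : IsLocalMin W x := by
      filter_upwards with z
      rw [hx]; exact h0 z
    obtain ⟨g1, g2, g11, g22⟩ := local_min_test hW hmin
    rw [g1, g2, hx]
    have : 0 ≤ D x * (0 + ε) ^ 2 := by positivity
    nlinarith [mul_nonneg (add_nonneg g11 g22) hε.le]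
  · rw [hgrad, hlap, hx]
    have a0 := hu0 x
    have a2 := hu2 x
    have s0 := hS x
    have s1 := hSD x
    set v := u x
    set T := S x
    have e : ((1 - (1 - v) ^ 2) * (2 * v) + (1 - v) * T) * (2 * v + ε) - (1 - (1 - v) ^ 2) * T
        = (v * (2 - v)) * (2 * v) * (2 * v + ε)
          + T * ((1 - v) * (2 * v + ε) - v * (2 - v)) := by ring
    have h1 : -(1 / 2) * (2 * v + ε) ^ 2 ≤ (1 - v) * (2 * v + ε) - v * (2 - v) := by
      nlinarith [mul_nonneg a0 hε.le, sq_nonneg v, sq_nonneg ε]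
    have h2 : T * (-(1 / 2) * (2 * v + ε) ^ 2) ≤ T * ((1 - v) * (2 * v + ε) - v * (2 - v)) :=
      mul_le_mul_of_nonneg_left h1 s0
    have h3 : 0 ≤ (v * (2 - v)) * (2 * v) * (2 * v + ε) := by
      have : 0 ≤ 2 - v := by linarith
      positivity
    rw [e]
    have h4 : -D x * (2 * v + ε) ^ 2 ≤ T * (-(1 / 2) * (2 * v + ε) ^ 2) := by
      nlinarith [mul_le_mul_of_nonneg_right s1 (sq_nonneg (2 * v + ε))]
    linarith

/-- One of `w_+`, `w_-` vanishes identically. -/
theorem dichotomy (h : IsConfig φ A) (hc : IsCritical φ A) (hp : ∀ x, 0 ≤ wp φ A x)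
    (hm : ∀ x, 0 ≤ wm φ A x) : (∀ x, wp φ A x = 0) ∨ (∀ x, wm φ A x = 0) := by
  have hφ := h.smooth_phi
  have hA := h.smooth_A
  have hs := h.sphere
  have hv := virial h hc (fun x => mul_nonneg (hp x) (hm x))
  by_contra hcon
  push Not at hcon
  obtain ⟨⟨x₁, h1⟩, ⟨x₂, h2⟩⟩ := hcon
  have h1' : 0 < wp φ A x₁ := lt_of_le_of_ne (hp _) (Ne.symm h1)
  have h2' : 0 < wm φ A x₂ := lt_of_le_of_ne (hm _) (Ne.symm h2)
  have e1 : ∀ x, 1 - φ x 2 ^ 2 = 1 - (1 - uu φ x) ^ 2 := fun x => by unfold uu; ring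
  have e2 : ∀ x, φ x 2 = 1 - uu φ x := fun x => by unfold uu; ring
  have halt : ∀ x, wp φ A x = 0 ∨ wp φ A x = 2 * uu φ x := by
    intro x
    rcases mul_eq_zero.1 (hv x) with hx | hx
    · exact Or.inl hx
    · right
      unfold wm at hx
      unfold wp
      linarith
  refine uc' (W := wp φ A) (D := dens φ A) (cd_wp hφ hA) (cd_dens hφ hA).continuous hp ?_ ?_ h1'
    (y := x₂) ?_
  · intro x
    have := uu_le hs x
    rcases halt x with hx | hx <;> rw [hx] <;> linarith
  · refine ineq_of (u := uu φ) (S := Sp φ A) (cd_wp hφ hA) hp (uu_nonneg hs) (uu_le hs) Sp_nonneg ?_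
      halt ?_ ?_
    · intro x
      have a1 := Sp_le (A := A) hφ hs x
      rw [dens_eq]
      nlinarith [sq_nonneg (uu φ x), sq_nonneg (fld A x)]
    · intro x; rw [grad_wp hφ hA hs hc, e1]
    · intro x; rw [lap_wp hφ hA hs hc, e1, e2]
  · have hc2 : Continuous (wm φ A) := (cd_wm hφ hA).continuous
    filter_upwards [(isOpen_lt continuous_const hc2).mem_nhds h2'] with x hx
    have hx' : 0 < wm φ A x := hx
    rcases mul_eq_zero.1 (hv x) with h3 | h3
    · exact h3
    · exact absurd h3 hx'.ne'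

/-- `w_- ≡ 0` implies the self-dual equations. -/
theorem sd_of_wm (h : IsConfig φ A) (hc : IsCritical φ A) (hz : ∀ x, wm φ A x = 0) :
    SelfDual φ A := by
  have hφ := h.smooth_phi
  have hA := h.smooth_A
  have hs := h.sphere
  intro x
  have hw : wm φ A = fun _ => 0 := funext hz
  have hg := grad_wm hφ hA hs hc x
  have hl := lap_wm hφ hA hs hc x
  rw [hw, pd1_const, pd2_const] at hg
  rw [hw, pd1_const, pd2_const, pd1_const, pd2_const] at hl
  simp only at hg hl
  have hS : Sm φ A x = 0 := by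
    have h1 : (1 - φ x 2 ^ 2) * Sm φ A x = 0 := by linarith
    have h2 : φ x 2 * Sm φ A x = 0 := by linarith
    linear_combination h1 + φ x 2 * h2
  refine ⟨?_, ?_⟩
  · have hd : cov1 A φ x + crossProduct (φ x) (cov2 A φ x) = 0 := by
      have : dotProduct (cov1 A φ x + crossProduct (φ x) (cov2 A φ x))
        (cov1 A φ x + crossProduct (φ x) (cov2 A φ x)) = 0 := hS
      exact dotProduct_self_eq_zero.1 this
    exact eq_neg_of_add_eq_zero_left hd
  · have := hz x
    unfold wm uu at this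
    rw [nv_dot]; linarith

/-- `w_+ ≡ 0` implies the anti-self-dual equations. -/
theorem asd_of_wp (h : IsConfig φ A) (hc : IsCritical φ A) (hz : ∀ x, wp φ A x = 0) :
    AntiSelfDual φ A := by
  have hφ := h.smooth_phi
  have hA := h.smooth_A
  have hs := h.sphere
  intro x
  have hw : wp φ A = fun _ => 0 := funext hz
  have hg := grad_wp hφ hA hs hc x
  have hl := lap_wp hφ hA hs hc x
  rw [hw, pd1_const, pd2_const] at hg
  rw [hw, pd1_const, pd2_const, pd1_const, pd2_const] at hl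
  simp only at hg hl
  have hS : Sp φ A x = 0 := by
    have h1 : (1 - φ x 2 ^ 2) * Sp φ A x = 0 := by linarith
    have h2 : φ x 2 * Sp φ A x = 0 := by linarith
    linear_combination h1 + φ x 2 * h2
  refine ⟨?_, ?_⟩
  · have hd : cov1 A φ x - crossProduct (φ x) (cov2 A φ x) = 0 := by
      have : dotProduct (cov1 A φ x - crossProduct (φ x) (cov2 A φ x))
        (cov1 A φ x - crossProduct (φ x) (cov2 A φ x)) = 0 := hS
      exact dotProduct_self_eq_zero.1 this
    exact sub_eq_zero.1 hd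
  · have := hz x
    unfold wp uu at this
    rw [nv_dot]; linarith

/-- Critical points with `F = 0` where `φ = n` are self-dual or anti-self-dual. -/
theorem sd_or_asd (h : IsConfig φ A) (hc : IsCritical φ A)
    (hvac : ∀ x, uu φ x = 0 → fld A x = 0) : SelfDual φ A ∨ AntiSelfDual φ A := by
  have hp := wp_nonneg h hc (fun x hx => (hvac x hx).ge)
  have hm := wm_nonneg h hc (fun x hx => (hvac x hx).le)
  rcases dichotomy h hc hp hm with h1 | h1
  · exact Or.inr (asd_of_wp h hc h1)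
  · exact Or.inl (sd_of_wm h hc h1)

end Run7.h887
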