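import Pool.Agent.Run7.h887.Pos

/-! The virial argument: if `u ± F ≥ 0` everywhere then `(u+F)(u-F) = 0`. -/

namespace Run7.h887

open MeasureTheory Filter Topology Set
open scoped ContDiff Real

variable {φ : ℝ × ℝ → Fin 3 → ℝ} {A : ℝ × ℝ → ℝ × ℝ}

theorem cd_dens (hφ : ContDiff ℝ ∞ φ) (hA : ContDiff ℝ ∞ A) : ContDiff ℝ ∞ (dens φ A) := by
  have e : dens φ A = fun x => ee φ A x + uu φ x ^ 2 + fld A x ^ 2 := funext fun x => dens_eq x
  rw [e]
  have hP := cd_cov1 hA hφ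
  have hQ := cd_cov2 hA hφ
  exact (((cd_dot hP hP).add (cd_dot hQ hQ)).add ((cd_uu hφ).pow 2)).add ((cd_fld hA).pow 2)

theorem dens_nonneg (x : ℝ × ℝ) : 0 ≤ dens φ A x := by
  rw [dens_eq]
  have := ee_nonneg (φ := φ) (A := A) x
  positivity

theorem Sp_le (hφ : ContDiff ℝ ∞ φ) (hs : ∀ x, dotProduct (φ x) (φ x) = 1) (x : ℝ × ℝ) :
    Sp φ A x ≤ 2 * ee φ A x := by
  have h1 := Sp_eq (A := A) hφ hs x
  have h2 := Sm_eq (A := A) hφ hs x
  have h3 := Sm_nonneg (φ := φ) (A := A) x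
  linarith

theorem Sm_le (hφ : ContDiff ℝ ∞ φ) (hs : ∀ x, dotProduct (φ x) (φ x) = 1) (x : ℝ × ℝ) :
    Sm φ A x ≤ 2 * ee φ A x := by
  have h1 := Sp_eq (A := A) hφ hs x
  have h2 := Sm_eq (A := A) hφ hs x
  have h3 := Sp_nonneg (φ := φ) (A := A) x
  linarith

theorem wp_sq_le (x : ℝ × ℝ) : wp φ A x ^ 2 ≤ 2 * dens φ A x := by
  rw [dens_eq]
  have := ee_nonneg (φ := φ) (A := A) x
  unfold wp
  nlinarith [sq_nonneg (uu φ x - fld A x)]

theorem wm_sq_le (x : ℝ × ℝ) : wm φ A x ^ 2 ≤ 2 * dens φ A x := by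
  rw [dens_eq]
  have := ee_nonneg (φ := φ) (A := A) x
  unfold wm
  nlinarith [sq_nonneg (uu φ x + fld A x)]

theorem grad_wp_le (hφ : ContDiff ℝ ∞ φ) (hA : ContDiff ℝ ∞ A)
    (hs : ∀ x, dotProduct (φ x) (φ x) = 1) (hc : IsCritical φ A) (x : ℝ × ℝ) :
    pd1 (wp φ A) x ^ 2 + pd2 (wp φ A) x ^ 2 ≤ 2 * dens φ A x := by
  rw [grad_wp hφ hA hs hc, dens_eq]
  have h1 := Sp_le (A := A) hφ hs x
  have h2 := Sp_nonneg (φ := φ) (A := A) x
  nlinarith [sq_nonneg (φ x 2), sq_nonneg (uu φ x), sq_nonneg (fld A x),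
    mul_nonneg (sq_nonneg (φ x 2)) h2]

theorem grad_wm_le (hφ : ContDiff ℝ ∞ φ) (hA : ContDiff ℝ ∞ A)
    (hs : ∀ x, dotProduct (φ x) (φ x) = 1) (hc : IsCritical φ A) (x : ℝ × ℝ) :
    pd1 (wm φ A) x ^ 2 + pd2 (wm φ A) x ^ 2 ≤ 2 * dens φ A x := by
  rw [grad_wm hφ hA hs hc, dens_eq]
  have h1 := Sm_le (A := A) hφ hs x
  have h2 := Sm_nonneg (φ := φ) (A := A) x
  nlinarith [sq_nonneg (φ x 2), sq_nonneg (uu φ x), sq_nonneg (fld A x),
    mul_nonneg (sq_nonneg (φ x 2)) h2]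

/-- Arbitrarily large circles on which a function controlled by an integrable density is small. -/
theorem circ_small {w e : ℝ × ℝ → ℝ} (hw : ContDiff ℝ ∞ w) (he : Continuous e)
    (hi : Integrable e) (h1 : ∀ x, w x ^ 2 ≤ 2 * e x)
    (h2 : ∀ x, pd1 w x ^ 2 + pd2 w x ^ 2 ≤ 2 * e x) :
    ∀ δ : ℝ, 0 < δ → ∀ R : ℝ, ∃ r, R ≤ r ∧ 0 < r ∧
      ∀ x : ℝ × ℝ, x.1 ^ 2 + x.2 ^ 2 = r ^ 2 → -δ ≤ w x := by
  intro δ hδ R
  obtain ⟨r, hr1, hr0, hr⟩ := good_radius hi (ε := (δ / 6) ^ 2) (by positivity) (max R 1)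
  have hr1' : 1 ≤ r := (le_max_right _ _).trans hr1
  refine ⟨r, (le_max_left _ _).trans hr1, hr0, ?_⟩
  intro x hx
  obtain ⟨θ, hθ, rfl⟩ := exists_angle hr0 hx
  have := circle_sup hw he h1 h2 hr1' (δ := δ / 6) (by positivity) hr (Ioc_subset_Icc_self hθ)
  have := (abs_le.1 this).1
  linarith

/-- `u + F ≥ 0` if `F ≥ 0` at the points where `φ = n`. -/
theorem wp_nonneg (h : IsConfig φ A) (hc : IsCritical φ A)
    (hvac : ∀ x, uu φ x = 0 → 0 ≤ fld A x) (x : ℝ × ℝ) : 0 ≤ wp φ A x := by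
  have hφ := h.smooth_phi
  have hA := h.smooth_A
  have hs := h.sphere
  have e1 : ∀ x, 1 - φ x 2 ^ 2 = 1 - (1 - uu φ x) ^ 2 := fun x => by unfold uu; ring
  have e2 : ∀ x, φ x 2 = 1 - uu φ x := fun x => by unfold uu; ring
  refine nonneg_of_test (u := uu φ) (S := Sp φ A) (cd_wp hφ hA) (cd_uu hφ).continuous
    (uu_nonneg hs) (uu_le hs) Sp_nonneg ?_ ?_ ?_ ?_ x
  · intro x; rw [grad_wp hφ hA hs hc, e1]
  · intro x; rw [lap_wp hφ hA hs hc, e1, e2]
  · intro x hx; unfold wp; rw [hx]; simpa using hvac x hx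
  · exact circ_small (cd_wp hφ hA) (cd_dens hφ hA).continuous h.finite wp_sq_le
      (grad_wp_le hφ hA hs hc)

/-- `u - F ≥ 0` if `F ≤ 0` at the points where `φ = n`. -/
theorem wm_nonneg (h : IsConfig φ A) (hc : IsCritical φ A)
    (hvac : ∀ x, uu φ x = 0 → fld A x ≤ 0) (x : ℝ × ℝ) : 0 ≤ wm φ A x := by
  have hφ := h.smooth_phi
  have hA := h.smooth_A
  have hs := h.sphere
  have e1 : ∀ x, 1 - φ x 2 ^ 2 = 1 - (1 - uu φ x) ^ 2 := fun x => by unfold uu; ring
  have e2 : ∀ x, φ x 2 = 1 - uu φ x := fun x => by unfold uu; ring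
  refine nonneg_of_test (u := uu φ) (S := Sm φ A) (cd_wm hφ hA) (cd_uu hφ).continuous
    (uu_nonneg hs) (uu_le hs) Sm_nonneg ?_ ?_ ?_ ?_ x
  · intro x; rw [grad_wm hφ hA hs hc, e1]
  · intro x; rw [lap_wm hφ hA hs hc, e1, e2]
  · intro x hx; unfold wm; rw [hx]; have := hvac x hx; linarith
  · exact circ_small (cd_wm hφ hA) (cd_dens hφ hA).continuous h.finite wm_sq_le
      (grad_wm_le hφ hA hs hc)

/-- The flux of `T x`. -/
noncomputable def Kf (φ : ℝ × ℝ → Fin 3 → ℝ) (A : ℝ × ℝ → ℝ × ℝ) (r : ℝ) : ℝ :=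
  flux (fun x => T11 φ A x * x.1 + T12 φ A x * x.2) (fun x => T12 φ A x * x.1 + T22 φ A x * x.2) r

theorem pd1_fst : pd1 (fun x : ℝ × ℝ => x.1) = fun _ => 1 := by
  funext x; unfold pd1; rw [hasFDerivAt_fst.fderiv]; simp
theorem pd2_fst : pd2 (fun x : ℝ × ℝ => x.1) = fun _ => 0 := by
  funext x; unfold pd2; rw [hasFDerivAt_fst.fderiv]; simp
theorem pd1_snd : pd1 (fun x : ℝ × ℝ => x.2) = fun _ => 0 := by
  funext x; unfold pd1; rw [hasFDerivAt_snd.fderiv]; simp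
theorem pd2_snd : pd2 (fun x : ℝ × ℝ => x.2) = fun _ => 1 := by
  funext x; unfold pd2; rw [hasFDerivAt_snd.fderiv]; simp

theorem Kf_hasDeriv (hφ : ContDiff ℝ ∞ φ) (hA : ContDiff ℝ ∞ A)
    (hs : ∀ x, dotProduct (φ x) (φ x) = 1) (hc : IsCritical φ A) (r : ℝ) :
    HasDerivAt (Kf φ A) (r * cir (fun x => -(wp φ A x * wm φ A x)) r) r := by
  have c11 := cd_T11 hφ hA
  have c12 := cd_T12 hφ hA
  have c22 := cd_T22 hφ hA
  have f1 : ContDiff ℝ ∞ (fun x : ℝ × ℝ => x.1) := contDiff_fst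
  have f2 : ContDiff ℝ ∞ (fun x : ℝ × ℝ => x.2) := contDiff_snd
  have hY1 : ContDiff ℝ ∞ (fun x : ℝ × ℝ => T11 φ A x * x.1 + T12 φ A x * x.2) :=
    (c11.mul f1).add (c12.mul f2)
  have hY2 : ContDiff ℝ ∞ (fun x : ℝ × ℝ => T12 φ A x * x.1 + T22 φ A x * x.2) :=
    (c12.mul f1).add (c22.mul f2)
  have key := flux_hasDeriv hY1 hY2 r
  have e : (fun x => pd1 (fun x : ℝ × ℝ => T11 φ A x * x.1 + T12 φ A x * x.2) x
      + pd2 (fun x : ℝ × ℝ => T12 φ A x * x.1 + T22 φ A x * x.2) x)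
      = fun x => -(wp φ A x * wm φ A x) := by
    funext x
    have d11 := dd c11
    have d12 := dd c12
    have d22 := dd c22
    have df := dd f1
    have ds := dd f2
    rw [pd1_add (d11.fun_mul df) (d12.fun_mul ds), pd2_add (d12.fun_mul df) (d22.fun_mul ds),
      pd1_mul d11 df, pd1_mul d12 ds, pd2_mul d12 df, pd2_mul d22 ds, pd1_fst, pd2_fst, pd1_snd,
      pd2_snd]
    simp only
    have s1 := stress1 hφ hA hs hc x
    have s2 := stress2 hφ hA hs hc x
    have t : T11 φ A x + T22 φ A x = fld A x ^ 2 - uu φ x ^ 2 := by unfold T11 T22; ring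
    unfold wp wm
    linear_combination x.1 * s1 + x.2 * s2 + t
  rw [e] at key
  exact key

theorem Kf_abs_le (hφ : ContDiff ℝ ∞ φ) (hA : ContDiff ℝ ∞ A) {r : ℝ} :
    |Kf φ A r| ≤ r ^ 2 * cir (dens φ A) r := by
  have hpi := Real.pi_pos
  have cd := cont_cir_int (cd_dens hφ hA).continuous r
  have c11 := cont_cir_int (cd_T11 hφ hA).continuous r
  have c12 := cont_cir_int (cd_T12 hφ hA).continuous r
  have c22 := cont_cir_int (cd_T22 hφ hA).continuous r
  have hb : ∀ θ : ℝ, |r * ((T11 φ A (r * Real.cos θ, r * Real.sin θ) * (r * Real.cos θ)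
      + T12 φ A (r * Real.cos θ, r * Real.sin θ) * (r * Real.sin θ)) * Real.cos θ
      + (T12 φ A (r * Real.cos θ, r * Real.sin θ) * (r * Real.cos θ)
      + T22 φ A (r * Real.cos θ, r * Real.sin θ) * (r * Real.sin θ)) * Real.sin θ)|
      ≤ r ^ 2 * dens φ A (r * Real.cos θ, r * Real.sin θ) := by
    intro θ
    have hsc := Real.sin_sq_add_cos_sq θ
    rw [dens_eq]
    unfold T11 T12 T22 ee
    generalize (r * Real.cos θ, r * Real.sin θ) = x
    have hD : |dotProduct (cov1 A φ x) (cov2 A φ x)|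
        ≤ (dotProduct (cov1 A φ x) (cov1 A φ x) + dotProduct (cov2 A φ x) (cov2 A φ x)) / 2 := by
      have h1 := dot_self_nonneg' (cov1 A φ x - cov2 A φ x)
      have h2 := dot_self_nonneg' (cov1 A φ x + cov2 A φ x)
      rw [dot3] at h1 h2
      simp only [Pi.sub_apply, Pi.add_apply] at h1 h2
      rw [abs_le, dot3, dot3, dot3]
      constructor <;> nlinarith
    have ha := dot_self_nonneg' (cov1 A φ x)
    have hb := dot_self_nonneg' (cov2 A φ x)
    set a := dotProduct (cov1 A φ x) (cov1 A φ x)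
    set b := dotProduct (cov2 A φ x) (cov2 A φ x)
    set d := dotProduct (cov1 A φ x) (cov2 A φ x)
    set F := fld A x
    set u := uu φ x
    set s := Real.sin θ
    set c := Real.cos θ
    have e : r * (((1 / 2 * (a - b) + 1 / 2 * (F ^ 2 - u ^ 2)) * (r * c) + d * (r * s)) * c
        + (d * (r * c) + (-(1 / 2) * (a - b) + 1 / 2 * (F ^ 2 - u ^ 2)) * (r * s)) * s)
        = r ^ 2 * (1 / 2 * (a - b) * (c ^ 2 - s ^ 2) + d * (2 * s * c)
          + 1 / 2 * (F ^ 2 - u ^ 2) * (s ^ 2 + c ^ 2)) := by ring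
    rw [e, hsc, abs_mul, abs_of_nonneg (sq_nonneg r)]
    apply mul_le_mul_of_nonneg_left _ (sq_nonneg r)
    have hc2 : |c ^ 2 - s ^ 2| ≤ 1 := by
      rw [abs_le]; constructor <;> nlinarith [sq_nonneg s, sq_nonneg c]
    have hs2 : |2 * s * c| ≤ 1 := by
      rw [abs_le]; constructor <;> nlinarith [sq_nonneg (s - c), sq_nonneg (s + c)]
    have t1 : |1 / 2 * (a - b) * (c ^ 2 - s ^ 2)| ≤ (a + b) / 2 := by
      rw [abs_mul]
      have : |1 / 2 * (a - b)| ≤ (a + b) / 2 := by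
        rw [abs_le]; constructor <;> linarith
      calc _ ≤ (a + b) / 2 * 1 := mul_le_mul this hc2 (abs_nonneg _) (by positivity)
        _ = _ := by ring
    have t2 : |d * (2 * s * c)| ≤ (a + b) / 2 := by
      rw [abs_mul]
      calc _ ≤ (a + b) / 2 * 1 := mul_le_mul hD hs2 (abs_nonneg _) (by positivity)
        _ = _ := by ring
    have t3 : |1 / 2 * (F ^ 2 - u ^ 2) * 1| ≤ u ^ 2 + F ^ 2 := by
      rw [abs_le]; constructor <;> nlinarith [sq_nonneg F, sq_nonneg u]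
    calc _ ≤ |1 / 2 * (a - b) * (c ^ 2 - s ^ 2) + d * (2 * s * c)|
          + |1 / 2 * (F ^ 2 - u ^ 2) * 1| := abs_add_le _ _
      _ ≤ (|1 / 2 * (a - b) * (c ^ 2 - s ^ 2)| + |d * (2 * s * c)|)
          + |1 / 2 * (F ^ 2 - u ^ 2) * 1| := by gcongr; exact abs_add_le _ _
      _ ≤ _ := by linarith
  have hcont : Continuous (fun θ : ℝ => r * ((T11 φ A (r * Real.cos θ, r * Real.sin θ)
      * (r * Real.cos θ) + T12 φ A (r * Real.cos θ, r * Real.sin θ) * (r * Real.sin θ))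
      * Real.cos θ + (T12 φ A (r * Real.cos θ, r * Real.sin θ) * (r * Real.cos θ)
      + T22 φ A (r * Real.cos θ, r * Real.sin θ) * (r * Real.sin θ)) * Real.sin θ)) := by
    fun_prop
  unfold Kf flux cir
  rw [← intervalIntegral.integral_const_mul]
  calc _ ≤ ∫ θ in (-π)..π, |r * ((T11 φ A (r * Real.cos θ, r * Real.sin θ)
      * (r * Real.cos θ) + T12 φ A (r * Real.cos θ, r * Real.sin θ) * (r * Real.sin θ))
      * Real.cos θ + (T12 φ A (r * Real.cos θ, r * Real.sin θ) * (r * Real.cos θ)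
      + T22 φ A (r * Real.cos θ, r * Real.sin θ) * (r * Real.sin θ)) * Real.sin θ)| :=
        intervalIntegral.abs_integral_le_integral_abs (by linarith)
    _ ≤ _ := int_mono hcont.abs (by fun_prop) hb

/-- If a nonnegative continuous function has zero circle integral it vanishes on the circle. -/
theorem zero_of_cir {g : ℝ × ℝ → ℝ} (hg : Continuous g) (h0 : ∀ x, 0 ≤ g x) {r : ℝ} (hr : 0 < r)
    (hz : cir g r = 0) {x : ℝ × ℝ} (hx : x.1 ^ 2 + x.2 ^ 2 = r ^ 2) : g x = 0 := by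
  obtain ⟨θ, hθ, rfl⟩ := exists_angle hr hx
  by_contra hne
  have hpos : 0 < g (r * Real.cos θ, r * Real.sin θ) := lt_of_le_of_ne (h0 _) (Ne.symm hne)
  have : 0 < cir g r := by
    unfold cir
    apply intervalIntegral.integral_pos (by linarith [Real.pi_pos])
      (cont_cir_int hg r).continuousOn (fun t _ => h0 _)
    exact ⟨θ, Ioc_subset_Icc_self hθ, hpos⟩
  linarith

/-- Virial identity. -/
theorem virial (h : IsConfig φ A) (hc : IsCritical φ A) (hg : ∀ x, 0 ≤ wp φ A x * wm φ A x)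
    (x : ℝ × ℝ) : wp φ A x * wm φ A x = 0 := by
  have hφ := h.smooth_phi
  have hA := h.smooth_A
  have hs := h.sphere
  have cg : Continuous (fun x => wp φ A x * wm φ A x) :=
    ((cd_wp hφ hA).mul (cd_wm hφ hA)).continuous
  have cgn : Continuous (fun x => -(wp φ A x * wm φ A x)) := cg.neg
  have hder := Kf_hasDeriv hφ hA hs hc
  have hK0 : Kf φ A 0 = 0 := flux_zero _ _
  have hneg : ∀ r, 0 ≤ r → r * cir (fun x => -(wp φ A x * wm φ A x)) r ≤ 0 := by
    intro r hr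
    have : cir (fun x => -(wp φ A x * wm φ A x)) r = -cir (fun x => wp φ A x * wm φ A x) r := by
      have := cir_cmul (fun x => wp φ A x * wm φ A x) (-1) r
      simpa using this
    rw [this]
    have h2 := cir_nonneg hg r
    nlinarith
  have hanti : AntitoneOn (Kf φ A) (Ici 0) := by
    apply antitoneOn_of_deriv_nonpos (convex_Ici 0)
    · exact fun r _ => (hder r).continuousAt.continuousWithinAt
    · exact fun r _ => (hder r).differentiableAt.differentiableWithinAt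
    · intro r hr
      rw [interior_Ici] at hr
      rw [(hder r).deriv]
      exact hneg r (le_of_lt hr)
  have hzero : ∀ r, 0 ≤ r → Kf φ A r = 0 := by
    intro r hr
    apply le_antisymm
    · rw [← hK0]; exact hanti (mem_Ici.2 le_rfl) (mem_Ici.2 hr) hr
    · by_contra hlt
      push Not at hlt
      obtain ⟨R, hR1, hR0, hR⟩ := good_radius h.finite (ε := -Kf φ A r / 2) (by linarith) r
      have h1 := hanti (mem_Ici.2 hr) (mem_Ici.2 hR0.le) hR1
      have h2 := (abs_le.1 (Kf_abs_le (φ := φ) (A := A) hφ hA (r := R))).1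
      linarith
  have hcz : ∀ r, 0 < r → cir (fun x => wp φ A x * wm φ A x) r = 0 := by
    intro r hr
    have h1 : HasDerivAt (Kf φ A) 0 r := by
      have : Kf φ A =ᶠ[𝓝 r] fun _ => 0 := by
        filter_upwards [Ioi_mem_nhds hr] with s hs
        exact hzero s (le_of_lt hs)
      exact (hasDerivAt_const r (0 : ℝ)).congr_of_eventuallyEq this
    have h2 := (hder r).unique h1
    have : cir (fun x => -(wp φ A x * wm φ A x)) r = -cir (fun x => wp φ A x * wm φ A x) r := by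
      have := cir_cmul (fun x => wp φ A x * wm φ A x) (-1) r
      simpa using this
    rw [this] at h2
    have h3 : r * cir (fun x => wp φ A x * wm φ A x) r = 0 := by linarith
    rcases mul_eq_zero.1 h3 with h4 | h4
    · linarith
    · exact h4
  have hall : ∀ y : ℝ × ℝ, y ≠ 0 → wp φ A y * wm φ A y = 0 := by
    intro y hy
    have hpos : 0 < y.1 ^ 2 + y.2 ^ 2 := by
      rcases eq_or_ne y.1 0 with h1 | h1
      · have h2 : y.2 ≠ 0 := by
          intro h2; exact hy (Prod.ext h1 h2)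
        positivity
      · positivity
    have hr : 0 < Real.sqrt (y.1 ^ 2 + y.2 ^ 2) := Real.sqrt_pos.2 hpos
    exact zero_of_cir cg hg hr (hcz _ hr) (by rw [Real.sq_sqrt hpos.le])
  rcases eq_or_ne x 0 with h0 | h0
  · subst h0
    -- by continuity along (1/n, 0)
    have hlim : Tendsto (fun t : ℝ => wp φ A (t, 0) * wm φ A (t, 0)) (𝓝[≠] 0)
        (𝓝 (wp φ A (0, 0) * wm φ A (0, 0))) := by
      have hc1 : Continuous (fun t : ℝ => wp φ A (t, 0) * wm φ A (t, 0)) :=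
        cg.comp (by fun_prop : Continuous fun t : ℝ => ((t, 0) : ℝ × ℝ))
      exact (hc1.tendsto 0).mono_left nhdsWithin_le_nhds
    have hev : (fun t : ℝ => wp φ A (t, 0) * wm φ A (t, 0)) =ᶠ[𝓝[≠] 0] fun _ => 0 := by
      filter_upwards [self_mem_nhdsWithin] with t ht
      exact hall _ (by
        intro hh
        exact ht (congrArg Prod.fst hh))
    have := tendsto_nhds_unique hlim (tendsto_const_nhds.congr' hev.symm)
    exact this
  · exact hall x h0

end Run7.h887
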